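import Pool.Agent.Helper5.RM.GEO

/-!
# Block RM-LS1: Gram bound (dual large sieve, trivial form)

Proof. Expand the square and exchange: the left side is
`∑_{l, l' ∈ Lam} x l * conj (x l') * ∑_{m ≤ Y} e (m (l - l') α)`, at most
`∑_{l ∈ Lam} ∑_{l' ∈ Lam} mn Y ((l - l') α)` (`geo` with `a = 1`, `M = Y`, `e_neg` for the sign). For given `l` the
differences `l - l'` lie in `(-H, H)` and each value occurs at most once, so the inner sum is at most
`Y + 2 ∑_{1 ≤ j < H} mn Y (j α)` (`mn_neg`). Finally `#Lam ≤ H`.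
-/

set_option autoImplicit false

namespace Pool.Agent.Helper5.RM

open Finset

private lemma LS1_one_side (A : Finset ℕ) (H Y : ℕ) (α : ℝ) (d : ℕ → ℕ)
    (hinj : Set.InjOn d A) (hd : ∀ l ∈ A, 1 ≤ d l ∧ d l < H) :
    ∑ l ∈ A, mn Y ((d l : ℝ) * α) ≤ ∑ j ∈ Finset.Ico 1 H, mn Y (j * α) := by
  have h1 : ∑ l ∈ A, mn Y ((d l : ℝ) * α) = ∑ j ∈ A.image d, mn Y ((j : ℝ) * α) := by
    rw [Finset.sum_image hinj]
  rw [h1]
  refine Finset.sum_le_sum_of_subset_of_nonneg ?_ (fun j _ _ => mn_nonneg (Nat.cast_nonneg _) _)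
  intro j hj
  obtain ⟨l, hl, rfl⟩ := Finset.mem_image.1 hj
  exact Finset.mem_Ico.2 (hd l hl)

private lemma LS1_inner (Lam : Finset ℕ) (H Y : ℕ) (hLam : ∀ l ∈ Lam, H ≤ l ∧ l < 2 * H)
    (α : ℝ) (l : ℕ) (hl : l ∈ Lam) :
    ∑ l' ∈ Lam, mn Y (((l : ℝ) - l') * α) ≤ Y + 2 * ∑ j ∈ Finset.Ico 1 H, mn Y (j * α) := by
  classical
  have hH := hLam l hl
  rw [← Finset.sum_filter_add_sum_filter_not Lam (fun l' => l' < l)]
  rw [← Finset.sum_filter_add_sum_filter_not (Lam.filter (fun l' => ¬ l' < l)) (fun l' => l < l')]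
  have h1 : ∑ l' ∈ Lam.filter (fun l' => l' < l), mn Y (((l : ℝ) - l') * α) ≤
      ∑ j ∈ Finset.Ico 1 H, mn Y (j * α) := by
    refine le_trans (le_of_eq ?_) (LS1_one_side (Lam.filter (fun l' => l' < l)) H Y α
      (fun l' => l - l') ?_ ?_)
    · refine Finset.sum_congr rfl (fun l' hl' => ?_)
      have h2 := (Finset.mem_filter.1 hl').2
      rw [Nat.cast_sub h2.le]
    · intro a ha b hb hab
      have h2 := (Finset.mem_filter.1 (Finset.mem_coe.1 ha)).2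
      have h3 := (Finset.mem_filter.1 (Finset.mem_coe.1 hb)).2
      simp only at hab
      omega
    · intro l' hl'
      have h2 := Finset.mem_filter.1 hl'
      have h3 := hLam l' h2.1
      have h4 := h2.2
      constructor <;> omega
  have h2 : ∑ l' ∈ (Lam.filter (fun l' => ¬ l' < l)).filter (fun l' => l < l'),
      mn Y (((l : ℝ) - l') * α) ≤ ∑ j ∈ Finset.Ico 1 H, mn Y (j * α) := by
    refine le_trans (le_of_eq ?_) (LS1_one_side
      ((Lam.filter (fun l' => ¬ l' < l)).filter (fun l' => l < l')) H Y α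
      (fun l' => l' - l) ?_ ?_)
    · refine Finset.sum_congr rfl (fun l' hl' => ?_)
      have h2 := (Finset.mem_filter.1 hl').2
      rw [Nat.cast_sub h2.le, ← mn_neg]
      congr 1
      ring
    · intro a ha b hb hab
      have h2 := (Finset.mem_filter.1 (Finset.mem_coe.1 ha)).2
      have h3 := (Finset.mem_filter.1 (Finset.mem_coe.1 hb)).2
      simp only at hab
      omega
    · intro l' hl'
      have h2 := Finset.mem_filter.1 hl'
      have h3 := hLam l' (Finset.mem_filter.1 h2.1).1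
      have h4 := h2.2
      constructor <;> omega
  have h3 : ∑ l' ∈ (Lam.filter (fun l' => ¬ l' < l)).filter (fun l' => ¬ l < l'),
      mn Y (((l : ℝ) - l') * α) ≤ Y := by
    have h4 : (Lam.filter (fun l' => ¬ l' < l)).filter (fun l' => ¬ l < l') ⊆ {l} := by
      intro l' hl'
      have h5 := Finset.mem_filter.1 hl'
      have h6 := (Finset.mem_filter.1 h5.1).2
      have h7 := h5.2
      rw [Finset.mem_singleton]
      omega
    refine (Finset.sum_le_sum_of_subset_of_nonneg h4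
      (fun j _ _ => mn_nonneg (Nat.cast_nonneg _) _)).trans ?_
    rw [Finset.sum_singleton]
    exact mn_le _
  linarith

theorem gram (Lam : Finset ℕ) (H Y : ℕ) (hH : 1 ≤ H) (hLam : ∀ l ∈ Lam, H ≤ l ∧ l < 2 * H)
    (x : ℕ → ℂ) (hx : ∀ l, ‖x l‖ ≤ 1) (α : ℝ) :
    ∑ m ∈ Finset.Icc 1 Y, ‖∑ l ∈ Lam, x l * e (l * m * α)‖ ^ 2 ≤
      H * (Y + 2 * ∑ j ∈ Finset.Ico 1 H, mn Y (j * α)) := by
  have h1 : ((∑ m ∈ Finset.Icc 1 Y, ‖∑ l ∈ Lam, x l * e (l * m * α)‖ ^ 2 : ℝ) : ℂ) =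
      ∑ l ∈ Lam, ∑ l' ∈ Lam, x l * (starRingEnd ℂ) (x l') *
        ∑ m ∈ Finset.Icc 1 Y, e (m * (((l : ℝ) - l') * α)) := by
    push_cast
    calc ∑ m ∈ Finset.Icc 1 Y, ((‖∑ l ∈ Lam, x l * e (l * m * α)‖ : ℝ) : ℂ) ^ 2
        = ∑ m ∈ Finset.Icc 1 Y, ∑ l ∈ Lam, ∑ l' ∈ Lam, x l * (starRingEnd ℂ) (x l') *
            e (m * (((l : ℝ) - l') * α)) := by
          refine Finset.sum_congr rfl (fun m _ => ?_)
          rw [← Complex.mul_conj', map_sum, Finset.sum_mul_sum]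
          refine Finset.sum_congr rfl (fun l _ => Finset.sum_congr rfl (fun l' _ => ?_))
          rw [map_mul, ← e_neg]
          have h2 : e (m * (((l : ℝ) - l') * α)) = e (l * m * α) * e (-(l' * m * α)) := by
            rw [← e_add]
            congr 1
            ring
          rw [h2]
          ring
      _ = ∑ l ∈ Lam, ∑ m ∈ Finset.Icc 1 Y, ∑ l' ∈ Lam, x l * (starRingEnd ℂ) (x l') *
            e (m * (((l : ℝ) - l') * α)) := by rw [Finset.sum_comm]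
      _ = _ := by
          refine Finset.sum_congr rfl (fun l _ => ?_)
          rw [Finset.sum_comm]
          refine Finset.sum_congr rfl (fun l' _ => ?_)
          rw [Finset.mul_sum]
  have h2 : ∑ m ∈ Finset.Icc 1 Y, ‖∑ l ∈ Lam, x l * e (l * m * α)‖ ^ 2 =
      ‖((∑ m ∈ Finset.Icc 1 Y, ‖∑ l ∈ Lam, x l * e (l * m * α)‖ ^ 2 : ℝ) : ℂ)‖ := by
    rw [Complex.norm_real, Real.norm_of_nonneg (Finset.sum_nonneg (fun m _ => by positivity))]
  rw [h2, h1]
  have h3 : ∀ l ∈ Lam, ‖∑ l' ∈ Lam, x l * (starRingEnd ℂ) (x l') *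
        ∑ m ∈ Finset.Icc 1 Y, e (m * (((l : ℝ) - l') * α))‖ ≤
      Y + 2 * ∑ j ∈ Finset.Ico 1 H, mn Y (j * α) := by
    intro l hl
    refine (norm_sum_le _ _).trans (le_trans (Finset.sum_le_sum (fun l' _ => ?_))
      (LS1_inner Lam H Y hLam α l hl))
    rw [norm_mul, norm_mul, Complex.norm_conj]
    have h4 : ‖∑ m ∈ Finset.Icc 1 Y, e (m * (((l : ℝ) - l') * α))‖ ≤ mn Y (((l : ℝ) - l') * α) :=
      geo 1 Y Y _ (Nat.cast_nonneg _) (by push_cast; linarith)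
    have h5 : ‖x l‖ * ‖x l'‖ ≤ 1 := mul_le_one₀ (hx l) (norm_nonneg _) (hx l')
    calc ‖x l‖ * ‖x l'‖ * ‖∑ m ∈ Finset.Icc 1 Y, e (m * (((l : ℝ) - l') * α))‖
        ≤ 1 * mn Y (((l : ℝ) - l') * α) := by gcongr
      _ = _ := one_mul _
  have hnn : (0 : ℝ) ≤ Y + 2 * ∑ j ∈ Finset.Ico 1 H, mn Y (j * α) := by
    have : 0 ≤ ∑ j ∈ Finset.Ico 1 H, mn Y (j * α) :=
      Finset.sum_nonneg (fun j _ => mn_nonneg (Nat.cast_nonneg _) _)
    positivity
  have hcard : (Lam.card : ℝ) ≤ H := by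
    have h4 : Lam ⊆ Finset.Ico H (2 * H) := fun l hl => Finset.mem_Ico.2 (hLam l hl)
    have h5 := Finset.card_le_card h4
    rw [Nat.card_Ico] at h5
    have h6 : Lam.card ≤ H := by omega
    exact_mod_cast h6
  calc ‖∑ l ∈ Lam, ∑ l' ∈ Lam, x l * (starRingEnd ℂ) (x l') *
        ∑ m ∈ Finset.Icc 1 Y, e (m * (((l : ℝ) - l') * α))‖
      ≤ ∑ l ∈ Lam, (Y + 2 * ∑ j ∈ Finset.Ico 1 H, mn Y (j * α)) :=
        (norm_sum_le _ _).trans (Finset.sum_le_sum h3)
    _ = Lam.card * (Y + 2 * ∑ j ∈ Finset.Ico 1 H, mn Y (j * α)) := by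
        rw [Finset.sum_const, nsmul_eq_mul]
    _ ≤ _ := mul_le_mul_of_nonneg_right hcard hnn

end Pool.Agent.Helper5.RM
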