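import Pool.Agent.Helper5.RM.HC3

/-!
# Block RM-HC4: hypercontractivity for sums over squarefree integers, and the second moment

Proof. `hyper` with `A U = ∑_{n ∈ s, n.primeFactors = U} c n`, for squarefree `n` this has at most one term
(`n = ∏ p ∈ n.primeFactors, p`, `Nat.prod_primeFactors_of_squarefree`), so
`∑_U (2k-1)^|U| ‖A U‖^2 = ∑_{n ∈ s} (2k-1)^(om n) ‖c n‖^2`. `second` is the case `k = 1` with
`s = {n ≤ N squarefree}`, `c n = e (n x)` (terms with `n` not squarefree vanish: `rf_not`).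
-/

set_option autoImplicit false

namespace Pool.Agent.Helper5.RM

open Finset

theorem hyper_sqf (k : ℕ) (hk : 1 ≤ k) (S : Finset ℕ) (s : Finset ℕ)
    (hs : ∀ n ∈ s, Squarefree n ∧ n.primeFactors ⊆ S) (c : ℕ → ℂ) :
    av S (fun T => ‖∑ n ∈ s, (rf T n : ℂ) * c n‖ ^ (2 * k)) ≤
      (∑ n ∈ s, (2 * (k : ℝ) - 1) ^ om n * ‖c n‖ ^ 2) ^ k := by
  have hmaps : ∀ n ∈ s, n.primeFactors ∈ S.powerset := fun n hn => Finset.mem_powerset.2 (hs n hn).2
  have h1 := hyper k hk S (fun U => ∑ n ∈ s.filter (fun n => n.primeFactors = U), c n)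
  have e1 : ∀ T : Finset ℕ, ∑ U ∈ S.powerset, (∑ n ∈ s.filter (fun n => n.primeFactors = U), c n) * (wal T U : ℂ) =
      ∑ n ∈ s, (rf T n : ℂ) * c n := by
    intro T
    rw [← Finset.sum_fiberwise_of_maps_to hmaps (fun n => (rf T n : ℂ) * c n)]
    refine Finset.sum_congr rfl fun U _ => ?_
    rw [Finset.sum_mul]
    refine Finset.sum_congr rfl fun n hn => ?_
    rw [Finset.mem_filter] at hn
    rw [rf_sqf (hs n hn.1).1, hn.2, mul_comm]
  have e2 : ∑ U ∈ S.powerset, (2 * (k : ℝ) - 1) ^ U.card *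
        ‖∑ n ∈ s.filter (fun n => n.primeFactors = U), c n‖ ^ 2 =
      ∑ n ∈ s, (2 * (k : ℝ) - 1) ^ om n * ‖c n‖ ^ 2 := by
    rw [← Finset.sum_fiberwise_of_maps_to hmaps (fun n => (2 * (k : ℝ) - 1) ^ om n * ‖c n‖ ^ 2)]
    refine Finset.sum_congr rfl fun U _ => ?_
    rcases (s.filter (fun n => n.primeFactors = U)).eq_empty_or_nonempty with h | ⟨m, hm⟩
    · rw [h]
      simp
    · have h : s.filter (fun n => n.primeFactors = U) = {m} := by
        rw [Finset.eq_singleton_iff_unique_mem]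
        refine ⟨hm, fun n hn => ?_⟩
        rw [Finset.mem_filter] at hm hn
        rw [← Nat.prod_primeFactors_of_squarefree (hs n hn.1).1, ← Nat.prod_primeFactors_of_squarefree (hs m hm.1).1,
          hn.2, hm.2]
      rw [h, Finset.sum_singleton, Finset.sum_singleton]
      rw [Finset.mem_filter] at hm
      rw [om, hm.2]
  simp only [e1, e2] at h1
  exact h1

theorem second (N : ℕ) (x : ℝ) : av (PP N) (fun T => ‖SN N T x‖ ^ 2) ≤ N := by
  have h1 := hyper_sqf 1 le_rfl (PP N) ((Finset.Icc 1 N).filter Squarefree) (fun n hn => by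
    rw [Finset.mem_filter, Finset.mem_Icc] at hn
    exact ⟨hn.2, primeFactors_subset_PP hn.1.2⟩) (fun n => e (n * x))
  have e1 : ∀ T : Finset ℕ, ∑ n ∈ (Finset.Icc 1 N).filter Squarefree, (rf T n : ℂ) * e (n * x) = SN N T x := by
    intro T
    unfold SN
    rw [Finset.sum_filter]
    refine Finset.sum_congr rfl fun n _ => ?_
    split_ifs with h
    · rfl
    · rw [rf_not h]
      simp
  simp only [e1, mul_one, pow_one] at h1
  refine h1.trans ?_
  have h2 : ∀ n ∈ (Finset.Icc 1 N).filter Squarefree,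
      (2 * ((1 : ℕ) : ℝ) - 1) ^ om n * ‖e (n * x)‖ ^ 2 = 1 := by
    intro n _
    rw [norm_e]
    norm_num
  rw [Finset.sum_congr rfl h2, Finset.sum_const, nsmul_eq_mul, mul_one]
  have h3 : ((Finset.Icc 1 N).filter Squarefree).card ≤ N := by
    refine (Finset.card_filter_le _ _).trans ?_
    simp
  exact_mod_cast h3

end Pool.Agent.Helper5.RM
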