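import Pool.Agent.Helper5.RM.Defs

/-!
# Block RM-LG5: sums of `w ^ (number of prime factors)`

Proof. `omega_inv`: induction on `w`. `w = 0`: only `n = 1` contributes. Step: for squarefree `n`,
`(w+1)^(om n) = ∑_{d ∣ n} w^(om d)` (binomial theorem over subsets of `n.primeFactors`:
`Finset.prod_add_one` or `Finset.sum_pow_mul_eq_add_pow`, divisors of a squarefree number as products of subsets,
`Nat.sum_divisors_filter_squarefree` or `Nat.divisors_filter_squarefree`), so with `n = d m`: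
`∑_n (w+1)^(om n)/n ≤ (∑_{d sqf} w^(om d)/d) * (∑_{m ≤ X} 1/m)`.
`omega_sum`: `1 ≤ X / n`. `omega_pairs`: the sum is at most
`2 ∑_{a} w^(om a)/a^2 ∑_{b ≤ a} w^(om b) ≤ 2 ∑_a w^(om a)/a * ∑_{b ≤ a} w^(om b)/b`
(as `w^(om b) ≤ a w^(om b)/b`), which is at most `2 (1 + log Y)^w (1 + log Y)^w`. Sums over squarefree numbers.
-/

set_option autoImplicit false

namespace Pool.Agent.Helper5.RM

open Finset

private theorem LG5_om_prod {n : ℕ} {t : Finset ℕ} (ht : t ⊆ n.primeFactors) :
    om (t.val.prod) = t.card := by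
  have h : t.val.prod = ∏ p ∈ t, p := by
    rw [Finset.prod_val]
    rfl
  rw [om, h, Nat.primeFactors_prod (fun p hp => Nat.prime_of_mem_primeFactors (ht hp))]

private theorem LG5_ident (w n : ℕ) (hn : Squarefree n) :
    ((w + 1 : ℕ) : ℝ) ^ om n = ∑ x ∈ n.divisorsAntidiagonal, (w : ℝ) ^ om x.1 := by
  rw [Nat.sum_divisorsAntidiagonal (f := fun d _ => (w : ℝ) ^ om d),
    ← Nat.divisors_filter_squarefree_of_squarefree hn,
    Nat.sum_divisors_filter_squarefree hn.ne_zero]
  have hf : (UniqueFactorizationMonoid.normalizedFactors n).toFinset = n.primeFactors := by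
    rw [Nat.factors_eq]
    rfl
  rw [hf]
  have h1 : ∀ t ∈ n.primeFactors.powerset, (w : ℝ) ^ om (t.val.prod) =
      (w : ℝ) ^ t.card * 1 ^ (n.primeFactors.card - t.card) := by
    intro t ht
    rw [LG5_om_prod (Finset.mem_powerset.mp ht), one_pow, mul_one]
  rw [Finset.sum_congr rfl h1, Finset.sum_pow_mul_eq_add_pow]
  push_cast
  rfl

private theorem LG5_harm (X : ℕ) :
    ∑ m ∈ Finset.Icc 1 X, (1 : ℝ) / m ≤ 1 + Real.log X := by
  have h := harmonic_le_one_add_log X
  rw [harmonic_eq_sum_Icc] at h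
  push_cast at h
  simpa [one_div] using h

theorem omega_inv (w X : ℕ) (hX : 1 ≤ X) :
    ∑ n ∈ (Finset.Icc 1 X).filter Squarefree, (w : ℝ) ^ om n / n ≤ (1 + Real.log X) ^ w := by
  have hlog : 0 ≤ Real.log X := Real.log_natCast_nonneg X
  induction w with
  | zero =>
    have h1 : (1 : ℕ) ∈ (Finset.Icc 1 X).filter Squarefree := by
      rw [Finset.mem_filter, Finset.mem_Icc]
      exact ⟨⟨le_rfl, hX⟩, squarefree_one⟩
    rw [Finset.sum_eq_single_of_mem 1 h1]
    · simp [om]
    · intro n hn hne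
      rw [Finset.mem_filter, Finset.mem_Icc] at hn
      have : om n ≠ 0 := by
        rw [om]
        intro h0
        rw [Finset.card_eq_zero, Nat.primeFactors_eq_empty] at h0
        omega
      rw [Nat.cast_zero, zero_pow this, zero_div]
  | succ w ih =>
    have h1 : ∑ n ∈ (Finset.Icc 1 X).filter Squarefree, ((w + 1 : ℕ) : ℝ) ^ om n / n =
        ∑ x ∈ ((Finset.Icc 1 X).filter Squarefree).sigma (fun n => n.divisorsAntidiagonal),
          ((w : ℝ) ^ om x.2.1 / x.2.1) * (1 / (x.2.2 : ℝ)) := by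
      rw [Finset.sum_sigma]
      apply Finset.sum_congr rfl
      intro n hn
      rw [Finset.mem_filter, Finset.mem_Icc] at hn
      rw [LG5_ident w n hn.2, Finset.sum_div]
      apply Finset.sum_congr rfl
      intro x hx
      rw [Nat.mem_divisorsAntidiagonal] at hx
      have hx1 : (x.1 : ℝ) ≠ 0 := by
        have : x.1 ≠ 0 := by
          intro h
          rw [h, zero_mul] at hx
          exact hx.2 hx.1.symm
        exact_mod_cast this
      have hx2 : (x.2 : ℝ) ≠ 0 := by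
        have : x.2 ≠ 0 := by
          intro h
          rw [h, mul_zero] at hx
          exact hx.2 hx.1.symm
        exact_mod_cast this
      rw [← hx.1]
      push_cast
      field_simp
    have h2 : ∑ x ∈ ((Finset.Icc 1 X).filter Squarefree).sigma (fun n => n.divisorsAntidiagonal),
          ((w : ℝ) ^ om x.2.1 / x.2.1) * (1 / (x.2.2 : ℝ)) ≤
        ∑ y ∈ ((Finset.Icc 1 X).filter Squarefree) ×ˢ (Finset.Icc 1 X),
          ((w : ℝ) ^ om y.1 / y.1) * (1 / (y.2 : ℝ)) := by
      have hinj : Set.InjOn (fun x : (Σ _ : ℕ, ℕ × ℕ) => x.2)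
          (((Finset.Icc 1 X).filter Squarefree).sigma (fun n => n.divisorsAntidiagonal) :
            Set (Σ _ : ℕ, ℕ × ℕ)) := by
        rintro ⟨n, a⟩ hx ⟨m, b⟩ hy hxy
        simp only [Finset.coe_sigma, Set.mem_sigma_iff, Finset.mem_coe,
          Nat.mem_divisorsAntidiagonal] at hx hy hxy
        subst hxy
        have : n = m := by rw [← hx.2.1, ← hy.2.1]
        subst this
        rfl
      rw [← Finset.sum_image (f := fun y : ℕ × ℕ => ((w : ℝ) ^ om y.1 / y.1) * (1 / (y.2 : ℝ)))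
        hinj]
      apply Finset.sum_le_sum_of_subset_of_nonneg
      · intro y hy
        rw [Finset.mem_image] at hy
        obtain ⟨⟨n, a⟩, hx, rfl⟩ := hy
        rw [Finset.mem_sigma, Finset.mem_filter, Finset.mem_Icc, Nat.mem_divisorsAntidiagonal] at hx
        obtain ⟨⟨⟨hn1, hnX⟩, hsq⟩, hmul, hne⟩ := hx
        simp only at hn1 hnX hsq hmul hne ⊢
        have ha1 : 1 ≤ a.1 := by
          rcases Nat.eq_zero_or_pos a.1 with h | h
          · rw [h, zero_mul] at hmul; omega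
          · exact h
        have ha2 : 1 ≤ a.2 := by
          rcases Nat.eq_zero_or_pos a.2 with h | h
          · rw [h, mul_zero] at hmul; omega
          · exact h
        rw [Finset.mem_product, Finset.mem_filter, Finset.mem_Icc, Finset.mem_Icc]
        refine ⟨⟨⟨ha1, ?_⟩, ?_⟩, ⟨ha2, ?_⟩⟩
        · calc a.1 ≤ a.1 * a.2 := Nat.le_mul_of_pos_right _ ha2
            _ ≤ X := by rw [hmul]; exact hnX
        · exact hsq.squarefree_of_dvd ⟨a.2, hmul.symm⟩
        · calc a.2 ≤ a.1 * a.2 := Nat.le_mul_of_pos_left _ ha1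
            _ ≤ X := by rw [hmul]; exact hnX
      · intro y _ _
        positivity
    rw [h1]
    refine h2.trans ?_
    rw [Finset.sum_product]
    have h3 : ∑ a ∈ (Finset.Icc 1 X).filter Squarefree, ∑ b ∈ Finset.Icc 1 X,
        ((w : ℝ) ^ om a / a) * (1 / (b : ℝ)) =
        (∑ a ∈ (Finset.Icc 1 X).filter Squarefree, (w : ℝ) ^ om a / a) *
          ∑ b ∈ Finset.Icc 1 X, (1 : ℝ) / b := by
      rw [Finset.sum_mul_sum]
    rw [h3, pow_succ]
    apply mul_le_mul ih (LG5_harm X)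
    · apply Finset.sum_nonneg
      intro b _
      positivity
    · positivity

theorem omega_sum (w X : ℕ) (hX : 1 ≤ X) :
    ∑ n ∈ (Finset.Icc 1 X).filter Squarefree, (w : ℝ) ^ om n ≤ X * (1 + Real.log X) ^ w := by
  have h := mul_le_mul_of_nonneg_left (omega_inv w X hX) (Nat.cast_nonneg (α := ℝ) X)
  refine le_trans ?_ h
  rw [Finset.mul_sum]
  apply Finset.sum_le_sum
  intro n hn
  rw [Finset.mem_filter, Finset.mem_Icc] at hn
  have hn1 : (0 : ℝ) < n := by exact_mod_cast hn.1.1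
  have hnX : (n : ℝ) ≤ X := by exact_mod_cast hn.1.2
  have hp : (0 : ℝ) ≤ (w : ℝ) ^ om n := by positivity
  rw [mul_div_assoc', le_div_iff₀ hn1]
  nlinarith [mul_le_mul_of_nonneg_left hnX hp]

theorem omega_pairs (w Y : ℕ) (hY : 1 ≤ Y) :
    ∑ q ∈ cp Y, (w : ℝ) ^ (om q.1 + om q.2) / ((max q.1 q.2 : ℕ) : ℝ) ^ 2 ≤
      2 * (1 + Real.log Y) ^ (2 * w) := by
  have hlog : 0 ≤ Real.log Y := Real.log_natCast_nonneg Y
  have h0 := omega_inv w Y hY
  set S : ℝ := ∑ n ∈ (Finset.Icc 1 Y).filter Squarefree, (w : ℝ) ^ om n / n with hS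
  have hS0 : 0 ≤ S := Finset.sum_nonneg (fun n _ => by positivity)
  have hprod : ∑ q ∈ ((Finset.Icc 1 Y).filter Squarefree) ×ˢ ((Finset.Icc 1 Y).filter Squarefree),
      ((w : ℝ) ^ om q.1 / q.1) * ((w : ℝ) ^ om q.2 / q.2) = S * S := by
    rw [Finset.sum_product, hS, Finset.sum_mul_sum]
  have hle : ∑ q ∈ cp Y, (w : ℝ) ^ (om q.1 + om q.2) / ((max q.1 q.2 : ℕ) : ℝ) ^ 2 ≤
      ∑ q ∈ ((Finset.Icc 1 Y).filter Squarefree) ×ˢ ((Finset.Icc 1 Y).filter Squarefree),
      ((w : ℝ) ^ om q.1 / q.1) * ((w : ℝ) ^ om q.2 / q.2) := by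
    have hsub : cp Y ⊆ ((Finset.Icc 1 Y).filter Squarefree) ×ˢ
        ((Finset.Icc 1 Y).filter Squarefree) := by
      intro q hq
      rw [cp, Finset.mem_filter, Finset.mem_product] at hq
      rw [Finset.mem_product, Finset.mem_filter, Finset.mem_filter]
      exact ⟨⟨hq.1.1, hq.2.2.2.1⟩, ⟨hq.1.2, hq.2.2.2.2⟩⟩
    refine le_trans ?_ (Finset.sum_le_sum_of_subset_of_nonneg hsub (fun q _ _ => by positivity))
    apply Finset.sum_le_sum
    intro q hq
    rw [cp, Finset.mem_filter, Finset.mem_product, Finset.mem_Icc, Finset.mem_Icc] at hq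
    have h1 : (0 : ℝ) < q.1 := by exact_mod_cast hq.1.1.1
    have h2 : (0 : ℝ) < q.2 := by exact_mod_cast hq.1.2.1
    rw [div_mul_div_comm, ← pow_add]
    apply div_le_div_of_nonneg_left (by positivity) (by positivity)
    push_cast
    rw [sq]
    exact mul_le_mul (le_max_left _ _) (le_max_right _ _) h2.le (le_max_of_le_left h1.le)
  have hSS : S * S ≤ (1 + Real.log Y) ^ w * (1 + Real.log Y) ^ w :=
    mul_le_mul h0 h0 hS0 (by positivity)
  have hpow : (1 + Real.log Y) ^ w * (1 + Real.log Y) ^ w = (1 + Real.log Y) ^ (2 * w) := by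
    rw [two_mul, pow_add]
  have hnn : 0 ≤ (1 + Real.log Y) ^ (2 * w) := by positivity
  calc _ ≤ _ := hle
    _ = S * S := hprod
    _ ≤ (1 + Real.log Y) ^ (2 * w) := by rw [← hpow]; exact hSS
    _ ≤ 2 * (1 + Real.log Y) ^ (2 * w) := by linarith

end Pool.Agent.Helper5.RM
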