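import Pool.Agent.Helper5.RM.Defs

/-!
# Block RM-LG1a: regrouping by the greatest common divisor

Proof. Map `(m, n)`, `m ≠ n`, to `(g, (a, b))`, `g = gcd m n`, `m = g a`, `n = g b`. As `m, n` are squarefree,
`g, a` are coprime and `g, b` are coprime, `a, b` coprime squarefree, `a ≠ b` (else `m = n`), all in `[1, Y]`; so
`rf T m * rf T n = rf T g ^ 2 * rf T a * rf T b = rf T a * rf T b` (`rf_mul`, `rf_mul_self`).
Conversely for `(a, b) ∈ cp Y` and `g` with `g a, g b ∈ Nn`: `gcd (g a) (g b) = g` and `g a ≠ g b`.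
Use `Finset.sum_bij'`, `Finset.sum_nbij'` or `Finset.sum_sigma'`.
-/

set_option autoImplicit false

namespace Pool.Agent.Helper5.RM

open Finset

theorem LG1a_rf {T : Finset ℕ} {g a b : ℕ} (h1 : Squarefree (g * a)) (h2 : Squarefree (g * b)) :
    rf T (g * a) * rf T (g * b) = rf T a * rf T b := by
  have c1 : Nat.Coprime g a := Nat.coprime_of_squarefree_mul h1
  have c2 : Nat.Coprime g b := Nat.coprime_of_squarefree_mul h2
  have hg : Squarefree g := h1.squarefree_of_dvd (dvd_mul_right g a)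
  rw [rf_mul c1, rf_mul c2]
  have h3 := rf_mul_self (T := T) hg
  linear_combination (rf T a * rf T b) * h3

theorem regroup (Y : ℕ) (Nn : Finset ℕ) (hN : ∀ n ∈ Nn, 1 ≤ n ∧ n ≤ Y ∧ Squarefree n)
    (c : ℕ → ℕ → ℂ) (T : Finset ℕ) :
    ∑ q ∈ (Nn ×ˢ Nn).filter (fun q => q.1 ≠ q.2), (rf T q.1 : ℂ) * (rf T q.2 : ℂ) * c q.1 q.2 =
      ∑ q ∈ cp Y, (rf T q.1 : ℂ) * (rf T q.2 : ℂ) * Psi Nn Y c q.1 q.2 := by
  unfold Psi
  simp only [Finset.mul_sum]
  rw [Finset.sum_sigma']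
  refine Finset.sum_bij'
    (i := fun q _ => (⟨(q.1 / Nat.gcd q.1 q.2, q.2 / Nat.gcd q.1 q.2), Nat.gcd q.1 q.2⟩ : Σ _ : ℕ × ℕ, ℕ))
    (j := fun s _ => (s.2 * s.1.1, s.2 * s.1.2)) ?_ ?_ ?_ ?_ ?_
  · rintro ⟨m, n⟩ hq
    rw [Finset.mem_filter, Finset.mem_product] at hq
    obtain ⟨⟨hm, hn⟩, hne⟩ := hq
    simp only at hm hn hne
    obtain ⟨m1, m2, m3⟩ := hN m hm
    obtain ⟨n1, n2, n3⟩ := hN n hn
    have hg0 : 0 < Nat.gcd m n := Nat.gcd_pos_of_pos_left _ (by omega)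
    have e1 : Nat.gcd m n * (m / Nat.gcd m n) = m := Nat.mul_div_cancel' (Nat.gcd_dvd_left m n)
    have e2 : Nat.gcd m n * (n / Nat.gcd m n) = n := Nat.mul_div_cancel' (Nat.gcd_dvd_right m n)
    rw [Finset.mem_sigma]
    constructor
    · simp only [cp, Finset.mem_filter, Finset.mem_product, Finset.mem_Icc]
      have h1 : 1 ≤ m / Nat.gcd m n := by
        rcases Nat.eq_zero_or_pos (m / Nat.gcd m n) with h | h
        · rw [h, mul_zero] at e1; omega
        · exact h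
      have h2 : 1 ≤ n / Nat.gcd m n := by
        rcases Nat.eq_zero_or_pos (n / Nat.gcd m n) with h | h
        · rw [h, mul_zero] at e2; omega
        · exact h
      have h3 : m / Nat.gcd m n ≤ Y := (Nat.div_le_self _ _).trans m2
      have h4 : n / Nat.gcd m n ≤ Y := (Nat.div_le_self _ _).trans n2
      refine ⟨⟨⟨h1, h3⟩, ⟨h2, h4⟩⟩, ?_, Nat.coprime_div_gcd_div_gcd hg0, ?_, ?_⟩
      · intro h
        apply hne
        calc m = Nat.gcd m n * (m / Nat.gcd m n) := e1.symm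
          _ = Nat.gcd m n * (n / Nat.gcd m n) := by rw [h]
          _ = n := e2
      · exact m3.squarefree_of_dvd (Nat.div_dvd_of_dvd (Nat.gcd_dvd_left m n))
      · exact n3.squarefree_of_dvd (Nat.div_dvd_of_dvd (Nat.gcd_dvd_right m n))
    · simp only [Finset.mem_filter, Finset.mem_Icc, e1, e2]
      refine ⟨⟨hg0, ?_⟩, hm, hn⟩
      exact (Nat.le_of_dvd (by omega) (Nat.gcd_dvd_left m n)).trans m2
  · rintro ⟨⟨a, b⟩, g⟩ hs
    simp only [cp, Finset.mem_sigma, Finset.mem_filter, Finset.mem_product, Finset.mem_Icc] at hs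
    obtain ⟨⟨⟨⟨a1, a2⟩, b1, b2⟩, hab, hco, sa, sb⟩, ⟨g1, g2⟩, hga, hgb⟩ := hs
    rw [Finset.mem_filter, Finset.mem_product]
    refine ⟨⟨hga, hgb⟩, ?_⟩
    intro h
    exact hab (Nat.eq_of_mul_eq_mul_left g1 h)
  · rintro ⟨m, n⟩ hq
    have e1 : Nat.gcd m n * (m / Nat.gcd m n) = m := Nat.mul_div_cancel' (Nat.gcd_dvd_left m n)
    have e2 : Nat.gcd m n * (n / Nat.gcd m n) = n := Nat.mul_div_cancel' (Nat.gcd_dvd_right m n)
    simp only [e1, e2]
  · rintro ⟨⟨a, b⟩, g⟩ hs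
    simp only [cp, Finset.mem_sigma, Finset.mem_filter, Finset.mem_product, Finset.mem_Icc] at hs
    obtain ⟨⟨⟨⟨a1, a2⟩, b1, b2⟩, hab, hco, sa, sb⟩, ⟨g1, g2⟩, hga, hgb⟩ := hs
    have hgcd : Nat.gcd (g * a) (g * b) = g := by
      rw [Nat.gcd_mul_left, hco, mul_one]
    simp only [hgcd, Nat.mul_div_cancel_left _ g1]
  · rintro ⟨m, n⟩ hq
    rw [Finset.mem_filter, Finset.mem_product] at hq
    obtain ⟨⟨hm, hn⟩, hne⟩ := hq
    simp only at hm hn hne
    obtain ⟨m1, m2, m3⟩ := hN m hm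
    obtain ⟨n1, n2, n3⟩ := hN n hn
    have e1 : Nat.gcd m n * (m / Nat.gcd m n) = m := Nat.mul_div_cancel' (Nat.gcd_dvd_left m n)
    have e2 : Nat.gcd m n * (n / Nat.gcd m n) = n := Nat.mul_div_cancel' (Nat.gcd_dvd_right m n)
    have h1 := LG1a_rf (T := T) (g := Nat.gcd m n) (a := m / Nat.gcd m n) (b := n / Nat.gcd m n)
      (by rw [e1]; exact m3) (by rw [e2]; exact n3)
    rw [e1, e2] at h1
    simp only [e1, e2]
    have h2 : (rf T m : ℂ) * (rf T n : ℂ) =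
        (rf T (m / Nat.gcd m n) : ℂ) * (rf T (n / Nat.gcd m n) : ℂ) := by
      exact_mod_cast h1
    rw [h2]

end Pool.Agent.Helper5.RM
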