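import Pool.Agent.Helper5.RM.HC4

/-!
# Block RM-LG1b: moments of sums over coprime pairs

Proof. For `(a, b) ∈ Q` with `Φ (a,b) ≠ 0` put `u = a b` (squarefree, primes in `S`, `rf T a * rf T b = rf T u`,
`om u = om a + om b`). Group by `u`: the sum is `∑_u rf T u * c u`, `c u = ∑_{(a,b) ∈ Q', a b = u} Φ (a, b)`, `Q'` the pairs
with `Φ ≠ 0`. Apply `hyper_sqf`. By Cauchy `‖c u‖^2 ≤ 2^(om u) * ∑_{(a,b), a b = u} ‖Φ (a,b)‖^2` as for squarefree `u` there are at most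
`2^(om u)` pairs with `a b = u` (`a` is a divisor of `u`, `Nat.card_divisors_of_squarefree` or similar). And
`(2k-1)^(om u) 2^(om u) ≤ (4k)^(om u)`.
-/

set_option autoImplicit false

namespace Pool.Agent.Helper5.RM

open Finset

private lemma LG1b_om {a b : ℕ} (h : Nat.Coprime a b) : om (a * b) = om a + om b := by
  unfold om
  rw [h.primeFactors_mul, Finset.card_union_of_disjoint h.disjoint_primeFactors]

private lemma LG1b_card (F : Finset (ℕ × ℕ)) (u : ℕ)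
    (h : ∀ q ∈ F, Nat.Coprime q.1 q.2 ∧ Squarefree q.1 ∧ Squarefree q.2 ∧ q.1 * q.2 = u) :
    F.card ≤ 2 ^ om u := by
  unfold om
  rw [← Finset.card_powerset]
  apply Finset.card_le_card_of_injOn (fun q => q.1.primeFactors)
  · intro q hq
    obtain ⟨h1, h2, h3, h4⟩ := h q hq
    rw [Finset.mem_coe, Finset.mem_powerset, ← h4, h1.primeFactors_mul]
    exact Finset.subset_union_left
  · intro q hq r hr hqr
    obtain ⟨h1, h2, h3, h4⟩ := h q hq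
    obtain ⟨g1, g2, g3, g4⟩ := h r hr
    have e1 : q.1 = r.1 := by
      rw [← Nat.prod_primeFactors_of_squarefree h2, ← Nat.prod_primeFactors_of_squarefree g2]
      have hqr' : q.1.primeFactors = r.1.primeFactors := hqr
      rw [hqr']
    have e2 : q.2 = r.2 := by
      have h5 : q.1 * q.2 = q.1 * r.2 := by rw [h4, e1, g4]
      exact Nat.eq_of_mul_eq_mul_left (Nat.pos_of_ne_zero h2.ne_zero) h5
    exact Prod.ext e1 e2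

private lemma LG1b_norm (F : Finset (ℕ × ℕ)) (Φ : ℕ × ℕ → ℂ) :
    ‖∑ q ∈ F, Φ q‖ ^ 2 ≤ (F.card : ℝ) * ∑ q ∈ F, ‖Φ q‖ ^ 2 := by
  have h1 : ‖∑ q ∈ F, Φ q‖ ≤ ∑ q ∈ F, ‖Φ q‖ := norm_sum_le _ _
  have h2 : ‖∑ q ∈ F, Φ q‖ ^ 2 ≤ (∑ q ∈ F, ‖Φ q‖) ^ 2 :=
    pow_le_pow_left₀ (norm_nonneg _) h1 2
  exact h2.trans sq_sum_le_card_mul_sum_sq

private lemma LG1b_fib {k : ℕ} (hk : 1 ≤ k) (F : Finset (ℕ × ℕ)) (Φ : ℕ × ℕ → ℂ) (u : ℕ)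
    (h : ∀ q ∈ F, Nat.Coprime q.1 q.2 ∧ Squarefree q.1 ∧ Squarefree q.2 ∧ q.1 * q.2 = u) :
    (2 * (k : ℝ) - 1) ^ om u * ‖∑ q ∈ F, Φ q‖ ^ 2 ≤
      ∑ q ∈ F, (4 * (k : ℝ)) ^ (om q.1 + om q.2) * ‖Φ q‖ ^ 2 := by
  have hk1 : (1:ℝ) ≤ k := by exact_mod_cast hk
  have h1 := LG1b_norm F Φ
  have h2 : (F.card : ℝ) ≤ 2 ^ om u := by exact_mod_cast LG1b_card F u h
  have h3 : ∑ q ∈ F, (4 * (k : ℝ)) ^ (om q.1 + om q.2) * ‖Φ q‖ ^ 2 =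
      (4 * (k : ℝ)) ^ om u * ∑ q ∈ F, ‖Φ q‖ ^ 2 := by
    rw [Finset.mul_sum]
    apply Finset.sum_congr rfl
    intro q hq
    obtain ⟨g1, g2, g3, g4⟩ := h q hq
    rw [← LG1b_om g1, g4]
  rw [h3]
  have hs : 0 ≤ ∑ q ∈ F, ‖Φ q‖ ^ 2 := Finset.sum_nonneg fun q _ => by positivity
  have h4 : (2 * (k : ℝ) - 1) ^ om u * 2 ^ om u ≤ (4 * (k : ℝ)) ^ om u := by
    rw [← mul_pow]
    apply pow_le_pow_left₀
    · nlinarith
    · linarith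
  have h5 : (0:ℝ) ≤ (2 * (k : ℝ) - 1) ^ om u := pow_nonneg (by linarith) _
  calc (2 * (k : ℝ) - 1) ^ om u * ‖∑ q ∈ F, Φ q‖ ^ 2
      ≤ (2 * (k : ℝ) - 1) ^ om u * ((F.card : ℝ) * ∑ q ∈ F, ‖Φ q‖ ^ 2) :=
        mul_le_mul_of_nonneg_left h1 h5
    _ ≤ (2 * (k : ℝ) - 1) ^ om u * (2 ^ om u * ∑ q ∈ F, ‖Φ q‖ ^ 2) :=
        mul_le_mul_of_nonneg_left (mul_le_mul_of_nonneg_right h2 hs) h5
    _ = ((2 * (k : ℝ) - 1) ^ om u * 2 ^ om u) * ∑ q ∈ F, ‖Φ q‖ ^ 2 := by ring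
    _ ≤ (4 * (k : ℝ)) ^ om u * ∑ q ∈ F, ‖Φ q‖ ^ 2 := mul_le_mul_of_nonneg_right h4 hs

theorem pair_moment (k : ℕ) (hk : 1 ≤ k) (S : Finset ℕ) (Q : Finset (ℕ × ℕ)) (Φ : ℕ × ℕ → ℂ)
    (hQ : ∀ q ∈ Q, Nat.Coprime q.1 q.2 ∧ Squarefree q.1 ∧ Squarefree q.2)
    (hΦ : ∀ q ∈ Q, Φ q ≠ 0 → q.1.primeFactors ⊆ S ∧ q.2.primeFactors ⊆ S) :
    av S (fun T => ‖∑ q ∈ Q, (rf T q.1 : ℂ) * (rf T q.2 : ℂ) * Φ q‖ ^ (2 * k)) ≤
      (∑ q ∈ Q, (4 * (k : ℝ)) ^ (om q.1 + om q.2) * ‖Φ q‖ ^ 2) ^ k := by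
  classical
  set Q' := Q.filter (fun q => Φ q ≠ 0) with hQ'
  set s := Q'.image (fun q : ℕ × ℕ => q.1 * q.2) with hs
  set c : ℕ → ℂ := fun u => ∑ q ∈ Q' with q.1 * q.2 = u, Φ q with hc
  have hmem : ∀ q ∈ Q', q ∈ Q ∧ Φ q ≠ 0 := fun q hq => Finset.mem_filter.1 hq
  have hmaps : ∀ q ∈ Q', q.1 * q.2 ∈ s := fun q hq => Finset.mem_image_of_mem _ hq
  have hsum : ∀ T, ∑ q ∈ Q, (rf T q.1 : ℂ) * (rf T q.2 : ℂ) * Φ q = ∑ u ∈ s, (rf T u : ℂ) * c u := by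
    intro T
    have h1 : ∑ q ∈ Q, (rf T q.1 : ℂ) * (rf T q.2 : ℂ) * Φ q =
        ∑ q ∈ Q', (rf T q.1 : ℂ) * (rf T q.2 : ℂ) * Φ q := by
      rw [hQ']
      refine (Finset.sum_filter_of_ne ?_).symm
      intro q _ hne h0
      apply hne
      rw [h0, mul_zero]
    rw [h1, ← Finset.sum_fiberwise_of_maps_to hmaps]
    apply Finset.sum_congr rfl
    intro u _
    rw [hc, Finset.mul_sum]
    apply Finset.sum_congr rfl
    intro q hq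
    obtain ⟨hq1, hq2⟩ := Finset.mem_filter.1 hq
    rw [← hq2, rf_mul (hQ q (hmem q hq1).1).1]
    push_cast
    ring
  have hsq : ∀ n ∈ s, Squarefree n ∧ n.primeFactors ⊆ S := by
    intro n hn
    obtain ⟨q, hq, rfl⟩ := Finset.mem_image.1 hn
    obtain ⟨g1, g2, g3⟩ := hQ q (hmem q hq).1
    obtain ⟨f1, f2⟩ := hΦ q (hmem q hq).1 (hmem q hq).2
    refine ⟨(Nat.squarefree_mul g1).2 ⟨g2, g3⟩, ?_⟩
    rw [g1.primeFactors_mul]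
    exact Finset.union_subset f1 f2
  have h1 := hyper_sqf k hk S s hsq c
  have h2 : av S (fun T => ‖∑ q ∈ Q, (rf T q.1 : ℂ) * (rf T q.2 : ℂ) * Φ q‖ ^ (2 * k)) =
      av S (fun T => ‖∑ n ∈ s, (rf T n : ℂ) * c n‖ ^ (2 * k)) :=
    av_congr fun T _ => by rw [hsum T]
  rw [h2]
  refine h1.trans ?_
  have hk1 : (1:ℝ) ≤ k := by exact_mod_cast hk
  apply pow_le_pow_left₀
  · exact Finset.sum_nonneg fun n _ => mul_nonneg (pow_nonneg (by linarith) _) (by positivity)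
  · have h3 : ∑ n ∈ s, (2 * (k : ℝ) - 1) ^ om n * ‖c n‖ ^ 2 ≤
        ∑ n ∈ s, ∑ q ∈ Q' with q.1 * q.2 = n, (4 * (k : ℝ)) ^ (om q.1 + om q.2) * ‖Φ q‖ ^ 2 := by
      apply Finset.sum_le_sum
      intro n _
      apply LG1b_fib hk
      intro q hq
      obtain ⟨hq1, hq2⟩ := Finset.mem_filter.1 hq
      obtain ⟨g1, g2, g3⟩ := hQ q (hmem q hq1).1
      exact ⟨g1, g2, g3, hq2⟩
    rw [Finset.sum_fiberwise_of_maps_to hmaps] at h3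
    refine h3.trans ?_
    apply Finset.sum_le_sum_of_subset_of_nonneg
    · exact Finset.filter_subset _ _
    · intro q _ _
      positivity

end Pool.Agent.Helper5.RM
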