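import Pool.Agent.Helper5.RM.Defs

/-!
# Block RM-LG2: bounds for `Psi`

Proof. `psi_le`: the number of `g ∈ [1, Y]` with `g a ∈ Nn` and `g b ∈ Nn` times `max a b` is at most `Y`
(`g * max a b ≤ Y`, so `g ∈ Icc 1 (Y / max a b)`).
`psi_sum`: by Cauchy `‖Psi a b‖^2 ≤ (Y / max a b) * ∑_{g ≤ Y / max a b} Gq (g |a - b|)`. The sum over the pairs in
`cp Y` is at most twice the sum over `b < a ≤ Y` (symmetry) of `(Y/a) ∑_{g ≤ Y/a} Gq (g (a - b))`. For given `a` the map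
`(g, b) ↦ g (a - b)` goes to `[1, Y]` and takes each value `m` at most `d(m)` times (`g ∣ m`, then `b` is determined). So the
sum is at most `2 ∑_{a ≤ Y} (Y/a) ∑_{m ≤ Y} d(m) Gq m ≤ 2 Y (1 + log Y) ∑ d(m) Gq m` (`harmonic_le_one_add_log`).
-/

set_option autoImplicit false

namespace Pool.Agent.Helper5.RM

open Finset

private theorem LG2_sub (Y : ℕ) (Nn : Finset ℕ) (hN : ∀ n ∈ Nn, 1 ≤ n ∧ n ≤ Y) (a b : ℕ) (ha : 1 ≤ a) :
    (Finset.Icc 1 Y).filter (fun g => g * a ∈ Nn ∧ g * b ∈ Nn) ⊆ Finset.Icc 1 (Y / max a b) := by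
  intro g hg
  rw [Finset.mem_filter, Finset.mem_Icc] at hg
  obtain ⟨⟨hg1, -⟩, h1, h2⟩ := hg
  rw [Finset.mem_Icc]
  refine ⟨hg1, ?_⟩
  have hm : 0 < max a b := lt_of_lt_of_le ha (le_max_left _ _)
  rw [Nat.le_div_iff_mul_le hm]
  rcases le_total a b with h | h
  · rw [max_eq_right h]
    exact (hN _ h2).2
  · rw [max_eq_left h]
    exact (hN _ h1).2

theorem psi_le (Y : ℕ) (Nn : Finset ℕ) (hN : ∀ n ∈ Nn, 1 ≤ n ∧ n ≤ Y) (c : ℕ → ℕ → ℂ) (M : ℝ)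
    (hM : 0 ≤ M) (hc : ∀ m ∈ Nn, ∀ n ∈ Nn, ‖c m n‖ ≤ M) (a b : ℕ) (ha : 1 ≤ a) (hb : 1 ≤ b) :
    ‖Psi Nn Y c a b‖ * (max a b : ℕ) ≤ Y * M := by
  have h1 : ‖Psi Nn Y c a b‖ ≤ ((Finset.Icc 1 Y).filter (fun g => g * a ∈ Nn ∧ g * b ∈ Nn)).card * M := by
    unfold Psi
    refine (norm_sum_le _ _).trans ?_
    rw [← nsmul_eq_mul]
    refine Finset.sum_le_card_nsmul _ _ _ fun g hg => ?_
    rw [Finset.mem_filter] at hg
    exact hc _ hg.2.1 _ hg.2.2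
  have h2 : ((Finset.Icc 1 Y).filter (fun g => g * a ∈ Nn ∧ g * b ∈ Nn)).card ≤ Y / max a b := by
    have := Finset.card_le_card (LG2_sub Y Nn hN a b ha)
    simpa using this
  have h3 : ((Finset.Icc 1 Y).filter (fun g => g * a ∈ Nn ∧ g * b ∈ Nn)).card * max a b ≤ Y :=
    (Nat.mul_le_mul_right _ h2).trans (Nat.div_mul_le_self _ _)
  have h4 : (((Finset.Icc 1 Y).filter (fun g => g * a ∈ Nn ∧ g * b ∈ Nn)).card : ℝ) * ((max a b : ℕ) : ℝ) ≤ Y := by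
    exact_mod_cast h3
  calc ‖Psi Nn Y c a b‖ * (max a b : ℕ)
      ≤ (((Finset.Icc 1 Y).filter (fun g => g * a ∈ Nn ∧ g * b ∈ Nn)).card * M) * (max a b : ℕ) :=
        mul_le_mul_of_nonneg_right h1 (Nat.cast_nonneg _)
    _ = (((Finset.Icc 1 Y).filter (fun g => g * a ∈ Nn ∧ g * b ∈ Nn)).card * ((max a b : ℕ) : ℝ)) * M := by ring
    _ ≤ Y * M := mul_le_mul_of_nonneg_right h4 hM

/-- the bound of one term -/
private noncomputable def LG2_H (Y : ℕ) (Gq : ℕ → ℝ) (a b : ℕ) : ℝ :=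
  ((Y / max a b : ℕ) : ℝ) * ∑ g ∈ Finset.Icc 1 (Y / max a b), Gq (g * ((a - b) + (b - a)))

private theorem LG2_symm (Y : ℕ) (Gq : ℕ → ℝ) (a b : ℕ) : LG2_H Y Gq a b = LG2_H Y Gq b a := by
  unfold LG2_H
  rw [max_comm a b, add_comm (a - b) (b - a)]

private theorem LG2_term (Y : ℕ) (Nn : Finset ℕ) (hN : ∀ n ∈ Nn, 1 ≤ n ∧ n ≤ Y) (c : ℕ → ℕ → ℂ)
    (Gq : ℕ → ℝ) (hG : ∀ m, 0 ≤ Gq m)
    (hc : ∀ m ∈ Nn, ∀ n ∈ Nn, m ≠ n → ‖c m n‖ ^ 2 ≤ Gq ((m - n) + (n - m))) (a b : ℕ) (ha : 1 ≤ a) (hab : a ≠ b) :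
    ‖Psi Nn Y c a b‖ ^ 2 ≤ LG2_H Y Gq a b := by
  have h1 : ‖Psi Nn Y c a b‖ ≤ ∑ g ∈ (Finset.Icc 1 Y).filter (fun g => g * a ∈ Nn ∧ g * b ∈ Nn),
      ‖c (g * a) (g * b)‖ := norm_sum_le _ _
  have h2 : ‖Psi Nn Y c a b‖ ^ 2 ≤ ((Finset.Icc 1 Y).filter (fun g => g * a ∈ Nn ∧ g * b ∈ Nn)).card *
      ∑ g ∈ (Finset.Icc 1 Y).filter (fun g => g * a ∈ Nn ∧ g * b ∈ Nn), ‖c (g * a) (g * b)‖ ^ 2 := by
    refine (pow_le_pow_left₀ (norm_nonneg _) h1 2).trans ?_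
    exact sq_sum_le_card_mul_sum_sq
  have h3 : ((Finset.Icc 1 Y).filter (fun g => g * a ∈ Nn ∧ g * b ∈ Nn)).card ≤ Y / max a b := by
    have := Finset.card_le_card (LG2_sub Y Nn hN a b ha)
    simpa using this
  have h4 : ∑ g ∈ (Finset.Icc 1 Y).filter (fun g => g * a ∈ Nn ∧ g * b ∈ Nn), ‖c (g * a) (g * b)‖ ^ 2 ≤
      ∑ g ∈ Finset.Icc 1 (Y / max a b), Gq (g * ((a - b) + (b - a))) := by
    refine (Finset.sum_le_sum (f := fun g => ‖c (g * a) (g * b)‖ ^ 2)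
      (g := fun g => Gq (g * ((a - b) + (b - a)))) ?_).trans
      (Finset.sum_le_sum_of_subset_of_nonneg (LG2_sub Y Nn hN a b ha) fun g _ _ => hG _)
    intro g hg
    rw [Finset.mem_filter, Finset.mem_Icc] at hg
    obtain ⟨⟨hg1, -⟩, hA, hB⟩ := hg
    have hne : g * a ≠ g * b := fun h => hab (Nat.eq_of_mul_eq_mul_left hg1 h)
    have := hc _ hA _ hB hne
    rwa [← Nat.mul_sub, ← Nat.mul_sub, ← Nat.mul_add] at this
  refine h2.trans ?_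
  unfold LG2_H
  have h5 : (((Finset.Icc 1 Y).filter (fun g => g * a ∈ Nn ∧ g * b ∈ Nn)).card : ℝ) ≤ ((Y / max a b : ℕ) : ℝ) := by
    exact_mod_cast h3
  exact mul_le_mul h5 h4 (Finset.sum_nonneg fun g _ => sq_nonneg _) (Nat.cast_nonneg _)

private theorem LG2_fiber (Y : ℕ) (Gq : ℕ → ℝ) (hG : ∀ m, 0 ≤ Gq m) (a : ℕ) :
    ∑ b ∈ Finset.Ico 1 a, ∑ g ∈ Finset.Icc 1 (Y / a), Gq (g * (a - b)) ≤
      ∑ m ∈ Finset.Icc 1 Y, (m.divisors.card : ℝ) * Gq m := by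
  rcases Nat.eq_zero_or_pos a with rfl | ha
  · simp only [Finset.Ico_eq_empty_of_le (Nat.zero_le 1), Finset.sum_empty]
    exact Finset.sum_nonneg fun m _ => mul_nonneg (Nat.cast_nonneg _) (hG m)
  rw [← Finset.sum_product']
  have hmaps : ∀ x ∈ Finset.Ico 1 a ×ˢ Finset.Icc 1 (Y / a), x.2 * (a - x.1) ∈ Finset.Icc 1 Y := by
    intro x hx
    rw [Finset.mem_product, Finset.mem_Ico, Finset.mem_Icc] at hx
    obtain ⟨⟨h1, h2⟩, h3, h4⟩ := hx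
    rw [Finset.mem_Icc]
    refine ⟨Nat.mul_pos h3 (by omega), ?_⟩
    calc x.2 * (a - x.1) ≤ x.2 * a := Nat.mul_le_mul_left _ (Nat.sub_le _ _)
      _ ≤ Y := (Nat.le_div_iff_mul_le ha).mp h4
  rw [← Finset.sum_fiberwise_of_maps_to hmaps]
  refine Finset.sum_le_sum fun m hm => ?_
  have hm0 : m ≠ 0 := by
    rw [Finset.mem_Icc] at hm
    omega
  have h1 : ∑ x ∈ (Finset.Ico 1 a ×ˢ Finset.Icc 1 (Y / a)).filter (fun x => x.2 * (a - x.1) = m),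
      Gq (x.2 * (a - x.1)) =
      ((Finset.Ico 1 a ×ˢ Finset.Icc 1 (Y / a)).filter (fun x => x.2 * (a - x.1) = m)).card * Gq m := by
    rw [Finset.sum_congr rfl (g := fun _ => Gq m), Finset.sum_const, nsmul_eq_mul]
    intro x hx
    rw [Finset.mem_filter] at hx
    rw [hx.2]
  rw [h1]
  refine mul_le_mul_of_nonneg_right ?_ (hG m)
  norm_cast
  refine Finset.card_le_card_of_injOn (fun x => x.2) ?_ ?_
  · intro x hx
    rw [Finset.mem_coe, Finset.mem_filter] at hx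
    rw [Finset.mem_coe, Nat.mem_divisors]
    exact ⟨⟨_, hx.2.symm⟩, hm0⟩
  · intro x hx y hy hxy
    rw [Finset.mem_coe, Finset.mem_filter, Finset.mem_product, Finset.mem_Ico, Finset.mem_Icc] at hx hy
    obtain ⟨⟨⟨hx1, hx2⟩, hx3, -⟩, hx4⟩ := hx
    obtain ⟨⟨⟨hy1, hy2⟩, hy3, -⟩, hy4⟩ := hy
    have hxy' : x.2 = y.2 := hxy
    have h5 : x.2 * (a - x.1) = x.2 * (a - y.1) := by
      rw [hx4, hxy', hy4]
    have h6 : a - x.1 = a - y.1 := Nat.eq_of_mul_eq_mul_left hx3 h5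
    have h7 : x.1 = y.1 := by omega
    exact Prod.ext h7 hxy'

theorem psi_sum (Y : ℕ) (hY : 1 ≤ Y) (Nn : Finset ℕ) (hN : ∀ n ∈ Nn, 1 ≤ n ∧ n ≤ Y) (c : ℕ → ℕ → ℂ)
    (Gq : ℕ → ℝ) (hG : ∀ m, 0 ≤ Gq m)
    (hc : ∀ m ∈ Nn, ∀ n ∈ Nn, m ≠ n → ‖c m n‖ ^ 2 ≤ Gq ((m - n) + (n - m))) :
    ∑ q ∈ cp Y, ‖Psi Nn Y c q.1 q.2‖ ^ 2 ≤
      2 * Y * (1 + Real.log Y) * ∑ m ∈ Finset.Icc 1 Y, (m.divisors.card : ℝ) * Gq m := by
  set S : ℝ := ∑ m ∈ Finset.Icc 1 Y, (m.divisors.card : ℝ) * Gq m with hS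
  have hS0 : 0 ≤ S := Finset.sum_nonneg fun m _ => mul_nonneg (Nat.cast_nonneg _) (hG m)
  have hH0 : ∀ a b, 0 ≤ LG2_H Y Gq a b := fun a b =>
    mul_nonneg (Nat.cast_nonneg _) (Finset.sum_nonneg fun g _ => hG _)
  -- the half sum
  have hhalf : ∑ a ∈ Finset.Icc 1 Y, ∑ b ∈ Finset.Ico 1 a, LG2_H Y Gq a b ≤ Y * (1 + Real.log Y) * S := by
    have h1 : ∀ a ∈ Finset.Icc 1 Y, ∑ b ∈ Finset.Ico 1 a, LG2_H Y Gq a b ≤ (Y : ℝ) * (a : ℝ)⁻¹ * S := by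
      intro a ha
      rw [Finset.mem_Icc] at ha
      have h2 : ∀ b ∈ Finset.Ico 1 a, LG2_H Y Gq a b =
          ((Y / a : ℕ) : ℝ) * ∑ g ∈ Finset.Icc 1 (Y / a), Gq (g * (a - b)) := by
        intro b hb
        rw [Finset.mem_Ico] at hb
        unfold LG2_H
        rw [max_eq_left hb.2.le, Nat.sub_eq_zero_of_le hb.2.le, add_zero]
      rw [Finset.sum_congr rfl h2, ← Finset.mul_sum]
      refine mul_le_mul ?_ (LG2_fiber Y Gq hG a) (Finset.sum_nonneg fun b _ => Finset.sum_nonneg fun g _ => hG _)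
        (by positivity)
      rw [← div_eq_mul_inv]
      exact Nat.cast_div_le
    refine (Finset.sum_le_sum h1).trans ?_
    rw [← Finset.sum_mul, ← Finset.mul_sum]
    have h3 : ∑ a ∈ Finset.Icc 1 Y, (a : ℝ)⁻¹ ≤ 1 + Real.log Y := by
      have h4 := harmonic_le_one_add_log Y
      rw [harmonic_eq_sum_Icc] at h4
      push_cast at h4
      exact h4
    refine mul_le_mul_of_nonneg_right (mul_le_mul_of_nonneg_left h3 (Nat.cast_nonneg _)) hS0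
  -- all pairs
  have h0 : ∑ q ∈ cp Y, ‖Psi Nn Y c q.1 q.2‖ ^ 2 ≤ ∑ q ∈ cp Y, LG2_H Y Gq q.1 q.2 := by
    refine Finset.sum_le_sum fun q hq => ?_
    rw [cp, Finset.mem_filter, Finset.mem_product, Finset.mem_Icc, Finset.mem_Icc] at hq
    exact LG2_term Y Nn hN c Gq hG hc q.1 q.2 hq.1.1.1 hq.2.1
  have h1 : ∑ q ∈ cp Y, LG2_H Y Gq q.1 q.2 ≤
      ∑ q ∈ (Finset.Icc 1 Y ×ˢ Finset.Icc 1 Y).filter (fun q => q.1 ≠ q.2), LG2_H Y Gq q.1 q.2 := by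
    refine Finset.sum_le_sum_of_subset_of_nonneg ?_ fun q _ _ => hH0 _ _
    intro q hq
    rw [cp, Finset.mem_filter] at hq
    rw [Finset.mem_filter]
    exact ⟨hq.1, hq.2.1⟩
  have h2 : ∑ q ∈ (Finset.Icc 1 Y ×ˢ Finset.Icc 1 Y).filter (fun q => q.1 ≠ q.2), LG2_H Y Gq q.1 q.2 =
      ∑ q ∈ (Finset.Icc 1 Y ×ˢ Finset.Icc 1 Y).filter (fun q => q.2 < q.1), LG2_H Y Gq q.1 q.2 +
      ∑ q ∈ (Finset.Icc 1 Y ×ˢ Finset.Icc 1 Y).filter (fun q => q.1 < q.2), LG2_H Y Gq q.1 q.2 := by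
    rw [← Finset.sum_union]
    · refine Finset.sum_congr ?_ fun _ _ => rfl
      ext q
      simp only [Finset.mem_filter, Finset.mem_union]
      constructor
      · rintro ⟨h, hne⟩
        rcases lt_or_gt_of_ne hne with h' | h'
        · exact Or.inr ⟨h, h'⟩
        · exact Or.inl ⟨h, h'⟩
      · rintro (⟨h, h'⟩ | ⟨h, h'⟩)
        · exact ⟨h, h'.ne'⟩
        · exact ⟨h, h'.ne⟩
    · rw [Finset.disjoint_left]
      intro q h h'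
      rw [Finset.mem_filter] at h h'
      exact absurd h.2 (not_lt.mpr h'.2.le)
  have h3 : ∑ q ∈ (Finset.Icc 1 Y ×ˢ Finset.Icc 1 Y).filter (fun q => q.2 < q.1), LG2_H Y Gq q.1 q.2 =
      ∑ a ∈ Finset.Icc 1 Y, ∑ b ∈ Finset.Ico 1 a, LG2_H Y Gq a b := by
    rw [Finset.sum_filter, Finset.sum_product]
    refine Finset.sum_congr rfl fun a ha => ?_
    rw [← Finset.sum_filter]
    refine Finset.sum_congr ?_ fun _ _ => rfl
    ext b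
    simp only [Finset.mem_filter, Finset.mem_Icc, Finset.mem_Ico] at ha ⊢
    constructor
    · rintro ⟨⟨h1, -⟩, h2⟩
      exact ⟨h1, h2⟩
    · rintro ⟨h1, h2⟩
      exact ⟨⟨h1, h2.le.trans ha.2⟩, h2⟩
  have h4 : ∑ q ∈ (Finset.Icc 1 Y ×ˢ Finset.Icc 1 Y).filter (fun q => q.1 < q.2), LG2_H Y Gq q.1 q.2 =
      ∑ q ∈ (Finset.Icc 1 Y ×ˢ Finset.Icc 1 Y).filter (fun q => q.2 < q.1), LG2_H Y Gq q.1 q.2 := by
    refine Finset.sum_bij' (fun q _ => (q.2, q.1)) (fun q _ => (q.2, q.1)) ?_ ?_ ?_ ?_ ?_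
    · intro q hq
      simp only [Finset.mem_filter, Finset.mem_product] at hq ⊢
      exact ⟨⟨hq.1.2, hq.1.1⟩, hq.2⟩
    · intro q hq
      simp only [Finset.mem_filter, Finset.mem_product] at hq ⊢
      exact ⟨⟨hq.1.2, hq.1.1⟩, hq.2⟩
    · intro q _
      rfl
    · intro q _
      rfl
    · intro q _
      exact LG2_symm Y Gq q.1 q.2
  calc ∑ q ∈ cp Y, ‖Psi Nn Y c q.1 q.2‖ ^ 2
      ≤ ∑ q ∈ cp Y, LG2_H Y Gq q.1 q.2 := h0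
    _ ≤ _ := h1
    _ = 2 * ∑ a ∈ Finset.Icc 1 Y, ∑ b ∈ Finset.Ico 1 a, LG2_H Y Gq a b := by
        rw [h2, h4, h3]
        ring
    _ ≤ 2 * (Y * (1 + Real.log Y) * S) := by linarith
    _ = 2 * Y * (1 + Real.log Y) * S := by ring

end Pool.Agent.Helper5.RM
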