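import Pool.Agent.Helper5.RM.Defs

/-!
# Block RM-LG4: second moment of the divisor function

Proof. `d(m)^2 = #{(a, b) : a ∣ m, b ∣ m}`, so the sum is `∑_{a, b ≤ Y} ⌊Y / lcm a b⌋ ≤ Y ∑_{a,b ≤ Y} gcd a b / (a b)
≤ Y ∑_{g ≤ Y} ∑_{a', b' ≤ Y} 1 / (g a' b') ≤ Y (1 + log Y)^3` (write `a = g a'`, `b = g b'`, `g = gcd a b`;
`harmonic_le_one_add_log`).
-/

set_option autoImplicit false

namespace Pool.Agent.Helper5.RM

open Finset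

private theorem lg4_inj (m : ℕ) (Y : ℕ) (hm : 1 ≤ m) (hmY : m ≤ Y) :
    m.divisors.card ^ 2 ≤ (((Icc 1 Y) ×ˢ (Icc 1 Y) ×ˢ (Icc 1 Y)).filter
      (fun t : ℕ × ℕ × ℕ => t.1 * t.2.1 * t.2.2 ∣ m)).card := by
  rw [sq, ← card_product]
  apply card_le_card_of_injOn
    (fun p : ℕ × ℕ => (Nat.gcd p.1 p.2, p.1 / Nat.gcd p.1 p.2, p.2 / Nat.gcd p.1 p.2))
  · rintro ⟨a, b⟩ hp
    simp only [coe_product, Set.mem_prod, mem_coe, Nat.mem_divisors] at hp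
    obtain ⟨⟨ha, -⟩, hb, -⟩ := hp
    have ha0 : 0 < a := Nat.pos_of_dvd_of_pos ha hm
    have hb0 : 0 < b := Nat.pos_of_dvd_of_pos hb hm
    have haY : a ≤ Y := (Nat.le_of_dvd hm ha).trans hmY
    have hbY : b ≤ Y := (Nat.le_of_dvd hm hb).trans hmY
    have hg0 : 0 < Nat.gcd a b := Nat.gcd_pos_of_pos_left _ ha0
    have hga : Nat.gcd a b ≤ a := Nat.gcd_le_left _ ha0
    have hgb : Nat.gcd a b ≤ b := Nat.gcd_le_right _ hb0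
    simp only [mem_coe, mem_filter, mem_product, mem_Icc]
    refine ⟨⟨⟨hg0, hga.trans haY⟩, ⟨Nat.div_pos hga hg0, (Nat.div_le_self _ _).trans haY⟩,
      ⟨Nat.div_pos hgb hg0, (Nat.div_le_self _ _).trans hbY⟩⟩, ?_⟩
    rw [Nat.mul_div_cancel' (Nat.gcd_dvd_left a b)]
    have hlcm : a * (b / Nat.gcd a b) = Nat.lcm a b := by
      rw [Nat.lcm, Nat.mul_div_assoc _ (Nat.gcd_dvd_right a b)]
    rw [hlcm]
    exact Nat.lcm_dvd ha hb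
  · rintro ⟨a, b⟩ hp ⟨a', b'⟩ hp' h
    simp only [Prod.mk.injEq] at h
    obtain ⟨h1, h2, h3⟩ := h
    have e1 := Nat.div_mul_cancel (Nat.gcd_dvd_left a b)
    have e2 := Nat.div_mul_cancel (Nat.gcd_dvd_right a b)
    have e3 := Nat.div_mul_cancel (Nat.gcd_dvd_left a' b')
    have e4 := Nat.div_mul_cancel (Nat.gcd_dvd_right a' b')
    rw [Prod.mk.injEq]
    constructor
    · rw [← e1, ← e3, h2, h1]
    · rw [← e2, ← e4, h3, h1]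

theorem divisor_sq (Y : ℕ) (hY : 1 ≤ Y) :
    ∑ m ∈ Finset.Icc 1 Y, (m.divisors.card : ℝ) ^ 2 ≤ Y * (1 + Real.log Y) ^ 3 := by
  have h1 : ∑ m ∈ Finset.Icc 1 Y, (m.divisors.card : ℝ) ^ 2 ≤
      ∑ m ∈ Finset.Icc 1 Y, ∑ t ∈ (Icc 1 Y) ×ˢ (Icc 1 Y) ×ˢ (Icc 1 Y),
        (if t.1 * t.2.1 * t.2.2 ∣ m then (1 : ℝ) else 0) := by
    apply sum_le_sum
    intro m hm
    rw [mem_Icc] at hm
    have := lg4_inj m Y hm.1 hm.2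
    rw [← sum_filter, sum_const, nsmul_eq_mul, mul_one]
    exact_mod_cast this
  have h2 : ∀ t ∈ (Icc 1 Y) ×ˢ (Icc 1 Y) ×ˢ (Icc 1 Y),
      ∑ m ∈ Finset.Icc 1 Y, (if t.1 * t.2.1 * t.2.2 ∣ m then (1 : ℝ) else 0) ≤
        Y * ((t.1 : ℝ)⁻¹ * ((t.2.1 : ℝ)⁻¹ * (t.2.2 : ℝ)⁻¹)) := by
    intro t ht
    rw [← sum_filter, sum_const, nsmul_eq_mul, mul_one]
    have hI : Icc 1 Y = Ioc 0 Y := rfl
    rw [hI, Nat.Ioc_filter_dvd_card_eq_div]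
    refine Nat.cast_div_le.trans (le_of_eq ?_)
    push_cast
    rw [div_eq_mul_inv, mul_inv, mul_inv, mul_assoc]
  have h3 : ∑ i ∈ Icc 1 Y, (i : ℝ)⁻¹ ≤ 1 + Real.log Y := by
    have := harmonic_le_one_add_log Y
    rw [harmonic_eq_sum_Icc] at this
    push_cast at this
    exact this
  have h4 : 0 ≤ ∑ i ∈ Icc 1 Y, (i : ℝ)⁻¹ := sum_nonneg fun i _ => by positivity
  calc ∑ m ∈ Finset.Icc 1 Y, (m.divisors.card : ℝ) ^ 2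
      ≤ ∑ t ∈ (Icc 1 Y) ×ˢ (Icc 1 Y) ×ˢ (Icc 1 Y), ∑ m ∈ Finset.Icc 1 Y,
        (if t.1 * t.2.1 * t.2.2 ∣ m then (1 : ℝ) else 0) := by
        rw [sum_comm]; exact h1
    _ ≤ ∑ t ∈ (Icc 1 Y) ×ˢ (Icc 1 Y) ×ˢ (Icc 1 Y),
        (Y : ℝ) * ((t.1 : ℝ)⁻¹ * ((t.2.1 : ℝ)⁻¹ * (t.2.2 : ℝ)⁻¹)) := sum_le_sum h2
    _ = Y * (∑ i ∈ Icc 1 Y, (i : ℝ)⁻¹) ^ 3 := by
        rw [← mul_sum, sum_product]
        simp_rw [← mul_sum]
        rw [← sum_mul, sum_product]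
        simp_rw [← mul_sum]
        rw [← sum_mul]
        ring
    _ ≤ Y * (1 + Real.log Y) ^ 3 := by gcongr

end Pool.Agent.Helper5.RM
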