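import Pool.Agent.Helper5.RM.CMP
import Pool.Agent.Helper5.RM.LG1a
import Pool.Agent.Helper5.RM.LG1b
import Pool.Agent.Helper5.RM.LG2
import Pool.Agent.Helper5.RM.LG4
import Pool.Agent.Helper5.RM.LG5

/-!
# Block RM-CONC: concentration of the conditional variance

Proof. Expand the square: `VV T - mm = ∑_{m ≠ n ∈ Nn} rf T m * rf T n * c m n` with
`c m n = ∑_{l ∈ Lam, max (lo m) (lo n) ≤ l ≤ min (hi m) (hi n)} e (l m α) * conj (e (l n α))` (the diagonal gives `mm`, as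
`rf T n ^ 2 = 1`). `‖c m n‖^2 ≤ Gq |m - n|` with `Gq` from `completion` (conjugate if `m < n`: `e_neg`), and `‖c m n‖ ≤ #Lam ≤ H`.
`regroup` and `pair_moment` (with `Φ q = Psi Nn Y c q.1 q.2`, `Φ q ≠ 0` gives `g q.1 ∈ Nn`) give
`av |VV - mm|^(2k) ≤ (∑_{q ∈ cp Y} (4k)^Ω ‖Ψ q‖^2)^k`, `Ω = om q.1 + om q.2`.
Hoelder with exponents `1+η` and `(1+η)/η` (`Real.inner_le_Lp_mul_Lq`), writing `‖Ψ‖^2 = (‖Ψ‖^2)^(1/(1+η)) (‖Ψ‖^2)^(η/(1+η))`:
`∑ (4k)^Ω ‖Ψ‖^2 ≤ (∑ (4k)^((1+η)Ω) ‖Ψ‖^2)^(1/(1+η)) * (∑ ‖Ψ‖^2)^(η/(1+η))`.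
First factor: `(4k)^((1+η)Ω) ≤ w^Ω`, `‖Ψ‖ ≤ H Y / max` (`psi_le`), `omega_pairs`: at most `(2 (HY)^2 L0^(2w))^(1/(1+η))`.
Second: `psi_sum`, Cauchy and `divisor_sq`, `completion`:
`∑ d(m) Gq m ≤ (Y L0^3)^(1/2) (9 L0^2 H^2 * 9 L0^2 H^2 Y γ)^(1/2) = 9 L0^(7/2) H^2 Y γ^(1/2)`, so
`∑ ‖Ψ‖^2 ≤ 18 (HY)^2 L0^5 γ^(1/2)`. Together, as `γ ≤ 1`, `1 ≤ L0`, `η/(2(1+η)) ≥ η/4`: at most
`18 (HY)^2 L0^(2w+5) γ^(η/4)`. (`γ > 0` follows from `hγ`.)
-/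

set_option autoImplicit false

namespace Pool.Agent.Helper5.RM

open Finset

/-- the coefficient of the pair `(m, n)` -/
private noncomputable def h60_c (Lam : Finset ℕ) (lo hi : ℕ → ℕ) (α : ℝ) (m n : ℕ) : ℂ :=
  ∑ l ∈ Lam.filter (fun l => max (lo m) (lo n) ≤ l ∧ l ≤ min (hi m) (hi n)),
    e (l * m * α) * (starRingEnd ℂ) (e (l * n * α))

private theorem h60_c_norm (Lam : Finset ℕ) (H : ℕ) (hLam : ∀ l ∈ Lam, H ≤ l ∧ l < 2 * H)
    (lo hi : ℕ → ℕ) (α : ℝ) (m n : ℕ) : ‖h60_c Lam lo hi α m n‖ ≤ H := by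
  unfold h60_c
  refine (norm_sum_le _ _).trans ?_
  have h1 : ∀ l ∈ Lam.filter (fun l => max (lo m) (lo n) ≤ l ∧ l ≤ min (hi m) (hi n)),
      ‖e (l * m * α) * (starRingEnd ℂ) (e (l * n * α))‖ ≤ 1 := by
    intro l _
    rw [norm_mul, RCLike.norm_conj, norm_e, norm_e, mul_one]
  refine (Finset.sum_le_card_nsmul _ _ _ h1).trans ?_
  rw [nsmul_eq_mul, mul_one]
  have h2 : Lam.filter (fun l => max (lo m) (lo n) ≤ l ∧ l ≤ min (hi m) (hi n)) ⊆ Finset.Ico H (2 * H) := by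
    intro l hl
    rw [Finset.mem_Ico]
    exact hLam l (Finset.mem_filter.1 hl).1
  have h3 := Finset.card_le_card h2
  rw [Nat.card_Ico] at h3
  have h4 : (Lam.filter (fun l => max (lo m) (lo n) ≤ l ∧ l ≤ min (hi m) (hi n))).card ≤ H := by omega
  exact_mod_cast h4

private theorem h60_c_sq (Lam : Finset ℕ) (lo hi : ℕ → ℕ) (α : ℝ) (Gq : ℕ → ℝ)
    (hG : ∀ m u v : ℕ, ‖∑ l ∈ Lam.filter (fun l => u ≤ l ∧ l ≤ v), e (l * m * α)‖ ^ 2 ≤ Gq m) (m n : ℕ) :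
    ‖h60_c Lam lo hi α m n‖ ^ 2 ≤ Gq ((m - n) + (n - m)) := by
  rcases le_total n m with h | h
  · have e1 : (m - n) + (n - m) = m - n := by omega
    rw [e1]
    refine le_trans (le_of_eq ?_) (hG (m - n) (max (lo m) (lo n)) (min (hi m) (hi n)))
    unfold h60_c
    congr 2
    refine Finset.sum_congr rfl fun l _ => ?_
    rw [← e_neg, ← e_add]
    congr 1
    rw [Nat.cast_sub h]
    ring
  · have e1 : (m - n) + (n - m) = n - m := by omega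
    rw [e1]
    refine le_trans (le_of_eq ?_) (hG (n - m) (max (lo m) (lo n)) (min (hi m) (hi n)))
    have e2 : h60_c Lam lo hi α m n = (starRingEnd ℂ)
        (∑ l ∈ Lam.filter (fun l => max (lo m) (lo n) ≤ l ∧ l ≤ min (hi m) (hi n)),
          e (l * ((n - m : ℕ) : ℝ) * α)) := by
      unfold h60_c
      rw [map_sum]
      refine Finset.sum_congr rfl fun l _ => ?_
      rw [← e_neg, ← e_neg, ← e_add]
      congr 1
      rw [Nat.cast_sub h]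
      ring
    rw [e2, RCLike.norm_conj]

private theorem h60_expand (Lam Nn : Finset ℕ) (lo hi : ℕ → ℕ) (α : ℝ) (T : Finset ℕ)
    (hN : ∀ n ∈ Nn, Squarefree n) :
    (((VV Lam Nn lo hi α T - mm Lam Nn lo hi : ℝ)) : ℂ) =
      ∑ q ∈ (Nn ×ˢ Nn).filter (fun q => q.1 ≠ q.2),
        (rf T q.1 : ℂ) * (rf T q.2 : ℂ) * h60_c Lam lo hi α q.1 q.2 := by
  classical
  have h1 : (VV Lam Nn lo hi α T : ℂ) = ∑ q ∈ Nn ×ˢ Nn,
      (rf T q.1 : ℂ) * (rf T q.2 : ℂ) * h60_c Lam lo hi α q.1 q.2 := by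
    unfold VV
    rw [Complex.ofReal_sum]
    have h2 : ∀ l ∈ Lam, (((‖∑ n ∈ Nn.filter (fun n => lo n ≤ l ∧ l ≤ hi n), (rf T n : ℂ) * e (l * n * α)‖ ^ 2 : ℝ)) : ℂ) =
        ∑ q ∈ Nn ×ˢ Nn, if (lo q.1 ≤ l ∧ l ≤ hi q.1) ∧ (lo q.2 ≤ l ∧ l ≤ hi q.2) then
          (rf T q.1 : ℂ) * (rf T q.2 : ℂ) * (e (l * q.1 * α) * (starRingEnd ℂ) (e (l * q.2 * α))) else 0 := by
      intro l _
      rw [← Complex.normSq_eq_norm_sq, ← Complex.mul_conj, map_sum, Finset.sum_mul_sum, Finset.sum_filter]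
      rw [Finset.sum_product]
      refine Finset.sum_congr rfl fun m _ => ?_
      rw [Finset.sum_filter]
      by_cases hm : lo m ≤ l ∧ l ≤ hi m
      · rw [if_pos hm]
        refine Finset.sum_congr rfl fun n _ => ?_
        by_cases hn : lo n ≤ l ∧ l ≤ hi n
        · rw [if_pos hn, if_pos ⟨hm, hn⟩, map_mul, Complex.conj_ofReal]
          ring
        · rw [if_neg hn, if_neg (fun hh => hn hh.2)]
      · rw [if_neg hm]
        symm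
        refine Finset.sum_eq_zero fun n _ => ?_
        rw [if_neg (fun hh => hm hh.1)]
    rw [Finset.sum_congr rfl h2, Finset.sum_comm]
    refine Finset.sum_congr rfl fun q _ => ?_
    unfold h60_c
    rw [Finset.mul_sum, Finset.sum_filter]
    refine Finset.sum_congr rfl fun l _ => ?_
    have h3 : ((lo q.1 ≤ l ∧ l ≤ hi q.1) ∧ (lo q.2 ≤ l ∧ l ≤ hi q.2)) ↔
        (max (lo q.1) (lo q.2) ≤ l ∧ l ≤ min (hi q.1) (hi q.2)) := by
      rw [max_le_iff, le_min_iff]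
      tauto
    by_cases hc : (lo q.1 ≤ l ∧ l ≤ hi q.1) ∧ (lo q.2 ≤ l ∧ l ≤ hi q.2)
    · rw [if_pos hc, if_pos (h3.1 hc)]
    · rw [if_neg hc, if_neg (fun hh => hc (h3.2 hh))]
  have h2 : (mm Lam Nn lo hi : ℂ) = ∑ q ∈ (Nn ×ˢ Nn).filter (fun q => ¬ q.1 ≠ q.2),
      (rf T q.1 : ℂ) * (rf T q.2 : ℂ) * h60_c Lam lo hi α q.1 q.2 := by
    have h3 : ∑ q ∈ (Nn ×ˢ Nn).filter (fun q => ¬ q.1 ≠ q.2),
        (rf T q.1 : ℂ) * (rf T q.2 : ℂ) * h60_c Lam lo hi α q.1 q.2 =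
        ∑ n ∈ Nn, ((Lam.filter (fun l => lo n ≤ l ∧ l ≤ hi n)).card : ℂ) := by
      symm
      refine Finset.sum_bij (fun n _ => (n, n)) ?_ ?_ ?_ ?_
      · intro n hn
        rw [Finset.mem_filter, Finset.mem_product]
        exact ⟨⟨hn, hn⟩, by simp⟩
      · intro a _ b _ hab
        exact (Prod.mk.injEq _ _ _ _ ▸ hab).1
      · rintro ⟨a, b⟩ hab
        rw [Finset.mem_filter, Finset.mem_product] at hab
        obtain ⟨⟨ha, hb⟩, hne⟩ := hab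
        simp only [ne_eq, not_not] at hne
        exact ⟨a, ha, by rw [hne]⟩
      · intro n hn
        have h4 : (rf T n : ℂ) * (rf T n : ℂ) = 1 := by
          rw [← Complex.ofReal_mul, rf_mul_self (hN n hn), Complex.ofReal_one]
        simp only
        rw [h4, one_mul]
        unfold h60_c
        rw [max_self, min_self]
        have h5 : ∀ l ∈ Lam.filter (fun l => lo n ≤ l ∧ l ≤ hi n),
            e (l * n * α) * (starRingEnd ℂ) (e (l * n * α)) = 1 := by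
          intro l _
          rw [← e_neg, ← e_add, add_neg_cancel, e_zero]
        rw [Finset.sum_congr rfl h5, Finset.sum_const, nsmul_eq_mul, mul_one]
    rw [h3]
    unfold mm
    rw [Complex.ofReal_sum]
    have h6 : ∀ l ∈ Lam, ((((Nn.filter (fun n => lo n ≤ l ∧ l ≤ hi n)).card : ℝ)) : ℂ) =
        ∑ n ∈ Nn, if lo n ≤ l ∧ l ≤ hi n then 1 else 0 := by
      intro l _
      rw [Finset.card_filter]
      simp
    have h7 : ∀ n ∈ Nn, ((Lam.filter (fun l => lo n ≤ l ∧ l ≤ hi n)).card : ℂ) =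
        ∑ l ∈ Lam, if lo n ≤ l ∧ l ≤ hi n then 1 else 0 := by
      intro n _
      rw [Finset.card_filter]
      simp
    rw [Finset.sum_congr rfl h6, Finset.sum_congr rfl h7, Finset.sum_comm]
  rw [Complex.ofReal_sub, h1, h2,
    ← Finset.sum_filter_add_sum_filter_not (Nn ×ˢ Nn) (fun q => q.1 ≠ q.2), add_sub_cancel_right]

/-- the Hoelder step, abstractly -/
private theorem h60_holder {ι : Type*} (s : Finset ι) (X : ι → ℝ) (a : ι → ℝ) (η A B : ℝ) (hη : 0 < η)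
    (hX : ∀ i ∈ s, 0 ≤ X i) (ha : ∀ i ∈ s, 0 ≤ a i)
    (h1 : ∑ i ∈ s, a i ^ (1 + η) * X i ≤ A) (h2 : ∑ i ∈ s, X i ≤ B) :
    ∑ i ∈ s, a i * X i ≤ A ^ (1 / (1 + η)) * B ^ (η / (1 + η)) := by
  have hp : 0 < 1 + η := by linarith
  have hpq : Real.HolderConjugate (1 + η) ((1 + η) / η) := by
    rw [Real.holderConjugate_iff]
    constructor
    · linarith
    · rw [inv_div]
      field_simp
  have h3 := Real.inner_le_Lp_mul_Lq_of_nonneg s hpq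
    (f := fun i => a i * X i ^ (1 / (1 + η))) (g := fun i => X i ^ (η / (1 + η)))
    (fun i hi => mul_nonneg (ha i hi) (Real.rpow_nonneg (hX i hi) _))
    (fun i hi => Real.rpow_nonneg (hX i hi) _)
  have h4 : ∑ i ∈ s, a i * X i ^ (1 / (1 + η)) * X i ^ (η / (1 + η)) = ∑ i ∈ s, a i * X i := by
    refine Finset.sum_congr rfl fun i hi => ?_
    rw [mul_assoc, ← Real.rpow_add_of_nonneg (hX i hi) (by positivity) (by positivity)]
    have : 1 / (1 + η) + η / (1 + η) = 1 := by field_simp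
    rw [this, Real.rpow_one]
  have h5 : ∑ i ∈ s, (a i * X i ^ (1 / (1 + η))) ^ (1 + η) = ∑ i ∈ s, a i ^ (1 + η) * X i := by
    refine Finset.sum_congr rfl fun i hi => ?_
    rw [Real.mul_rpow (ha i hi) (Real.rpow_nonneg (hX i hi) _), ← Real.rpow_mul (hX i hi)]
    have : 1 / (1 + η) * (1 + η) = 1 := by field_simp
    rw [this, Real.rpow_one]
  have h6 : ∑ i ∈ s, (X i ^ (η / (1 + η))) ^ ((1 + η) / η) = ∑ i ∈ s, X i := by
    refine Finset.sum_congr rfl fun i hi => ?_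
    rw [← Real.rpow_mul (hX i hi)]
    have : η / (1 + η) * ((1 + η) / η) = 1 := by field_simp
    rw [this, Real.rpow_one]
  rw [h4, h5, h6] at h3
  refine h3.trans ?_
  have e1 : 1 / ((1 + η) / η) = η / (1 + η) := by rw [one_div_div]
  rw [e1]
  have n1 : 0 ≤ ∑ i ∈ s, a i ^ (1 + η) * X i :=
    Finset.sum_nonneg fun i hi => mul_nonneg (Real.rpow_nonneg (ha i hi) _) (hX i hi)
  have n2 : 0 ≤ ∑ i ∈ s, X i := Finset.sum_nonneg hX
  exact mul_le_mul (Real.rpow_le_rpow n1 h1 (by positivity)) (Real.rpow_le_rpow n2 h2 (by positivity))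
    (Real.rpow_nonneg n2 _) (Real.rpow_nonneg (n1.trans h1) _)

theorem conc (k : ℕ) (hk : 1 ≤ k) (S : Finset ℕ) (H Y : ℕ) (hH : 1 ≤ H) (hY : 1 ≤ Y)
    (Lam Nn : Finset ℕ) (lo hi : ℕ → ℕ) (α γ η L0 : ℝ) (w : ℕ)
    (hLam : ∀ l ∈ Lam, H ≤ l ∧ l < 2 * H)
    (hN : ∀ n ∈ Nn, 1 ≤ n ∧ n ≤ Y ∧ Squarefree n ∧ n.primeFactors ⊆ S)
    (hγ : Y + 2 * ∑ j ∈ Finset.Ico 1 H, mn Y (j * α) ≤ H * Y * γ) (hγ1 : γ ≤ 1)
    (hη : 0 < η) (hη1 : η ≤ 1) (hw : (4 * (k : ℝ)) ^ (1 + η) ≤ w)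
    (hL1 : 1 + Real.log H ≤ L0) (hL2 : 1 + Real.log Y ≤ L0) :
    av S (fun T => |VV Lam Nn lo hi α T - mm Lam Nn lo hi| ^ (2 * k)) ≤
      (18 * ((H : ℝ) * Y) ^ 2 * L0 ^ (2 * w + 5) * γ ^ (η / 4)) ^ k := by
  classical
  have hlY : 0 ≤ Real.log Y := Real.log_natCast_nonneg Y
  have hL0 : 1 ≤ L0 := by linarith
  have hL0' : 0 ≤ L0 := by linarith
  have hH0 : (0 : ℝ) < H := by exact_mod_cast hH
  have hY0 : (0 : ℝ) < Y := by exact_mod_cast hY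
  have hmn : 0 ≤ ∑ j ∈ Finset.Ico 1 H, mn Y (j * α) :=
    Finset.sum_nonneg fun j _ => mn_nonneg hY0.le _
  have hγ0 : 0 < γ := by
    by_contra hneg
    push Not at hneg
    have : (H : ℝ) * Y * γ ≤ 0 := mul_nonpos_of_nonneg_of_nonpos (by positivity) hneg
    linarith
  obtain ⟨Gq, hG0, hG1, hG2, hG3⟩ := completion Lam H Y hH hLam α γ L0 hL1 hγ
  set c : ℕ → ℕ → ℂ := h60_c Lam lo hi α with hc
  have hcH : ∀ m ∈ Nn, ∀ n ∈ Nn, ‖c m n‖ ≤ H := fun m _ n _ => h60_c_norm Lam H hLam lo hi α m n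
  have hcG : ∀ m ∈ Nn, ∀ n ∈ Nn, m ≠ n → ‖c m n‖ ^ 2 ≤ Gq ((m - n) + (n - m)) :=
    fun m _ n _ _ => h60_c_sq Lam lo hi α Gq hG3 m n
  have hN2 : ∀ n ∈ Nn, 1 ≤ n ∧ n ≤ Y := fun n hn => ⟨(hN n hn).1, (hN n hn).2.1⟩
  have hN3 : ∀ n ∈ Nn, 1 ≤ n ∧ n ≤ Y ∧ Squarefree n := fun n hn => ⟨(hN n hn).1, (hN n hn).2.1, (hN n hn).2.2.1⟩
  -- the expansion
  have hexp : ∀ T, |VV Lam Nn lo hi α T - mm Lam Nn lo hi| ^ (2 * k) =
      ‖∑ q ∈ cp Y, (rf T q.1 : ℂ) * (rf T q.2 : ℂ) * Psi Nn Y c q.1 q.2‖ ^ (2 * k) := by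
    intro T
    rw [← regroup Y Nn hN3 c T, hc, ← h60_expand Lam Nn lo hi α T (fun n hn => (hN n hn).2.2.1),
      Complex.norm_real, Real.norm_eq_abs]
  have hmom := pair_moment k hk S (cp Y) (fun q => Psi Nn Y c q.1 q.2)
    (by
      intro q hq
      rw [cp, Finset.mem_filter] at hq
      exact ⟨hq.2.2.1, hq.2.2.2.1, hq.2.2.2.2⟩)
    (by
      intro q hq hne
      rw [cp, Finset.mem_filter] at hq
      have h1 : ((Finset.Icc 1 Y).filter (fun g => g * q.1 ∈ Nn ∧ g * q.2 ∈ Nn)).Nonempty := by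
        rw [Finset.nonempty_iff_ne_empty]
        intro h0
        apply hne
        simp only [Psi]
        rw [h0, Finset.sum_empty]
      obtain ⟨g, hg⟩ := h1
      rw [Finset.mem_filter] at hg
      have h2 := hN _ hg.2.1
      have h3 := hN _ hg.2.2
      refine ⟨?_, ?_⟩
      · exact (Nat.primeFactors_mono (dvd_mul_left q.1 g) (by omega)).trans h2.2.2.2
      · exact (Nat.primeFactors_mono (dvd_mul_left q.2 g) (by omega)).trans h3.2.2.2)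
  have hav : av S (fun T => |VV Lam Nn lo hi α T - mm Lam Nn lo hi| ^ (2 * k)) ≤
      (∑ q ∈ cp Y, (4 * (k : ℝ)) ^ (om q.1 + om q.2) * ‖Psi Nn Y c q.1 q.2‖ ^ 2) ^ k := by
    refine le_trans (le_of_eq ?_) hmom
    exact av_congr fun T _ => hexp T
  refine hav.trans ?_
  refine pow_le_pow_left₀ (Finset.sum_nonneg fun q _ => by positivity) ?_ k
  -- first factor
  have hpsi : ∀ q ∈ cp Y, ‖Psi Nn Y c q.1 q.2‖ ^ 2 ≤ ((H : ℝ) * Y) ^ 2 / ((max q.1 q.2 : ℕ) : ℝ) ^ 2 := by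
    intro q hq
    rw [cp, Finset.mem_filter, Finset.mem_product, Finset.mem_Icc, Finset.mem_Icc] at hq
    have h1 := psi_le Y Nn hN2 c H hH0.le hcH q.1 q.2 hq.1.1.1 hq.1.2.1
    have hm : (0 : ℝ) < ((max q.1 q.2 : ℕ) : ℝ) := by
      have : 0 < max q.1 q.2 := lt_of_lt_of_le hq.1.1.1 (le_max_left _ _)
      exact_mod_cast this
    rw [le_div_iff₀ (by positivity), ← mul_pow]
    refine pow_le_pow_left₀ (by positivity) ?_ 2
    rw [mul_comm (H : ℝ)]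
    exact h1
  have hF1 : ∑ q ∈ cp Y, ((4 * (k : ℝ)) ^ (om q.1 + om q.2)) ^ (1 + η) * ‖Psi Nn Y c q.1 q.2‖ ^ 2 ≤
      18 * ((H : ℝ) * Y) ^ 2 * L0 ^ (2 * w + 5) := by
    have h1 : ∀ q ∈ cp Y, ((4 * (k : ℝ)) ^ (om q.1 + om q.2)) ^ (1 + η) * ‖Psi Nn Y c q.1 q.2‖ ^ 2 ≤
        ((H : ℝ) * Y) ^ 2 * ((w : ℝ) ^ (om q.1 + om q.2) / ((max q.1 q.2 : ℕ) : ℝ) ^ 2) := by
      intro q hq
      have h2 : ((4 * (k : ℝ)) ^ (om q.1 + om q.2)) ^ (1 + η) ≤ (w : ℝ) ^ (om q.1 + om q.2) := by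
        rw [← Real.rpow_natCast, ← Real.rpow_mul (by positivity), mul_comm (((om q.1 + om q.2 : ℕ)) : ℝ),
          Real.rpow_mul (by positivity), Real.rpow_natCast]
        exact pow_le_pow_left₀ (by positivity) hw _
      calc _ ≤ (w : ℝ) ^ (om q.1 + om q.2) * (((H : ℝ) * Y) ^ 2 / ((max q.1 q.2 : ℕ) : ℝ) ^ 2) :=
            mul_le_mul h2 (hpsi q hq) (by positivity) (by positivity)
        _ = _ := by ring
    refine (Finset.sum_le_sum h1).trans ?_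
    rw [← Finset.mul_sum]
    have h3 := omega_pairs w Y hY
    have h4 : (1 + Real.log Y) ^ (2 * w) ≤ L0 ^ (2 * w) := pow_le_pow_left₀ (by linarith) hL2 _
    have h5 : L0 ^ (2 * w) ≤ L0 ^ (2 * w + 5) := pow_le_pow_right₀ hL0 (by omega)
    calc ((H : ℝ) * Y) ^ 2 * _ ≤ ((H : ℝ) * Y) ^ 2 * (2 * (1 + Real.log Y) ^ (2 * w)) :=
          mul_le_mul_of_nonneg_left h3 (by positivity)
      _ ≤ ((H : ℝ) * Y) ^ 2 * (18 * L0 ^ (2 * w + 5)) := by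
          refine mul_le_mul_of_nonneg_left ?_ (by positivity)
          have : 0 ≤ L0 ^ (2 * w + 5) := by positivity
          linarith
      _ = _ := by ring
  -- second factor
  have hF2 : ∑ q ∈ cp Y, ‖Psi Nn Y c q.1 q.2‖ ^ 2 ≤
      18 * ((H : ℝ) * Y) ^ 2 * L0 ^ (2 * w + 5) * γ ^ (1 / 2 : ℝ) := by
    have h1 := psi_sum Y hY Nn hN2 c Gq hG0 hcG
    set D : ℝ := ∑ m ∈ Finset.Icc 1 Y, (m.divisors.card : ℝ) * Gq m with hD
    have hD0 : 0 ≤ D := Finset.sum_nonneg fun m _ => mul_nonneg (Nat.cast_nonneg _) (hG0 m)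
    have h2 : D ^ 2 ≤ (Y * L0 ^ 3) * ((9 * L0 ^ 2 * H ^ 2) * (9 * L0 ^ 2 * H ^ 2 * Y * γ)) := by
      have h3 : D ^ 2 ≤ (∑ m ∈ Finset.Icc 1 Y, (m.divisors.card : ℝ) ^ 2) * ∑ m ∈ Finset.Icc 1 Y, Gq m ^ 2 :=
        Finset.sum_mul_sq_le_sq_mul_sq _ _ _
      have h4 : ∑ m ∈ Finset.Icc 1 Y, (m.divisors.card : ℝ) ^ 2 ≤ Y * L0 ^ 3 := by
        refine (divisor_sq Y hY).trans ?_
        exact mul_le_mul_of_nonneg_left (pow_le_pow_left₀ (by linarith) hL2 3) hY0.le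
      have h5 : ∑ m ∈ Finset.Icc 1 Y, Gq m ^ 2 ≤ (9 * L0 ^ 2 * H ^ 2) * (9 * L0 ^ 2 * H ^ 2 * Y * γ) := by
        calc ∑ m ∈ Finset.Icc 1 Y, Gq m ^ 2 ≤ ∑ m ∈ Finset.Icc 1 Y, (9 * L0 ^ 2 * H ^ 2) * Gq m := by
              refine Finset.sum_le_sum fun m _ => ?_
              rw [sq]
              exact mul_le_mul_of_nonneg_right (hG1 m) (hG0 m)
          _ = (9 * L0 ^ 2 * H ^ 2) * ∑ m ∈ Finset.Icc 1 Y, Gq m := by rw [Finset.mul_sum]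
          _ ≤ _ := mul_le_mul_of_nonneg_left hG2 (by positivity)
      exact h3.trans (mul_le_mul h4 h5 (Finset.sum_nonneg fun m _ => sq_nonneg _) (by positivity))
    have hg : γ ^ (1 / 2 : ℝ) * γ ^ (1 / 2 : ℝ) = γ := by
      rw [← Real.rpow_add hγ0]
      norm_num
    have hg0 : 0 ≤ γ ^ (1 / 2 : ℝ) := Real.rpow_nonneg hγ0.le _
    have h3 : D ≤ 9 * L0 ^ 4 * H ^ 2 * Y * γ ^ (1 / 2 : ℝ) := by
      refine le_of_sq_le_sq ?_ (by positivity)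
      refine h2.trans ?_
      have e1 : (9 * L0 ^ 4 * H ^ 2 * Y * γ ^ (1 / 2 : ℝ)) ^ 2 =
          L0 * ((Y * L0 ^ 3) * ((9 * L0 ^ 2 * H ^ 2) * (9 * L0 ^ 2 * H ^ 2 * Y * (γ ^ (1 / 2 : ℝ) * γ ^ (1 / 2 : ℝ))))) := by
        ring
      rw [e1, hg]
      exact le_mul_of_one_le_left (by positivity) hL0
    calc ∑ q ∈ cp Y, ‖Psi Nn Y c q.1 q.2‖ ^ 2 ≤ 2 * Y * (1 + Real.log Y) * D := h1
      _ ≤ 2 * Y * L0 * (9 * L0 ^ 4 * H ^ 2 * Y * γ ^ (1 / 2 : ℝ)) := by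
          refine mul_le_mul ?_ h3 hD0 (by positivity)
          exact mul_le_mul_of_nonneg_left hL2 (by positivity)
      _ = 18 * ((H : ℝ) * Y) ^ 2 * L0 ^ 5 * γ ^ (1 / 2 : ℝ) := by ring
      _ ≤ _ := by
          have : L0 ^ 5 ≤ L0 ^ (2 * w + 5) := pow_le_pow_right₀ hL0 (by omega)
          gcongr
  have hH2 := h60_holder (cp Y) (fun q => ‖Psi Nn Y c q.1 q.2‖ ^ 2)
    (fun q => (4 * (k : ℝ)) ^ (om q.1 + om q.2)) η _ _ hη (fun q _ => by positivity)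
    (fun q _ => by positivity) hF1 hF2
  refine hH2.trans ?_
  set Z : ℝ := 18 * ((H : ℝ) * Y) ^ 2 * L0 ^ (2 * w + 5) with hZ
  have hZ0 : 0 < Z := by
    have : 0 < L0 := by linarith
    positivity
  rw [Real.mul_rpow hZ0.le (Real.rpow_nonneg hγ0.le _), ← Real.rpow_mul hγ0.le, ← mul_assoc,
    ← Real.rpow_add hZ0]
  have e1 : 1 / (1 + η) + η / (1 + η) = 1 := by field_simp
  rw [e1, Real.rpow_one]
  refine mul_le_mul_of_nonneg_left ?_ hZ0.le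
  refine Real.rpow_le_rpow_of_exponent_ge hγ0 hγ1 ?_
  rw [div_mul_div_comm, div_le_div_iff₀ (by norm_num) (by positivity)]
  nlinarith

end Pool.Agent.Helper5.RM
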