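import Pool.Agent.Helper5.RM.VL

/-!
# Block RM-DL: sums of `mn` for `Far` frequencies

Proof. Let `n = ⌊2N/D⌋ ≥ 2`. Dirichlet (`Real.exists_rat_abs_sub_le_and_den_le θ`, `n`): a rational `r` with
`|θ - r| ≤ 1/((n+1) r.den)`, `q = r.den ≤ n`. Then `nd (q θ) ≤ 1/(n+1) < D/(2N)`, and `Far` with `m = q` gives
`D ≤ q + D/2`, so `D/2 ≤ q ≤ 2N/D`. Now `vino`:
`4 (J/q + 1)(M + q (1 + log q)) ≤ 4 (2JM/D + J L + M + (2N/D) L)` with `L = LL N ≥ 1 + log q` (`q ≤ 2N/D ≤ N`).
-/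

set_option autoImplicit false

namespace Pool.Agent.Helper5.RM

open Finset

theorem dl (N : ℕ) (θ D : ℝ) (hD2 : 2 ≤ D) (hDN : D ≤ N) (hF : Far N θ D) (M : ℝ) (hM : 0 ≤ M) (J : ℕ) :
    ∑ j ∈ Finset.Icc 1 J, mn M (j * θ) ≤ 8 * LL N * (N / D + J + M + J * M / D) := by
  have hD0 : 0 < D := by linarith
  have hN0 : (0:ℝ) < N := by linarith
  have hN1 : (1:ℝ) ≤ N := by linarith
  set n : ℕ := ⌊2 * (N:ℝ) / D⌋₊ with hn
  have h2 : (2:ℝ) ≤ 2 * N / D := by
    rw [le_div_iff₀ hD0]; nlinarith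
  have hn2 : 2 ≤ n := by
    rw [hn]; apply Nat.le_floor; exact_mod_cast h2
  have hnle : (n:ℝ) ≤ 2 * N / D := Nat.floor_le (by positivity)
  have hnlt : 2 * (N:ℝ) / D < n + 1 := Nat.lt_floor_add_one _
  obtain ⟨r, hr1, hr2⟩ := Real.exists_rat_abs_sub_le_and_den_le θ (by omega : 0 < n)
  set q : ℕ := r.den with hq
  have hq0 : 0 < q := r.den_pos
  have hq0r : (0:ℝ) < q := by exact_mod_cast hq0
  have hqn : (q:ℝ) ≤ n := by exact_mod_cast hr2
  have hrdef : ((r : ℚ) : ℝ) = (r.num : ℝ) / q := by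
    rw [hq]; exact_mod_cast (Rat.num_div_den r).symm
  rw [hrdef] at hr1
  have hnd : nd (q * θ) ≤ 1 / (n + 1) := by
    unfold nd
    refine (round_le _ r.num).trans ?_
    have e1 : (q:ℝ) * θ - r.num = q * (θ - r.num / q) := by field_simp
    rw [e1, abs_mul, abs_of_pos hq0r]
    calc (q:ℝ) * |θ - r.num / q| ≤ q * (1 / ((n + 1) * q)) := by gcongr
      _ = 1 / (n + 1) := by field_simp
  have hqD : D / 2 ≤ q := by
    have h1 := hF q (by omega)
    have h3 : (N:ℝ) * nd (q * θ) ≤ D / 2 := by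
      calc (N:ℝ) * nd (q * θ) ≤ N * (1 / (n + 1)) := by gcongr
        _ ≤ D / 2 := by
            rw [mul_one_div, div_le_div_iff₀ (by positivity) (by norm_num)]
            rw [div_lt_iff₀ hD0] at hnlt
            linarith
    linarith
  have hcop : IsCoprime r.num (q : ℤ) := by
    rw [Int.isCoprime_iff_gcd_eq_one]
    exact r.reduced
  have happ : |θ - r.num / q| ≤ 1 / (q : ℝ) ^ 2 := by
    refine hr1.trans ?_
    apply one_div_le_one_div_of_le (by positivity)
    rw [sq]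
    gcongr
    linarith
  refine (vino θ r.num q (by omega) hcop happ M hM J).trans ?_
  have hqND : (q:ℝ) ≤ 2 * N / D := hqn.trans hnle
  have hqN : (q:ℝ) ≤ N := by
    refine hqND.trans ?_
    rw [div_le_iff₀ hD0]; nlinarith
  have hlog : 1 + Real.log q ≤ LL N := by
    unfold LL
    have := Real.log_le_log hq0r hqN
    linarith
  have hL1 : 1 ≤ LL N := by
    unfold LL
    have := Real.log_nonneg hN1
    linarith
  have hlog0 : 0 ≤ Real.log q := Real.log_nonneg (by exact_mod_cast hq0)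
  set L := LL N with hL
  have hJ0 : (0:ℝ) ≤ J := by positivity
  have hJq : (J:ℝ) / q ≤ 2 * J / D := by
    rw [div_le_div_iff₀ hq0r hD0]; nlinarith
  have hJq' : (J:ℝ) / q * q = J := by field_simp
  have t1 : (J:ℝ) / q * M ≤ 2 * J / D * M := by gcongr
  have t2 : (J:ℝ) / q * (q * (1 + Real.log q)) ≤ J * L := by
    calc (J:ℝ) / q * (q * (1 + Real.log q)) = ((J:ℝ) / q * q) * (1 + Real.log q) := by ring
      _ = J * (1 + Real.log q) := by rw [hJq']
      _ ≤ J * L := by gcongr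
  have t3 : (q:ℝ) * (1 + Real.log q) ≤ 2 * N / D * L := by gcongr
  have hND : 0 ≤ (N:ℝ) / D := by positivity
  have hJM : 0 ≤ (J:ℝ) * M / D := by positivity
  calc 4 * ((J : ℝ) / q + 1) * (M + q * (1 + Real.log q))
      = 4 * ((J:ℝ) / q * M + (J:ℝ) / q * (q * (1 + Real.log q)) + M + q * (1 + Real.log q)) := by ring
    _ ≤ 4 * (2 * J / D * M + J * L + M + 2 * N / D * L) := by gcongr
    _ = 8 * (J * M / D) + 4 * (J * L) + 4 * M + 8 * ((N / D) * L) := by ring
    _ ≤ 8 * L * (J * M / D) + 8 * (J * L) + 8 * L * M + 8 * ((N / D) * L) := by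
        have a1 : (J:ℝ) * M / D ≤ L * (J * M / D) := le_mul_of_one_le_left hJM hL1
        have a2 : M ≤ L * M := le_mul_of_one_le_left hM hL1
        have a3 : 0 ≤ (J:ℝ) * L := by positivity
        linarith [mul_nonneg (le_trans zero_le_one hL1) hM]
    _ = 8 * L * (N / D + J + M + J * M / D) := by ring

end Pool.Agent.Helper5.RM
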