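import Pool.Agent.Helper5.RM.Defs

/-!
# Block RM-GEO: geometric sums

Proof. `geo`: if `nd x = 0` then bound each term by `1` (number of terms `b + 1 - a` or `0`). Otherwise the
trivial bound and `|∑| = |e((b+1)x) - e(a x)| / |e(x) - 1| ≤ 2 / |e(x) - 1|`, `|e(x) - 1| = 2 |sin(pi x)| ≥ 4 nd x`
(`|sin (pi x)| = sin (pi nd x) ≥ 2 nd x` on `[0, 1/2]`, `Real.mul_le_sin` or Jordan's inequality in Mathlib).
`nd` facts: periodicity and evenness.
-/

set_option autoImplicit false

namespace Pool.Agent.Helper5.RM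

open Finset

private lemma GEO_norm_sub_one (x : ℝ) : 4 * nd x ≤ ‖e x - 1‖ := by
  have h0 : e x = e (x - round x) := by
    have h1 : e x = e (x - round x + (round x : ℝ)) := by rw [sub_add_cancel]
    rw [h1, e_add, e_int, mul_one]
  rw [h0]
  have hy : |x - round x| ≤ 1 / 2 := abs_sub_round x
  have hnd : nd x = |x - round x| := rfl
  rw [hnd]
  generalize x - round x = y at *
  have h2 : e y = Complex.exp (Complex.I * ((2 * Real.pi * y : ℝ) : ℂ)) := by
    unfold e
    congr 1
    push_cast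
    ring
  rw [h2, Complex.norm_exp_I_mul_ofReal_sub_one, Real.norm_eq_abs, abs_mul, abs_two]
  have h3 : 2 * Real.pi * y / 2 = Real.pi * y := by ring
  rw [h3]
  have hpi := Real.pi_pos
  have h4 : 2 / Real.pi * (Real.pi * |y|) ≤ Real.sin (Real.pi * |y|) := by
    apply Real.mul_le_sin (by positivity)
    nlinarith
  have h5 : 2 / Real.pi * (Real.pi * |y|) = 2 * |y| := by field_simp
  have h6 : Real.sin (Real.pi * |y|) ≤ |Real.sin (Real.pi * y)| := by
    rcases abs_cases y with ⟨h, _⟩ | ⟨h, _⟩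
    · rw [h]; exact le_abs_self _
    · rw [h, mul_neg, Real.sin_neg]; exact neg_le_abs _
  linarith [h4, h5, h6]

private lemma GEO_tele (a b : ℕ) (x : ℝ) (hab : a ≤ b) :
    (∑ m ∈ Finset.Icc a b, e (m * x)) * (e x - 1) = e (((b + 1 : ℕ) : ℝ) * x) - e (a * x) := by
  induction b, hab using Nat.le_induction with
  | base =>
    rw [Finset.Icc_self, Finset.sum_singleton, mul_sub, ← e_add, mul_one]
    congr 2
    push_cast
    ring
  | succ b hb ih =>
    rw [← Finset.insert_Icc_right_eq_Icc_add_one (by omega : a ≤ b + 1), Finset.sum_insert (by simp), add_mul, ih]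
    have h : e (((b + 1 : ℕ) : ℝ) * x) * (e x - 1) = e (((b + 1 + 1 : ℕ) : ℝ) * x) - e (((b + 1 : ℕ) : ℝ) * x) := by
      rw [mul_sub, ← e_add, mul_one]
      congr 2
      push_cast
      ring
    rw [h]
    ring


theorem geo (a b : ℕ) (M x : ℝ) (hM : 0 ≤ M) (h : (b : ℝ) + 1 - a ≤ M) :
    ‖∑ m ∈ Finset.Icc a b, e (m * x)‖ ≤ mn M x := by
  have htriv : ‖∑ m ∈ Finset.Icc a b, e (m * x)‖ ≤ M := by
    refine (norm_sum_le _ _).trans ?_
    simp only [norm_e, Finset.sum_const, Nat.card_Icc, nsmul_eq_mul, mul_one]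
    rcases le_total a (b + 1) with h1 | h1
    · rw [Nat.cast_sub h1]
      push_cast
      exact h
    · rw [Nat.sub_eq_zero_of_le h1]
      simpa using hM
  unfold mn
  split_ifs with h0
  · exact htriv
  · refine le_min htriv ?_
    have hpos : 0 < nd x := lt_of_le_of_ne (nd_nonneg x) (Ne.symm h0)
    rcases Nat.lt_or_ge b a with hba | hab
    · rw [Finset.Icc_eq_empty_of_lt hba, Finset.sum_empty, norm_zero]
      positivity
    · have h1 := GEO_tele a b x hab
      have h2 := GEO_norm_sub_one x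
      have h3 : ‖(∑ m ∈ Finset.Icc a b, e (m * x)) * (e x - 1)‖ ≤ 2 := by
        rw [h1]
        refine (norm_sub_le _ _).trans ?_
        rw [norm_e, norm_e]
        norm_num
      rw [norm_mul] at h3
      have h4 : ‖∑ m ∈ Finset.Icc a b, e (m * x)‖ * (4 * nd x) ≤ 2 :=
        (mul_le_mul_of_nonneg_left h2 (norm_nonneg _)).trans h3
      rw [le_div_iff₀ (by positivity)]
      linarith

theorem nd_add_int (x : ℝ) (m : ℤ) : nd (x + m) = nd x := by
  unfold nd
  rw [round_add_intCast]
  push_cast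
  congr 1
  ring

theorem nd_neg (x : ℝ) : nd (-x) = nd x := by
  have key : ∀ y : ℝ, nd (-y) ≤ nd y := by
    intro y
    refine (nd_le_abs_sub_int (-y) (-round y)).trans ?_
    unfold nd
    rw [← abs_neg (y - round y)]
    apply le_of_eq
    congr 1
    push_cast
    ring
  refine le_antisymm (key x) ?_
  have := key (-x)
  rwa [neg_neg] at this

theorem nd_sub_le (x y : ℝ) : nd x - |x - y| ≤ nd y := by
  have h1 := nd_le_abs_sub_int x (round y)
  have h2 : |x - round y| ≤ |x - y| + |y - round y| := abs_sub_le _ _ _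
  have h3 : nd y = |y - round y| := rfl
  linarith

theorem mn_neg (M x : ℝ) : mn M (-x) = mn M x := by
  unfold mn
  rw [nd_neg]

end Pool.Agent.Helper5.RM
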