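import Pool.Agent.Helper5.RM.AS

/-!
# The almost sure theorem for signs attached to the primes only
-/

set_option autoImplicit false

namespace Pool.Agent.Helper5.RM

open Finset MeasureTheory ProbabilityTheory

/-- extension of a family indexed by the primes to all naturals -/
noncomputable def ext {Ω : Type*} (ε : Nat.Primes → Ω → ℝ) (n : ℕ) (ω : Ω) : ℝ :=
  if h : n.Prime then ε ⟨n, h⟩ ω else 1

theorem meas_leP {Ω : Type*} [MeasurableSpace Ω] (μ : Measure Ω) [IsProbabilityMeasure μ] (ε : Nat.Primes → Ω → ℝ)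
    (hm : ∀ p, Measurable (ε p)) (hi : iIndepFun ε μ)
    (h2 : ∀ p, μ {ω | ε p ω = -1} = 1 / 2) (N : ℕ) (Q : Finset ℕ → Prop) :
    μ {ω | Q ((PP N).filter (fun p => ext ε p ω = -1))} ≤ ENNReal.ofReal (pr (PP N) Q) := by
  classical
  obtain ⟨S, hS⟩ : ∃ S : Finset ℕ, S = PP N := ⟨_, rfl⟩
  have hSp : ∀ p ∈ S, Nat.Prime p := by
    intro p hp
    rw [hS] at hp
    exact (Finset.mem_filter.1 hp).2
  rw [← hS]
  have hsub : {ω | Q (S.filter (fun p => ext ε p ω = -1))} ⊆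
      ⋃ T ∈ S.powerset.filter Q, {ω | S.filter (fun p => ext ε p ω = -1) = T} := by
    intro ω hω
    rw [Set.mem_iUnion₂]
    exact ⟨S.filter (fun p => ext ε p ω = -1),
      Finset.mem_filter.2 ⟨Finset.mem_powerset.2 (Finset.filter_subset _ _), hω⟩, rfl⟩
  have hB : ∀ T : Finset ℕ, ∀ p : Nat.Primes,
      μ (ε p ⁻¹' (if (p : ℕ) ∈ T then ({-1} : Set ℝ) else {-1}ᶜ)) = 1 / 2 := by
    intro T p
    by_cases hp : (p : ℕ) ∈ T
    · rw [if_pos hp]
      exact h2 p
    · rw [if_neg hp, Set.preimage_compl, measure_compl (hm p (measurableSet_singleton _)) (measure_ne_top _ _),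
        measure_univ]
      have h3 : μ (ε p ⁻¹' {-1}) = 1 / 2 := h2 p
      rw [h3]
      simp
  obtain ⟨S', hS', hcard⟩ : ∃ S' : Finset Nat.Primes, (∀ p ∈ S', (p : ℕ) ∈ S) ∧ S'.card = S.card := by
    have hc : (S.subtype Nat.Prime).card = S.card := by
      rw [Finset.card_subtype, Finset.filter_true_of_mem hSp]
    exact ⟨S.subtype Nat.Prime, fun p hp => Finset.mem_subtype.1 hp, hc⟩
  have hone : ∀ T : Finset ℕ, μ {ω | S.filter (fun p => ext ε p ω = -1) = T} ≤ (1 / 2) ^ S.card := by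
    intro T
    have h4 : {ω | S.filter (fun p => ext ε p ω = -1) = T} ⊆
        ⋂ p ∈ S', ε p ⁻¹' (if (p : ℕ) ∈ T then ({-1} : Set ℝ) else {-1}ᶜ) := by
      intro ω hω
      rw [Set.mem_iInter₂]
      intro p hp
      have hpS : (p : ℕ) ∈ S := hS' p hp
      have he : ext ε (p : ℕ) ω = ε p ω := by
        unfold ext
        rw [dif_pos p.2]
        rfl
      have h5 : S.filter (fun p => ext ε p ω = -1) = T := hω
      rw [← h5]
      by_cases h6 : ε p ω = -1
      · rw [if_pos (Finset.mem_filter.2 ⟨hpS, by rw [he]; exact h6⟩)]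
        exact h6
      · have h7 : (p : ℕ) ∉ S.filter (fun p => ext ε p ω = -1) := fun h7 => by
          have := (Finset.mem_filter.1 h7).2
          rw [he] at this
          exact h6 this
        rw [if_neg h7]
        exact h6
    refine (measure_mono h4).trans (le_of_eq ?_)
    rw [hi.measure_inter_preimage_eq_mul S'
      (sets := fun p => if (p : ℕ) ∈ T then ({-1} : Set ℝ) else {-1}ᶜ)
      (fun p _ => by
        by_cases hp : (p : ℕ) ∈ T
        · simp only [if_pos hp]; exact measurableSet_singleton _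
        · simp only [if_neg hp]; exact (measurableSet_singleton _).compl)]
    rw [Finset.prod_congr rfl fun p _ => hB T p, Finset.prod_const, hcard]
  calc μ {ω | Q (S.filter (fun p => ext ε p ω = -1))}
      ≤ μ (⋃ T ∈ S.powerset.filter Q, {ω | S.filter (fun p => ext ε p ω = -1) = T}) := measure_mono hsub
    _ ≤ ∑ T ∈ S.powerset.filter Q, μ {ω | S.filter (fun p => ext ε p ω = -1) = T} := measure_biUnion_finset_le _ _
    _ ≤ ∑ _T ∈ S.powerset.filter Q, (1 / 2) ^ S.card := Finset.sum_le_sum fun T _ => hone T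
    _ = ENNReal.ofReal (pr S Q) := by
        rw [Finset.sum_const, nsmul_eq_mul]
        unfold pr av
        rw [← Finset.sum_filter, Finset.sum_const, nsmul_eq_mul, mul_one,
          ENNReal.ofReal_div_of_pos (by positivity), ENNReal.ofReal_natCast, ENNReal.ofReal_pow (by norm_num)]
        have h8 : ENNReal.ofReal 2 = 2 := by norm_num
        rw [h8, div_eq_mul_inv _ ((2 : ENNReal) ^ _), one_div, ENNReal.inv_pow]

theorem almost_sureP : ∃ A : ℕ, ∀ {Ω : Type*} [MeasurableSpace Ω] (μ : Measure Ω) [IsProbabilityMeasure μ]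
    (ε : Nat.Primes → Ω → ℝ), (∀ p, Measurable (ε p)) → iIndepFun ε μ →
    (∀ p, μ {ω | ε p ω = -1} = 1 / 2) → (∀ p, μ {ω | ε p ω = 1} = 1 / 2) →
    ∀ᵐ ω ∂μ, ∃ C : ℝ, ∀ N : ℕ, 2 ≤ N → ∀ x : ℝ,
      ‖∑ n ∈ Finset.Icc 1 N, (rs (ext ε) ω n : ℂ) * e (n * x)‖ ≤ C * Real.sqrt N * Real.log N ^ A := by
  classical
  obtain ⟨A, N0, hA⟩ := unif
  refine ⟨A, ?_⟩
  intro Ω _ μ _ ε hm hi h2 h1
  -- all values are signs
  have hsign : ∀ᵐ ω ∂μ, ∀ p, ε p ω = -1 ∨ ε p ω = 1 := by
    rw [ae_all_iff]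
    intro p
    have hm1 : MeasurableSet {ω | ε p ω = -1} := hm p (measurableSet_singleton _)
    have hm2 : MeasurableSet {ω | ε p ω = 1} := hm p (measurableSet_singleton _)
    have hd : Disjoint {ω | ε p ω = -1} {ω | ε p ω = 1} := by
      rw [Set.disjoint_left]
      intro ω ha hb
      have ha' : ε p ω = -1 := ha
      have hb' : ε p ω = 1 := hb
      rw [ha'] at hb'
      norm_num at hb'
    have hu : μ ({ω | ε p ω = -1} ∪ {ω | ε p ω = 1}) = 1 := by
      rw [measure_union hd hm2, h2 p, h1 p]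
      exact ENNReal.add_halves 1
    have hu' := (mem_ae_iff_prob_eq_one (hm1.union hm2)).2 hu
    exact hu'
  -- the bad events
  let Q : ℕ → Finset ℕ → Prop := fun M T =>
    ∃ (N' : ℕ) (x : ℝ), N' ≤ M ∧ 3 * Real.sqrt M * LL M ^ A < ‖SN N' T x‖
  let s : ℕ → Set Ω := fun r =>
    {ω | Q (2 ^ (r + N0)) ((PP (2 ^ (r + N0))).filter (fun p => ext ε p ω = -1))}
  have hN0le : ∀ r : ℕ, N0 ≤ 2 ^ (r + N0) := by
    intro r
    have h3 : N0 ≤ 2 ^ N0 := (Nat.lt_two_pow_self).le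
    have h4 : 2 ^ N0 ≤ 2 ^ (r + N0) := Nat.pow_le_pow_right (by norm_num) (by omega)
    omega
  have hs : ∀ r, μ (s r) ≤ ENNReal.ofReal (76 * (1 / ((r : ℝ) + 1) ^ 2)) := by
    intro r
    refine (meas_leP μ ε hm hi h2 (2 ^ (r + N0)) (Q (2 ^ (r + N0)))).trans ?_
    apply ENNReal.ofReal_le_ofReal
    refine (hA (2 ^ (r + N0)) (hN0le r)).trans ?_
    have hLL : ((r : ℝ) + 1) / 2 ≤ LL (2 ^ (r + N0)) := by
      unfold LL
      push_cast
      rw [Real.log_pow]
      push_cast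
      have h5 := Real.log_two_gt_d9
      have h6 : (0 : ℝ) ≤ N0 := by positivity
      have h7 : (0 : ℝ) ≤ r := by positivity
      nlinarith
    have h8 : (0 : ℝ) < (r : ℝ) + 1 := by positivity
    have h9 : (((r : ℝ) + 1) / 2) ^ 2 ≤ LL (2 ^ (r + N0)) ^ 2 :=
      pow_le_pow_left₀ (by positivity) hLL 2
    have h10 : (0 : ℝ) < (((r : ℝ) + 1) / 2) ^ 2 := by positivity
    calc 19 / LL (2 ^ (r + N0)) ^ 2 ≤ 19 / (((r : ℝ) + 1) / 2) ^ 2 := by
          apply div_le_div_of_nonneg_left (by norm_num) h10 h9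
      _ = 76 * (1 / ((r : ℝ) + 1) ^ 2) := by field_simp; norm_num
  have hsum : ∑' r, μ (s r) ≠ ⊤ := by
    have hsm : Summable (fun r : ℕ => 76 * (1 / ((r : ℝ) + 1) ^ 2)) := by
      apply Summable.mul_left
      have h3 : Summable (fun r : ℕ => 1 / (r : ℝ) ^ 2) :=
        Real.summable_one_div_nat_pow.2 (by norm_num)
      have h4 := (summable_nat_add_iff 1).2 h3
      simpa using h4
    have h5 := hsm.tsum_ofReal_ne_top
    exact ne_top_of_le_ne_top h5 (ENNReal.tsum_le_tsum hs)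
  have hbc := ae_eventually_notMem hsum
  filter_upwards [hsign, hbc] with ω hω' hev
  have hω : ∀ p, ext ε p ω = -1 ∨ ext ε p ω = 1 := by
    intro p
    unfold ext
    split_ifs with h
    · exact hω' _
    · right; rfl
  obtain ⟨r0, hr0⟩ := Filter.eventually_atTop.1 hev
  refine ⟨6 * 4 ^ A + 2 ^ (r0 + N0) * 2 ^ A, ?_⟩
  intro N hN x
  have hlog2 := Real.log_two_gt_d9
  have hlogN : Real.log 2 ≤ Real.log N := Real.log_le_log (by norm_num) (by exact_mod_cast hN)
  have hlog0 : 0 < Real.log N := by linarith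
  have hN0' : (0 : ℝ) < N := by positivity
  have hs1 : 1 ≤ Real.sqrt N := by
    rw [Real.one_le_sqrt]
    exact_mod_cast (by omega : 1 ≤ N)
  by_cases hcase : 2 ^ (r0 + N0) ≤ N
  · -- large N
    set k := Nat.log 2 N with hk
    have hk1 : 2 ^ k ≤ N := Nat.pow_log_le_self 2 (by omega)
    have hk2 : N < 2 ^ (k + 1) := Nat.lt_pow_succ_log_self (by norm_num) N
    have hk3 : r0 + N0 ≤ k := (Nat.le_log_iff_pow_le (by norm_num) (by omega)).2 hcase
    have hnot := hr0 (k + 1 - N0) (by omega)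
    have hkk : k + 1 - N0 + N0 = k + 1 := by omega
    have hnot' : ¬ Q (2 ^ (k + 1)) ((PP (2 ^ (k + 1))).filter (fun p => ext ε p ω = -1)) := by
      rw [← hkk]
      exact hnot
    have hb : ‖SN N ((PP (2 ^ (k + 1))).filter (fun p => ext ε p ω = -1)) x‖ ≤
        3 * Real.sqrt ((2 ^ (k + 1) : ℕ) : ℝ) * LL (2 ^ (k + 1)) ^ A := by
      by_contra hcon
      push Not at hcon
      exact hnot' ⟨N, x, hk2.le, hcon⟩
    rw [AS_sum_eq (ext ε) ω hω (2 ^ (k + 1)) N hk2.le x]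
    refine hb.trans ?_
    have hM : 2 ^ (k + 1) ≤ 2 * N := by rw [pow_succ]; omega
    have hLLb := AS_LL_le hN (M := 2 ^ (k + 1)) (by positivity) hM
    have hLL0 : 0 ≤ LL (2 ^ (k + 1)) := by
      unfold LL
      have : 0 ≤ Real.log ((2 ^ (k + 1) : ℕ) : ℝ) := Real.log_natCast_nonneg _
      linarith
    have hsq : Real.sqrt ((2 ^ (k + 1) : ℕ) : ℝ) ≤ 2 * Real.sqrt N := by
      rw [show (2 : ℝ) * Real.sqrt N = Real.sqrt (4 * N) by
        rw [Real.sqrt_mul (by norm_num), show (4 : ℝ) = 2 ^ 2 by norm_num, Real.sqrt_sq (by norm_num)]]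
      apply Real.sqrt_le_sqrt
      have : ((2 ^ (k + 1) : ℕ) : ℝ) ≤ ((2 * N : ℕ) : ℝ) := by exact_mod_cast hM
      refine this.trans ?_
      push_cast
      linarith
    calc 3 * Real.sqrt ((2 ^ (k + 1) : ℕ) : ℝ) * LL (2 ^ (k + 1)) ^ A
        ≤ 3 * (2 * Real.sqrt N) * (4 * Real.log N) ^ A := by gcongr
      _ = 6 * 4 ^ A * Real.sqrt N * Real.log N ^ A := by rw [mul_pow]; ring
      _ ≤ (6 * 4 ^ A + 2 ^ (r0 + N0) * 2 ^ A) * Real.sqrt N * Real.log N ^ A := by
          gcongr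
          have : (0 : ℝ) ≤ 2 ^ (r0 + N0) * 2 ^ A := by positivity
          linarith
  · -- small N
    push Not at hcase
    rw [AS_sum_eq (ext ε) ω hω N N le_rfl x]
    refine (AS_SN_le _ _ _).trans ?_
    have h5 : (N : ℝ) ≤ 2 ^ (r0 + N0) := by exact_mod_cast hcase.le
    have h6 : (1 : ℝ) ≤ 2 ^ A * Real.log N ^ A := by
      rw [← mul_pow]
      apply one_le_pow₀
      linarith
    calc (N : ℝ) ≤ 2 ^ (r0 + N0) := h5
      _ = 2 ^ (r0 + N0) * 1 * 1 := by ring
      _ ≤ 2 ^ (r0 + N0) * Real.sqrt N * (2 ^ A * Real.log N ^ A) := by gcongr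
      _ = 2 ^ (r0 + N0) * 2 ^ A * Real.sqrt N * Real.log N ^ A := by ring
      _ ≤ (6 * 4 ^ A + 2 ^ (r0 + N0) * 2 ^ A) * Real.sqrt N * Real.log N ^ A := by
          gcongr
          have : (0 : ℝ) ≤ 6 * 4 ^ A := by positivity
          linarith

end Pool.Agent.Helper5.RM
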