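import Pool.Agent.Helper5.RM.Base

/-!
# Project RM (MP_b6b996_nt), further definitions
-/

set_option autoImplicit false

namespace Pool.Agent.Helper5.RM

open Finset

/-- number of prime factors -/
def om (n : ℕ) : ℕ := n.primeFactors.card

/-- pairs of different coprime squarefree numbers up to `Y` -/
noncomputable def cp (Y : ℕ) : Finset (ℕ × ℕ) :=
  (Finset.Icc 1 Y ×ˢ Finset.Icc 1 Y).filter
    (fun q => q.1 ≠ q.2 ∧ Nat.Coprime q.1 q.2 ∧ Squarefree q.1 ∧ Squarefree q.2)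

noncomputable def Psi (Nn : Finset ℕ) (Y : ℕ) (c : ℕ → ℕ → ℂ) (a b : ℕ) : ℂ :=
  ∑ g ∈ (Finset.Icc 1 Y).filter (fun g => g * a ∈ Nn ∧ g * b ∈ Nn), c (g * a) (g * b)

/-- the conditional variance of a dyadic block -/
noncomputable def VV (Lam Nn : Finset ℕ) (lo hi : ℕ → ℕ) (α : ℝ) (T : Finset ℕ) : ℝ :=
  ∑ l ∈ Lam, ‖∑ n ∈ Nn.filter (fun n => lo n ≤ l ∧ l ≤ hi n), (rf T n : ℂ) * e (l * n * α)‖ ^ 2

/-- the mean of `VV` -/
noncomputable def mm (Lam Nn : Finset ℕ) (lo hi : ℕ → ℕ) : ℝ :=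
  ∑ l ∈ Lam, ((Nn.filter (fun n => lo n ≤ l ∧ l ≤ hi n)).card : ℝ)

/-- the possible products of the largest primes of `n ≤ N`, taken until the product is at least `B` -/
noncomputable def LA (N B : ℕ) : Finset ℕ :=
  (Finset.Icc 1 N).filter (fun l => Squarefree l ∧ B ≤ l ∧ l / l.minFac < B)

/-- the cofactors of `l` -/
noncomputable def MS (N l : ℕ) : Finset ℕ :=
  (Finset.Icc 1 (N / l)).filter (fun m => Squarefree m ∧ ∀ p ∈ m.primeFactors, p < l.minFac)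

noncomputable def XX (N : ℕ) (x : ℝ) (l : ℕ) (T : Finset ℕ) : ℂ :=
  ∑ m ∈ MS N l, (rf T m : ℂ) * e (l * m * x)

/-- `l` in `LA N B` with all primes larger than `z` and exactly `i` primes -/
noncomputable def LI (N B z i : ℕ) : Finset ℕ :=
  (LA N B).filter (fun l => z < l.minFac ∧ om l = i)

/-- `l` in `LA N B` with smallest prime at most `z` -/
noncomputable def LZ (N B z : ℕ) : Finset ℕ := (LA N B).filter (fun l => l.minFac ≤ z)

/-- `1 + log N` -/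
noncomputable def LL (N : ℕ) : ℝ := 1 + Real.log N

/-- the bound of the block Z7 -/
noncomputable def E0 (N z W : ℕ) : ℝ :=
  Real.sqrt N * LL N ^ W +
    N * LL N ^ W * Real.exp (-(3 / 8) * Real.log N / Real.log z + 3 * W * (1 + Real.log z))

/-- `x` has no good rational approximation with small denominator: `D ≤ m + N * nd (m * x)` -/
def Far (N : ℕ) (x D : ℝ) : Prop := ∀ m : ℕ, 1 ≤ m → D ≤ m + N * nd (m * x)

/-- the largest `D` with `Far N x D` (when `x = j / N`) -/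
noncomputable def DD (N : ℕ) (x : ℝ) : ℝ :=
  if h : (Finset.Icc 1 N).Nonempty then (Finset.Icc 1 N).inf' h (fun m => (m : ℝ) + N * nd (m * x)) else 0

/-- the parameters of one pointwise estimate -/
structure Par (N : ℕ) (D : ℝ) (B z k w I : ℕ) (η : ℝ) : Prop where
  hD4 : 4 ≤ D
  hDN : D ≤ N
  hB36 : 36 ≤ B
  hBL : 128 * LL N ≤ B
  hBD : (B : ℝ) ^ 4 ≤ D
  hBN : (B : ℝ) ^ 8 ≤ N
  hz : 2 ≤ z
  hk : 1 ≤ k
  hη0 : 0 < η
  hη1 : η ≤ 1
  hw : (4 * (k : ℝ)) ^ (1 + η) ≤ w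
  hI : 1 ≤ I
  hIz : B ≤ z ^ I
  hIL : (I : ℝ) ≤ 2 * LL N
  hni : ∀ i : ℕ, 2 ≤ i → i ≤ I →
    Real.sqrt N + Real.exp 18 * N * LL N ^ 13 * Real.exp (-(3 / 8) * (i - 1) * Real.log N / Real.log B) ≤
      N / (10 * Real.log D) ^ i
  hfin : (E0 N z (2 * k - 1) / N) ^ k + 2 * I ^ 2 / D ^ 5 +
      2 * LL N * (18 * LL N ^ (2 * w + 5) * (128 * LL N / B) ^ (η / 4)) ^ k +
      I * (2 * B * LL N *
        (72 * LL N ^ (2 * w + 9) * (6 / Real.sqrt B) ^ (η / 4) * (10 * Real.log D) ^ (2 * I)) ^ k) ≤ 1 / D ^ 4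

end Pool.Agent.Helper5.RM
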