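import Pool.Agent.Helper5.RM.HC1

/-!
# Block RM-HC3: hypercontractivity for Walsh polynomials

Proof. Minkowski for `av`: for `F, G ≥ 0`, `c ≥ 0`, if `av S (F^k) ≤ a^k` and `av S (G^k) ≤ b^k` then
`av S ((F + c G)^k) ≤ (a + c b)^k` (from `Real.Lp_add_le` or from weighted AM-GM/convexity:
for `a, b > 0`, `((F + c G)/(a + c b))^k` is at most the convex combination of `(F/a)^k` and `(G/b)^k` with
weights `a/(a+cb)`, `cb/(a+cb)`; if `a = 0` or `b = 0` use `a + ε`, `b + ε`).
Induction on `S` (`Finset.induction_on`, statement for all `A`), with `av_insert`: for `q ∉ S`, `T ⊆ S`,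
`P(T) = ∑_{U ⊆ S} A U wal T U`, `R(T) = ∑_{U ⊆ S} A (insert q U) wal T U`; the polynomial at `T` is `P + R`
and at `insert q T` it is `P - R` (`wal_insert_left`, `wal_insert`, `sg_mem`, `sg_not_mem`). Use `two_point`
and Minkowski with `F = ‖P‖^2`, `G = ‖R‖^2`, `c = 2k-1`.
-/

set_option autoImplicit false

namespace Pool.Agent.Helper5.RM

open Finset

/-- Minkowski inequality for the averages -/
private lemma hc3_mink {k : ℕ} (hk : 1 ≤ k) (S : Finset ℕ) (F G : Finset ℕ → ℝ) {a b c : ℝ}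
    (hF : ∀ T ⊆ S, 0 ≤ F T) (hG : ∀ T ⊆ S, 0 ≤ G T) (ha : 0 ≤ a) (hb : 0 ≤ b) (hc : 0 ≤ c)
    (hFa : av S (fun T => F T ^ k) ≤ a ^ k) (hGb : av S (fun T => G T ^ k) ≤ b ^ k) :
    av S (fun T => (F T + c * G T) ^ k) ≤ (a + c * b) ^ k := by
  have hk0 : k ≠ 0 := by omega
  have key : ∀ (H : Finset ℕ → ℝ), (∀ T ⊆ S, 0 ≤ H T) → av S (fun T => H T ^ k) ≤ 0 →
      ∀ T ⊆ S, H T = 0 := by
    intro H hH h T hT
    unfold av at h
    have h2 : (0 : ℝ) < 2 ^ S.card := by positivity
    have h3 : ∑ T ∈ S.powerset, H T ^ k ≤ 0 := by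
      by_contra hcon
      push Not at hcon
      have := div_pos hcon h2
      linarith
    have h4 : H T ^ k ≤ ∑ T ∈ S.powerset, H T ^ k :=
      Finset.single_le_sum (f := fun T => H T ^ k)
        (fun U hU => pow_nonneg (hH U (Finset.mem_powerset.1 hU)) k) (Finset.mem_powerset.2 hT)
    have h5 : H T ^ k = 0 := le_antisymm (h4.trans h3) (pow_nonneg (hH T hT) k)
    exact pow_eq_zero_iff hk0 |>.1 h5
  rcases ha.eq_or_lt with ha0 | ha0
  · subst ha0
    rw [zero_pow hk0] at hFa
    have h1 := key F hF hFa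
    have h2 : av S (fun T => (F T + c * G T) ^ k) = c ^ k * av S (fun T => G T ^ k) := by
      rw [← av_mul_left]
      refine av_congr fun T hT => ?_
      rw [h1 T hT, zero_add, mul_pow]
    rw [h2, zero_add, mul_pow]
    exact mul_le_mul_of_nonneg_left hGb (pow_nonneg hc k)
  rcases hb.eq_or_lt with hb0 | hb0
  · subst hb0
    rw [zero_pow hk0] at hGb
    have h1 := key G hG hGb
    have h2 : av S (fun T => (F T + c * G T) ^ k) = av S (fun T => F T ^ k) := by
      refine av_congr fun T hT => ?_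
      rw [h1 T hT, mul_zero, add_zero]
    rw [h2, mul_zero, add_zero]
    exact hFa
  have hd : 0 < a + c * b := by positivity
  have h1 : av S (fun T => (F T + c * G T) ^ k) ≤
      av S (fun T => (a + c * b) ^ k * (a / (a + c * b) * (a ^ k)⁻¹) * F T ^ k +
        (a + c * b) ^ k * (c * b / (a + c * b) * (b ^ k)⁻¹) * G T ^ k) := by
    refine av_mono fun T hT => ?_
    have g1 : 0 ≤ F T / a := div_nonneg (hF T hT) ha
    have g2 : 0 ≤ G T / b := div_nonneg (hG T hT) hb
    have g3 : 0 ≤ a / (a + c * b) := by positivity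
    have g4 : 0 ≤ c * b / (a + c * b) := by positivity
    have g5 : a / (a + c * b) + c * b / (a + c * b) = 1 := by rw [← add_div, div_self hd.ne']
    have h2 := (convexOn_pow (𝕜 := ℝ) k).2 (Set.mem_Ici.2 g1) (Set.mem_Ici.2 g2) g3 g4 g5
    simp only [smul_eq_mul] at h2
    have h3 : a / (a + c * b) * (F T / a) + c * b / (a + c * b) * (G T / b) =
        (F T + c * G T) / (a + c * b) := by
      field_simp
    rw [h3, div_pow, div_le_iff₀ (pow_pos hd k), div_pow, div_pow] at h2
    refine h2.trans (le_of_eq ?_)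
    rw [div_eq_mul_inv (F T ^ k), div_eq_mul_inv (G T ^ k)]
    ring
  refine h1.trans ?_
  rw [av_add, av_mul_left, av_mul_left]
  have hak : 0 < a ^ k := pow_pos ha0 k
  have hbk : 0 < b ^ k := pow_pos hb0 k
  have h4 : (a + c * b) ^ k * (a / (a + c * b) * (a ^ k)⁻¹) * av S (fun T => F T ^ k) ≤
      (a + c * b) ^ k * (a / (a + c * b) * (a ^ k)⁻¹) * a ^ k :=
    mul_le_mul_of_nonneg_left hFa (by positivity)
  have h5 : (a + c * b) ^ k * (c * b / (a + c * b) * (b ^ k)⁻¹) * av S (fun T => G T ^ k) ≤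
      (a + c * b) ^ k * (c * b / (a + c * b) * (b ^ k)⁻¹) * b ^ k :=
    mul_le_mul_of_nonneg_left hGb (by positivity)
  refine (add_le_add h4 h5).trans (le_of_eq ?_)
  have h6 : (a + c * b) ^ k * (a / (a + c * b) * (a ^ k)⁻¹) * a ^ k =
      (a + c * b) ^ k * (a / (a + c * b)) * ((a ^ k)⁻¹ * a ^ k) := by ring
  have h7 : (a + c * b) ^ k * (c * b / (a + c * b) * (b ^ k)⁻¹) * b ^ k =
      (a + c * b) ^ k * (c * b / (a + c * b)) * ((b ^ k)⁻¹ * b ^ k) := by ring
  rw [h6, h7, inv_mul_cancel₀ hak.ne', inv_mul_cancel₀ hbk.ne', mul_one, mul_one, ← mul_add, ← add_div,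
    div_self hd.ne', mul_one]

theorem hyper (k : ℕ) (hk : 1 ≤ k) (S : Finset ℕ) (A : Finset ℕ → ℂ) :
    av S (fun T => ‖∑ U ∈ S.powerset, A U * (wal T U : ℂ)‖ ^ (2 * k)) ≤
      (∑ U ∈ S.powerset, (2 * (k : ℝ) - 1) ^ U.card * ‖A U‖ ^ 2) ^ k := by
  have hk1 : (1 : ℝ) ≤ k := by exact_mod_cast hk
  have hr : (0 : ℝ) ≤ 2 * (k : ℝ) - 1 := by linarith
  induction S using Finset.induction_on generalizing A with
  | empty =>
    rw [av_empty]
    simp [wal_empty, pow_mul]
  | insert q S hq ih =>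
    rw [av_insert hq]
    set P : Finset ℕ → ℂ := fun T => ∑ U ∈ S.powerset, A U * (wal T U : ℂ) with hP
    set R : Finset ℕ → ℂ := fun T => ∑ U ∈ S.powerset, A (insert q U) * (wal T U : ℂ) with hR
    have e1 : av S (fun T => ‖∑ U ∈ (insert q S).powerset, A U * (wal T U : ℂ)‖ ^ (2 * k)) =
        av S (fun T => ‖P T + R T‖ ^ (2 * k)) := by
      refine av_congr fun T hT => ?_
      have hqT : q ∉ T := fun h => hq (hT h)
      rw [Finset.sum_powerset_insert hq]
      congr 2
      simp only [hP, hR]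
      congr 1
      refine Finset.sum_congr rfl fun U hU => ?_
      have hqU : q ∉ U := fun h => hq ((Finset.mem_powerset.1 hU) h)
      rw [wal_insert hqU, sg_not_mem hqT, one_mul]
    have e2 : av S (fun T => ‖∑ U ∈ (insert q S).powerset, A U * (wal (insert q T) U : ℂ)‖ ^ (2 * k)) =
        av S (fun T => ‖P T - R T‖ ^ (2 * k)) := by
      refine av_congr fun T hT => ?_
      rw [Finset.sum_powerset_insert hq]
      congr 2
      simp only [hP, hR]
      rw [sub_eq_add_neg, ← Finset.sum_neg_distrib]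
      congr 1
      · refine Finset.sum_congr rfl fun U hU => ?_
        have hqU : q ∉ U := fun h => hq ((Finset.mem_powerset.1 hU) h)
        rw [wal_insert_left hqU]
      · refine Finset.sum_congr rfl fun U hU => ?_
        have hqU : q ∉ U := fun h => hq ((Finset.mem_powerset.1 hU) h)
        rw [wal_insert hqU, sg_mem (Finset.mem_insert_self q T), wal_insert_left hqU]
        push_cast
        ring
    have e3 : (av S (fun T => ‖∑ U ∈ (insert q S).powerset, A U * (wal T U : ℂ)‖ ^ (2 * k)) +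
        av S (fun T => ‖∑ U ∈ (insert q S).powerset, A U * (wal (insert q T) U : ℂ)‖ ^ (2 * k))) / 2 =
        av S (fun T => (‖P T + R T‖ ^ (2 * k) + ‖P T - R T‖ ^ (2 * k)) / 2) := by
      rw [e1, e2, ← av_add, div_eq_inv_mul, ← av_mul_left]
      refine av_congr fun T _ => ?_
      ring
    rw [e3]
    have e4 : av S (fun T => (‖P T + R T‖ ^ (2 * k) + ‖P T - R T‖ ^ (2 * k)) / 2) ≤
        av S (fun T => (‖P T‖ ^ 2 + (2 * (k : ℝ) - 1) * ‖R T‖ ^ 2) ^ k) :=
      av_mono fun T _ => two_point k hk (P T) (R T)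
    refine e4.trans ?_
    have i1 : av S (fun T => (‖P T‖ ^ 2) ^ k) ≤
        (∑ U ∈ S.powerset, (2 * (k : ℝ) - 1) ^ U.card * ‖A U‖ ^ 2) ^ k := by
      have := ih A
      refine le_trans (le_of_eq ?_) this
      refine av_congr fun T _ => ?_
      rw [← pow_mul]
    have i2 : av S (fun T => (‖R T‖ ^ 2) ^ k) ≤
        (∑ U ∈ S.powerset, (2 * (k : ℝ) - 1) ^ U.card * ‖A (insert q U)‖ ^ 2) ^ k := by
      have := ih (fun U => A (insert q U))
      refine le_trans (le_of_eq ?_) this
      refine av_congr fun T _ => ?_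
      rw [← pow_mul]
    have e5 := hc3_mink hk S (fun T => ‖P T‖ ^ 2) (fun T => ‖R T‖ ^ 2)
      (fun T _ => by positivity) (fun T _ => by positivity)
      (Finset.sum_nonneg fun U _ => by positivity) (Finset.sum_nonneg fun U _ => by positivity) hr i1 i2
    refine e5.trans (le_of_eq ?_)
    congr 1
    rw [Finset.sum_powerset_insert hq, Finset.mul_sum]
    congr 1
    refine Finset.sum_congr rfl fun U hU => ?_
    have hqU : q ∉ U := fun h => hq ((Finset.mem_powerset.1 hU) h)
    rw [Finset.card_insert_of_notMem hqU, pow_succ]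
    ring

end Pool.Agent.Helper5.RM
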