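import Pool.Agent.Helper5.RM.GEO

/-!
# Block RM-NET1: the quantity `DD` at the points `j / N`

Proof. `DD_far`: for `m ≤ N` by definition of the infimum; for `m > N`: `DD ≤ N < m` (`DD_le`, from `m = N`: `nd (N * (j/N)) = 0`). `DD_ge_one`: `1 ≤ m`.
`DD_count`: if `DD N (j/N) < Y` there is `1 ≤ m < Y` (so `m ≤ ⌊Y⌋`) with `N * nd (m j / N) < Y`, i.e. `m j ≡ h (mod N)` with an integer `|h| < Y`.
For given `m` let `g = gcd m N ≤ m`: each residue class `m j mod N` is taken by at most `g` values `j ∈ [0, N)`, and only classes `h` divisible by `g`;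
the number of integers `|h| < Y` divisible by `g` is at most `2Y/g + 1`. So at most `g (2Y/g + 1) = 2Y + g ≤ 3Y` values `j`. Sum over
`m ≤ Y`: at most `3 Y^2`.
-/

set_option autoImplicit false

namespace Pool.Agent.Helper5.RM

open Finset

private lemma net1_ne (N : ℕ) (hN : 1 ≤ N) : (Finset.Icc 1 N).Nonempty :=
  ⟨1, Finset.mem_Icc.2 ⟨le_refl 1, hN⟩⟩

private lemma net1_DD (N : ℕ) (hN : 1 ≤ N) (x : ℝ) :
    DD N x = (Finset.Icc 1 N).inf' (net1_ne N hN) (fun m => (m : ℝ) + N * nd (m * x)) := by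
  unfold DD
  rw [dif_pos (net1_ne N hN)]

theorem DD_le (N : ℕ) (hN : 1 ≤ N) (j : ℕ) : DD N (j / N) ≤ N := by
  rw [net1_DD N hN]
  refine (Finset.inf'_le _ (Finset.mem_Icc.2 ⟨hN, le_refl N⟩)).trans ?_
  have hN0 : (N : ℝ) ≠ 0 := by
    have : 0 < N := hN
    positivity
  have h1 : nd ((N : ℝ) * ((j : ℝ) / N)) = 0 := by
    rw [mul_div_cancel₀ _ hN0]
    unfold nd
    rw [round_natCast]
    simp
  rw [h1]
  simp

theorem DD_ge_one (N : ℕ) (hN : 1 ≤ N) (x : ℝ) : 1 ≤ DD N x := by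
  rw [net1_DD N hN]
  refine Finset.le_inf' _ _ fun m hm => ?_
  have h1 : (1 : ℝ) ≤ m := by exact_mod_cast (Finset.mem_Icc.1 hm).1
  have h2 : 0 ≤ (N : ℝ) * nd (m * x) := mul_nonneg (Nat.cast_nonneg N) (nd_nonneg _)
  linarith

theorem DD_far (N : ℕ) (hN : 1 ≤ N) (j : ℕ) : Far N (j / N) (DD N (j / N)) := by
  intro m hm
  have h2 : 0 ≤ (N : ℝ) * nd (m * ((j : ℝ) / N)) := mul_nonneg (Nat.cast_nonneg N) (nd_nonneg _)
  rcases le_or_gt m N with h | h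
  · rw [net1_DD N hN]
    exact Finset.inf'_le (fun m : ℕ => (m : ℝ) + N * nd (m * ((j : ℝ) / N))) (Finset.mem_Icc.2 ⟨hm, h⟩)
  · have h1 := DD_le N hN j
    have h3 : (N : ℝ) ≤ m := by exact_mod_cast h.le
    linarith

/-- the candidates for one `m` -/
private noncomputable def net1B (N m : ℕ) (Y : ℝ) : Finset ℕ :=
  ((Finset.range m).biUnion (fun q : ℕ =>
    Finset.Icc ⌈(q : ℝ) * N / m - Y / m⌉ ⌊(q : ℝ) * N / m + Y / m⌋)).image (fun j : ℤ => (j % (N : ℤ)).toNat)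

private lemma net1_icc (x y : ℝ) (hy : 0 ≤ y) : ((Finset.Icc ⌈x - y⌉ ⌊x + y⌋).card : ℝ) ≤ 2 * y + 1 := by
  rw [Int.card_Icc]
  rcases le_total 0 (⌊x + y⌋ + 1 - ⌈x - y⌉) with h | h
  · have h1 : (((⌊x + y⌋ + 1 - ⌈x - y⌉).toNat : ℤ) : ℝ) = ((⌊x + y⌋ + 1 - ⌈x - y⌉ : ℤ) : ℝ) := by
      rw [Int.toNat_of_nonneg h]
    rw [Int.cast_natCast] at h1
    rw [h1]
    push_cast
    have h2 := Int.floor_le (x + y)
    have h3 := Int.le_ceil (x - y)
    linarith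
  · rw [Int.toNat_of_nonpos h]
    push_cast
    linarith

private lemma net1_card (N m : ℕ) (Y : ℝ) (hm : 1 ≤ m) (hY : 0 ≤ Y) (hmY : (m : ℝ) ≤ Y) :
    ((net1B N m Y).card : ℝ) ≤ 3 * Y := by
  have hm0 : (0 : ℝ) < m := by exact_mod_cast hm
  have h1 : ((net1B N m Y).card : ℝ) ≤ ∑ q ∈ Finset.range m,
      ((Finset.Icc ⌈(q : ℝ) * N / m - Y / m⌉ ⌊(q : ℝ) * N / m + Y / m⌋).card : ℝ) := by
    have h2 : (net1B N m Y).card ≤ ∑ q ∈ Finset.range m,
        (Finset.Icc ⌈(q : ℝ) * N / m - Y / m⌉ ⌊(q : ℝ) * N / m + Y / m⌋).card :=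
      (Finset.card_image_le (s := (Finset.range m).biUnion (fun q : ℕ =>
        Finset.Icc ⌈(q : ℝ) * N / m - Y / m⌉ ⌊(q : ℝ) * N / m + Y / m⌋))
        (f := fun j : ℤ => (j % (N : ℤ)).toNat)).trans Finset.card_biUnion_le
    exact_mod_cast h2
  refine h1.trans ?_
  refine (Finset.sum_le_sum (g := fun _ : ℕ => 2 * (Y / m) + 1) fun (q : ℕ) _ =>
    net1_icc ((q : ℝ) * N / m) (Y / m) (by positivity)).trans ?_
  rw [Finset.sum_const, Finset.card_range, nsmul_eq_mul]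
  have h3 : (m : ℝ) * (2 * (Y / m) + 1) = 2 * Y + m := by
    field_simp
  rw [h3]
  linarith

private lemma net1_mem (N : ℕ) (hN : 1 ≤ N) (Y : ℝ) (j : ℕ) (hj : j < N) (h : DD N ((j : ℝ) / N) < Y) :
    ∃ m ∈ Finset.Icc 1 ⌊Y⌋₊, j ∈ net1B N m Y := by
  have hN0 : (0 : ℝ) < N := by exact_mod_cast hN
  rw [net1_DD N hN, Finset.inf'_lt_iff] at h
  obtain ⟨m, hm, h⟩ := h
  have hm1 := (Finset.mem_Icc.1 hm).1
  have hm0 : (0 : ℝ) < m := by exact_mod_cast hm1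
  have hnn : 0 ≤ (N : ℝ) * nd (m * ((j : ℝ) / N)) := mul_nonneg (Nat.cast_nonneg N) (nd_nonneg _)
  have hmY : (m : ℝ) ≤ Y := by linarith
  refine ⟨m, Finset.mem_Icc.2 ⟨hm1, Nat.le_floor hmY⟩, ?_⟩
  set q' : ℤ := round ((m : ℝ) * ((j : ℝ) / N)) with hq'
  have habs : |(m : ℝ) * j - q' * N| < Y := by
    have h1 : |(m : ℝ) * j - q' * N| = N * nd (m * ((j : ℝ) / N)) := by
      unfold nd
      rw [← hq']
      have h2 : (m : ℝ) * j - q' * N = N * (m * ((j : ℝ) / N) - q') := by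
        field_simp
      rw [h2, abs_mul, abs_of_pos hN0]
    rw [h1]
    linarith
  set t : ℤ := q' / m with ht
  set q : ℤ := q' % m with hq
  have hq0 : 0 ≤ q := Int.emod_nonneg _ (by exact_mod_cast (by omega : m ≠ 0))
  have hqm : q < m := Int.emod_lt_of_pos _ (by exact_mod_cast hm1)
  have hqt : q' = q + m * t := by
    rw [hq, ht]
    exact (Int.emod_add_mul_ediv q' m).symm
  unfold net1B
  rw [Finset.mem_image]
  refine ⟨(j : ℤ) - N * t, ?_, ?_⟩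
  · rw [Finset.mem_biUnion]
    refine ⟨q.toNat, ?_, ?_⟩
    · rw [Finset.mem_range]
      omega
    · have hc : ((q.toNat : ℕ) : ℝ) = (q : ℝ) := by
        have : ((q.toNat : ℕ) : ℤ) = q := Int.toNat_of_nonneg hq0
        exact_mod_cast congrArg (fun z : ℤ => (z : ℝ)) this
      rw [hc]
      have hqt' : (q' : ℝ) = q + m * t := by exact_mod_cast hqt
      rw [hqt'] at habs
      have h3 := abs_lt.1 habs
      rw [Finset.mem_Icc, Int.ceil_le, Int.le_floor]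
      push_cast
      rw [← sub_div, ← add_div, div_le_iff₀ hm0, le_div_iff₀ hm0]
      constructor <;> nlinarith [h3.1, h3.2]
  · have h4 : ((j : ℤ) - N * t) % (N : ℤ) = j := by
      rw [Int.sub_mul_emod_self_left]
      exact Int.emod_eq_of_lt (by positivity) (by exact_mod_cast hj)
    show (((j : ℤ) - N * t) % (N : ℤ)).toNat = j
    rw [h4]
    simp

theorem DD_count (N : ℕ) (hN : 1 ≤ N) (Y : ℝ) (hY : 1 ≤ Y) :
    (((Finset.range N).filter (fun j : ℕ => DD N ((j : ℝ) / N) < Y)).card : ℝ) ≤ 3 * Y ^ 2 := by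
  have h1 : (Finset.range N).filter (fun j : ℕ => DD N ((j : ℝ) / N) < Y) ⊆
      (Finset.Icc 1 ⌊Y⌋₊).biUnion (fun m => net1B N m Y) := by
    intro j hj
    rw [Finset.mem_filter, Finset.mem_range] at hj
    rw [Finset.mem_biUnion]
    exact net1_mem N hN Y j hj.1 hj.2
  have h2 : (((Finset.range N).filter (fun j : ℕ => DD N ((j : ℝ) / N) < Y)).card : ℝ) ≤
      ∑ m ∈ Finset.Icc 1 ⌊Y⌋₊, ((net1B N m Y).card : ℝ) := by
    exact_mod_cast (Finset.card_le_card h1).trans Finset.card_biUnion_le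
  refine h2.trans ?_
  have h3 : ∑ m ∈ Finset.Icc 1 ⌊Y⌋₊, ((net1B N m Y).card : ℝ) ≤ ∑ m ∈ Finset.Icc 1 ⌊Y⌋₊, 3 * Y := by
    refine Finset.sum_le_sum fun m hm => ?_
    rw [Finset.mem_Icc] at hm
    refine net1_card N m Y hm.1 (by linarith) ?_
    exact (Nat.cast_le.2 hm.2).trans (Nat.floor_le (by linarith))
  refine h3.trans ?_
  rw [Finset.sum_const, Nat.card_Icc, nsmul_eq_mul, Nat.add_sub_cancel]
  have h4 : ((⌊Y⌋₊ : ℕ) : ℝ) ≤ Y := Nat.floor_le (by linarith)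
  nlinarith

end Pool.Agent.Helper5.RM
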