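import Pool.Agent.Helper5.RM.Defs

/-!
# Block RM-DEC: decomposition by the largest primes

Proof. `dec_sum`: every squarefree `n ≥ B` is uniquely `n = l m` with `l ∈ LA N B`, `m ∈ MS N l`: order the primes of `n`
decreasingly, `l` is the product of the largest ones taken until the product is at least `B`. (Existence: among the divisors
`l_y = ∏ p ∣ n, p ≥ y` take the largest prime `y` of `n` with `B ≤ l_y`; then `l_y.minFac = y`, `l_y / y < B`. Uniqueness: if
`n = l m = l' m'` with `l.minFac ≤ l'.minFac` then `l = ∏ p ∣ n, p ≥ l.minFac`, same for `l'`; if `l.minFac < l'.minFac` then `l'` divides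
`l / l.minFac < B`, contradiction with `B ≤ l'`.) `l` and `m` are coprime. Note `B ≥ 2` so `l ≥ 2`.
Equivalently induct or use `Finset.sum_bij'` with `n ↦ (l, m)`.
`dec_SN`: `rf T (l m) = rf T l * rf T m` (`rf_mul`), terms with `n` not squarefree vanish.
`XX_pred`: `rf T m` for `m ∈ MS N l` depends only on primes `< l.minFac ≤ p` (`wal_filter`).
-/

set_option autoImplicit false

namespace Pool.Agent.Helper5.RM

open Finset

theorem dec_coprime {N l m : ℕ} (hm : m ∈ MS N l) : Nat.Coprime l m := by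
  unfold MS at hm
  rw [Finset.mem_filter, Finset.mem_Icc] at hm
  obtain ⟨⟨h1, _⟩, _, h3⟩ := hm
  refine Nat.Coprime.symm ?_
  rw [Nat.coprime_iff_gcd_eq_one] at *
  by_contra hne
  obtain ⟨p, hp, hpd⟩ := Nat.exists_prime_and_dvd hne
  have hpm : p ∣ m := hpd.trans (Nat.gcd_dvd_left _ _)
  have hpl : p ∣ l := hpd.trans (Nat.gcd_dvd_right _ _)
  have h4 := h3 p (Nat.mem_primeFactors.2 ⟨hp, hpm, by omega⟩)
  have h5 := Nat.minFac_le_of_dvd hp.two_le hpl
  omega

private lemma DEC_dvd_of_primes {a b : ℕ} (ha : Squarefree a) (hb : b ≠ 0)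
    (h : ∀ p, p.Prime → p ∣ a → p ∣ b) : a ∣ b := by
  have h1 : a.primeFactors ⊆ b.primeFactors := by
    intro p hp
    rw [Nat.mem_primeFactors] at hp ⊢
    exact ⟨hp.1, h p hp.1 hp.2.1, hb⟩
  have h2 : ∏ p ∈ a.primeFactors, p ∣ ∏ p ∈ b.primeFactors, p := Finset.prod_dvd_prod_of_subset _ _ _ h1
  rw [Nat.prod_primeFactors_of_squarefree ha] at h2
  exact h2.trans (Nat.prod_primeFactors_dvd b)

/-- existence of the decomposition -/
private lemma DEC_exists (B : ℕ) (hB : 2 ≤ B) : ∀ n : ℕ, Squarefree n → B ≤ n →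
    ∃ l m : ℕ, l * m = n ∧ B ≤ l ∧ l / l.minFac < B ∧ ∀ p, p.Prime → p ∣ m → p < l.minFac := by
  intro n
  induction n using Nat.strong_induction_on with
  | _ n ih =>
    intro hn hBn
    by_cases hlt : n / n.minFac < B
    · exact ⟨n, 1, mul_one n, hBn, hlt, fun p hp h1 => absurd (Nat.dvd_one.1 h1) hp.one_lt.ne'⟩
    · push Not at hlt
      have hq : n.minFac.Prime := Nat.minFac_prime (by omega)
      have hd : n.minFac ∣ n := Nat.minFac_dvd n
      have hmul : n.minFac * (n / n.minFac) = n := Nat.mul_div_cancel' hd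
      have hlt' : n / n.minFac < n := Nat.div_lt_self (by omega) hq.one_lt
      have hsq : Squarefree (n / n.minFac) := hn.squarefree_of_dvd (Nat.div_dvd_of_dvd hd)
      obtain ⟨l, m, h1, h2, h3, h4⟩ := ih _ hlt' hsq hlt
      have hl2 : l ≠ 1 := by omega
      have hlp : l.minFac.Prime := Nat.minFac_prime hl2
      have hlq : n.minFac < l.minFac := by
        have hld : l.minFac ∣ n := (Nat.minFac_dvd l).trans ((Dvd.intro _ h1).trans (Nat.div_dvd_of_dvd hd))
        have hle : n.minFac ≤ l.minFac := Nat.minFac_le_of_dvd hlp.two_le hld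
        refine lt_of_le_of_ne hle fun heq => ?_
        have h5 : n.minFac ∣ n / n.minFac := by
          conv_lhs => rw [heq]
          exact (Nat.minFac_dvd l).trans (Dvd.intro _ h1)
        have h6 : n.minFac * n.minFac ∣ n := by
          conv_rhs => rw [← hmul]
          exact Nat.mul_dvd_mul_left _ h5
        exact hq.one_lt.ne' (Nat.isUnit_iff.1 (hn _ h6))
      refine ⟨l, m * n.minFac, ?_, h2, h3, ?_⟩
      · rw [← mul_assoc, h1, mul_comm, hmul]
      · intro p hp hpd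
        rcases (Nat.Prime.dvd_mul hp).1 hpd with h | h
        · exact h4 p hp h
        · rw [(Nat.prime_dvd_prime_iff_eq hp hq).1 h]
          exact hlq

private lemma DEC_le {N B l m l' m' : ℕ} (hB : 2 ≤ B) (hl : l ∈ LA N B) (hm : m ∈ MS N l)
    (hl' : l' ∈ LA N B) (h : l * m = l' * m') (hle : l.minFac ≤ l'.minFac) :
    l' ∣ l ∧ l.minFac = l'.minFac := by
  unfold LA at hl hl'
  unfold MS at hm
  rw [Finset.mem_filter, Finset.mem_Icc] at hl hl' hm
  obtain ⟨⟨hl1, _⟩, hls, hlB, hlm⟩ := hl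
  obtain ⟨⟨hl1', _⟩, hls', hlB', _⟩ := hl'
  obtain ⟨⟨hm1, _⟩, _, hmp⟩ := hm
  have hpr : ∀ p, p.Prime → p ∣ l' → p ∣ l := by
    intro p hp hpl
    have h1 : p ∣ l * m := by rw [h]; exact hpl.mul_right m'
    rcases (Nat.Prime.dvd_mul hp).1 h1 with h2 | h2
    · exact h2
    · have h3 := hmp p (Nat.mem_primeFactors.2 ⟨hp, h2, by omega⟩)
      have h4 := Nat.minFac_le_of_dvd hp.two_le hpl
      omega
  have hdvd : l' ∣ l := DEC_dvd_of_primes hls' (by omega) hpr
  refine ⟨hdvd, ?_⟩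
  by_contra hne
  have hlt : l.minFac < l'.minFac := lt_of_le_of_ne hle hne
  have hq : l.minFac.Prime := Nat.minFac_prime (by omega)
  have hcop : Nat.Coprime l' l.minFac := by
    rw [Nat.coprime_comm, Nat.Prime.coprime_iff_not_dvd hq]
    intro h1
    have := Nat.minFac_le_of_dvd hq.two_le h1
    omega
  have hmul : l.minFac * (l / l.minFac) = l := Nat.mul_div_cancel' (Nat.minFac_dvd l)
  have h2 : l' ∣ l / l.minFac := by
    apply hcop.dvd_of_dvd_mul_left
    rw [hmul]; exact hdvd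
  have h3 : 0 < l / l.minFac := Nat.div_pos (Nat.minFac_le (by omega)) hq.pos
  have := Nat.le_of_dvd h3 h2
  omega

/-- the map `(l, m) ↦ l * m` is injective -/
private lemma DEC_inj (N B : ℕ) (hB : 2 ≤ B) {l m l' m' : ℕ} (hl : l ∈ LA N B) (hm : m ∈ MS N l)
    (hl' : l' ∈ LA N B) (hm' : m' ∈ MS N l') (h : l * m = l' * m') : l = l' ∧ m = m' := by
  have key : l = l' := by
    rcases le_total l.minFac l'.minFac with hle | hle
    · obtain ⟨h1, h2⟩ := DEC_le hB hl hm hl' h hle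
      obtain ⟨h3, _⟩ := DEC_le hB hl' hm' hl h.symm h2.ge
      exact Nat.dvd_antisymm h3 h1
    · obtain ⟨h1, h2⟩ := DEC_le hB hl' hm' hl h.symm hle
      obtain ⟨h3, _⟩ := DEC_le hB hl hm hl' h h2.ge
      exact Nat.dvd_antisymm h1 h3
  subst key
  refine ⟨rfl, ?_⟩
  have hl0 : 0 < l := by
    unfold LA at hl
    rw [Finset.mem_filter, Finset.mem_Icc] at hl
    omega
  exact Nat.eq_of_mul_eq_mul_left hl0 h

theorem dec_sum (N B : ℕ) (hB : 2 ≤ B) (g : ℕ → ℂ) :
    ∑ n ∈ (Finset.Icc B N).filter Squarefree, g n = ∑ l ∈ LA N B, ∑ m ∈ MS N l, g (l * m) := by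
  rw [Finset.sum_sigma']
  symm
  refine Finset.sum_bij (fun x _ => x.1 * x.2) ?_ ?_ ?_ ?_
  · rintro ⟨l, m⟩ hx
    rw [Finset.mem_sigma] at hx
    have hcop := dec_coprime hx.2
    have hx1 := hx.1
    have hx2 := hx.2
    unfold LA at hx1
    unfold MS at hx2
    simp only [Finset.mem_filter, Finset.mem_Icc] at hx1 hx2 ⊢
    refine ⟨⟨?_, ?_⟩, ?_⟩
    · exact hx1.2.2.1.trans (Nat.le_mul_of_pos_right _ (by omega))
    · exact (Nat.mul_le_mul_left l hx2.1.2).trans (Nat.mul_div_le N l)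
    · exact (Nat.squarefree_mul hcop).2 ⟨hx1.2.1, hx2.2.1⟩
  · rintro ⟨l, m⟩ hx ⟨l', m'⟩ hx' h
    rw [Finset.mem_sigma] at hx hx'
    obtain ⟨h1, h2⟩ := DEC_inj N B hB hx.1 hx.2 hx'.1 hx'.2 h
    simp only at h1 h2
    subst h1; subst h2; rfl
  · intro n hn
    rw [Finset.mem_filter, Finset.mem_Icc] at hn
    obtain ⟨⟨hBn, hnN⟩, hsq⟩ := hn
    obtain ⟨l, m, h1, h2, h3, h4⟩ := DEC_exists B hB n hsq hBn
    have hm0 : 0 < m := by
      rcases Nat.eq_zero_or_pos m with h0 | h0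
      · rw [h0, mul_zero] at h1; omega
      · exact h0
    have hl0 : 0 < l := by omega
    have hln : l ∣ n := Dvd.intro _ h1
    have hmn : m ∣ n := Dvd.intro_left _ h1
    refine ⟨⟨l, m⟩, ?_, h1⟩
    rw [Finset.mem_sigma]
    unfold LA MS
    simp only [Finset.mem_filter, Finset.mem_Icc]
    refine ⟨⟨⟨by omega, (Nat.le_of_dvd (by omega) hln).trans hnN⟩, hsq.squarefree_of_dvd hln, h2, h3⟩,
      ⟨hm0, ?_⟩, hsq.squarefree_of_dvd hmn, ?_⟩
    · rw [Nat.le_div_iff_mul_le hl0, mul_comm, h1]; exact hnN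
    · intro p hp
      rw [Nat.mem_primeFactors] at hp
      exact h4 p hp.1 hp.2.1
  · intro x _; rfl

/-- the map `(l, m) ↦ l * m` is injective -/
theorem dec_inj (N B : ℕ) (hB : 2 ≤ B) {l m l' m' : ℕ} (hl : l ∈ LA N B) (hm : m ∈ MS N l)
    (hl' : l' ∈ LA N B) (hm' : m' ∈ MS N l') (h : l * m = l' * m') : l = l' ∧ m = m' :=
  DEC_inj N B hB hl hm hl' hm' h

theorem dec_SN (N B : ℕ) (hB : 2 ≤ B) (T : Finset ℕ) (x : ℝ) :
    SN N T x = (∑ n ∈ (Finset.Icc 1 N).filter (· < B), (rf T n : ℂ) * e (n * x)) +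
      ∑ l ∈ LA N B, (rf T l : ℂ) * XX N x l T := by
  unfold SN
  rw [← Finset.sum_filter_add_sum_filter_not (Finset.Icc 1 N) (· < B)]
  congr 1
  have h1 : ∑ n ∈ (Finset.Icc 1 N).filter (fun n => ¬ n < B), (rf T n : ℂ) * e (n * x) =
      ∑ n ∈ (Finset.Icc B N).filter Squarefree, (rf T n : ℂ) * e (n * x) := by
    symm
    apply Finset.sum_subset
    · intro n hn
      simp only [Finset.mem_filter, Finset.mem_Icc] at hn ⊢
      omega
    · intro n hn hn'
      simp only [Finset.mem_filter, Finset.mem_Icc] at hn hn'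
      have : ¬ Squarefree n := fun h => hn' ⟨by omega, h⟩
      rw [rf_not this]; simp
  rw [h1, dec_sum N B hB (fun n => (rf T n : ℂ) * e (n * x))]
  refine Finset.sum_congr rfl fun l _ => ?_
  unfold XX
  rw [Finset.mul_sum]
  refine Finset.sum_congr rfl fun m hm => ?_
  rw [rf_mul (dec_coprime hm)]
  push_cast
  ring

theorem XX_pred (N : ℕ) (x : ℝ) (l : ℕ) (p : ℕ) (hp : p ∈ l.primeFactors) : Pred p (XX N x l) := by
  intro T
  unfold XX
  refine Finset.sum_congr rfl fun m hm => ?_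
  unfold MS at hm
  rw [Finset.mem_filter] at hm
  obtain ⟨_, hsq, hmp⟩ := hm
  rw [Nat.mem_primeFactors] at hp
  have hle : l.minFac ≤ p := Nat.minFac_le_of_dvd hp.1.two_le hp.2.1
  rw [rf_sqf hsq, rf_sqf hsq, wal_filter fun q hq => lt_of_lt_of_le (hmp q hq) hle]

end Pool.Agent.Helper5.RM
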