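import Pool.Agent.Helper5.RM.Defs

/-!
# Block RM-PRB: sum of the reciprocals of the primes

Proof. `∑_{2^k < p ≤ 2^(k+1)} 1/p ≤ 4/k` (see `Pool.Agent.Helper66.MB.Sqf`, lemma `block_inv`: dyadic blocks with
`primorial (2^(k+1)) ≤ 4^(2^(k+1))`), so the sum over `p ≤ x` is at most `∑_{1 ≤ k ≤ K} 4/k ≤ 4 (1 + log K)`, `K = Nat.log 2 x ≤ log x / log 2`.
-/

set_option autoImplicit false

namespace Pool.Agent.Helper5.RM

open Finset

/-- the sum over one dyadic block (same proof as `Pool.Agent.Helper66.MB.block_inv`) -/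
private theorem PRB_block_inv (x k : ℕ) (hk : 1 ≤ k) :
    ∑ p ∈ ((Icc 1 x).filter Nat.Prime).filter (fun p => Nat.log 2 p = k), (1 : ℝ) / p ≤ 4 / k := by
  have hk0 : (0 : ℝ) < k := by exact_mod_cast hk
  have hl2 : 0 < Real.log 2 := Real.log_pos (by norm_num)
  have hp2 : (0 : ℝ) < 2 ^ k := by positivity
  have hth := Chebyshev.theta_le_log4_mul_x (x := ((2 ^ (k + 1) : ℕ) : ℝ)) (Nat.cast_nonneg _)
  rw [Chebyshev.theta_eq_sum_Icc, Nat.floor_natCast] at hth
  have h1 : ∑ p ∈ ((Icc 1 x).filter Nat.Prime).filter (fun p => Nat.log 2 p = k), (1 : ℝ) / p ≤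
      ∑ p ∈ ((Icc 1 x).filter Nat.Prime).filter (fun p => Nat.log 2 p = k),
        Real.log p * (1 / (k * Real.log 2 * 2 ^ k)) := by
    refine Finset.sum_le_sum fun p hp => ?_
    rw [mem_filter, mem_filter] at hp
    obtain ⟨⟨_, hpp⟩, hpk⟩ := hp
    have h2 : 2 ^ k ≤ p := by rw [← hpk]; exact Nat.pow_log_le_self 2 hpp.ne_zero
    have h2' : (2 : ℝ) ^ k ≤ p := by exact_mod_cast h2
    have h3 : (k : ℝ) * Real.log 2 ≤ Real.log p := by
      rw [← Real.log_pow]
      exact Real.log_le_log hp2 h2'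
    have h4 : (1 : ℝ) / p ≤ 1 / 2 ^ k := one_div_le_one_div_of_le hp2 h2'
    refine h4.trans ?_
    have h5 : (1 : ℝ) / 2 ^ k = (k * Real.log 2) * (1 / (k * Real.log 2 * 2 ^ k)) := by
      field_simp
    rw [h5]
    exact mul_le_mul_of_nonneg_right h3 (by positivity)
  refine h1.trans ?_
  rw [← Finset.sum_mul]
  have h6 : ∑ p ∈ ((Icc 1 x).filter Nat.Prime).filter (fun p => Nat.log 2 p = k), Real.log p ≤
      ∑ p ∈ (Icc 0 (2 ^ (k + 1))).filter Nat.Prime, Real.log p := by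
    refine Finset.sum_le_sum_of_subset_of_nonneg ?_ ?_
    · intro p hp
      rw [mem_filter, mem_filter] at hp
      obtain ⟨⟨_, hpp⟩, hpk⟩ := hp
      rw [mem_filter, mem_Icc]
      refine ⟨⟨Nat.zero_le _, ?_⟩, hpp⟩
      have := Nat.lt_pow_succ_log_self (b := 2) (by norm_num) p
      rw [hpk] at this
      exact this.le
    · intro p _ _
      exact Real.log_natCast_nonneg p
  have h7 := h6.trans hth
  have h8 : (0 : ℝ) ≤ 1 / (k * Real.log 2 * 2 ^ k) := by positivity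
  refine (mul_le_mul_of_nonneg_right h7 h8).trans (le_of_eq ?_)
  have h9 : Real.log 4 = 2 * Real.log 2 := by
    rw [show (4 : ℝ) = 2 ^ 2 by norm_num, Real.log_pow]; norm_num
  rw [h9]
  push_cast
  rw [pow_succ]
  field_simp
  norm_num

theorem prime_inv (x : ℕ) (hx : 1 ≤ x) :
    ∑ p ∈ PP x, (1 : ℝ) / p ≤ 4 * Real.log (1 + Real.log x) + 6 := by
  unfold PP
  have hlx : 0 ≤ Real.log x := Real.log_natCast_nonneg x
  have hll : 0 ≤ Real.log (1 + Real.log x) := Real.log_nonneg (by linarith)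
  set K : ℕ := Nat.log 2 x with hK
  have hmaps : ∀ p ∈ (Icc 1 x).filter Nat.Prime, Nat.log 2 p ∈ Icc 1 K := by
    intro p hp
    rw [mem_filter, mem_Icc] at hp
    rw [mem_Icc]
    refine ⟨?_, Nat.log_mono_right hp.1.2⟩
    exact Nat.log_pos (by norm_num) hp.2.two_le
  rw [← Finset.sum_fiberwise_of_maps_to hmaps]
  have h1 : ∑ k ∈ Icc 1 K, ∑ p ∈ ((Icc 1 x).filter Nat.Prime).filter (fun p => Nat.log 2 p = k),
      (1 : ℝ) / p ≤ ∑ k ∈ Icc 1 K, 4 * (1 / (k : ℝ)) := by
    refine Finset.sum_le_sum fun k hk => ?_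
    rw [mem_Icc] at hk
    refine (PRB_block_inv x k hk.1).trans (le_of_eq ?_)
    ring
  refine h1.trans ?_
  rw [← Finset.mul_sum]
  rcases Nat.eq_zero_or_pos K with h0 | h0
  · rw [h0]
    simp only [Icc_eq_empty_of_lt (show (0 : ℕ) < 1 by norm_num), sum_empty, mul_zero]
    positivity
  have h2 : ∑ k ∈ Icc 1 K, 1 / (k : ℝ) ≤ 1 + Real.log K := by
    have h3 := harmonic_le_one_add_log K
    have h4 : ((harmonic K : ℚ) : ℝ) = ∑ k ∈ Icc 1 K, 1 / (k : ℝ) := by
      rw [harmonic_eq_sum_Icc]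
      push_cast
      refine Finset.sum_congr rfl fun k _ => ?_
      rw [one_div]
    rwa [h4] at h3
  have hl2 : (0.69 : ℝ) < Real.log 2 := by
    have := Real.log_two_gt_d9
    linarith
  have hl2' : Real.log 2 < 0.6932 := by
    have := Real.log_two_lt_d9
    linarith
  have h5 : (K : ℝ) * Real.log 2 ≤ Real.log x := by
    have h6 : 2 ^ K ≤ x := Nat.pow_log_le_self 2 (by omega)
    have h7 : (2 : ℝ) ^ K ≤ x := by exact_mod_cast h6
    rw [← Real.log_pow]
    exact Real.log_le_log (by positivity) h7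
  have h6 : Real.log K ≤ 1 / 2 + Real.log (1 + Real.log x) := by
    have h7 : (0 : ℝ) < K := by exact_mod_cast h0
    have h8 : Real.log (K * Real.log 2) ≤ Real.log (1 + Real.log x) :=
      Real.log_le_log (by positivity) (by linarith)
    rw [Real.log_mul h7.ne' (by linarith)] at h8
    have h9 := Real.one_sub_inv_le_log_of_pos (show (0 : ℝ) < Real.log 2 by linarith)
    have h10 : (Real.log 2)⁻¹ ≤ 3 / 2 := by
      rw [inv_le_comm₀ (by linarith) (by norm_num)]
      linarith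
    linarith
  linarith

end Pool.Agent.Helper5.RM
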