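import Pool.Agent.Helper5.RM.DEC
import Pool.Agent.Helper5.RM.PRB

/-!
# Block RM-B10: number of integers whose decomposition has `i ≥ 2` large primes

Proof. The sum is the number of pairs `(l, m)`, and `(l, m) ↦ n = l m ≤ N` is injective (`dec_inj`). At most `√N` of them have `n ≤ √N`. For the
others put `p = l.minFac`, `l' = l / p < B`, `u = p m`, `n = l' u`; `l'` has `i - 1` primes, all `> p`, so `p^(i-1) < B`. `u` is squarefree with all
primes `≤ p`, so all primes `q` of `u` satisfy `q^(i-1) < B`, and `u = n / l' > √N / B ≥ N^(3/8)` (`B^8 ≤ N`), `u ≤ N/l'`. With `δ = (i-1)/log B`: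
the number is at most `∑_{l' < B} ∑_u (N/(l' u)) (u/N^(3/8))^δ ≤ N (1 + log B) N^(-3δ/8) ∏_{q : q^(i-1) < B} (1 + q^(δ-1))`, `q^δ ≤ exp 1 ≤ 3`, so the product is at most
`exp (3 ∑_{q ≤ B} 1/q) ≤ exp (12 log (1 + log B) + 18) ≤ LL N^12 exp 18` (`prime_inv`).
-/

set_option autoImplicit false

namespace Pool.Agent.Helper5.RM

open Finset

private lemma B10_sum_sqf_le (s Q : Finset ℕ) (c : ℕ → ℝ) (hc : ∀ p ∈ Q, 0 ≤ c p)
    (hs : ∀ n ∈ s, Squarefree n ∧ n.primeFactors ⊆ Q) :
    ∑ n ∈ s, ∏ p ∈ n.primeFactors, c p ≤ ∏ p ∈ Q, (1 + c p) := by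
  classical
  rw [Finset.prod_one_add]
  have hinj : Set.InjOn (fun n : ℕ => n.primeFactors) (s : Set ℕ) := by
    intro a ha b hb hab
    have h1 := Nat.prod_primeFactors_of_squarefree (hs a ha).1
    have h2 := Nat.prod_primeFactors_of_squarefree (hs b hb).1
    simp only at hab
    rw [hab] at h1
    exact h1.symm.trans h2
  rw [← Finset.sum_image (f := fun T : Finset ℕ => ∏ p ∈ T, c p) hinj]
  refine Finset.sum_le_sum_of_subset_of_nonneg ?_ ?_
  · intro T hT
    obtain ⟨n, hn, rfl⟩ := Finset.mem_image.1 hT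
    exact Finset.mem_powerset.2 (hs n hn).2
  · intro T hT _
    exact Finset.prod_nonneg fun p hp => hc p (Finset.mem_powerset.1 hT hp)

private lemma B10_struct {N B z i l m : ℕ} (hi : 2 ≤ i) (hB : 2 ≤ B) (hl : l ∈ LI N B z i)
    (hm : m ∈ MS N l) :
    1 ≤ l / l.minFac ∧ l / l.minFac < B ∧ (l / l.minFac) * (l.minFac * m) = l * m ∧ l * m ≤ N ∧ 1 ≤ m ∧
      Squarefree (l.minFac * m) ∧ ∀ q ∈ (l.minFac * m).primeFactors, q ^ (i - 1) < B := by
  have hcop := dec_coprime hm
  unfold LI LA at hl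
  unfold MS at hm
  simp only [Finset.mem_filter, Finset.mem_Icc] at hl hm
  obtain ⟨⟨⟨hl1, hlN⟩, hlsq, hBl, hlB⟩, _, hom⟩ := hl
  obtain ⟨⟨hm1, hmN⟩, hmsq, hmp⟩ := hm
  have hp : l.minFac.Prime := Nat.minFac_prime (by omega)
  have hmul : l.minFac * (l / l.minFac) = l := Nat.mul_div_cancel' (Nat.minFac_dvd l)
  have hl'1 : 1 ≤ l / l.minFac := Nat.div_pos (Nat.minFac_le (by omega)) hp.pos
  have hlm : l * m ≤ N := (Nat.mul_le_mul_left l hmN).trans (Nat.mul_div_le N l)
  have hpm : Nat.Coprime l.minFac m := Nat.Coprime.coprime_dvd_left (Nat.minFac_dvd l) hcop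
  -- the cofactor
  have hsq' : Squarefree (l.minFac * (l / l.minFac)) := by rw [hmul]; exact hlsq
  have hcop' : Nat.Coprime l.minFac (l / l.minFac) := Nat.coprime_of_squarefree_mul hsq'
  have hsq2 : Squarefree (l / l.minFac) := hlsq.squarefree_of_dvd (Nat.div_dvd_of_dvd (Nat.minFac_dvd l))
  have hcard : (l / l.minFac).primeFactors.card = i - 1 := by
    have h1 : l.primeFactors = {l.minFac} ∪ (l / l.minFac).primeFactors := by
      conv_lhs => rw [← hmul]
      rw [hcop'.primeFactors_mul, hp.primeFactors]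
    have h2 : l.primeFactors.card = 1 + (l / l.minFac).primeFactors.card := by
      rw [h1, Finset.card_union_of_disjoint, Finset.card_singleton]
      have := hcop'.disjoint_primeFactors
      rwa [hp.primeFactors] at this
    unfold om at hom
    omega
  have hpow : l.minFac ^ (i - 1) < B := by
    refine lt_of_le_of_lt ?_ hlB
    calc l.minFac ^ (i - 1) = ∏ _q ∈ (l / l.minFac).primeFactors, l.minFac := by
          rw [Finset.prod_const, hcard]
      _ ≤ ∏ q ∈ (l / l.minFac).primeFactors, q := by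
          refine Finset.prod_le_prod (fun _ _ => Nat.zero_le _) fun q hq => ?_
          rw [Nat.mem_primeFactors] at hq
          exact Nat.minFac_le_of_dvd hq.1.two_le
            (hq.2.1.trans (Nat.div_dvd_of_dvd (Nat.minFac_dvd l)))
      _ = l / l.minFac := Nat.prod_primeFactors_of_squarefree hsq2
  refine ⟨hl'1, hlB, ?_, hlm, hm1, ?_, ?_⟩
  · rw [← mul_assoc, mul_comm (l / l.minFac), hmul]
  · exact (Nat.squarefree_mul hpm).2 ⟨hp.squarefree, hmsq⟩
  · intro q hq
    have hqp : q ≤ l.minFac := by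
      rw [hpm.primeFactors_mul, hp.primeFactors, Finset.mem_union, Finset.mem_singleton] at hq
      rcases hq with h | h
      · exact h.le
      · exact (hmp q h).le
    exact lt_of_le_of_lt (Nat.pow_le_pow_left hqp _) hpow

private lemma B10_harm (B : ℕ) (hB : 2 ≤ B) :
    ∑ l ∈ Icc 1 B, 1 / (l : ℝ) ≤ 1 + Real.log B := by
  have h3 := harmonic_le_one_add_log B
  have h4 : ((harmonic B : ℚ) : ℝ) = ∑ k ∈ Icc 1 B, 1 / (k : ℝ) := by
    rw [harmonic_eq_sum_Icc]
    push_cast
    refine Finset.sum_congr rfl fun k _ => ?_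
    rw [one_div]
  rwa [h4] at h3

private lemma B10_prod (B : ℕ) (hB : 2 ≤ B) :
    ∏ q ∈ PP B, (1 + 3 / (q : ℝ)) ≤ (1 + Real.log B) ^ 12 * Real.exp 18 := by
  have h1 : ∏ q ∈ PP B, (1 + 3 / (q : ℝ)) ≤ ∏ q ∈ PP B, Real.exp (3 * (1 / q)) := by
    refine Finset.prod_le_prod (fun p _ => by positivity) fun p _ => ?_
    have := Real.add_one_le_exp (3 * (1 / (p : ℝ)))
    rw [mul_one_div] at this ⊢
    linarith
  refine h1.trans ?_
  rw [← Real.exp_sum, ← Finset.mul_sum]
  have h2 := prime_inv B (by omega)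
  have hlB : 0 ≤ Real.log B := Real.log_natCast_nonneg B
  calc Real.exp (3 * ∑ q ∈ PP B, 1 / (q : ℝ)) ≤ Real.exp (12 * Real.log (1 + Real.log B) + 18) := by
        apply Real.exp_le_exp.2; linarith
    _ = (1 + Real.log B) ^ 12 * Real.exp 18 := by
        rw [Real.exp_add]
        congr 1
        rw [show (12 : ℝ) * Real.log (1 + Real.log B) = ((12 : ℕ) : ℝ) * Real.log (1 + Real.log B) by norm_num,
          Real.exp_nat_mul, Real.exp_log (by linarith)]

/-- the weight of a pair is at least one -/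
private lemma B10_weight {N B i l' u : ℕ} (hi : 2 ≤ i) (hB : 2 ≤ B) (hBN : (B : ℝ) ^ 8 ≤ N)
    (hl1 : 1 ≤ l') (hlB : l' < B) (hu1 : 1 ≤ u) (husq : Squarefree u)
    (huq : ∀ q ∈ u.primeFactors, q ^ (i - 1) < B) (hN : l' * u ≤ N) (hN2 : N < (l' * u) ^ 2) :
    1 ≤ N * Real.exp (-(3 / 8) * (i - 1) * Real.log N / Real.log B) *
      ((1 / (l' : ℝ)) * ∏ q ∈ u.primeFactors, (3 / (q : ℝ))) := by
  have hl0 : (0 : ℝ) < l' := by exact_mod_cast hl1
  have hu0 : (0 : ℝ) < u := by exact_mod_cast hu1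
  have hB0 : (0 : ℝ) < B := by exact_mod_cast (by omega : 0 < B)
  have hB1 : (1 : ℝ) < B := by exact_mod_cast (by omega : 1 < B)
  have hN0 : (0 : ℝ) < N := lt_of_lt_of_le (by positivity) hBN
  have hlogB : 0 < Real.log B := Real.log_pos hB1
  have hi1 : (1 : ℝ) ≤ i - 1 := by
    have : (2 : ℝ) ≤ i := by exact_mod_cast hi
    linarith
  have hcast : ((i - 1 : ℕ) : ℝ) = (i : ℝ) - 1 := by
    rw [Nat.cast_sub (by omega)]; norm_num
  -- logarithms
  have h8 : 8 * Real.log B ≤ Real.log N := by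
    have := Real.log_le_log (by positivity) hBN
    rw [Real.log_pow] at this
    exact_mod_cast this
  have hll : Real.log l' ≤ Real.log B := Real.log_le_log hl0 (by exact_mod_cast hlB.le)
  have hNl : Real.log N ≤ 2 * (Real.log l' + Real.log u) := by
    have h1 : (N : ℝ) ≤ ((l' : ℝ) * u) ^ 2 := by exact_mod_cast hN2.le
    have := Real.log_le_log hN0 h1
    rw [Real.log_pow, Real.log_mul hl0.ne' hu0.ne'] at this
    exact_mod_cast this
  have hlu : (3 / 8) * Real.log N ≤ Real.log u := by linarith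
  have hlogu : Real.log u = ∑ q ∈ u.primeFactors, Real.log q := by
    conv_lhs => rw [← Nat.prod_primeFactors_of_squarefree husq]
    rw [Nat.cast_prod, Real.log_prod]
    intro q hq
    have := (Nat.prime_of_mem_primeFactors hq).pos
    positivity
  have hq1 : ∀ q ∈ u.primeFactors, ((i : ℝ) - 1) * Real.log q ≤ Real.log B := by
    intro q hq
    have hq0 : 0 < q := (Nat.prime_of_mem_primeFactors hq).pos
    have h1 : (q : ℝ) ^ (i - 1) ≤ B := by exact_mod_cast (huq q hq).le
    have h2 := Real.log_le_log (by positivity) h1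
    rw [Real.log_pow, hcast] at h2
    exact h2
  have hom : ((i : ℝ) - 1) * Real.log u ≤ (u.primeFactors.card : ℝ) * Real.log B := by
    rw [hlogu, Finset.mul_sum]
    calc ∑ q ∈ u.primeFactors, ((i : ℝ) - 1) * Real.log q ≤ ∑ _q ∈ u.primeFactors, Real.log B :=
          Finset.sum_le_sum hq1
      _ = (u.primeFactors.card : ℝ) * Real.log B := by rw [Finset.sum_const, nsmul_eq_mul]
  have hexp : -(u.primeFactors.card : ℝ) ≤ -(3 / 8) * (i - 1) * Real.log N / Real.log B := by
    rw [le_div_iff₀ hlogB]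
    have : ((i : ℝ) - 1) * ((3 / 8) * Real.log N) ≤ ((i : ℝ) - 1) * Real.log u :=
      mul_le_mul_of_nonneg_left hlu (by linarith)
    nlinarith
  have hprod : ∏ q ∈ u.primeFactors, (3 / (q : ℝ)) = 3 ^ u.primeFactors.card / u := by
    rw [Finset.prod_div_distrib, Finset.prod_const]
    congr 1
    rw [← Nat.cast_prod, Nat.prod_primeFactors_of_squarefree husq]
  rw [hprod]
  have he3 : Real.exp 1 ≤ 3 := by
    have := Real.exp_one_lt_d9
    linarith
  have h3 : Real.exp (-(u.primeFactors.card : ℝ)) * 3 ^ u.primeFactors.card ≥ 1 := by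
    have h4 : Real.exp 1 ^ u.primeFactors.card ≤ 3 ^ u.primeFactors.card :=
      pow_le_pow_left₀ (Real.exp_pos 1).le he3 _
    have h5 : Real.exp (-(u.primeFactors.card : ℝ)) * Real.exp 1 ^ u.primeFactors.card = 1 := by
      rw [← Real.exp_nat_mul, ← Real.exp_add]; simp
    rw [ge_iff_le, ← h5]
    exact mul_le_mul_of_nonneg_left h4 (Real.exp_pos _).le
  have h6 : 1 ≤ Real.exp (-(3 / 8) * (i - 1) * Real.log N / Real.log B) * 3 ^ u.primeFactors.card := by
    refine le_trans h3 ?_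
    exact mul_le_mul_of_nonneg_right (Real.exp_le_exp.2 hexp) (by positivity)
  have h7 : 1 ≤ (N : ℝ) / (l' * u) := by
    rw [le_div_iff₀ (by positivity), one_mul]
    exact_mod_cast hN
  calc (1 : ℝ) = 1 * 1 := by ring
    _ ≤ ((N : ℝ) / (l' * u)) * (Real.exp (-(3 / 8) * (i - 1) * Real.log N / Real.log B) * 3 ^ u.primeFactors.card) :=
        mul_le_mul h7 h6 (by norm_num) (by positivity)
    _ = N * Real.exp (-(3 / 8) * (i - 1) * Real.log N / Real.log B) *
      ((1 / (l' : ℝ)) * (3 ^ u.primeFactors.card / u)) := by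
        field_simp

theorem ni_bound (N B z i : ℕ) (hi : 2 ≤ i) (hB : 2 ≤ B) (hBN : (B : ℝ) ^ 8 ≤ N) :
    ∑ l ∈ LI N B z i, ((MS N l).card : ℝ) ≤
      Real.sqrt N + Real.exp 18 * N * LL N ^ 13 * Real.exp (-(3 / 8) * (i - 1) * Real.log N / Real.log B) := by
  classical
  have hB0 : (0 : ℝ) < B := by exact_mod_cast (by omega : 0 < B)
  have hB1 : (1 : ℝ) ≤ B := by exact_mod_cast (by omega : 1 ≤ B)
  have hN0 : (0 : ℝ) < N := lt_of_lt_of_le (by positivity) hBN
  have hBN1 : (B : ℝ) ≤ N := by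
    refine le_trans ?_ hBN
    calc (B : ℝ) = B ^ 1 := (pow_one _).symm
      _ ≤ B ^ 8 := pow_le_pow_right₀ hB1 (by norm_num)
  set E : ℝ := Real.exp (-(3 / 8) * (i - 1) * Real.log N / Real.log B) with hE
  have hE0 : 0 < E := Real.exp_pos _
  set S : Finset (Σ _ : ℕ, ℕ) := (LI N B z i).sigma (fun l => MS N l) with hS
  have hLA : ∀ l ∈ LI N B z i, l ∈ LA N B := by
    intro l hl
    unfold LI at hl
    exact (Finset.mem_filter.1 hl).1
  have hsum : ∑ l ∈ LI N B z i, ((MS N l).card : ℝ) = (S.card : ℝ) := by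
    rw [hS, Finset.card_sigma]
    push_cast
    rfl
  rw [hsum]
  -- injectivity
  have hinj : ∀ x ∈ S, ∀ y ∈ S, x.1 * x.2 = y.1 * y.2 → x = y := by
    rintro ⟨l, m⟩ hx ⟨l', m'⟩ hy h
    rw [hS, Finset.mem_sigma] at hx hy
    obtain ⟨h1, h2⟩ := dec_inj N B hB (hLA _ hx.1) hx.2 (hLA _ hy.1) hy.2 h
    simp only at h1 h2
    subst h1; subst h2; rfl
  rw [← Finset.card_filter_add_card_filter_not (s := S) (fun x => (x.1 * x.2) ^ 2 ≤ N)]
  push_cast
  refine add_le_add ?_ ?_
  · -- small products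
    have h1 : (S.filter (fun x => (x.1 * x.2) ^ 2 ≤ N)).card ≤ (Icc 1 (Nat.sqrt N)).card := by
      refine Finset.card_le_card_of_injOn (fun x => x.1 * x.2) ?_ ?_
      · intro x hx
        rw [Finset.mem_coe, Finset.mem_filter] at hx
        obtain ⟨hx, hle⟩ := hx
        have hx' := hx
        rw [hS, Finset.mem_sigma] at hx'
        have hst := B10_struct hi hB hx'.1 hx'.2
        rw [Finset.mem_coe, Finset.mem_Icc]
        refine ⟨?_, ?_⟩
        · have hl1 : 1 ≤ x.1 := by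
            have := hLA _ hx'.1
            unfold LA at this
            rw [Finset.mem_filter, Finset.mem_Icc] at this
            exact this.1.1
          exact Nat.mul_pos hl1 hst.2.2.2.2.1
        · rw [Nat.le_sqrt']; exact hle
      · intro x hx y hy h
        rw [Finset.mem_coe, Finset.mem_filter] at hx hy
        exact hinj x hx.1 y hy.1 h
    rw [Nat.card_Icc, Nat.add_sub_cancel] at h1
    have h2 : ((Nat.sqrt N : ℕ) : ℝ) ≤ Real.sqrt N := Real.nat_sqrt_le_real_sqrt
    exact le_trans (by exact_mod_cast h1) h2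
  · -- large products
    set S2 := S.filter (fun x => ¬ (x.1 * x.2) ^ 2 ≤ N) with hS2
    set φ : (Σ _ : ℕ, ℕ) → ℕ × ℕ := fun x => (x.1 / x.1.minFac, x.1.minFac * x.2) with hφ
    set Q : Finset ℕ := (Icc 1 N).filter (fun u => Squarefree u ∧ ∀ q ∈ u.primeFactors, q ≤ B) with hQ
    set F : ℕ × ℕ → ℝ := fun y => (1 / (y.1 : ℝ)) * ∏ q ∈ y.2.primeFactors, (3 / (q : ℝ)) with hF
    have hstr : ∀ x ∈ S2, φ x ∈ Icc 1 B ×ˢ Q ∧ 1 ≤ N * E * F (φ x) := by
      intro x hx
      rw [hS2, Finset.mem_filter] at hx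
      obtain ⟨hx, hlt⟩ := hx
      have hx' := hx
      rw [hS, Finset.mem_sigma] at hx'
      obtain ⟨s1, s2, s3, s4, s5, s6, s7⟩ := B10_struct hi hB hx'.1 hx'.2
      have hu1 : 1 ≤ x.1.minFac * x.2 := Nat.mul_pos (Nat.minFac_pos _) s5
      have hl'u : x.1 / x.1.minFac * (x.1.minFac * x.2) ≤ N := by rw [s3]; exact s4
      refine ⟨?_, ?_⟩
      · rw [hφ, Finset.mem_product, hQ, Finset.mem_filter, Finset.mem_Icc, Finset.mem_Icc]
        refine ⟨⟨s1, s2.le⟩, ⟨hu1, ?_⟩, s6, fun q hq => ?_⟩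
        · exact le_trans (Nat.le_mul_of_pos_left _ s1) hl'u
        · have h1 := s7 q hq
          have h2 : q ^ 1 ≤ q ^ (i - 1) :=
            Nat.pow_le_pow_right (Nat.prime_of_mem_primeFactors hq).pos (by omega)
          rw [pow_one] at h2
          omega
      · refine B10_weight hi hB hBN s1 s2 hu1 s6 s7 hl'u ?_
        rw [s3]; exact not_le.1 hlt
    have hinj2 : Set.InjOn φ (S2 : Set (Σ _ : ℕ, ℕ)) := by
      intro x hx y hy h
      rw [Finset.mem_coe, hS2, Finset.mem_filter] at hx hy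
      have hx' := hx.1
      have hy' := hy.1
      rw [hS, Finset.mem_sigma] at hx' hy'
      have s3 := (B10_struct hi hB hx'.1 hx'.2).2.2.1
      have t3 := (B10_struct hi hB hy'.1 hy'.2).2.2.1
      refine hinj x hx.1 y hy.1 ?_
      rw [← s3, ← t3]
      have h1 : (φ x).1 * (φ x).2 = (φ y).1 * (φ y).2 := by rw [h]
      exact h1
    have hF0 : ∀ y, 0 ≤ F y := by
      intro y
      rw [hF]
      refine mul_nonneg (by positivity) (Finset.prod_nonneg fun q _ => by positivity)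
    have hc1 : (S2.card : ℝ) ≤ ∑ x ∈ S2, N * E * F (φ x) := by
      rw [Finset.card_eq_sum_ones]
      push_cast
      exact Finset.sum_le_sum fun x hx => (hstr x hx).2
    have hc2 : ∑ x ∈ S2, N * E * F (φ x) ≤ ∑ y ∈ Icc 1 B ×ˢ Q, N * E * F y := by
      rw [← Finset.sum_image (f := fun y => N * E * F y) hinj2]
      refine Finset.sum_le_sum_of_subset_of_nonneg ?_ ?_
      · intro y hy
        obtain ⟨x, hx, rfl⟩ := Finset.mem_image.1 hy
        exact (hstr x hx).1
      · intro y _ _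
        have := hF0 y
        positivity
    have hc3 : ∑ y ∈ Icc 1 B ×ˢ Q, N * E * F y =
        N * E * ((∑ l ∈ Icc 1 B, 1 / (l : ℝ)) * ∑ u ∈ Q, ∏ q ∈ u.primeFactors, (3 / (q : ℝ))) := by
      rw [← Finset.mul_sum, Finset.sum_mul_sum, Finset.sum_product]
    have hc4 : ∑ u ∈ Q, ∏ q ∈ u.primeFactors, (3 / (q : ℝ)) ≤ ∏ q ∈ PP B, (1 + 3 / (q : ℝ)) := by
      refine B10_sum_sqf_le Q (PP B) (fun q => 3 / (q : ℝ)) (fun _ _ => by positivity) ?_
      intro u hu
      rw [hQ, Finset.mem_filter] at hu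
      refine ⟨hu.2.1, fun q hq => ?_⟩
      rw [mem_PP]
      exact ⟨Nat.prime_of_mem_primeFactors hq, hu.2.2 q hq⟩
    have hc5 := hc4.trans (B10_prod B hB)
    have hlogB : 0 ≤ Real.log B := Real.log_natCast_nonneg B
    have hLL : 1 + Real.log B ≤ LL N := by
      unfold LL
      have := Real.log_le_log hB0 hBN1
      linarith
    have hc6 : (∑ l ∈ Icc 1 B, 1 / (l : ℝ)) * ∑ u ∈ Q, ∏ q ∈ u.primeFactors, (3 / (q : ℝ)) ≤
        LL N * (LL N ^ 12 * Real.exp 18) := by
      refine mul_le_mul ((B10_harm B hB).trans hLL) (hc5.trans ?_)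
        (Finset.sum_nonneg fun u _ => Finset.prod_nonneg fun q _ => by positivity) (by linarith)
      refine mul_le_mul_of_nonneg_right ?_ (Real.exp_pos _).le
      exact pow_le_pow_left₀ (by linarith) hLL 12
    refine hc1.trans (hc2.trans ?_)
    rw [hc3]
    calc N * E * ((∑ l ∈ Icc 1 B, 1 / (l : ℝ)) * ∑ u ∈ Q, ∏ q ∈ u.primeFactors, (3 / (q : ℝ)))
        ≤ N * E * (LL N * (LL N ^ 12 * Real.exp 18)) :=
          mul_le_mul_of_nonneg_left hc6 (by positivity)
      _ = Real.exp 18 * N * LL N ^ 13 * E := by ring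

end Pool.Agent.Helper5.RM
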