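import Pool.Agent.Helper5.RM.B9a

/-!
# Block RM-B9b: several primes, assembly

Proof. `l ∈ LI N B z i`: `p = l.minFac`, `l' = l / p < B`, `l = l' p ≥ B`, the primes of `l'` are `> p`, `l' ≥ 2` as `i ≥ 2`, so `p < l' < B` and
`l'^2 > B`. Split `LI` by `(p, r)`, `r = Nat.log 2 l'`, `H = 2^r`: `p < B`, `r ≤ Nat.log 2 B`, `H ≤ l' < B`, `2 H > l' > √B`. For each pair apply `vi_block` to
`Lam = {l' : l' p ∈ LI, Nat.log 2 l' = r, (l' p).minFac = p}` and `markov_pow` (with `F = |VV - mm|`, power `2k`, `c = t N / (2 p L^2)`):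
probability at most `(18 (N/p)^2 L^(2w+5) γ^(η/4))^k / c^(2k) = (72 L^(2w+9) γ^(η/4) / t^2)^k`. There are at most `B * 2L` pairs
(`Nat.log 2 B + 1 ≤ 2 L`, `B ≤ N`), and outside the union the sum is less than `∑ card + ∑_{p < B} ∑_r t N/(2 p L^2) ≤ ∑ card + t N`
as `∑_{p<B} 1/p ≤ 1 + log B ≤ L`.
-/

set_option autoImplicit false

namespace Pool.Agent.Helper5.RM

open Finset

/-- the elements of `LI` with smallest prime `p` and `2^r ≤ l/p < 2^(r+1)` -/
private noncomputable def b9b_fib (N B z i p r : ℕ) : Finset ℕ :=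
  (LI N B z i).filter (fun l => (l.minFac, Nat.log 2 (l / l.minFac)) = (p, r))

private theorem b9b_mem {N B z i p r l : ℕ} (hB : 36 ≤ B) (hi : 2 ≤ i) (hl : l ∈ b9b_fib N B z i p r) :
    p.Prime ∧ p < B ∧ l / p * p = l ∧ 2 ^ r ≤ l / p ∧ l / p < 2 * 2 ^ r ∧ Squarefree (l / p) ∧
      (∀ q ∈ (l / p).primeFactors, p < q) ∧ l / p < B ∧ B < (l / p) * (l / p) := by
  unfold b9b_fib LI LA at hl
  rw [mem_filter, mem_filter, mem_filter, mem_Icc] at hl
  obtain ⟨⟨⟨⟨_, _⟩, hsq, hBl, hlt⟩, _, hom⟩, heq⟩ := hl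
  have hpe : l.minFac = p := congrArg Prod.fst heq
  have hre : Nat.log 2 (l / l.minFac) = r := congrArg Prod.snd heq
  rw [hpe] at hlt hre
  have hl1 : l ≠ 1 := by omega
  have hp : p.Prime := hpe ▸ Nat.minFac_prime hl1
  have hdvd : p ∣ l := hpe ▸ Nat.minFac_dvd l
  have hmul : l / p * p = l := Nat.div_mul_cancel hdvd
  have hl0 : l ≠ 0 := by omega
  have hq0 : l / p ≠ 0 := by
    intro h
    rw [h, zero_mul] at hmul
    exact hl0 hmul.symm
  have hsq' : Squarefree (l / p) := hsq.squarefree_of_dvd ⟨p, hmul.symm⟩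
  have hpnd : ¬ p ∣ l / p := by
    intro h
    obtain ⟨c, hc⟩ := h
    have h1 : p * p ∣ l := ⟨c, by rw [← hmul, hc]; ring⟩
    have h2 := hsq p h1
    exact hp.one_lt.ne' (Nat.isUnit_iff.1 h2)
  have hprimes : ∀ q ∈ (l / p).primeFactors, p < q := by
    intro q hq
    have hqp := Nat.prime_of_mem_primeFactors hq
    have hqd := Nat.dvd_of_mem_primeFactors hq
    have h1 : p ≤ q := hpe ▸ Nat.minFac_le_of_dvd hqp.two_le (hqd.trans ⟨p, hmul.symm⟩)
    rcases h1.lt_or_eq with h | h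
    · exact h
    · exact absurd (h ▸ hqd) hpnd
  have hne1 : l / p ≠ 1 := by
    intro h
    have h1 : l = p := by rw [← hmul, h, one_mul]
    unfold om at hom
    rw [h1, hp.primeFactors, card_singleton] at hom
    omega
  obtain ⟨q, hq⟩ : ∃ q, q ∈ (l / p).primeFactors := by
    refine ⟨(l / p).minFac, ?_⟩
    rw [Nat.mem_primeFactors]
    exact ⟨Nat.minFac_prime hne1, Nat.minFac_dvd _, hq0⟩
  have hpl : p < l / p := (hprimes q hq).trans_le (Nat.le_of_mem_primeFactors hq)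
  refine ⟨hp, by omega, hmul, ?_, ?_, hsq', hprimes, hlt, ?_⟩
  · rw [← hre]; exact Nat.pow_log_le_self 2 hq0
  · rw [← hre, ← pow_succ']; exact Nat.lt_pow_succ_log_self (by norm_num) _
  · calc B ≤ l := hBl
      _ = l / p * p := hmul.symm
      _ < (l / p) * (l / p) := Nat.mul_lt_mul_of_pos_left hpl (by omega)

private theorem b9b_sum {N B z i p r : ℕ} (hB : 36 ≤ B) (hi : 2 ≤ i) (f : ℕ → ℝ) :
    ∑ l ∈ (b9b_fib N B z i p r).image (fun l => l / p), f (l * p) = ∑ l ∈ b9b_fib N B z i p r, f l := by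
  rw [sum_image]
  · apply sum_congr rfl
    intro l hl
    rw [(b9b_mem hB hi hl).2.2.1]
  · intro a ha b hb hab
    have h1 := (b9b_mem hB hi ha).2.2.1
    have h2 := (b9b_mem hB hi hb).2.2.1
    have hab' : a / p = b / p := hab
    rw [← h1, ← h2, hab']

private theorem b9b_pair (N : ℕ) (θ D : ℝ) (hD4 : 4 ≤ D) (hDN : D ≤ N) (hF : Far N θ D) (B z k w : ℕ) (η : ℝ)
    (hB36 : 36 ≤ B) (hBD : (B : ℝ) ^ 4 ≤ D) (hk : 1 ≤ k) (hη : 0 < η) (hη1 : η ≤ 1)
    (hw : (4 * (k : ℝ)) ^ (1 + η) ≤ w) (i : ℕ) (hi : 2 ≤ i) (t : ℝ) (ht : 0 < t) (p r : ℕ) :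
    pr (PP N) (fun T => ∑ l ∈ b9b_fib N B z i p r, ((MS N l).card : ℝ) + t * N / (2 * p * LL N ^ 2) <
        ∑ l ∈ b9b_fib N B z i p r, ‖XX N θ l T‖ ^ 2) ≤
      (72 * LL N ^ (2 * w + 9) * (6 / Real.sqrt B) ^ (η / 4) / t ^ 2) ^ k := by
  have hN4 : (4 : ℝ) ≤ (N : ℝ) := hD4.trans hDN
  have hL1 : 1 ≤ LL N := by
    unfold LL
    have := Real.log_nonneg (show (1 : ℝ) ≤ (N : ℝ) by linarith)
    linarith
  have hB0 : (0 : ℝ) < (B : ℝ) := by
    have : (36 : ℝ) ≤ (B : ℝ) := by exact_mod_cast hB36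
    linarith
  have hγ : 0 < (6 / Real.sqrt B) ^ (η / 4) := Real.rpow_pos_of_pos (by positivity) _
  rcases (b9b_fib N B z i p r).eq_empty_or_nonempty with hemp | ⟨l₀, hl₀⟩
  · rw [pr_false]
    · positivity
    · intro T _
      rw [hemp, sum_empty, sum_empty, not_lt, zero_add]
      positivity
  · obtain ⟨hp, hpB, _, hr1, hr2, _, _, hlB, hBB⟩ := b9b_mem hB36 hi hl₀
    have hH2 : 2 ^ r < B := lt_of_le_of_lt hr1 hlB
    have hH1 : Real.sqrt B / 2 ≤ ((2 ^ r : ℕ) : ℝ) := by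
      have h1 : Real.sqrt B ≤ ((l₀ / p : ℕ) : ℝ) := by
        rw [Real.sqrt_le_left (Nat.cast_nonneg _), sq]
        exact_mod_cast hBB.le
      have h2 : ((l₀ / p : ℕ) : ℝ) ≤ 2 * ((2 ^ r : ℕ) : ℝ) := by exact_mod_cast hr2.le
      linarith
    have hLam : ∀ l ∈ (b9b_fib N B z i p r).image (fun l => l / p), 2 ^ r ≤ l ∧ l < 2 * 2 ^ r ∧
        Squarefree l ∧ (∀ q ∈ l.primeFactors, p < q) := by
      intro l hl
      rw [mem_image] at hl
      obtain ⟨m, hm, rfl⟩ := hl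
      obtain ⟨_, _, _, h1, h2, h3, h4, _, _⟩ := b9b_mem hB36 hi hm
      exact ⟨h1, h2, h3, h4⟩
    have hblock := vi_block N θ D hD4 hDN hF B k w η hB36 hBD hk hη hη1 hw p hp hpB (2 ^ r) hH1 hH2 _ hLam
    have hp0 : (0 : ℝ) < (p : ℝ) := by exact_mod_cast hp.pos
    have hN0 : (0 : ℝ) < (N : ℝ) := by linarith
    have hc : 0 < t * N / (2 * p * LL N ^ 2) := by positivity
    have hm := markov_pow (S := PP N)
      (F := fun T => |∑ l ∈ (b9b_fib N B z i p r).image (fun l => l / p), ‖XX N θ (l * p) T‖ ^ 2 -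
        ∑ l ∈ (b9b_fib N B z i p r).image (fun l => l / p), ((MS N (l * p)).card : ℝ)|)
      (2 * k) (fun T _ => abs_nonneg _) hc hblock
    have heq : (18 * ((N : ℝ) / p) ^ 2 * LL N ^ (2 * w + 5) * (6 / Real.sqrt B) ^ (η / 4)) ^ k /
        (t * N / (2 * p * LL N ^ 2)) ^ (2 * k) =
        (72 * LL N ^ (2 * w + 9) * (6 / Real.sqrt B) ^ (η / 4) / t ^ 2) ^ k := by
      rw [pow_mul, ← div_pow]
      congr 1
      have e1 : LL N ^ (2 * w + 9) = LL N ^ (2 * w + 5) * LL N ^ 4 := by rw [← pow_add]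
      rw [e1]
      generalize (6 / Real.sqrt B) ^ (η / 4) = g
      field_simp
      ring
    rw [heq] at hm
    refine le_trans (pr_mono ?_) hm
    intro T _ h
    rw [b9b_sum hB36 hi (fun l => ‖XX N θ l T‖ ^ 2), b9b_sum hB36 hi (fun l => ((MS N l).card : ℝ))]
    have := le_abs_self (∑ l ∈ b9b_fib N B z i p r, ‖XX N θ l T‖ ^ 2 - ∑ l ∈ b9b_fib N B z i p r, ((MS N l).card : ℝ))
    linarith

theorem vi (N : ℕ) (θ D : ℝ) (hD4 : 4 ≤ D) (hDN : D ≤ N) (hF : Far N θ D) (B z k w : ℕ) (η : ℝ)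
    (hB36 : 36 ≤ B) (hBD : (B : ℝ) ^ 4 ≤ D) (hk : 1 ≤ k) (hη : 0 < η) (hη1 : η ≤ 1)
    (hw : (4 * (k : ℝ)) ^ (1 + η) ≤ w) (i : ℕ) (hi : 2 ≤ i) (t : ℝ) (ht : 0 < t) :
    pr (PP N) (fun T => ∑ l ∈ LI N B z i, ((MS N l).card : ℝ) + t * N < ∑ l ∈ LI N B z i, ‖XX N θ l T‖ ^ 2) ≤
      2 * B * LL N * (72 * LL N ^ (2 * w + 9) * (6 / Real.sqrt B) ^ (η / 4) / t ^ 2) ^ k := by
  classical
  have hN4 : (4 : ℝ) ≤ (N : ℝ) := hD4.trans hDN
  have hN0 : (0 : ℝ) < (N : ℝ) := by linarith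
  have hlogN : 0 ≤ Real.log N := Real.log_nonneg (by linarith)
  have hL1 : 1 ≤ LL N := by unfold LL; linarith
  have hB36' : (36 : ℝ) ≤ (B : ℝ) := by exact_mod_cast hB36
  have hBN : (B : ℝ) ≤ (N : ℝ) := by
    have h1 : (B : ℝ) ^ 1 ≤ (B : ℝ) ^ 4 := pow_le_pow_right₀ (by linarith) (by norm_num)
    rw [pow_one] at h1
    linarith
  have hlogB : Real.log B ≤ Real.log N := Real.log_le_log (by linarith) hBN
  have hlogB0 : 0 ≤ Real.log B := Real.log_nonneg (by linarith)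
  set R := Nat.log 2 B + 1 with hR
  have hRL : (R : ℝ) ≤ 2 * LL N := by
    have h1 : (2 : ℝ) ^ (Nat.log 2 B) ≤ (B : ℝ) := by
      exact_mod_cast Nat.pow_log_le_self 2 (show B ≠ 0 by omega)
    have h2 := Real.log_le_log (by positivity) h1
    rw [Real.log_pow] at h2
    have h3 : 0.6931471803 < Real.log 2 := Real.log_two_gt_d9
    rw [hR]
    push_cast
    unfold LL
    have h4 : (0 : ℝ) ≤ (Nat.log 2 B : ℝ) := Nat.cast_nonneg _
    nlinarith
  set g : ℕ → ℕ × ℕ := fun l => (l.minFac, Nat.log 2 (l / l.minFac)) with hg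
  set P : Finset (ℕ × ℕ) := range B ×ˢ range R with hP
  have hmaps : ∀ l ∈ LI N B z i, g l ∈ P := by
    intro l hl
    have hl' : l ∈ b9b_fib N B z i l.minFac (Nat.log 2 (l / l.minFac)) := by
      unfold b9b_fib
      rw [mem_filter]
      exact ⟨hl, rfl⟩
    obtain ⟨_, hpB, _, hr1, _, _, _, hlB, _⟩ := b9b_mem hB36 hi hl'
    rw [hP, hg, mem_product, mem_range, mem_range]
    refine ⟨hpB, ?_⟩
    have := Nat.log_mono_right (b := 2) hlB.le
    simp only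
    omega
  have hsplit : ∀ f : ℕ → ℝ, ∑ l ∈ LI N B z i, f l = ∑ q ∈ P, ∑ l ∈ b9b_fib N B z i q.1 q.2, f l := by
    intro f
    rw [← sum_fiberwise_of_maps_to hmaps f]
    apply sum_congr rfl
    intro q _
    rfl
  set bd := (72 * LL N ^ (2 * w + 9) * (6 / Real.sqrt B) ^ (η / 4) / t ^ 2) ^ k with hbd
  have hγ : 0 < (6 / Real.sqrt B) ^ (η / 4) := Real.rpow_pos_of_pos (by positivity) _
  have hbd0 : 0 ≤ bd := by rw [hbd]; positivity
  -- the thresholds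
  have hth : ∑ q ∈ P, t * N / (2 * (q.1 : ℝ) * LL N ^ 2) ≤ t * N := by
    rw [hP, sum_product]
    simp only
    have h1 : ∀ p ∈ range B, ∑ _r ∈ range R, t * N / (2 * (p : ℝ) * LL N ^ 2) =
        (R * (t * N / (2 * LL N ^ 2))) * ((p : ℝ))⁻¹ := by
      intro p _
      rw [sum_const, card_range, nsmul_eq_mul]
      rcases Nat.eq_zero_or_pos p with h | h
      · subst h
        simp
      · have : (0 : ℝ) < (p : ℝ) := by exact_mod_cast h
        field_simp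
    rw [sum_congr rfl h1, ← mul_sum]
    have h2 : ∑ p ∈ range B, ((p : ℝ))⁻¹ ≤ LL N := by
      have h3 : ∑ p ∈ range B, ((p : ℝ))⁻¹ ≤ ∑ p ∈ Icc 1 B, ((p : ℝ))⁻¹ := by
        have h4 : ∑ p ∈ range B, ((p : ℝ))⁻¹ = ∑ p ∈ (range B).filter (fun p => p ≠ 0), ((p : ℝ))⁻¹ := by
          rw [sum_filter]
          apply sum_congr rfl
          intro p _
          by_cases hp : p = 0
          · subst hp; simp
          · rw [if_pos hp]
        rw [h4]
        apply sum_le_sum_of_subset_of_nonneg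
        · intro p hp
          rw [mem_filter, mem_range] at hp
          rw [mem_Icc]
          omega
        · intro p _ _
          positivity
      have h5 : ∑ p ∈ Icc 1 B, ((p : ℝ))⁻¹ = ((harmonic B : ℚ) : ℝ) := by
        rw [harmonic_eq_sum_Icc]
        push_cast
        rfl
      rw [h5] at h3
      have h6 := harmonic_le_one_add_log B
      unfold LL
      linarith
    have h7 : (R : ℝ) * (t * N / (2 * LL N ^ 2)) ≤ 2 * LL N * (t * N / (2 * LL N ^ 2)) :=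
      mul_le_mul_of_nonneg_right hRL (by positivity)
    calc (R : ℝ) * (t * N / (2 * LL N ^ 2)) * ∑ p ∈ range B, ((p : ℝ))⁻¹
        ≤ (2 * LL N * (t * N / (2 * LL N ^ 2))) * LL N :=
          mul_le_mul h7 h2 (sum_nonneg fun _ _ => by positivity) (by positivity)
      _ = t * N := by
          have : LL N ≠ 0 := by positivity
          field_simp
  have hmain : pr (PP N) (fun T => ∑ l ∈ LI N B z i, ((MS N l).card : ℝ) + t * N <
      ∑ l ∈ LI N B z i, ‖XX N θ l T‖ ^ 2) ≤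
      ∑ q ∈ P, pr (PP N) (fun T => ∑ l ∈ b9b_fib N B z i q.1 q.2, ((MS N l).card : ℝ) +
        t * N / (2 * (q.1 : ℝ) * LL N ^ 2) < ∑ l ∈ b9b_fib N B z i q.1 q.2, ‖XX N θ l T‖ ^ 2) := by
    refine le_trans (pr_mono ?_) (pr_exists (PP N) P _)
    intro T _ h
    by_contra hcon
    push Not at hcon
    rw [hsplit, hsplit] at h
    have h1 : ∑ q ∈ P, ∑ l ∈ b9b_fib N B z i q.1 q.2, ‖XX N θ l T‖ ^ 2 ≤
        ∑ q ∈ P, (∑ l ∈ b9b_fib N B z i q.1 q.2, ((MS N l).card : ℝ) + t * N / (2 * (q.1 : ℝ) * LL N ^ 2)) :=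
      sum_le_sum hcon
    rw [sum_add_distrib] at h1
    linarith
  refine hmain.trans ?_
  calc ∑ q ∈ P, pr (PP N) (fun T => ∑ l ∈ b9b_fib N B z i q.1 q.2, ((MS N l).card : ℝ) +
        t * N / (2 * (q.1 : ℝ) * LL N ^ 2) < ∑ l ∈ b9b_fib N B z i q.1 q.2, ‖XX N θ l T‖ ^ 2)
      ≤ ∑ _q ∈ P, bd := sum_le_sum fun q _ =>
        b9b_pair N θ D hD4 hDN hF B z k w η hB36 hBD hk hη hη1 hw i hi t ht q.1 q.2
    _ = (B * R) * bd := by
        rw [sum_const, hP, card_product, card_range, card_range, nsmul_eq_mul]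
        push_cast
        ring
    _ ≤ (B * (2 * LL N)) * bd := by
        apply mul_le_mul_of_nonneg_right _ hbd0
        exact mul_le_mul_of_nonneg_left hRL (by positivity)
    _ = 2 * B * LL N * bd := by ring

end Pool.Agent.Helper5.RM
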