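import Pool.Agent.Helper5.RM.AZ2

/-!
# Block RM-IA: iterated Azuma inequality

Proof. Induction on `i`, for all `κ` (in `Type`), `I`, `Lc`, `X`, `v0`.
`i = 0`: every `l ∈ Lc μ` is `1` (squarefree without prime factors), so both sums agree up to: `Lc μ ⊆ {1}`,
`‖∑_l rf T l X‖^2 = ∑_l ‖X μ l T‖^2`; the event `v0 < s ∧ s ≤ v0` is impossible (`pr_false`).
`i + 1`: let `mx l` be the largest prime factor of `l` and for `q ∈ S`, `μ ∈ I` put
`L' (μ, q) = ((Lc μ).filter (mx · = q)).image (· / q)` (or the `l'` with `q * l' ∈ Lc μ`, `mx (q l') = q`),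
`X' (μ, q) l' = X μ (q * l')`. Then `rf T (q l') = sg T q * rf T l'` (`rf_mul`) and
`∑_{l ∈ Lc μ} rf T l X μ l T = ∑_{q ∈ S} sg T q * v q μ T` with
`v q μ T = ∑_{l' ∈ L' (μ,q)} rf T l' * X' (μ,q) l' T`, which satisfies `Pred q` (the primes of `l'` are `< q`, and
`X μ (q l')` satisfies `Pred q` by hypothesis with `p = q`).
Use `azuma` with `v0' = (2K)^i v0` and the induction hypothesis for `κ × ℕ`, index set `I ×ˢ S`, and `pr_le_add`:
if the event holds then either `∑_{q,μ} ‖v q μ‖^2 ≤ (2K)^i v0` (azuma event) or `> (2K)^i v0` (event of the induction hypothesis,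
and `∑ ‖X'‖^2 = ∑ ‖X‖^2 ≤ v0`). Total `2 e^(-K) + 2 i e^(-K)`.
-/

set_option autoImplicit false

namespace Pool.Agent.Helper5.RM

open Finset

/-- largest prime factor -/
private def IA_mx (l : ℕ) : ℕ := l.primeFactors.sup id

private lemma IA_mx_mem {l : ℕ} (h : l.primeFactors.Nonempty) : IA_mx l ∈ l.primeFactors := by
  obtain ⟨q, hq, he⟩ := Finset.exists_mem_eq_sup l.primeFactors h id
  unfold IA_mx
  rw [he]
  exact hq

private lemma IA_le_mx {l p : ℕ} (h : p ∈ l.primeFactors) : p ≤ IA_mx l :=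
  Finset.le_sup (f := id) h

/-- the cofactor of the largest prime of a squarefree number -/
private lemma IA_split {l i : ℕ} (hl : Squarefree l) (ho : om l = i + 1) :
    (IA_mx l).Prime ∧ IA_mx l ∈ l.primeFactors ∧ IA_mx l * (l / IA_mx l) = l ∧ Nat.Coprime (IA_mx l) (l / IA_mx l) ∧
      Squarefree (l / IA_mx l) ∧ om (l / IA_mx l) = i ∧ (l / IA_mx l).primeFactors ⊆ l.primeFactors ∧
      ∀ p ∈ (l / IA_mx l).primeFactors, p < IA_mx l := by
  have hne : l.primeFactors.Nonempty := by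
    rw [← Finset.card_pos]
    unfold om at ho
    omega
  have hm := IA_mx_mem hne
  have hp : (IA_mx l).Prime := Nat.prime_of_mem_primeFactors hm
  have hd : IA_mx l ∣ l := Nat.dvd_of_mem_primeFactors hm
  have he : IA_mx l * (l / IA_mx l) = l := Nat.mul_div_cancel' hd
  have hl0 : l ≠ 0 := hl.ne_zero
  have hsq : Squarefree (IA_mx l * (l / IA_mx l)) := by rw [he]; exact hl
  have hc : Nat.Coprime (IA_mx l) (l / IA_mx l) := Nat.coprime_of_squarefree_mul hsq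
  have hsd : Squarefree (l / IA_mx l) := hl.squarefree_of_dvd ⟨IA_mx l, by rw [mul_comm]; exact he.symm⟩
  have hpf : l.primeFactors = {IA_mx l} ∪ (l / IA_mx l).primeFactors := by
    conv_lhs => rw [← he]
    rw [hc.primeFactors_mul, hp.primeFactors]
  have hnot : IA_mx l ∉ (l / IA_mx l).primeFactors := by
    intro hh
    have h1 : IA_mx l ∣ l / IA_mx l := Nat.dvd_of_mem_primeFactors hh
    have h2 := Nat.Coprime.eq_one_of_dvd hc h1
    exact hp.one_lt.ne' h2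
  refine ⟨hp, hm, he, hc, hsd, ?_, ?_, ?_⟩
  · unfold om at ho ⊢
    rw [hpf, Finset.card_union_of_disjoint (by simpa using hnot), Finset.card_singleton] at ho
    omega
  · rw [hpf]; exact Finset.subset_union_right
  · intro p hp'
    have h1 : p ≤ IA_mx l := IA_le_mx (by rw [hpf]; exact Finset.mem_union_right _ hp')
    have h2 : p ≠ IA_mx l := fun h => hnot (h ▸ hp')
    omega

/-- regrouping by the largest prime -/
private lemma IA_regroup {S L : Finset ℕ} {i : ℕ} (hL : ∀ l ∈ L, Squarefree l ∧ l.primeFactors ⊆ S ∧ om l = i + 1)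
    {M : Type*} [AddCommMonoid M] (f : ℕ → M) :
    ∑ l ∈ L, f l = ∑ q ∈ S, ∑ l' ∈ (L.filter (fun l => IA_mx l = q)).image (· / q), f (q * l') := by
  classical
  have h1 : ∑ l ∈ L, f l = ∑ q ∈ S, ∑ l ∈ L.filter (fun l => IA_mx l = q), f l := by
    rw [Finset.sum_fiberwise_of_maps_to]
    intro l hl
    obtain ⟨hs, hS, ho⟩ := hL l hl
    exact hS (IA_split hs ho).2.1
  rw [h1]
  refine Finset.sum_congr rfl fun q _ => ?_
  rw [Finset.sum_image]
  · refine Finset.sum_congr rfl fun l hl => ?_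
    rw [Finset.mem_filter] at hl
    obtain ⟨hl, rfl⟩ := hl
    obtain ⟨hs, hS, ho⟩ := hL l hl
    rw [(IA_split hs ho).2.2.1]
  · intro l hl l2 hl2 he
    rw [Finset.mem_coe, Finset.mem_filter] at hl hl2
    obtain ⟨hs, hS, ho⟩ := hL l hl.1
    obtain ⟨hs2, hS2, ho2⟩ := hL l2 hl2.1
    have e1 := (IA_split hs ho).2.2.1
    have e2 := (IA_split hs2 ho2).2.2.1
    rw [hl.2] at e1
    rw [hl2.2] at e2
    simp only at he
    rw [← e1, ← e2, he]

theorem iter (S : Finset ℕ) (hS : ∀ p ∈ S, p.Prime) (K : ℝ) (hK : 0 < K) (i : ℕ) :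
    ∀ (κ : Type) (I : Finset κ) (Lc : κ → Finset ℕ) (X : κ → ℕ → Finset ℕ → ℂ) (v0 : ℝ), 0 ≤ v0 →
      (∀ μ ∈ I, ∀ l ∈ Lc μ, Squarefree l ∧ l.primeFactors ⊆ S ∧ om l = i) →
      (∀ μ ∈ I, ∀ l ∈ Lc μ, ∀ p ∈ l.primeFactors, Pred p (X μ l)) →
      pr S (fun T => (2 * K) ^ i * v0 < ∑ μ ∈ I, ‖∑ l ∈ Lc μ, (rf T l : ℂ) * X μ l T‖ ^ 2 ∧
        ∑ μ ∈ I, ∑ l ∈ Lc μ, ‖X μ l T‖ ^ 2 ≤ v0) ≤ 2 * i * Real.exp (-K) := by
  classical
  induction i with
  | zero =>
    intro κ I Lc X v0 hv0 h1 h2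
    rw [pr_false]
    · simp
    · rintro T - ⟨ha, hb⟩
      have : ∑ μ ∈ I, ‖∑ l ∈ Lc μ, (rf T l : ℂ) * X μ l T‖ ^ 2 = ∑ μ ∈ I, ∑ l ∈ Lc μ, ‖X μ l T‖ ^ 2 := by
        refine Finset.sum_congr rfl fun μ hμ => ?_
        have hsub : Lc μ ⊆ {1} := by
          intro l hl
          obtain ⟨hs, _, ho⟩ := h1 μ hμ l hl
          rw [Finset.mem_singleton]
          unfold om at ho
          rw [Finset.card_eq_zero, Nat.primeFactors_eq_empty] at ho
          rcases ho with h | h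
          · exact absurd h hs.ne_zero
          · exact h
        rcases Finset.subset_singleton_iff.1 hsub with h | h
        · rw [h]; simp
        · rw [h]; simp [rf_one]
      rw [this, pow_zero, one_mul] at ha
      linarith
  | succ i ih =>
    intro κ I Lc X v0 hv0 h1 h2
    set L' : κ × ℕ → Finset ℕ := fun m => ((Lc m.1).filter (fun l => IA_mx l = m.2)).image (· / m.2) with hL'
    set X' : κ × ℕ → ℕ → Finset ℕ → ℂ := fun m l' => X m.1 (m.2 * l') with hX'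
    set v : ℕ → κ → Finset ℕ → ℂ := fun q μ T => ∑ l' ∈ L' (μ, q), (rf T l' : ℂ) * X' (μ, q) l' T with hv
    have hmem : ∀ μ ∈ I, ∀ q, ∀ l' ∈ L' (μ, q), ∃ l ∈ Lc μ, IA_mx l = q ∧ l / q = l' ∧ q * l' = l := by
      intro μ hμ q l' hl'
      simp only [hL', Finset.mem_image, Finset.mem_filter] at hl'
      obtain ⟨l, ⟨hl, hq⟩, he⟩ := hl'
      refine ⟨l, hl, hq, he, ?_⟩
      obtain ⟨hs, _, ho⟩ := h1 μ hμ l hl
      have := (IA_split hs ho).2.2.1
      rw [hq, he] at this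
      exact this
    have hA : ∀ p ∈ S, ∀ μ ∈ I, Pred p (v p μ) := by
      intro q _ μ hμ T
      simp only [hv]
      refine Finset.sum_congr rfl fun l' hl' => ?_
      obtain ⟨l, hl, hq, he, hm⟩ := hmem μ hμ q l' hl'
      obtain ⟨hs, _, ho⟩ := h1 μ hμ l hl
      obtain ⟨s1, s2, s3, s4, s5, s6, s7, s8⟩ := IA_split hs ho
      have e1 : X' (μ, q) l' T = X' (μ, q) l' (T.filter (· < q)) := by
        simp only [hX']
        rw [hm]
        exact h2 μ hμ l hl q (hq ▸ s2) T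
      have e2 : rf (T.filter (· < q)) l' = rf T l' := by
        rw [rf_sqf (by rw [← he, ← hq]; exact s5), rf_sqf (by rw [← he, ← hq]; exact s5)]
        refine wal_filter ?_
        intro p hp
        rw [← hq]
        exact s8 p (by rw [hq, he]; exact hp)
      rw [e1, e2]
    have hZ := azuma S I v hA K ((2 * K) ^ i * v0) hK (by positivity)
    have hI := ih (κ × ℕ) (I ×ˢ S) L' X' v0 hv0
      (by
        rintro ⟨μ, q⟩ hm l' hl'
        rw [Finset.mem_product] at hm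
        obtain ⟨l, hl, hq, he, hm'⟩ := hmem μ hm.1 q l' hl'
        obtain ⟨hs, hS', ho⟩ := h1 μ hm.1 l hl
        obtain ⟨s1, s2, s3, s4, s5, s6, s7, s8⟩ := IA_split hs ho
        rw [hq, he] at s5 s6 s7
        exact ⟨s5, s7.trans hS', s6⟩)
      (by
        rintro ⟨μ, q⟩ hm l' hl' p hp
        rw [Finset.mem_product] at hm
        obtain ⟨l, hl, hq, he, hm'⟩ := hmem μ hm.1 q l' hl'
        obtain ⟨hs, hS', ho⟩ := h1 μ hm.1 l hl
        obtain ⟨s1, s2, s3, s4, s5, s6, s7, s8⟩ := IA_split hs ho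
        rw [hq, he] at s5 s6 s7
        simp only [hX']
        rw [hm']
        exact h2 μ hm.1 l hl p (s7 hp))
    have hR1 : ∀ T, ∀ μ ∈ I, ∑ l ∈ Lc μ, (rf T l : ℂ) * X μ l T = ∑ q ∈ S, (sg T q : ℂ) * v q μ T := by
      intro T μ hμ
      rw [IA_regroup (h1 μ hμ) (fun l => (rf T l : ℂ) * X μ l T)]
      refine Finset.sum_congr rfl fun q _ => ?_
      simp only [hv]
      rw [Finset.mul_sum]
      refine Finset.sum_congr rfl fun l' hl' => ?_
      obtain ⟨l, hl, hq, he, hm⟩ := hmem μ hμ q l' hl'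
      obtain ⟨hs, hS', ho⟩ := h1 μ hμ l hl
      obtain ⟨s1, s2, s3, s4, s5, s6, s7, s8⟩ := IA_split hs ho
      rw [hq, he] at s4
      rw [hq] at s1
      rw [rf_mul s4]
      have : rf T q = sg T q := by
        rw [rf_sqf s1.squarefree, s1.primeFactors]
        simp [wal]
      rw [this]
      simp only [hX']
      push_cast
      ring
    have hR2 : ∀ T, ∑ m ∈ I ×ˢ S, ∑ l' ∈ L' m, ‖X' m l' T‖ ^ 2 = ∑ μ ∈ I, ∑ l ∈ Lc μ, ‖X μ l T‖ ^ 2 := by
      intro T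
      rw [Finset.sum_product]
      refine Finset.sum_congr rfl fun μ hμ => ?_
      rw [IA_regroup (h1 μ hμ) (fun l => ‖X μ l T‖ ^ 2)]
    have hR3 : ∀ T, ∑ m ∈ I ×ˢ S, ‖∑ l' ∈ L' m, (rf T l' : ℂ) * X' m l' T‖ ^ 2 =
        ∑ q ∈ S, ∑ μ ∈ I, ‖v q μ T‖ ^ 2 := by
      intro T
      rw [Finset.sum_product, Finset.sum_comm]
    have hfin : pr S (fun T => (2 * K) ^ (i + 1) * v0 < ∑ μ ∈ I, ‖∑ l ∈ Lc μ, (rf T l : ℂ) * X μ l T‖ ^ 2 ∧
        ∑ μ ∈ I, ∑ l ∈ Lc μ, ‖X μ l T‖ ^ 2 ≤ v0) ≤ 2 * Real.exp (-K) + 2 * i * Real.exp (-K) := by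
      refine le_trans (pr_le_add ?_) (add_le_add hZ hI)
      rintro T - ⟨ha, hb⟩
      have hb' := hb
      rw [← hR2 T] at hb'
      have ha' : 2 * K * ((2 * K) ^ i * v0) < ∑ μ ∈ I, ‖∑ q ∈ S, (sg T q : ℂ) * v q μ T‖ ^ 2 := by
        have e : ∑ μ ∈ I, ‖∑ q ∈ S, (sg T q : ℂ) * v q μ T‖ ^ 2 =
            ∑ μ ∈ I, ‖∑ l ∈ Lc μ, (rf T l : ℂ) * X μ l T‖ ^ 2 :=
          Finset.sum_congr rfl fun μ hμ => by rw [hR1 T μ hμ]
        rw [e]
        calc 2 * K * ((2 * K) ^ i * v0) = (2 * K) ^ (i + 1) * v0 := by ring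
          _ < _ := ha
      by_cases hc : ∑ q ∈ S, ∑ μ ∈ I, ‖v q μ T‖ ^ 2 ≤ (2 * K) ^ i * v0
      · exact Or.inl ⟨ha', hc⟩
      · refine Or.inr ⟨?_, hb'⟩
        rw [hR3 T]
        exact not_le.1 hc
    refine hfin.trans (le_of_eq ?_)
    push_cast
    ring

end Pool.Agent.Helper5.RM
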