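import Pool.Agent.Helper5.RM.DEC
import Pool.Agent.Helper5.RM.HC4
import Pool.Agent.Helper5.RM.LG5

/-!
# Block RM-Z7: the part with small primes

Proof. Let `W = 2k-1`, `s = {l m : l ∈ LZ N B z, m ∈ MS N l}` (injective by `dec_inj`, squarefree numbers `≤ N`). The sum is
`∑_{n ∈ s} rf T n e(n x)`, `hyper_sqf` gives the bound `(∑_{n ∈ s} W^(om n))^k`. Now bound `∑_{n ∈ s} W^(om n) ≤ E0`:
(a) `n ≤ √N`: `omega_sum` with `X = ⌊√N⌋ = Nat.sqrt N`: at most `√N * LL N ^ W`.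
(b) `n > √N`: `n = l m = l' u` with `l' = l / l.minFac < B`, `u = l.minFac * m` squarefree with all primes `≤ z`, coprime to `l'`, and
`u = n / l' > √N / B ≥ N^(3/8)` as `B^8 ≤ N`. So with `δ = 1/log z` the sum is at most
`∑_{l' < B sqf} W^(om l') ∑_{u ≤ N/l', u z-smooth sqf, u ≥ N^(3/8)} W^(om u)
 ≤ ∑_{l'} W^(om l') (N/l') ∑_{u} W^(om u)/u * (u / N^(3/8))^δ ≤ N * LL N^W * N^(-3δ/8) * ∏_{p ≤ z} (1 + W p^(δ-1))` (`omega_inv`),
`p^δ ≤ exp 1 ≤ 3` for `p ≤ z`, `∏ ≤ exp (3 W ∑_{p ≤ z} 1/p) ≤ exp (3 W (1 + log z))`. Note `N^(-3δ/8) = exp (-(3/8) log N / log z)`.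
(In fact for `n ∈ s` all primes of `u = l.minFac * m` are at most `l.minFac ≤ z`.)
-/

set_option autoImplicit false

namespace Pool.Agent.Helper5.RM

open Finset

private lemma Z7_sqf_sum (Q U : Finset ℕ) (c : ℕ → ℝ) (hc : ∀ p ∈ Q, 0 ≤ c p)
    (hU : ∀ u ∈ U, Squarefree u ∧ u.primeFactors ⊆ Q) :
    ∑ u ∈ U, ∏ p ∈ u.primeFactors, c p ≤ ∏ p ∈ Q, (1 + c p) := by
  classical
  rw [Finset.prod_one_add]
  have hinj : Set.InjOn (fun n : ℕ => n.primeFactors) (U : Set ℕ) := by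
    intro a ha b hb hab
    have h1 := Nat.prod_primeFactors_of_squarefree (hU a ha).1
    have h2 := Nat.prod_primeFactors_of_squarefree (hU b hb).1
    simp only at hab
    rw [hab] at h1
    exact h1.symm.trans h2
  rw [← Finset.sum_image (f := fun T : Finset ℕ => ∏ p ∈ T, c p) hinj]
  refine Finset.sum_le_sum_of_subset_of_nonneg ?_ ?_
  · intro T hT
    obtain ⟨n, hn, rfl⟩ := Finset.mem_image.1 hT
    exact Finset.mem_powerset.2 (hU n hn).2
  · intro T hT _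
    exact Finset.prod_nonneg fun p hp => hc p (Finset.mem_powerset.1 hT hp)

/-- the product over the primes `≤ z` -/
private lemma Z7_prod (z W : ℕ) (hz : 2 ≤ z) :
    ∏ p ∈ PP z, (1 + (W : ℝ) * (p : ℝ) ^ (1 / Real.log z - 1)) ≤
      Real.exp (3 * W * (1 + Real.log z)) := by
  have hz1 : (1 : ℝ) < z := by exact_mod_cast (by omega : 1 < z)
  have hlz : 0 < Real.log z := Real.log_pos hz1
  have h1 : ∏ p ∈ PP z, (1 + (W : ℝ) * (p : ℝ) ^ (1 / Real.log z - 1)) ≤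
      ∏ p ∈ PP z, Real.exp (3 * W * (1 / (p : ℝ))) := by
    refine Finset.prod_le_prod (fun p _ => by positivity) fun p hp => ?_
    unfold PP at hp
    rw [Finset.mem_filter, Finset.mem_Icc] at hp
    have hp0 : (0 : ℝ) < p := by exact_mod_cast hp.2.pos
    have hpz : (p : ℝ) ≤ z := by exact_mod_cast hp.1.2
    have h2 : (p : ℝ) ^ (1 / Real.log z) ≤ 3 := by
      calc (p : ℝ) ^ (1 / Real.log z) ≤ (z : ℝ) ^ (1 / Real.log z) :=
            Real.rpow_le_rpow hp0.le hpz (by positivity)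
        _ = Real.exp 1 := by
            rw [Real.rpow_def_of_pos (by linarith)]
            congr 1
            field_simp
        _ ≤ 3 := Real.exp_one_lt_three.le
    have h3 : (W : ℝ) * (p : ℝ) ^ (1 / Real.log z - 1) ≤ 3 * W * (1 / (p : ℝ)) := by
      rw [Real.rpow_sub_one hp0.ne']
      have : (W : ℝ) * ((p : ℝ) ^ (1 / Real.log z) / p) =
          W * (p : ℝ) ^ (1 / Real.log z) * (1 / p) := by ring
      rw [this]
      refine mul_le_mul_of_nonneg_right ?_ (by positivity)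
      calc (W : ℝ) * (p : ℝ) ^ (1 / Real.log z) ≤ W * 3 :=
            mul_le_mul_of_nonneg_left h2 (Nat.cast_nonneg W)
        _ = 3 * W := by ring
    have h4 := Real.add_one_le_exp (3 * (W : ℝ) * (1 / (p : ℝ)))
    linarith
  refine h1.trans ?_
  rw [← Real.exp_sum, ← Finset.mul_sum]
  refine Real.exp_le_exp.2 (mul_le_mul_of_nonneg_left ?_ (by positivity))
  have h5 : ∑ p ∈ PP z, 1 / (p : ℝ) ≤ ∑ p ∈ Finset.Icc 1 z, 1 / (p : ℝ) := by
    refine Finset.sum_le_sum_of_subset_of_nonneg ?_ fun _ _ _ => by positivity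
    unfold PP
    exact Finset.filter_subset _ _
  refine h5.trans ?_
  have h3 := harmonic_le_one_add_log z
  have h4 : ((harmonic z : ℚ) : ℝ) = ∑ k ∈ Finset.Icc 1 z, 1 / (k : ℝ) := by
    rw [harmonic_eq_sum_Icc]
    push_cast
    refine Finset.sum_congr rfl fun k _ => ?_
    rw [one_div]
  rwa [h4] at h3

/-- the sum over the smooth squarefree numbers -/
private lemma Z7_smooth (N z W : ℕ) (hz : 2 ≤ z) :
    ∑ u ∈ (Finset.Icc 1 N).filter (fun u => Squarefree u ∧ ∀ p ∈ u.primeFactors, p ≤ z),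
      (W : ℝ) ^ om u * (u : ℝ) ^ (1 / Real.log z - 1) ≤ Real.exp (3 * W * (1 + Real.log z)) := by
  refine le_trans ?_ (Z7_prod z W hz)
  refine le_trans (le_of_eq ?_) (Z7_sqf_sum (PP z)
    ((Finset.Icc 1 N).filter (fun u => Squarefree u ∧ ∀ p ∈ u.primeFactors, p ≤ z))
    (fun p => (W : ℝ) * (p : ℝ) ^ (1 / Real.log z - 1)) (fun p _ => by positivity) fun u hu => ?_)
  · refine Finset.sum_congr rfl fun u hu => ?_
    rw [Finset.mem_filter] at hu
    rw [Finset.prod_mul_distrib, Finset.prod_const, Real.finsetProd_rpow _ _ (fun i _ => Nat.cast_nonneg i),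
      ← Nat.cast_prod, Nat.prod_primeFactors_of_squarefree hu.2.1]
    rfl
  · rw [Finset.mem_filter] at hu
    refine ⟨hu.2.1, fun p hp => ?_⟩
    unfold PP
    rw [Finset.mem_filter, Finset.mem_Icc]
    exact ⟨⟨(Nat.prime_of_mem_primeFactors hp).pos, hu.2.2 p hp⟩, Nat.prime_of_mem_primeFactors hp⟩

/-- the facts on a pair `(l, m)` -/
private lemma Z7_pair {N B z l m : ℕ} (hB : 2 ≤ B) (hl : l ∈ LZ N B z) (hm : m ∈ MS N l) :
    Squarefree (l * m) ∧ 1 ≤ l * m ∧ l * m ≤ N ∧ (l / l.minFac) * (l.minFac * m) = l * m ∧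
    1 ≤ l / l.minFac ∧ l / l.minFac < B ∧ ∀ p ∈ (l.minFac * m).primeFactors, p ≤ z := by
  have hcop := dec_coprime hm
  unfold LZ LA at hl
  unfold MS at hm
  simp only [Finset.mem_filter, Finset.mem_Icc] at hl hm
  obtain ⟨⟨⟨hl1, hlN⟩, hls, hlB, hlm⟩, hlz⟩ := hl
  obtain ⟨⟨hm1, hmN⟩, hms, hmp⟩ := hm
  have hq : l.minFac.Prime := Nat.minFac_prime (by omega)
  refine ⟨(Nat.squarefree_mul hcop).2 ⟨hls, hms⟩, Nat.mul_pos hl1 hm1,
    (Nat.mul_le_mul_left l hmN).trans (Nat.mul_div_le N l), ?_, ?_, hlm, ?_⟩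
  · rw [← mul_assoc, Nat.div_mul_cancel (Nat.minFac_dvd l)]
  · exact Nat.div_pos (Nat.minFac_le (by omega)) hq.pos
  · intro p hp
    rw [Nat.mem_primeFactors] at hp
    rcases (Nat.Prime.dvd_mul hp.1).1 hp.2.1 with h | h
    · rw [(Nat.prime_dvd_prime_iff_eq hp.1 hq).1 h]
      exact hlz
    · exact (hmp p (Nat.mem_primeFactors.2 ⟨hp.1, h, by omega⟩)).le.trans hlz

private lemma Z7_om {a b : ℕ} (h : Squarefree (a * b)) : om (a * b) = om a + om b := by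
  have hc : Nat.Coprime a b := Nat.coprime_of_squarefree_mul h
  unfold om
  rw [hc.primeFactors_mul, Finset.card_union_of_disjoint hc.disjoint_primeFactors]

/-- the map `(l, m) ↦ (l / l.minFac, l.minFac * m)` -/
private def Z7_phi (x : Σ _ : ℕ, ℕ) : ℕ × ℕ := (x.1 / x.1.minFac, x.1.minFac * x.2)

private lemma Z7_injOn (N B z : ℕ) (hB : 2 ≤ B) :
    Set.InjOn (fun x : Σ _ : ℕ, ℕ => x.1 * x.2) (((LZ N B z).sigma (MS N) : Finset (Σ _ : ℕ, ℕ)) : Set (Σ _ : ℕ, ℕ)) := by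
  rintro ⟨l, m⟩ hx ⟨l', m'⟩ hx' h
  rw [Finset.mem_coe, Finset.mem_sigma] at hx hx'
  simp only at h hx hx'
  have h1 : l ∈ LA N B := (Finset.mem_filter.1 hx.1).1
  have h2 : l' ∈ LA N B := (Finset.mem_filter.1 hx'.1).1
  obtain ⟨h3, h4⟩ := dec_inj N B hB h1 hx.2 h2 hx'.2 h
  subst h3; subst h4; rfl

/-- the large numbers -/
private lemma Z7_large (N B z W : ℕ) (hB : 2 ≤ B) (hBN : (B : ℝ) ^ 8 ≤ N) (hz : 2 ≤ z) :
    ∑ x ∈ ((LZ N B z).sigma (MS N)).filter (fun x => ¬ x.1 * x.2 ≤ Nat.sqrt N), (W : ℝ) ^ om (x.1 * x.2) ≤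
      N * LL N ^ W * Real.exp (-(3 / 8) * Real.log N / Real.log z + 3 * W * (1 + Real.log z)) := by
  classical
  have hz1 : (1 : ℝ) < z := by exact_mod_cast (by omega : 1 < z)
  have hlz : 0 < Real.log z := Real.log_pos hz1
  have hB0 : (0 : ℝ) < B := by exact_mod_cast (by omega : 0 < B)
  have hN0 : (0 : ℝ) < N := lt_of_lt_of_le (by positivity) hBN
  have hN1 : 1 ≤ N := by
    have : 0 < N := by exact_mod_cast hN0
    omega
  obtain ⟨δ, hδ⟩ : ∃ δ : ℝ, δ = 1 / Real.log z := ⟨_, rfl⟩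
  have hδ0 : 0 < δ := by rw [hδ]; positivity
  obtain ⟨E, hE⟩ : ∃ E : ℝ, E = Real.exp (-(3 / 8) * Real.log N / Real.log z) := ⟨_, rfl⟩
  have hE0 : 0 < E := by rw [hE]; exact Real.exp_pos _
  set A : Finset ℕ := (Finset.Icc 1 N).filter Squarefree with hA
  set U : Finset ℕ := (Finset.Icc 1 N).filter (fun u => Squarefree u ∧ ∀ p ∈ u.primeFactors, p ≤ z) with hU
  set G : ℕ × ℕ → ℝ := fun y => N * E * ((W : ℝ) ^ om y.1 / y.1 * ((W : ℝ) ^ om y.2 * (y.2 : ℝ) ^ (δ - 1))) with hG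
  have hG0 : ∀ y, 0 ≤ G y := by intro y; simp only [hG]; positivity
  set Tb := ((LZ N B z).sigma (MS N)).filter (fun x => ¬ x.1 * x.2 ≤ Nat.sqrt N) with hTb
  have hstep1 : ∑ x ∈ Tb, (W : ℝ) ^ om (x.1 * x.2) ≤ ∑ x ∈ Tb, G (Z7_phi x) := by
    refine Finset.sum_le_sum fun x hx => ?_
    rw [hTb, Finset.mem_filter, Finset.mem_sigma] at hx
    obtain ⟨⟨hl, hm⟩, hlarge⟩ := hx
    obtain ⟨p1, p2, p3, p4, p5, p6, p7⟩ := Z7_pair hB hl hm
    obtain ⟨a, ha⟩ : ∃ a, a = x.1 / x.1.minFac := ⟨_, rfl⟩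
    obtain ⟨u, hu⟩ : ∃ u, u = x.1.minFac * x.2 := ⟨_, rfl⟩
    have hphi : Z7_phi x = (a, u) := by rw [ha, hu]; rfl
    rw [hphi, ← p4, ← ha, ← hu]
    rw [← ha, ← hu] at p4
    rw [← ha] at p5 p6
    rw [← p4] at p1 p2 p3 hlarge
    rw [Z7_om p1]
    have hu1 : 1 ≤ u := by
      rcases Nat.eq_zero_or_pos u with h0 | h0
      · rw [h0, mul_zero] at p2; omega
      · exact h0
    have ha0 : (0 : ℝ) < a := by exact_mod_cast p5
    have hu0 : (0 : ℝ) < u := by exact_mod_cast hu1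
    have hau : (a : ℝ) * u ≤ N := by exact_mod_cast p3
    have haB : (a : ℝ) < B := by exact_mod_cast p6
    have hNau : (N : ℝ) < (a * u) ^ 2 := by
      push Not at hlarge
      have := Nat.sqrt_lt.1 hlarge
      have h2 : N < (a * u) ^ 2 := by rw [pow_two]; exact this
      exact_mod_cast h2
    have hlogu : 3 / 8 * Real.log N ≤ Real.log u := by
      have h1 : Real.log N ≤ 2 * (Real.log a + Real.log u) := by
        have := Real.log_le_log hN0 hNau.le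
        rw [Real.log_pow, Real.log_mul ha0.ne' hu0.ne'] at this
        push_cast at this
        exact this
      have h2 : Real.log a ≤ Real.log B := Real.log_le_log ha0 haB.le
      have h3 : 8 * Real.log B ≤ Real.log N := by
        have := Real.log_le_log (by positivity) hBN
        rw [Real.log_pow] at this
        push_cast at this
        exact this
      linarith
    have hEu : 1 ≤ E * (u : ℝ) ^ δ := by
      rw [hE, Real.rpow_def_of_pos hu0, ← Real.exp_add, Real.one_le_exp_iff]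
      have h1 : -(3 / 8) * Real.log N / Real.log z = -(3 / 8 * Real.log N * δ) := by
        rw [hδ]; ring
      rw [h1]
      have := mul_le_mul_of_nonneg_right hlogu hδ0.le
      linarith
    simp only [hG]
    have h2 : (N : ℝ) * E * ((W : ℝ) ^ om a / a * ((W : ℝ) ^ om u * (u : ℝ) ^ (δ - 1))) =
        (W : ℝ) ^ (om a + om u) * ((N / (a * u)) * (E * (u : ℝ) ^ δ)) := by
      rw [Real.rpow_sub_one hu0.ne', pow_add]
      field_simp
    rw [h2]
    refine le_mul_of_one_le_right (by positivity) ?_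
    have h3 : 1 ≤ (N : ℝ) / (a * u) := by rw [one_le_div (by positivity)]; exact hau
    calc (1 : ℝ) = 1 * 1 := by ring
      _ ≤ _ := mul_le_mul h3 hEu (by norm_num) (by positivity)
  have hinj : Set.InjOn Z7_phi (Tb : Set (Σ _ : ℕ, ℕ)) := by
    intro x hx y hy h
    rw [Finset.mem_coe, hTb, Finset.mem_filter, Finset.mem_sigma] at hx hy
    refine Z7_injOn N B z hB (Finset.mem_coe.2 (Finset.mem_sigma.2 hx.1))
      (Finset.mem_coe.2 (Finset.mem_sigma.2 hy.1)) ?_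
    have hx4 := (Z7_pair hB hx.1.1 hx.1.2).2.2.2.1
    have hy4 := (Z7_pair hB hy.1.1 hy.1.2).2.2.2.1
    unfold Z7_phi at h
    rw [Prod.mk.injEq] at h
    show x.1 * x.2 = y.1 * y.2
    rw [← hx4, ← hy4, h.1, h.2]
  have hstep2 : ∑ x ∈ Tb, G (Z7_phi x) ≤ ∑ y ∈ A ×ˢ U, G y := by
    rw [← Finset.sum_image (f := G) hinj]
    refine Finset.sum_le_sum_of_subset_of_nonneg ?_ fun y _ _ => hG0 y
    intro y hy
    obtain ⟨x, hx, rfl⟩ := Finset.mem_image.1 hy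
    rw [hTb, Finset.mem_filter, Finset.mem_sigma] at hx
    obtain ⟨⟨hl, hm⟩, -⟩ := hx
    obtain ⟨p1, p2, p3, p4, p5, p6, p7⟩ := Z7_pair hB hl hm
    have hd1 : x.1 / x.1.minFac ∣ x.1 * x.2 := Dvd.intro _ p4
    have hd2 : x.1.minFac * x.2 ∣ x.1 * x.2 := Dvd.intro_left _ p4
    rw [Finset.mem_product, hA, hU, Finset.mem_filter, Finset.mem_filter, Finset.mem_Icc, Finset.mem_Icc]
    refine ⟨⟨⟨p5, (Nat.le_of_dvd (by omega) hd1).trans p3⟩, p1.squarefree_of_dvd hd1⟩,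
      ⟨Nat.pos_of_dvd_of_pos hd2 (by omega), (Nat.le_of_dvd (by omega) hd2).trans p3⟩,
      p1.squarefree_of_dvd hd2, p7⟩
  have hstep3 : ∑ y ∈ A ×ˢ U, G y = N * E * ((∑ a ∈ A, (W : ℝ) ^ om a / a) *
      ∑ u ∈ U, (W : ℝ) ^ om u * (u : ℝ) ^ (δ - 1)) := by
    rw [Finset.sum_mul_sum, Finset.sum_product, Finset.mul_sum]
    refine Finset.sum_congr rfl fun a _ => ?_
    rw [Finset.mul_sum]
  have hb1 : ∑ a ∈ A, (W : ℝ) ^ om a / a ≤ LL N ^ W := omega_inv W N hN1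
  have hb2 : ∑ u ∈ U, (W : ℝ) ^ om u * (u : ℝ) ^ (δ - 1) ≤ Real.exp (3 * W * (1 + Real.log z)) := by
    rw [hδ]; exact Z7_smooth N z W hz
  have hLL : 0 ≤ LL N := by
    unfold LL
    have := Real.log_natCast_nonneg N
    linarith
  calc _ ≤ N * E * ((∑ a ∈ A, (W : ℝ) ^ om a / a) *
      ∑ u ∈ U, (W : ℝ) ^ om u * (u : ℝ) ^ (δ - 1)) := hstep1.trans (hstep2.trans hstep3.le)
    _ ≤ N * E * (LL N ^ W * Real.exp (3 * W * (1 + Real.log z))) := by
        refine mul_le_mul_of_nonneg_left ?_ (by positivity)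
        refine mul_le_mul hb1 hb2 (Finset.sum_nonneg fun u _ => by positivity) (by positivity)
    _ = _ := by rw [hE, Real.exp_add]; ring

theorem szero (N B z k : ℕ) (hk : 1 ≤ k) (hB : 2 ≤ B) (hBN : (B : ℝ) ^ 8 ≤ N) (hz : 2 ≤ z) (x : ℝ) :
    av (PP N) (fun T => ‖∑ l ∈ LZ N B z, (rf T l : ℂ) * XX N x l T‖ ^ (2 * k)) ≤
      (E0 N z (2 * k - 1)) ^ k := by
  classical
  have hB0 : (0 : ℝ) < B := by exact_mod_cast (by omega : 0 < B)
  have hN0 : (0 : ℝ) < N := lt_of_lt_of_le (by positivity) hBN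
  have hN1 : 1 ≤ N := by
    have : 0 < N := by exact_mod_cast hN0
    omega
  set P : Finset (Σ _ : ℕ, ℕ) := (LZ N B z).sigma (MS N) with hP
  set s : Finset ℕ := P.image (fun x => x.1 * x.2) with hs
  have hinj := Z7_injOn N B z hB
  rw [← hP] at hinj
  -- the sum over `s`
  have hsum : ∀ T : Finset ℕ, ∑ l ∈ LZ N B z, (rf T l : ℂ) * XX N x l T =
      ∑ n ∈ s, (rf T n : ℂ) * e (n * x) := by
    intro T
    rw [hs, Finset.sum_image hinj, hP, Finset.sum_sigma]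
    refine Finset.sum_congr rfl fun l _ => ?_
    unfold XX
    rw [Finset.mul_sum]
    refine Finset.sum_congr rfl fun m hm => ?_
    rw [rf_mul (dec_coprime hm)]
    push_cast
    ring
  have hsP : ∀ n ∈ s, Squarefree n ∧ n.primeFactors ⊆ PP N := by
    intro n hn
    obtain ⟨y, hy, rfl⟩ := Finset.mem_image.1 hn
    rw [hP, Finset.mem_sigma] at hy
    obtain ⟨p1, p2, p3, -⟩ := Z7_pair hB hy.1 hy.2
    refine ⟨p1, fun p hp => ?_⟩
    unfold PP
    rw [Finset.mem_filter, Finset.mem_Icc]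
    have hpp := Nat.prime_of_mem_primeFactors hp
    exact ⟨⟨hpp.pos, (Nat.le_of_dvd (by omega) (Nat.dvd_of_mem_primeFactors hp)).trans p3⟩, hpp⟩
  have hyp := hyper_sqf k hk (PP N) s hsP (fun n => e (n * x))
  have hW : (2 * (k : ℝ) - 1) = ((2 * k - 1 : ℕ) : ℝ) := by
    rw [Nat.cast_sub (by omega)]
    push_cast
    ring
  have hn1 : ∀ t : ℝ, ‖e t‖ = 1 := by
    intro t
    unfold e
    have : (2 * Real.pi * t * Complex.I : ℂ) = ((2 * Real.pi * t : ℝ) : ℂ) * Complex.I := by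
      push_cast; ring
    rw [this, Complex.norm_exp_ofReal_mul_I]
  refine (le_of_eq (av_congr fun T _ => by rw [hsum T])).trans (hyp.trans ?_)
  obtain ⟨W, hWd⟩ : ∃ W : ℕ, W = 2 * k - 1 := ⟨_, rfl⟩
  rw [hW, ← hWd]
  refine pow_le_pow_left₀ (Finset.sum_nonneg fun n _ => by positivity) ?_ k
  have e1 : ∑ n ∈ s, (W : ℝ) ^ om n * ‖e (n * x)‖ ^ 2 = ∑ y ∈ P, (W : ℝ) ^ om (y.1 * y.2) := by
    rw [hs, Finset.sum_image hinj]
    refine Finset.sum_congr rfl fun y _ => ?_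
    rw [hn1]; ring
  rw [e1, ← Finset.sum_filter_add_sum_filter_not P (fun x => x.1 * x.2 ≤ Nat.sqrt N)]
  unfold E0
  refine add_le_add ?_ (Z7_large N B z W hB hBN hz)
  -- the small numbers
  have hsq1 : 1 ≤ Nat.sqrt N := Nat.sqrt_pos.2 hN1
  have hlogsq : Real.log (Nat.sqrt N : ℕ) ≤ Real.log N :=
    Real.log_le_log (by exact_mod_cast hsq1) (by exact_mod_cast Nat.sqrt_le_self N)
  have hlogsq0 : 0 ≤ Real.log (Nat.sqrt N : ℕ) := Real.log_natCast_nonneg _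
  have e2 : ∑ y ∈ P.filter (fun x => x.1 * x.2 ≤ Nat.sqrt N), (W : ℝ) ^ om (y.1 * y.2) ≤
      ∑ n ∈ (Finset.Icc 1 (Nat.sqrt N)).filter Squarefree, (W : ℝ) ^ om n := by
    have hinj2 : Set.InjOn (fun x : Σ _ : ℕ, ℕ => x.1 * x.2)
        ((P.filter (fun x => x.1 * x.2 ≤ Nat.sqrt N) : Finset (Σ _ : ℕ, ℕ)) : Set (Σ _ : ℕ, ℕ)) :=
      hinj.mono (Finset.coe_subset.2 (Finset.filter_subset _ _))
    rw [← Finset.sum_image (f := fun n : ℕ => (W : ℝ) ^ om n) hinj2]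
    refine Finset.sum_le_sum_of_subset_of_nonneg ?_ fun n _ _ => by positivity
    intro n hn
    obtain ⟨y, hy, rfl⟩ := Finset.mem_image.1 hn
    rw [Finset.mem_filter, hP, Finset.mem_sigma] at hy
    obtain ⟨p1, p2, p3, -⟩ := Z7_pair hB hy.1.1 hy.1.2
    rw [Finset.mem_filter, Finset.mem_Icc]
    exact ⟨⟨p2, hy.2⟩, p1⟩
  refine e2.trans ((omega_sum W (Nat.sqrt N) hsq1).trans ?_)
  refine mul_le_mul Real.nat_sqrt_le_real_sqrt ?_ (by positivity) (Real.sqrt_nonneg _)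
  unfold LL
  exact pow_le_pow_left₀ (by linarith) (by linarith) W

end Pool.Agent.Helper5.RM
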