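import Pool.Agent.Helper5.RM.LS1

/-!
# Block RM-CMP: completion

Proof. Let `R = 2H`. For `u v : ℕ` and `l < R`: `1_{u ≤ l ≤ v} = ∑_{h < R} c_h e (h l / R)` with
`c_h = (1/R) ∑_{y < R, u ≤ y ≤ v} e (-(h y / R))`, and `|c_h| ≤ w_h` where `w_0 = 1` and
`w_h = 1 / (2 min h (R - h))` for `1 ≤ h < R` (`geo`; `nd (h/R) = min h (R-h) / R`), independent of `u, v`.
`∑_{h<R} w_h ≤ 1 + ∑_{h ≤ H} 1/h ≤ 2 + log H ≤ 2 L0 =: C`. Put
`Gq m = C * ∑_{h < R} w_h * ‖∑_{l ∈ Lam} e (h l / R) e (l m α)‖^2`. By Cauchy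
`‖∑_{l ∈ Lam, u ≤ l ≤ v} e (l m α)‖^2 ≤ (∑ w_h) * ∑ w_h ‖·‖^2 ≤ Gq m`; `Gq m ≤ C^2 H^2` (`#Lam ≤ H`), and
`∑_{m ≤ Y} Gq m ≤ C * ∑ w_h * H (Y + 2 ∑ mn) ≤ C^2 * H * (H Y γ)` by `gram`. (`C^2 ≤ 9 L0^2`.)
-/

set_option autoImplicit false

namespace Pool.Agent.Helper5.RM

open Finset

private theorem CMP_e_pow (x : ℝ) (h : ℕ) : e (h * x) = e x ^ h := by
  induction h with
  | zero => simp [e_zero]
  | succ n ih =>
    rw [pow_succ, ← ih, ← e_add]
    congr 1
    push_cast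
    ring

private theorem CMP_e_ne_one {x : ℝ} (h0 : x ≠ 0) (h1 : |x| < 1) : e x ≠ 1 := by
  intro h
  unfold e at h
  rw [Complex.exp_eq_one_iff] at h
  obtain ⟨n, hn⟩ := h
  have hpi : (2 * (Real.pi : ℂ) * Complex.I) ≠ 0 := by
    simp [Real.pi_ne_zero, Complex.I_ne_zero]
  have h2 : (x : ℂ) = n := by
    apply mul_right_cancel₀ hpi
    rw [← hn]
    ring
  have h3 : x = n := by exact_mod_cast h2
  rw [h3] at h0 h1
  have h4 : |n| < 1 := by exact_mod_cast h1
  have h5 : n = 0 := by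
    rw [abs_lt] at h4
    omega
  rw [h5] at h0
  simp at h0

private theorem CMP_orth (R l y : ℕ) (hl : l < R) (hy : y < R) :
    ∑ h ∈ range R, e (h * (((l : ℝ) - y) / R)) = if l = y then (R : ℂ) else 0 := by
  have hR : (0 : ℝ) < R := by exact_mod_cast (by omega : 0 < R)
  split_ifs with hly
  · subst hly
    have : ∀ h ∈ range R, e ((h : ℝ) * (((l : ℝ) - l) / R)) = 1 := by
      intro h _
      rw [sub_self, zero_div, mul_zero, e_zero]
    rw [Finset.sum_congr rfl this]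
    simp
  · have h1 : ∀ h ∈ range R, e ((h : ℝ) * (((l : ℝ) - y) / R)) = e (((l : ℝ) - y) / R) ^ h :=
      fun h _ => CMP_e_pow _ _
    rw [Finset.sum_congr rfl h1]
    have hne : e (((l : ℝ) - y) / R) ≠ 1 := by
      apply CMP_e_ne_one
      · apply div_ne_zero _ hR.ne'
        rw [sub_ne_zero]
        exact_mod_cast hly
      · rw [abs_div, abs_of_pos hR, div_lt_one hR, abs_lt]
        have h2 : (l : ℝ) < R := by exact_mod_cast hl
        have h3 : (y : ℝ) < R := by exact_mod_cast hy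
        have h4 : (0 : ℝ) ≤ l := by positivity
        have h5 : (0 : ℝ) ≤ y := by positivity
        constructor <;> linarith
    rw [geom_sum_eq hne]
    have h2 : e (((l : ℝ) - y) / R) ^ R = 1 := by
      rw [← CMP_e_pow, mul_div_cancel₀ _ hR.ne']
      have := e_int ((l : ℤ) - y)
      push_cast at this
      exact this
    rw [h2, sub_self, zero_div]

private noncomputable def CMP_w (R h : ℕ) : ℝ :=
  if h = 0 then 1 else 1 / (2 * h) + 1 / (2 * ((R : ℝ) - h))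

private theorem CMP_w_nonneg {R h : ℕ} (hh : h < R) : 0 ≤ CMP_w R h := by
  unfold CMP_w
  split_ifs
  · norm_num
  · have h1 : (0 : ℝ) < (R : ℝ) - h := by
      have : (h : ℝ) < R := by exact_mod_cast hh
      linarith
    positivity

private theorem CMP_w_sum (H : ℕ) (hH : 1 ≤ H) (L0 : ℝ) (hL0 : 1 + Real.log H ≤ L0) :
    ∑ h ∈ range (2 * H), CMP_w (2 * H) h ≤ 3 * L0 := by
  obtain ⟨n, hn⟩ : ∃ n, 2 * H = n + 1 := ⟨2 * H - 1, by omega⟩
  have hlog : Real.log n ≤ Real.log 2 + Real.log H := by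
    rw [← Real.log_mul (by norm_num) (by positivity)]
    apply Real.log_le_log
    · have : 1 ≤ n := by omega
      exact_mod_cast this
    · have : n ≤ 2 * H := by omega
      exact_mod_cast this
  have hh := harmonic_le_one_add_log n
  have hl2 : Real.log 2 < 1 := by
    have := Real.log_two_lt_d9
    linarith
  have hlH : 0 ≤ Real.log H := Real.log_natCast_nonneg H
  have hharm : ((harmonic n : ℚ) : ℝ) = ∑ i ∈ range n, 1 / ((i : ℝ) + 1) := by
    unfold harmonic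
    push_cast
    exact Finset.sum_congr rfl fun i _ => by rw [one_div]
  have hsum : ∑ h ∈ range (2 * H), CMP_w (2 * H) h = 1 + ∑ i ∈ range n, 1 / ((i : ℝ) + 1) := by
    rw [hn, Finset.sum_range_succ']
    have h0 : CMP_w (n + 1) 0 = 1 := by simp [CMP_w]
    rw [h0, add_comm]
    congr 1
    have h1 : ∀ i ∈ range n, CMP_w (n + 1) (i + 1) =
        (1 / 2) * (1 / ((i : ℝ) + 1)) + (1 / 2) * (1 / (((n - 1 - i : ℕ) : ℝ) + 1)) := by
      intro i hi
      have hi' := Finset.mem_range.1 hi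
      have e1 : (((n - 1 - i : ℕ) : ℝ) + 1) = (n : ℝ) - i := by
        have : n - 1 - i + 1 + i = n := by omega
        have h2 : (((n - 1 - i : ℕ) : ℝ) + 1 + i) = n := by exact_mod_cast this
        linarith
      have e2 : (0 : ℝ) < (n : ℝ) - i := by
        have : (i : ℝ) < n := by exact_mod_cast hi'
        linarith
      unfold CMP_w
      rw [if_neg (by omega), e1]
      push_cast
      have e3 : (n : ℝ) + 1 - (i + 1) = n - i := by ring
      rw [e3]
      field_simp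
    rw [Finset.sum_congr rfl h1, Finset.sum_add_distrib, ← Finset.mul_sum, ← Finset.mul_sum,
      Finset.sum_range_reflect (fun i : ℕ => 1 / ((i : ℝ) + 1)) n]
    ring
  rw [hsum, ← hharm]
  linarith

private noncomputable def CMP_c (R u v h : ℕ) : ℂ :=
  (1 / (R : ℂ)) * ∑ y ∈ (range R).filter (fun y => u ≤ y ∧ y ≤ v), e (-(h * y / R))

private theorem CMP_c_le (R u v h : ℕ) (hh : h < R) : ‖CMP_c R u v h‖ ≤ CMP_w R h := by
  have hR : (0 : ℝ) < R := by exact_mod_cast (by omega : 0 < R)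
  unfold CMP_c
  rw [norm_mul, norm_div, norm_one, Complex.norm_natCast]
  by_cases h0 : h = 0
  · subst h0
    have h1 : ‖∑ y ∈ (range R).filter (fun y => u ≤ y ∧ y ≤ v), e (-(((0 : ℕ) : ℝ) * y / R))‖ ≤ R := by
      refine (norm_sum_le _ _).trans ?_
      simp only [norm_e, Finset.sum_const, nsmul_eq_mul, mul_one]
      have := Finset.card_filter_le (range R) (fun y => u ≤ y ∧ y ≤ v)
      rw [Finset.card_range] at this
      exact_mod_cast this
    have h2 : CMP_w R 0 = 1 := by simp [CMP_w]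
    rw [h2, one_div, inv_mul_le_iff₀ hR, mul_one]
    exact h1
  · have hhpos : (0 : ℝ) < h := by exact_mod_cast Nat.pos_of_ne_zero h0
    have hhR : (h : ℝ) < R := by exact_mod_cast hh
    have hset : (range R).filter (fun y => u ≤ y ∧ y ≤ v) = Finset.Icc u (min v (R - 1)) := by
      ext y
      simp only [Finset.mem_filter, Finset.mem_range, Finset.mem_Icc, le_min_iff]
      omega
    have hterm : ∀ y ∈ Finset.Icc u (min v (R - 1)), e (-((h : ℝ) * y / R)) =
        e ((y : ℝ) * (-((h : ℝ) / R))) := by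
      intro y _
      congr 1
      ring
    rw [hset, Finset.sum_congr rfl hterm]
    have hM : ((min v (R - 1) : ℕ) : ℝ) + 1 - u ≤ R := by
      have h1 : min v (R - 1) + 1 ≤ R := by omega
      have h2 : ((min v (R - 1) : ℕ) : ℝ) + 1 ≤ R := by exact_mod_cast h1
      have h3 : (0 : ℝ) ≤ u := by positivity
      linarith
    have hgeo := geo u (min v (R - 1)) R (-((h : ℝ) / R)) hR.le hM
    rw [mn_neg] at hgeo
    have hnd : min (h : ℝ) (R - h) / R ≤ nd ((h : ℝ) / R) := by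
      unfold nd
      rcases le_or_gt (round ((h : ℝ) / R)) 0 with hr | hr
      · have h1 : ((round ((h : ℝ) / R) : ℤ) : ℝ) ≤ 0 := by exact_mod_cast hr
        have h2 : min (h : ℝ) (R - h) / R ≤ (h : ℝ) / R :=
          div_le_div_of_nonneg_right (min_le_left _ _) hR.le
        exact h2.trans ((by linarith : (h : ℝ) / R ≤ (h : ℝ) / R - round ((h : ℝ) / R)).trans
          (le_abs_self _))
      · have h1 : (1 : ℝ) ≤ ((round ((h : ℝ) / R) : ℤ) : ℝ) := by exact_mod_cast hr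
        have h2 : min (h : ℝ) (R - h) / R ≤ ((R : ℝ) - h) / R :=
          div_le_div_of_nonneg_right (min_le_right _ _) hR.le
        have h3 : ((R : ℝ) - h) / R = 1 - h / R := by
          field_simp
        rw [h3] at h2
        refine h2.trans ?_
        rw [abs_sub_comm]
        exact (by linarith : 1 - (h : ℝ) / R ≤ round ((h : ℝ) / R) - (h : ℝ) / R).trans
          (le_abs_self _)
    have hmin : 0 < min (h : ℝ) (R - h) := lt_min hhpos (by linarith)
    have hmn := mn_le_of_nd (M := R) (by positivity) hnd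
    have h1 : 1 / (R : ℝ) * ‖∑ y ∈ Finset.Icc u (min v (R - 1)), e ((y : ℝ) * (-((h : ℝ) / R)))‖ ≤
        1 / (R : ℝ) * (1 / (2 * (min (h : ℝ) (R - h) / R))) :=
      mul_le_mul_of_nonneg_left (hgeo.trans hmn) (by positivity)
    refine h1.trans ?_
    have h2 : 1 / (R : ℝ) * (1 / (2 * (min (h : ℝ) (R - h) / R))) = 1 / (2 * min (h : ℝ) (R - h)) := by
      field_simp
    rw [h2]
    unfold CMP_w
    rw [if_neg h0]
    have hRh : (0 : ℝ) < (R : ℝ) - h := by linarith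
    rcases min_choice (h : ℝ) (R - h) with hm | hm
    · rw [hm]
      have : (0 : ℝ) ≤ 1 / (2 * ((R : ℝ) - h)) := by positivity
      linarith
    · rw [hm]
      have : (0 : ℝ) ≤ 1 / (2 * (h : ℝ)) := by positivity
      linarith

private theorem CMP_ind (R u v l : ℕ) (hl : l < R) :
    ∑ h ∈ range R, CMP_c R u v h * e (h * l / R) = if u ≤ l ∧ l ≤ v then 1 else 0 := by
  have hR0 : 0 < R := by omega
  have hR : (R : ℂ) ≠ 0 := by exact_mod_cast hR0.ne'
  have h1 : ∀ h ∈ range R, CMP_c R u v h * e (h * l / R) =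
      ∑ y ∈ (range R).filter (fun y => u ≤ y ∧ y ≤ v), (1 / (R : ℂ)) * e (h * (((l : ℝ) - y) / R)) := by
    intro h _
    unfold CMP_c
    rw [Finset.mul_sum, Finset.sum_mul]
    refine Finset.sum_congr rfl fun y _ => ?_
    rw [mul_assoc, ← e_add]
    congr 2
    ring
  rw [Finset.sum_congr rfl h1, Finset.sum_comm]
  have h2 : ∀ y ∈ (range R).filter (fun y => u ≤ y ∧ y ≤ v),
      ∑ h ∈ range R, (1 / (R : ℂ)) * e (h * (((l : ℝ) - y) / R)) = if y = l then 1 else 0 := by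
    intro y hy
    rw [← Finset.mul_sum, CMP_orth R l y hl (Finset.mem_range.1 (Finset.mem_filter.1 hy).1)]
    split_ifs with ha hb hb
    · field_simp
    · exact absurd ha.symm hb
    · exact absurd hb.symm ha
    · simp
  rw [Finset.sum_congr rfl h2, Finset.sum_ite_eq']
  congr 1
  simp only [Finset.mem_filter, Finset.mem_range, hl, true_and]

theorem completion (Lam : Finset ℕ) (H Y : ℕ) (hH : 1 ≤ H) (hLam : ∀ l ∈ Lam, H ≤ l ∧ l < 2 * H)
    (α γ L0 : ℝ) (hL0 : 1 + Real.log H ≤ L0)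
    (hγ : Y + 2 * ∑ j ∈ Finset.Ico 1 H, mn Y (j * α) ≤ H * Y * γ) :
    ∃ Gq : ℕ → ℝ, (∀ m, 0 ≤ Gq m) ∧ (∀ m, Gq m ≤ 9 * L0 ^ 2 * H ^ 2) ∧
      (∑ m ∈ Finset.Icc 1 Y, Gq m ≤ 9 * L0 ^ 2 * H ^ 2 * Y * γ) ∧
      ∀ m u v : ℕ, ‖∑ l ∈ Lam.filter (fun l => u ≤ l ∧ l ≤ v), e (l * m * α)‖ ^ 2 ≤ Gq m := by
  have hlH : 0 ≤ Real.log H := Real.log_natCast_nonneg H
  have hL1 : 1 ≤ L0 := by linarith
  have hL : 0 ≤ L0 := by linarith
  have hw := CMP_w_sum H hH L0 hL0
  have hw0 : ∀ h ∈ range (2 * H), 0 ≤ CMP_w (2 * H) h := fun h hh => CMP_w_nonneg (Finset.mem_range.1 hh)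
  set S : ℕ → ℕ → ℂ := fun h m => ∑ l ∈ Lam, e (h * l / ((2 * H : ℕ) : ℝ)) * e (l * m * α) with hS
  have hcard : (Lam.card : ℝ) ≤ H := by
    have h1 : Lam ⊆ Finset.Ico H (2 * H) := fun l hl => Finset.mem_Ico.2 (hLam l hl)
    have h2 := Finset.card_le_card h1
    rw [Nat.card_Ico] at h2
    have h3 : Lam.card ≤ H := by omega
    exact_mod_cast h3
  have hSn : ∀ h m, ‖S h m‖ ≤ H := by
    intro h m
    rw [hS]
    refine (norm_sum_le _ _).trans ?_
    have h1 : ∀ l ∈ Lam, ‖e (h * l / ((2 * H : ℕ) : ℝ)) * e (l * m * α)‖ = 1 := by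
      intro l _
      rw [norm_mul, norm_e, norm_e, one_mul]
    rw [Finset.sum_congr rfl h1, Finset.sum_const, nsmul_eq_mul, mul_one]
    exact hcard
  refine ⟨fun m => 3 * L0 * ∑ h ∈ range (2 * H), CMP_w (2 * H) h * ‖S h m‖ ^ 2, ?_, ?_, ?_, ?_⟩
  · intro m
    exact mul_nonneg (by positivity) (Finset.sum_nonneg fun h hh => mul_nonneg (hw0 h hh) (by positivity))
  · intro m
    have h1 : ∑ h ∈ range (2 * H), CMP_w (2 * H) h * ‖S h m‖ ^ 2 ≤
        ∑ h ∈ range (2 * H), CMP_w (2 * H) h * (H : ℝ) ^ 2 :=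
      Finset.sum_le_sum fun h hh => mul_le_mul_of_nonneg_left
        (pow_le_pow_left₀ (norm_nonneg _) (hSn h m) 2) (hw0 h hh)
    rw [← Finset.sum_mul] at h1
    have h2 : (∑ h ∈ range (2 * H), CMP_w (2 * H) h) * (H : ℝ) ^ 2 ≤ 3 * L0 * (H : ℝ) ^ 2 :=
      mul_le_mul_of_nonneg_right hw (by positivity)
    calc 3 * L0 * ∑ h ∈ range (2 * H), CMP_w (2 * H) h * ‖S h m‖ ^ 2
        ≤ 3 * L0 * (3 * L0 * (H : ℝ) ^ 2) := mul_le_mul_of_nonneg_left (h1.trans h2) (by positivity)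
      _ = 9 * L0 ^ 2 * H ^ 2 := by ring
  · set B : ℝ := H * (Y + 2 * ∑ j ∈ Finset.Ico 1 H, mn Y (j * α)) with hB
    have hB0 : 0 ≤ B := by
      have : 0 ≤ ∑ j ∈ Finset.Ico 1 H, mn (Y : ℝ) (j * α) :=
        Finset.sum_nonneg fun j _ => mn_nonneg (Nat.cast_nonneg _) _
      positivity
    have hg : ∀ h, ∑ m ∈ Finset.Icc 1 Y, ‖S h m‖ ^ 2 ≤ B := fun h =>
      gram Lam H Y hH hLam (fun l => e (h * l / ((2 * H : ℕ) : ℝ))) (fun l => (norm_e _).le) α
    rw [← Finset.mul_sum, Finset.sum_comm]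
    have h1 : ∑ h ∈ range (2 * H), ∑ m ∈ Finset.Icc 1 Y, CMP_w (2 * H) h * ‖S h m‖ ^ 2 ≤
        ∑ h ∈ range (2 * H), CMP_w (2 * H) h * B := by
      refine Finset.sum_le_sum fun h hh => ?_
      rw [← Finset.mul_sum]
      exact mul_le_mul_of_nonneg_left (hg h) (hw0 h hh)
    rw [← Finset.sum_mul] at h1
    have h2 : (∑ h ∈ range (2 * H), CMP_w (2 * H) h) * B ≤ 3 * L0 * B :=
      mul_le_mul_of_nonneg_right hw hB0
    have h3 : B ≤ H * (H * Y * γ) := by
      rw [hB]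
      exact mul_le_mul_of_nonneg_left hγ (Nat.cast_nonneg _)
    calc 3 * L0 * ∑ h ∈ range (2 * H), ∑ m ∈ Finset.Icc 1 Y, CMP_w (2 * H) h * ‖S h m‖ ^ 2
        ≤ 3 * L0 * (3 * L0 * B) := mul_le_mul_of_nonneg_left (h1.trans h2) (by positivity)
      _ ≤ 3 * L0 * (3 * L0 * (H * (H * Y * γ))) :=
        mul_le_mul_of_nonneg_left (mul_le_mul_of_nonneg_left h3 (by positivity)) (by positivity)
      _ = 9 * L0 ^ 2 * H ^ 2 * Y * γ := by ring
  · intro m u v
    have h1 : ∑ l ∈ Lam.filter (fun l => u ≤ l ∧ l ≤ v), e (l * m * α) =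
        ∑ h ∈ range (2 * H), CMP_c (2 * H) u v h * S h m := by
      rw [Finset.sum_filter, hS]
      simp_rw [Finset.mul_sum]
      rw [Finset.sum_comm]
      refine Finset.sum_congr rfl fun l hl => ?_
      have h2 := CMP_ind (2 * H) u v l (hLam l hl).2
      have h3 : ∀ h ∈ range (2 * H), CMP_c (2 * H) u v h *
          (e (h * l / ((2 * H : ℕ) : ℝ)) * e (l * m * α)) =
          (CMP_c (2 * H) u v h * e (h * l / ((2 * H : ℕ) : ℝ))) * e (l * m * α) :=
        fun h _ => by ring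
      rw [Finset.sum_congr rfl h3, ← Finset.sum_mul, h2]
      split_ifs <;> simp
    have h2 : ‖∑ h ∈ range (2 * H), CMP_c (2 * H) u v h * S h m‖ ≤
        ∑ h ∈ range (2 * H), CMP_w (2 * H) h * ‖S h m‖ := by
      refine (norm_sum_le _ _).trans (Finset.sum_le_sum fun h hh => ?_)
      rw [norm_mul]
      exact mul_le_mul_of_nonneg_right (CMP_c_le _ _ _ _ (Finset.mem_range.1 hh)) (norm_nonneg _)
    have h3 : (∑ h ∈ range (2 * H), CMP_w (2 * H) h * ‖S h m‖) ^ 2 ≤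
        (∑ h ∈ range (2 * H), CMP_w (2 * H) h) *
          ∑ h ∈ range (2 * H), CMP_w (2 * H) h * ‖S h m‖ ^ 2 := by
      have h4 := Finset.sum_mul_sq_le_sq_mul_sq (range (2 * H))
        (fun h => Real.sqrt (CMP_w (2 * H) h)) (fun h => Real.sqrt (CMP_w (2 * H) h) * ‖S h m‖)
      have e1 : ∀ h ∈ range (2 * H), Real.sqrt (CMP_w (2 * H) h) *
          (Real.sqrt (CMP_w (2 * H) h) * ‖S h m‖) = CMP_w (2 * H) h * ‖S h m‖ := by
        intro h hh
        rw [← mul_assoc, Real.mul_self_sqrt (hw0 h hh)]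
      have e2 : ∀ h ∈ range (2 * H), Real.sqrt (CMP_w (2 * H) h) ^ 2 = CMP_w (2 * H) h :=
        fun h hh => Real.sq_sqrt (hw0 h hh)
      have e3 : ∀ h ∈ range (2 * H), (Real.sqrt (CMP_w (2 * H) h) * ‖S h m‖) ^ 2 =
          CMP_w (2 * H) h * ‖S h m‖ ^ 2 := by
        intro h hh
        rw [mul_pow, Real.sq_sqrt (hw0 h hh)]
      rw [Finset.sum_congr rfl e1, Finset.sum_congr rfl e2, Finset.sum_congr rfl e3] at h4
      exact h4
    rw [h1]
    have h5 : 0 ≤ ∑ h ∈ range (2 * H), CMP_w (2 * H) h * ‖S h m‖ ^ 2 :=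
      Finset.sum_nonneg fun h hh => mul_nonneg (hw0 h hh) (by positivity)
    calc ‖∑ h ∈ range (2 * H), CMP_c (2 * H) u v h * S h m‖ ^ 2
        ≤ (∑ h ∈ range (2 * H), CMP_w (2 * H) h * ‖S h m‖) ^ 2 :=
          pow_le_pow_left₀ (norm_nonneg _) h2 2
      _ ≤ _ := h3
      _ ≤ 3 * L0 * ∑ h ∈ range (2 * H), CMP_w (2 * H) h * ‖S h m‖ ^ 2 :=
          mul_le_mul_of_nonneg_right hw h5

end Pool.Agent.Helper5.RM
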