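import Pool.Agent.Helper5.RM.Defs

/-!
# Block RM-MEAS: from independent random signs to `pr`

`ε p` are independent random variables (for all naturals `p`, only primes are used), each equal to `1` or `-1` with probability `1/2`.
Proof. `S = PP N`, `T ω = {p ∈ S : ε p ω = -1}`. The event is the union over `T0 ⊆ S` with `Q T0` of `{T ω = T0} ⊆ ⋂_{p ∈ S} {ε p ∈ B_p}`
with `B_p = {-1}` for `p ∈ T0` and `{-1}ᶜ` otherwise; independence (`iIndepFun.measure_inter_preimage_eq_mul`) gives measure `2^(-|S|)` each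
(`μ {ε p = -1}ᶜ = 1 - 1/2`). Sum over `T0`: `#{T0 ⊆ S : Q T0} / 2^|S| = pr S Q`.
-/

set_option autoImplicit false

namespace Pool.Agent.Helper5.RM

open Finset MeasureTheory ProbabilityTheory

theorem meas_le {Ω : Type*} [MeasurableSpace Ω] (μ : Measure Ω) [IsProbabilityMeasure μ] (ε : ℕ → Ω → ℝ)
    (hm : ∀ p, Measurable (ε p)) (hi : iIndepFun ε μ)
    (h2 : ∀ p, μ {ω | ε p ω = -1} = 1 / 2) (N : ℕ) (Q : Finset ℕ → Prop) :
    μ {ω | Q ((PP N).filter (fun p => ε p ω = -1))} ≤ ENNReal.ofReal (pr (PP N) Q) := by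
  classical
  obtain ⟨S, hS⟩ : ∃ S : Finset ℕ, S = PP N := ⟨_, rfl⟩
  rw [← hS]
  have hsub : {ω | Q (S.filter (fun p => ε p ω = -1))} ⊆
      ⋃ T ∈ S.powerset.filter Q, {ω | S.filter (fun p => ε p ω = -1) = T} := by
    intro ω hω
    rw [Set.mem_iUnion₂]
    exact ⟨S.filter (fun p => ε p ω = -1), Finset.mem_filter.2 ⟨Finset.mem_powerset.2 (Finset.filter_subset _ _), hω⟩, rfl⟩
  have hB : ∀ T : Finset ℕ, ∀ p, μ (ε p ⁻¹' (if p ∈ T then ({-1} : Set ℝ) else {-1}ᶜ)) = 1 / 2 := by
    intro T p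
    by_cases hp : p ∈ T
    · rw [if_pos hp]
      exact h2 p
    · rw [if_neg hp, Set.preimage_compl, measure_compl (hm p (measurableSet_singleton _)) (measure_ne_top _ _),
        measure_univ]
      have h3 : μ (ε p ⁻¹' {-1}) = 1 / 2 := h2 p
      rw [h3]
      simp
  have hone : ∀ T : Finset ℕ, μ {ω | S.filter (fun p => ε p ω = -1) = T} ≤ (1 / 2) ^ S.card := by
    intro T
    have h4 : {ω | S.filter (fun p => ε p ω = -1) = T} ⊆
        ⋂ p ∈ S, ε p ⁻¹' (if p ∈ T then ({-1} : Set ℝ) else {-1}ᶜ) := by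
      intro ω hω
      rw [Set.mem_iInter₂]
      intro p hp
      have h5 : S.filter (fun p => ε p ω = -1) = T := hω
      rw [← h5]
      by_cases h6 : ε p ω = -1
      · rw [if_pos (Finset.mem_filter.2 ⟨hp, h6⟩)]
        exact h6
      · have h7 : p ∉ S.filter (fun p => ε p ω = -1) := fun h7 => h6 (Finset.mem_filter.1 h7).2
        rw [if_neg h7]
        exact h6
    refine (measure_mono h4).trans (le_of_eq ?_)
    rw [hi.measure_inter_preimage_eq_mul S (sets := fun p => if p ∈ T then ({-1} : Set ℝ) else {-1}ᶜ)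
      (fun p _ => by
        by_cases hp : p ∈ T
        · simp only [if_pos hp]; exact measurableSet_singleton _
        · simp only [if_neg hp]; exact (measurableSet_singleton _).compl)]
    rw [Finset.prod_congr rfl fun p _ => hB T p, Finset.prod_const]
  calc μ {ω | Q (S.filter (fun p => ε p ω = -1))}
      ≤ μ (⋃ T ∈ S.powerset.filter Q, {ω | S.filter (fun p => ε p ω = -1) = T}) := measure_mono hsub
    _ ≤ ∑ T ∈ S.powerset.filter Q, μ {ω | S.filter (fun p => ε p ω = -1) = T} := measure_biUnion_finset_le _ _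
    _ ≤ ∑ _T ∈ S.powerset.filter Q, (1 / 2) ^ S.card := Finset.sum_le_sum fun T _ => hone T
    _ = ENNReal.ofReal (pr S Q) := by
        rw [Finset.sum_const, nsmul_eq_mul]
        unfold pr av
        rw [← Finset.sum_filter, Finset.sum_const, nsmul_eq_mul, mul_one,
          ENNReal.ofReal_div_of_pos (by positivity), ENNReal.ofReal_natCast, ENNReal.ofReal_pow (by norm_num)]
        have h8 : ENNReal.ofReal 2 = 2 := by norm_num
        rw [h8, div_eq_mul_inv _ ((2 : ENNReal) ^ _), one_div, ENNReal.inv_pow]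

end Pool.Agent.Helper5.RM
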