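import Pool.Agent.Helper5.RM.UNIF
import Pool.Agent.Helper5.RM.MEAS

/-!
# Block RM-AS: the almost sure theorem

Proof. For `N = 2^r` (`r` large) `meas_le` and `unif` bound the measure of the event `E_r` by `ENNReal.ofReal (19 / LL (2^r)^2)`, `LL (2^r) = 1 + r log 2`, summable; so
by Borel-Cantelli (`MeasureTheory.measure_limsup_atTop_eq_zero` or `ae_eventually_notMem`) for almost all `ω` there is `r0` such that for `r ≥ r0` no `E_r` holds. Also
almost surely all `ε p ω ∈ {1, -1}` (countable intersection), and then `rf (T ω) n = rs ε ω n` for `n ≤ 2^r` where `T ω = {p ∈ PP (2^r) : ε p ω = -1}`. For `N ≥ 2^(r0)` take `r` with `2^(r-1) ≤ N ≤ 2^r`: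
the sum is at most `3 √(2N) (1 + log (2N))^A ≤ C √N (log N)^A`; for `2 ≤ N < 2^(r0)` the trivial bound `N` and `C` large.
-/

set_option autoImplicit false

namespace Pool.Agent.Helper5.RM

open Finset MeasureTheory ProbabilityTheory

/-- the random multiplicative function attached to the signs `ε p ω` -/
noncomputable def rs {Ω : Type*} (ε : ℕ → Ω → ℝ) (ω : Ω) (n : ℕ) : ℝ :=
  if Squarefree n then ∏ p ∈ n.primeFactors, ε p ω else 0

lemma AS_rs_eq {Ω : Type*} (ε : ℕ → Ω → ℝ) (ω : Ω) (h : ∀ p, ε p ω = -1 ∨ ε p ω = 1) (M n : ℕ)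
    (hn : n ≤ M) : rs ε ω n = rf ((PP M).filter (fun p => ε p ω = -1)) n := by
  unfold rs rf
  split_ifs with hs
  · unfold wal
    apply Finset.prod_congr rfl
    intro p hp
    have hpM : p ∈ PP M := primeFactors_subset_PP hn hp
    unfold sg
    rcases h p with h1 | h1
    · rw [if_pos (Finset.mem_filter.2 ⟨hpM, h1⟩), h1]
    · rw [if_neg, h1]
      intro hmem
      have := (Finset.mem_filter.1 hmem).2
      rw [h1] at this
      norm_num at this
  · rfl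

lemma AS_sum_eq {Ω : Type*} (ε : ℕ → Ω → ℝ) (ω : Ω) (h : ∀ p, ε p ω = -1 ∨ ε p ω = 1) (M N : ℕ)
    (hN : N ≤ M) (x : ℝ) :
    ∑ n ∈ Finset.Icc 1 N, (rs ε ω n : ℂ) * e (n * x) =
      SN N ((PP M).filter (fun p => ε p ω = -1)) x := by
  unfold SN
  apply Finset.sum_congr rfl
  intro n hn
  rw [AS_rs_eq ε ω h M n ((Finset.mem_Icc.1 hn).2.trans hN)]

lemma AS_SN_le (N : ℕ) (T : Finset ℕ) (x : ℝ) : ‖SN N T x‖ ≤ N := by
  unfold SN
  refine (norm_sum_le _ _).trans ?_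
  have : ∀ n ∈ Finset.Icc 1 N, ‖(rf T n : ℂ) * e (n * x)‖ ≤ 1 := by
    intro n _
    rw [norm_mul, norm_e, mul_one, Complex.norm_real]
    exact abs_rf_le T n
  refine (Finset.sum_le_sum this).trans ?_
  simp

lemma AS_LL_le {N : ℕ} (hN : 2 ≤ N) {M : ℕ} (hM0 : 0 < M) (hM : M ≤ 2 * N) : LL M ≤ 4 * Real.log N := by
  unfold LL
  have hN0 : (0 : ℝ) < N := by positivity
  have h1 : Real.log M ≤ Real.log (2 * N) := by
    apply Real.log_le_log (by exact_mod_cast hM0)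
    exact_mod_cast hM
  rw [Real.log_mul (by norm_num) hN0.ne'] at h1
  have h2 : Real.log 2 ≤ Real.log N := Real.log_le_log (by norm_num) (by exact_mod_cast hN)
  have h3 := Real.log_two_gt_d9
  linarith

theorem almost_sure : ∃ A : ℕ, ∀ {Ω : Type*} [MeasurableSpace Ω] (μ : Measure Ω) [IsProbabilityMeasure μ]
    (ε : ℕ → Ω → ℝ), (∀ p, Measurable (ε p)) → iIndepFun ε μ →
    (∀ p, μ {ω | ε p ω = -1} = 1 / 2) → (∀ p, μ {ω | ε p ω = 1} = 1 / 2) →
    ∀ᵐ ω ∂μ, ∃ C : ℝ, ∀ N : ℕ, 2 ≤ N → ∀ x : ℝ,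
      ‖∑ n ∈ Finset.Icc 1 N, (rs ε ω n : ℂ) * e (n * x)‖ ≤ C * Real.sqrt N * Real.log N ^ A := by
  classical
  obtain ⟨A, N0, hA⟩ := unif
  refine ⟨A, ?_⟩
  intro Ω _ μ _ ε hm hi h2 h1
  -- all values are signs
  have hsign : ∀ᵐ ω ∂μ, ∀ p, ε p ω = -1 ∨ ε p ω = 1 := by
    rw [ae_all_iff]
    intro p
    have hm1 : MeasurableSet {ω | ε p ω = -1} := hm p (measurableSet_singleton _)
    have hm2 : MeasurableSet {ω | ε p ω = 1} := hm p (measurableSet_singleton _)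
    have hd : Disjoint {ω | ε p ω = -1} {ω | ε p ω = 1} := by
      rw [Set.disjoint_left]
      intro ω ha hb
      rw [Set.mem_setOf_eq] at ha hb
      rw [ha] at hb
      norm_num at hb
    have hu : μ ({ω | ε p ω = -1} ∪ {ω | ε p ω = 1}) = 1 := by
      rw [measure_union hd hm2, h2 p, h1 p]
      exact ENNReal.add_halves 1
    have hu' := (mem_ae_iff_prob_eq_one (hm1.union hm2)).2 hu
    exact hu'
  -- the bad events
  let Q : ℕ → Finset ℕ → Prop := fun M T =>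
    ∃ (N' : ℕ) (x : ℝ), N' ≤ M ∧ 3 * Real.sqrt M * LL M ^ A < ‖SN N' T x‖
  let s : ℕ → Set Ω := fun r =>
    {ω | Q (2 ^ (r + N0)) ((PP (2 ^ (r + N0))).filter (fun p => ε p ω = -1))}
  have hN0le : ∀ r : ℕ, N0 ≤ 2 ^ (r + N0) := by
    intro r
    have h3 : N0 ≤ 2 ^ N0 := (Nat.lt_two_pow_self).le
    have h4 : 2 ^ N0 ≤ 2 ^ (r + N0) := Nat.pow_le_pow_right (by norm_num) (by omega)
    omega
  have hs : ∀ r, μ (s r) ≤ ENNReal.ofReal (76 * (1 / ((r : ℝ) + 1) ^ 2)) := by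
    intro r
    refine (meas_le μ ε hm hi h2 (2 ^ (r + N0)) (Q (2 ^ (r + N0)))).trans ?_
    apply ENNReal.ofReal_le_ofReal
    refine (hA (2 ^ (r + N0)) (hN0le r)).trans ?_
    have hLL : ((r : ℝ) + 1) / 2 ≤ LL (2 ^ (r + N0)) := by
      unfold LL
      push_cast
      rw [Real.log_pow]
      push_cast
      have h5 := Real.log_two_gt_d9
      have h6 : (0 : ℝ) ≤ N0 := by positivity
      have h7 : (0 : ℝ) ≤ r := by positivity
      nlinarith
    have h8 : (0 : ℝ) < (r : ℝ) + 1 := by positivity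
    have h9 : (((r : ℝ) + 1) / 2) ^ 2 ≤ LL (2 ^ (r + N0)) ^ 2 :=
      pow_le_pow_left₀ (by positivity) hLL 2
    have h10 : (0 : ℝ) < (((r : ℝ) + 1) / 2) ^ 2 := by positivity
    calc 19 / LL (2 ^ (r + N0)) ^ 2 ≤ 19 / (((r : ℝ) + 1) / 2) ^ 2 := by
          apply div_le_div_of_nonneg_left (by norm_num) h10 h9
      _ = 76 * (1 / ((r : ℝ) + 1) ^ 2) := by field_simp; norm_num
  have hsum : ∑' r, μ (s r) ≠ ⊤ := by
    have hsm : Summable (fun r : ℕ => 76 * (1 / ((r : ℝ) + 1) ^ 2)) := by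
      apply Summable.mul_left
      have h3 : Summable (fun r : ℕ => 1 / (r : ℝ) ^ 2) :=
        Real.summable_one_div_nat_pow.2 (by norm_num)
      have h4 := (summable_nat_add_iff 1).2 h3
      simpa using h4
    have h5 := hsm.tsum_ofReal_ne_top
    exact ne_top_of_le_ne_top h5 (ENNReal.tsum_le_tsum hs)
  have hbc := ae_eventually_notMem hsum
  filter_upwards [hsign, hbc] with ω hω hev
  obtain ⟨r0, hr0⟩ := Filter.eventually_atTop.1 hev
  refine ⟨6 * 4 ^ A + 2 ^ (r0 + N0) * 2 ^ A, ?_⟩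
  intro N hN x
  have hlog2 := Real.log_two_gt_d9
  have hlogN : Real.log 2 ≤ Real.log N := Real.log_le_log (by norm_num) (by exact_mod_cast hN)
  have hlog0 : 0 < Real.log N := by linarith
  have hN0' : (0 : ℝ) < N := by positivity
  have hs1 : 1 ≤ Real.sqrt N := by
    rw [Real.one_le_sqrt]
    exact_mod_cast (by omega : 1 ≤ N)
  by_cases hcase : 2 ^ (r0 + N0) ≤ N
  · -- large N
    set k := Nat.log 2 N with hk
    have hk1 : 2 ^ k ≤ N := Nat.pow_log_le_self 2 (by omega)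
    have hk2 : N < 2 ^ (k + 1) := Nat.lt_pow_succ_log_self (by norm_num) N
    have hk3 : r0 + N0 ≤ k := (Nat.le_log_iff_pow_le (by norm_num) (by omega)).2 hcase
    have hnot := hr0 (k + 1 - N0) (by omega)
    have hkk : k + 1 - N0 + N0 = k + 1 := by omega
    have hnot' : ¬ Q (2 ^ (k + 1)) ((PP (2 ^ (k + 1))).filter (fun p => ε p ω = -1)) := by
      rw [← hkk]
      exact hnot
    have hb : ‖SN N ((PP (2 ^ (k + 1))).filter (fun p => ε p ω = -1)) x‖ ≤
        3 * Real.sqrt ((2 ^ (k + 1) : ℕ) : ℝ) * LL (2 ^ (k + 1)) ^ A := by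
      by_contra hcon
      push Not at hcon
      exact hnot' ⟨N, x, hk2.le, hcon⟩
    rw [AS_sum_eq ε ω hω (2 ^ (k + 1)) N hk2.le x]
    refine hb.trans ?_
    have hM : 2 ^ (k + 1) ≤ 2 * N := by rw [pow_succ]; omega
    have hLLb := AS_LL_le hN (M := 2 ^ (k + 1)) (by positivity) hM
    have hLL0 : 0 ≤ LL (2 ^ (k + 1)) := by
      unfold LL
      have : 0 ≤ Real.log ((2 ^ (k + 1) : ℕ) : ℝ) := Real.log_natCast_nonneg _
      linarith
    have hsq : Real.sqrt ((2 ^ (k + 1) : ℕ) : ℝ) ≤ 2 * Real.sqrt N := by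
      rw [show (2 : ℝ) * Real.sqrt N = Real.sqrt (4 * N) by
        rw [Real.sqrt_mul (by norm_num), show (4 : ℝ) = 2 ^ 2 by norm_num, Real.sqrt_sq (by norm_num)]]
      apply Real.sqrt_le_sqrt
      have : ((2 ^ (k + 1) : ℕ) : ℝ) ≤ ((2 * N : ℕ) : ℝ) := by exact_mod_cast hM
      refine this.trans ?_
      push_cast
      linarith
    calc 3 * Real.sqrt ((2 ^ (k + 1) : ℕ) : ℝ) * LL (2 ^ (k + 1)) ^ A
        ≤ 3 * (2 * Real.sqrt N) * (4 * Real.log N) ^ A := by gcongr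
      _ = 6 * 4 ^ A * Real.sqrt N * Real.log N ^ A := by rw [mul_pow]; ring
      _ ≤ (6 * 4 ^ A + 2 ^ (r0 + N0) * 2 ^ A) * Real.sqrt N * Real.log N ^ A := by
          gcongr
          have : (0 : ℝ) ≤ 2 ^ (r0 + N0) * 2 ^ A := by positivity
          linarith
  · -- small N
    push Not at hcase
    rw [AS_sum_eq ε ω hω N N le_rfl x]
    refine (AS_SN_le _ _ _).trans ?_
    have h5 : (N : ℝ) ≤ 2 ^ (r0 + N0) := by exact_mod_cast hcase.le
    have h6 : (1 : ℝ) ≤ 2 ^ A * Real.log N ^ A := by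
      rw [← mul_pow]
      apply one_le_pow₀
      linarith
    calc (N : ℝ) ≤ 2 ^ (r0 + N0) := h5
      _ = 2 ^ (r0 + N0) * 1 * 1 := by ring
      _ ≤ 2 ^ (r0 + N0) * Real.sqrt N * (2 ^ A * Real.log N ^ A) := by gcongr
      _ = 2 ^ (r0 + N0) * 2 ^ A * Real.sqrt N * Real.log N ^ A := by ring
      _ ≤ (6 * 4 ^ A + 2 ^ (r0 + N0) * 2 ^ A) * Real.sqrt N * Real.log N ^ A := by
          gcongr
          have : (0 : ℝ) ≤ 6 * 4 ^ A := by positivity
          linarith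

end Pool.Agent.Helper5.RM
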