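import Pool.Agent.Helper5.RM.Defs

/-!
# Block RM-AZ1: cosh of the norm in an inner product space

Proof. `‖x ± y‖^2 = s ± t` with `s = ‖x‖^2 + ‖y‖^2`, `t = 2 ⟪x, y⟫`, `|t| ≤ 2 ‖x‖ ‖y‖`. With
`cosh r = ∑ (r^2)^n / (2n)!` (`Real.hasSum_cosh` or the complex version), `cosh‖x+y‖ + cosh‖x-y‖ =
∑ ((s+t)^n + (s-t)^n) / (2n)!` and `(s+t)^n + (s-t)^n` increases with `|t|`
(for `|t| ≤ t' ≤ s`; it is `2 ∑_{j even} C(n,j) s^(n-j) t^j`), so the sum is at most its value at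
`t' = 2‖x‖‖y‖`, which is `cosh (‖x‖+‖y‖) + cosh (‖x‖-‖y‖) = 2 cosh‖x‖ cosh‖y‖`.
-/

set_option autoImplicit false

namespace Pool.Agent.Helper5.RM

open Finset

private theorem AZ1_pow {U V U' V' : ℝ} (hV : 0 ≤ V') (h1 : V' ≤ U) (h2 : U ≤ U')
    (hs : U + V = U' + V') (n : ℕ) : U ^ n + V ^ n ≤ U' ^ n + V' ^ n := by
  rcases (h1.trans h2).eq_or_lt with h | h
  · have hU : U = U' := le_antisymm h2 (h ▸ h1)
    have hVV : V = V' := by linarith
    rw [hU, hVV]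
  · have hd : 0 < U' - V' := sub_pos.mpr h
    set l := (U - V') / (U' - V') with hl
    have hl0 : 0 ≤ l := div_nonneg (by linarith) hd.le
    have hl1 : 0 ≤ 1 - l := by
      have : l ≤ 1 := (div_le_one hd).mpr (by linarith)
      linarith
    have hlm : l * (U' - V') = U - V' := div_mul_cancel₀ _ hd.ne'
    have hc := (convexOn_pow (𝕜 := ℝ) n).2
    have hU'0 : 0 ≤ U' := hV.trans (h1.trans h2)
    have e1 := hc (Set.mem_Ici.mpr hU'0) (Set.mem_Ici.mpr hV) hl0 hl1 (by ring)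
    have e2 := hc (Set.mem_Ici.mpr hU'0) (Set.mem_Ici.mpr hV) hl1 hl0 (by ring)
    simp only [smul_eq_mul] at e1 e2
    have f1 : l * U' + (1 - l) * V' = U := by linarith
    have f2 : (1 - l) * U' + l * V' = V := by linarith
    rw [f1] at e1
    rw [f2] at e2
    linarith

theorem cosh_par {E : Type*} [NormedAddCommGroup E] [InnerProductSpace ℝ E] (x y : E) :
    (Real.cosh ‖x + y‖ + Real.cosh ‖x - y‖) / 2 ≤ Real.cosh ‖x‖ * Real.cosh ‖y‖ := by
  have key : Real.cosh ‖x + y‖ + Real.cosh ‖x - y‖ ≤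
      Real.cosh (‖x‖ + ‖y‖) + Real.cosh (‖x‖ - ‖y‖) := by
    refine hasSum_le ?_ ((Real.hasSum_cosh ‖x + y‖).add (Real.hasSum_cosh ‖x - y‖))
      ((Real.hasSum_cosh (‖x‖ + ‖y‖)).add (Real.hasSum_cosh (‖x‖ - ‖y‖)))
    intro n
    have h1 := norm_add_sq_real x y
    have h2 := norm_sub_sq_real x y
    have h3 := abs_le.mp (abs_real_inner_le_norm x y)
    have hp := AZ1_pow (U := ‖x + y‖ ^ 2) (V := ‖x - y‖ ^ 2) (U' := (‖x‖ + ‖y‖) ^ 2)
      (V' := (‖x‖ - ‖y‖) ^ 2) (sq_nonneg _) (by nlinarith [h3.1]) (by nlinarith [h3.2])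
      (by rw [h1, h2]; ring) n
    rw [← add_div, ← add_div]
    refine div_le_div_of_nonneg_right ?_ (Nat.cast_nonneg _)
    simp only [pow_mul]
    exact hp
  rw [Real.cosh_add, Real.cosh_sub] at key
  linarith

end Pool.Agent.Helper5.RM
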