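import Pool.Agent.Helper5.RM.AZ1

/-!
# Block RM-AZ2: Azuma inequality in a Hilbert space

Proof. `az_exp`: induction on the largest element of `S` (`Finset.induction_on_max`). For
`S' = insert q S` with all elements of `S` smaller than `q`: by `av_insert` the average over `S'` is the average over `T ⊆ S` of
the mean of the values at `T` and `insert q T`; the vectors `v p` (`p ∈ S'`) take the same value at `T` and
`insert q T` (`Pred p (v p)`, and `(insert q T).filter (· < p) = T.filter (· < p)` as `p ≤ q`), signs: `sg`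
of `q` is `1` at `T`, `-1` at `insert q T`, and the others are equal. With `M = ∑_{p ∈ S} sg T p • v p T`, `V = v q T` use
`cosh_par (lam • M) (lam • V)` and `Real.cosh_le_exp_half_sq`: `cosh(|lam| ‖V‖) ≤ exp(lam^2 ‖V‖^2 / 2)`.

`azuma`: work in `EuclideanSpace ℂ I` (as a real inner product space), or restrict `az_exp` to it. If `v0 = 0` the event is
impossible (all `v p i T = 0`, so `0 < 0`). Otherwise take `lam = √(2K/v0)`: on the event, with `Q ≤ v0` and `‖M‖^2 > 2 K v0`,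
`cosh (lam ‖M‖) * exp (-lam^2 Q/2) ≥ exp (lam ‖M‖)/2 * exp (-K) ≥ exp (2K) * exp (-K) / 2`, then `markov` and `az_exp`.
-/

set_option autoImplicit false

namespace Pool.Agent.Helper5.RM

open Finset

theorem az_exp {E : Type*} [NormedAddCommGroup E] [InnerProductSpace ℝ E] (S : Finset ℕ)
    (v : ℕ → Finset ℕ → E) (hv : ∀ p ∈ S, Pred p (v p)) (lam : ℝ) :
    av S (fun T => Real.cosh (lam * ‖∑ p ∈ S, sg T p • v p T‖) *
      Real.exp (-(lam ^ 2 * ∑ p ∈ S, ‖v p T‖ ^ 2) / 2)) ≤ 1 := by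
  induction S using Finset.induction_on_max with
  | empty =>
    rw [av_empty]
    simp
  | insert q s hq ih =>
    have hqs : q ∉ s := fun h => lt_irrefl q (hq q h)
    have ih' := ih (fun p hp => hv p (Finset.mem_insert_of_mem hp))
    rw [av_insert hqs]
    refine le_trans ?_ ih'
    have e1 : ∀ F G : Finset ℕ → ℝ, (av s F + av s G) / 2 = av s (fun T => (F T + G T) / 2) := by
      intro F G
      have : (fun T => (F T + G T) / 2) = (fun T => (1 / 2 : ℝ) * (F T + G T)) := by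
        ext T; ring
      rw [this, av_mul_left, av_add]; ring
    rw [e1]
    refine av_mono fun T hT => ?_
    have hqT : q ∉ T := fun h => hqs (hT h)
    have hvT : ∀ p ∈ insert q s, v p (insert q T) = v p T := by
      intro p hp
      have hpq : ¬ q < p := by
        rcases Finset.mem_insert.1 hp with h | h
        · rw [h]; exact lt_irrefl q
        · exact not_lt.2 (hq p h).le
      rw [hv p hp (insert q T), hv p hp T, Finset.filter_insert, if_neg hpq]
    have hsgs : ∀ p ∈ s, sg (insert q T) p = sg T p := fun p hp =>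
      sg_insert_of_ne (fun h => hqs (h ▸ hp))
    have e2 : ∑ p ∈ insert q s, sg T p • v p T = (∑ p ∈ s, sg T p • v p T) + v q T := by
      rw [Finset.sum_insert hqs, sg_not_mem hqT, one_smul, add_comm]
    have e3 : ∑ p ∈ insert q s, sg (insert q T) p • v p (insert q T) =
        (∑ p ∈ s, sg T p • v p T) - v q T := by
      rw [Finset.sum_insert hqs, sg_mem (Finset.mem_insert_self q T),
        hvT q (Finset.mem_insert_self q s), neg_one_smul]
      have : ∑ p ∈ s, sg (insert q T) p • v p (insert q T) = ∑ p ∈ s, sg T p • v p T :=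
        Finset.sum_congr rfl fun p hp => by
          rw [hsgs p hp, hvT p (Finset.mem_insert_of_mem hp)]
      rw [this]; abel
    have e4 : ∑ p ∈ insert q s, ‖v p (insert q T)‖ ^ 2 = ∑ p ∈ insert q s, ‖v p T‖ ^ 2 :=
      Finset.sum_congr rfl fun p hp => by rw [hvT p hp]
    rw [e2, e3, e4, Finset.sum_insert hqs]
    set M := ∑ p ∈ s, sg T p • v p T with hM
    set V := v q T with hV
    set Q := ∑ p ∈ s, ‖v p T‖ ^ 2 with hQ
    have hc : ∀ x : E, Real.cosh (lam * ‖x‖) = Real.cosh ‖lam • x‖ := by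
      intro x
      rw [norm_smul, Real.norm_eq_abs, ← Real.cosh_abs (lam * ‖x‖), abs_mul, abs_norm]
    have h1 := cosh_par (lam • M) (lam • V)
    rw [← smul_add, ← smul_sub, ← hc, ← hc, ← hc, ← hc] at h1
    have h2 : Real.cosh (lam * ‖V‖) ≤ Real.exp (lam ^ 2 * ‖V‖ ^ 2 / 2) := by
      have := Real.cosh_le_exp_half_sq (lam * ‖V‖)
      rwa [mul_pow] at this
    have h3 : Real.exp (-(lam ^ 2 * (‖V‖ ^ 2 + Q)) / 2) =
        Real.exp (-(lam ^ 2 * ‖V‖ ^ 2 / 2)) * Real.exp (-(lam ^ 2 * Q) / 2) := by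
      rw [← Real.exp_add]; congr 1; ring
    have h4 : Real.exp (lam ^ 2 * ‖V‖ ^ 2 / 2) * Real.exp (-(lam ^ 2 * ‖V‖ ^ 2 / 2)) = 1 := by
      rw [← Real.exp_add]; simp
    have hcM : 0 < Real.cosh (lam * ‖M‖) := Real.cosh_pos _
    rw [h3]
    have h5 : (Real.cosh (lam * ‖M + V‖) + Real.cosh (lam * ‖M - V‖)) / 2 ≤
        Real.cosh (lam * ‖M‖) * Real.exp (lam ^ 2 * ‖V‖ ^ 2 / 2) :=
      h1.trans (mul_le_mul_of_nonneg_left h2 hcM.le)
    calc (Real.cosh (lam * ‖M + V‖) *
            (Real.exp (-(lam ^ 2 * ‖V‖ ^ 2 / 2)) * Real.exp (-(lam ^ 2 * Q) / 2)) +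
          Real.cosh (lam * ‖M - V‖) *
            (Real.exp (-(lam ^ 2 * ‖V‖ ^ 2 / 2)) * Real.exp (-(lam ^ 2 * Q) / 2))) / 2
        = ((Real.cosh (lam * ‖M + V‖) + Real.cosh (lam * ‖M - V‖)) / 2) *
            (Real.exp (-(lam ^ 2 * ‖V‖ ^ 2 / 2)) * Real.exp (-(lam ^ 2 * Q) / 2)) := by ring
      _ ≤ (Real.cosh (lam * ‖M‖) * Real.exp (lam ^ 2 * ‖V‖ ^ 2 / 2)) *
            (Real.exp (-(lam ^ 2 * ‖V‖ ^ 2 / 2)) * Real.exp (-(lam ^ 2 * Q) / 2)) :=
          mul_le_mul_of_nonneg_right h5 (by positivity)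
      _ = Real.cosh (lam * ‖M‖) * (Real.exp (lam ^ 2 * ‖V‖ ^ 2 / 2) *
            Real.exp (-(lam ^ 2 * ‖V‖ ^ 2 / 2))) * Real.exp (-(lam ^ 2 * Q) / 2) := by ring
      _ = Real.cosh (lam * ‖M‖) * Real.exp (-(lam ^ 2 * Q) / 2) := by rw [h4, mul_one]

theorem azuma {κ : Type} (S : Finset ℕ) (I : Finset κ) (v : ℕ → κ → Finset ℕ → ℂ)
    (hv : ∀ p ∈ S, ∀ i ∈ I, Pred p (v p i)) (K v0 : ℝ) (hK : 0 < K) (hv0 : 0 ≤ v0) :
    pr S (fun T => 2 * K * v0 < ∑ i ∈ I, ‖∑ p ∈ S, (sg T p : ℂ) * v p i T‖ ^ 2 ∧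
      ∑ p ∈ S, ∑ i ∈ I, ‖v p i T‖ ^ 2 ≤ v0) ≤ 2 * Real.exp (-K) := by
  rcases hv0.eq_or_lt with h0 | h0
  · -- `v0 = 0`
    rw [pr_false]
    · positivity
    · rintro T - ⟨h1, h2⟩
      rw [← h0, mul_zero] at h1
      rw [← h0] at h2
      have h3 : ∀ p ∈ S, ∑ i ∈ I, ‖v p i T‖ ^ 2 = 0 := by
        have hnn : ∀ p ∈ S, 0 ≤ ∑ i ∈ I, ‖v p i T‖ ^ 2 := fun p _ =>
          Finset.sum_nonneg fun i _ => by positivity
        exact (Finset.sum_eq_zero_iff_of_nonneg hnn).1 (le_antisymm h2 (Finset.sum_nonneg hnn))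
      have h4 : ∑ i ∈ I, ‖∑ p ∈ S, (sg T p : ℂ) * v p i T‖ ^ 2 = 0 := by
        refine Finset.sum_eq_zero fun i hi => ?_
        have : ∑ p ∈ S, (sg T p : ℂ) * v p i T = 0 := by
          refine Finset.sum_eq_zero fun p hp => ?_
          have h5 : ‖v p i T‖ ^ 2 = 0 :=
            (Finset.sum_eq_zero_iff_of_nonneg (fun i _ => by positivity)).1 (h3 p hp) i hi
          have h6 : v p i T = 0 := norm_eq_zero.1 (pow_eq_zero_iff (two_ne_zero) |>.1 h5)
          rw [h6, mul_zero]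
        rw [this]; simp
      linarith
  · -- `v0 > 0`
    set lam := Real.sqrt (2 * K / v0) with hlam
    have hlam0 : 0 < 2 * K / v0 := by positivity
    have hlam2 : lam ^ 2 = 2 * K / v0 := Real.sq_sqrt hlam0.le
    have hlamp : 0 < lam := Real.sqrt_pos.2 hlam0
    let w : ℕ → Finset ℕ → EuclideanSpace ℂ I := fun p T => WithLp.toLp 2 (fun i => v p i T)
    have hw : ∀ p ∈ S, Pred p (w p) := by
      intro p hp T
      have : (fun i : I => v p i T) = fun i : I => v p i (T.filter (· < p)) := by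
        ext i
        exact hv p hp i i.2 T
      simp only [w]
      rw [this]
    have hmain := az_exp S w hw lam
    have hM : ∀ T, ‖∑ p ∈ S, sg T p • w p T‖ ^ 2 =
        ∑ i ∈ I, ‖∑ p ∈ S, (sg T p : ℂ) * v p i T‖ ^ 2 := by
      intro T
      rw [EuclideanSpace.norm_sq_eq, ← Finset.sum_coe_sort I]
      refine Finset.sum_congr rfl fun i _ => ?_
      congr 2
      rw [WithLp.ofLp_sum, Finset.sum_apply]
      refine Finset.sum_congr rfl fun p _ => ?_
      rfl
    have hQ : ∀ T, ∑ p ∈ S, ‖w p T‖ ^ 2 = ∑ p ∈ S, ∑ i ∈ I, ‖v p i T‖ ^ 2 := by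
      intro T
      refine Finset.sum_congr rfl fun p _ => ?_
      rw [EuclideanSpace.norm_sq_eq, ← Finset.sum_coe_sort I]
    have hE : pr S (fun T => Real.exp K / 2 ≤ Real.cosh (lam * ‖∑ p ∈ S, sg T p • w p T‖) *
        Real.exp (-(lam ^ 2 * ∑ p ∈ S, ‖w p T‖ ^ 2) / 2)) ≤ 1 / (Real.exp K / 2) := by
      refine markov ?_ (by positivity) hmain
      intro T _
      have := Real.cosh_pos (lam * ‖∑ p ∈ S, sg T p • w p T‖)
      positivity
    have e5 : 1 / (Real.exp K / 2) = 2 * Real.exp (-K) := by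
      rw [Real.exp_neg]; field_simp
    rw [e5] at hE
    refine le_trans (pr_mono ?_) hE
    rintro T - ⟨h1, h2⟩
    rw [← hM T] at h1
    rw [← hQ T] at h2
    set m := ‖∑ p ∈ S, sg T p • w p T‖ with hm
    set Q := ∑ p ∈ S, ‖w p T‖ ^ 2 with hQd
    have hm0 : 0 ≤ m := norm_nonneg _
    have h3 : 2 * K < lam * m := by
      have : (2 * K) ^ 2 < (lam * m) ^ 2 := by
        rw [mul_pow lam m 2, hlam2]
        calc (2 * K) ^ 2 = 2 * K / v0 * (2 * K * v0) := by field_simp
          _ < 2 * K / v0 * m ^ 2 := by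
            apply mul_lt_mul_of_pos_left h1 hlam0
      exact lt_of_pow_lt_pow_left₀ 2 (by positivity) this
    have h4 : Real.exp (2 * K) / 2 ≤ Real.cosh (lam * m) := by
      rw [Real.cosh_eq]
      have h5 : Real.exp (2 * K) ≤ Real.exp (lam * m) := Real.exp_le_exp.2 h3.le
      have h6 : 0 < Real.exp (-(lam * m)) := Real.exp_pos _
      linarith
    have h7 : Real.exp (-K) ≤ Real.exp (-(lam ^ 2 * Q) / 2) := by
      apply Real.exp_le_exp.2
      rw [hlam2]
      have : 2 * K / v0 * Q ≤ 2 * K := by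
        calc 2 * K / v0 * Q ≤ 2 * K / v0 * v0 := mul_le_mul_of_nonneg_left h2 hlam0.le
          _ = 2 * K := by field_simp
      linarith
    calc Real.exp K / 2 = Real.exp (2 * K) / 2 * Real.exp (-K) := by
          rw [div_mul_eq_mul_div, ← Real.exp_add]; congr 2; ring
      _ ≤ Real.cosh (lam * m) * Real.exp (-(lam ^ 2 * Q) / 2) :=
          mul_le_mul h4 h7 (Real.exp_pos _).le (Real.cosh_pos _).le

end Pool.Agent.Helper5.RM
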