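import Pool.Agent.Helper5.RM.GEO

/-!
# Block RM-B8a: one prime, large dyadic blocks (deterministic)

Proof. For `p ∈ P`: `p.minFac = p`, `MS N p = {m ≤ N/p squarefree, primes < p}` = `{m ≤ N/H squarefree : lo m ≤ p ≤ hi m}` with
`lo m = m.primeFactors.sup id + 1`, `hi m = N / m` (`m ≤ N/p ↔ p ≤ N/m`). Extend the sum over `p ∈ P` to all integers `l ∈ [H, 2H)`
(nonnegative terms) and expand the square: the diagonal is at most `H * (N/H) ≤ N`; for `m1 ≠ m2 ≤ N/H ≤ √D` the sum over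
the interval of `l` of `e (l (m1 - m2) θ)` is at most `1/(2 nd ((m1-m2) θ))` (`geo`, `e_neg`), and `Far` with
`m = |m1 - m2| ≤ √D ≤ D/2` gives `nd ≥ D/(2N)`, so it is at most `N/D` (`mn_le_of_nd`). There are at most
`(N/H)^2 ≤ D` pairs, total at most `N`.
-/

set_option autoImplicit false

namespace Pool.Agent.Helper5.RM

open Finset

/-- expansion of the square over a dyadic block -/
private lemma b8a_gram (H : ℕ) (hH0 : 0 < H) (M : Finset ℕ) (c : ℕ → ℂ) (hc : ∀ m, ‖c m‖ ≤ 1) (lo hi : ℕ → ℕ) (θ : ℝ) :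
    ∑ l ∈ Finset.Ico H (2 * H), ‖∑ m ∈ M.filter (fun m => lo m ≤ l ∧ l ≤ hi m), c m * e (l * m * θ)‖ ^ 2 ≤
      ∑ m1 ∈ M, ∑ m2 ∈ M, ‖∑ l ∈ Finset.Icc (max H (max (lo m1) (lo m2))) (min (2 * H - 1) (min (hi m1) (hi m2))),
        e (l * (((m1 : ℝ) - m2) * θ))‖ := by
  classical
  set Y : ℕ → ℂ := fun l => ∑ m ∈ M, if lo m ≤ l ∧ l ≤ hi m then c m * e (l * m * θ) else 0 with hY
  have h1 : ∀ l, ∑ m ∈ M.filter (fun m => lo m ≤ l ∧ l ≤ hi m), c m * e (l * m * θ) = Y l := by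
    intro l
    rw [hY, Finset.sum_filter]
  simp only [h1]
  have h2 : ((∑ l ∈ Finset.Ico H (2 * H), ‖Y l‖ ^ 2 : ℝ) : ℂ) =
      ∑ m1 ∈ M, ∑ m2 ∈ M, c m1 * (starRingEnd ℂ) (c m2) *
        ∑ l ∈ Finset.Icc (max H (max (lo m1) (lo m2))) (min (2 * H - 1) (min (hi m1) (hi m2))),
        e (l * (((m1 : ℝ) - m2) * θ)) := by
    have h3 : ∀ l, ((‖Y l‖ ^ 2 : ℝ) : ℂ) = ∑ m1 ∈ M, ∑ m2 ∈ M,
        (if lo m1 ≤ l ∧ l ≤ hi m1 then c m1 * e (l * m1 * θ) else 0) *
        (starRingEnd ℂ) (if lo m2 ≤ l ∧ l ≤ hi m2 then c m2 * e (l * m2 * θ) else 0) := by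
      intro l
      rw [← Complex.normSq_eq_norm_sq, ← Complex.mul_conj]
      rw [hY]
      simp only []
      rw [map_sum, Finset.sum_mul_sum]
    rw [Complex.ofReal_sum]
    simp only [h3]
    rw [Finset.sum_comm]
    refine Finset.sum_congr rfl fun m1 _ => ?_
    rw [Finset.sum_comm]
    refine Finset.sum_congr rfl fun m2 _ => ?_
    have h4 : Finset.Icc (max H (max (lo m1) (lo m2))) (min (2 * H - 1) (min (hi m1) (hi m2))) =
        (Finset.Ico H (2 * H)).filter (fun l => (lo m1 ≤ l ∧ l ≤ hi m1) ∧ (lo m2 ≤ l ∧ l ≤ hi m2)) := by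
      ext l
      simp only [Finset.mem_Icc, Finset.mem_filter, Finset.mem_Ico, max_le_iff, le_min_iff]
      omega
    rw [h4, Finset.sum_filter, Finset.mul_sum]
    refine Finset.sum_congr rfl fun l _ => ?_
    by_cases hA : lo m1 ≤ l ∧ l ≤ hi m1
    · by_cases hB : lo m2 ≤ l ∧ l ≤ hi m2
      · rw [if_pos hA, if_pos hB, if_pos ⟨hA, hB⟩, map_mul, ← e_neg]
        have h5 : e ((l : ℝ) * (((m1 : ℝ) - m2) * θ)) = e (l * m1 * θ) * e (-(l * m2 * θ)) := by
          rw [← e_add]; congr 1; ring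
        rw [h5]; ring
      · have hAB : ¬ ((lo m1 ≤ l ∧ l ≤ hi m1) ∧ (lo m2 ≤ l ∧ l ≤ hi m2)) := fun h => hB h.2
        rw [if_neg hB, if_neg hAB, map_zero, mul_zero, mul_zero]
    · have hAB : ¬ ((lo m1 ≤ l ∧ l ≤ hi m1) ∧ (lo m2 ≤ l ∧ l ≤ hi m2)) := fun h => hA h.1
      rw [if_neg hA, if_neg hAB, zero_mul, mul_zero]
  have h6 : ∑ l ∈ Finset.Ico H (2 * H), ‖Y l‖ ^ 2 =
      ‖((∑ l ∈ Finset.Ico H (2 * H), ‖Y l‖ ^ 2 : ℝ) : ℂ)‖ := by
    rw [Complex.norm_real, Real.norm_eq_abs, abs_of_nonneg]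
    exact Finset.sum_nonneg fun l _ => by positivity
  rw [h6, h2]
  refine (norm_sum_le _ _).trans (Finset.sum_le_sum fun m1 _ => ?_)
  refine (norm_sum_le _ _).trans (Finset.sum_le_sum fun m2 _ => ?_)
  rw [norm_mul, norm_mul, RCLike.norm_conj]
  calc ‖c m1‖ * ‖c m2‖ * _ ≤ 1 * _ := by
        refine mul_le_mul_of_nonneg_right ?_ (norm_nonneg _)
        exact mul_le_one₀ (hc m1) (norm_nonneg _) (hc m2)
    _ = _ := one_mul _

theorem v1_large (N : ℕ) (θ D : ℝ) (hD4 : 4 ≤ D) (hDN : D ≤ N) (hF : Far N θ D) (H : ℕ)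
    (hH : N / Real.sqrt D ≤ H) (P : Finset ℕ) (hP : ∀ p ∈ P, p.Prime ∧ H ≤ p ∧ p < 2 * H) (T : Finset ℕ) :
    ∑ p ∈ P, ‖XX N θ p T‖ ^ 2 ≤ 2 * N := by
  classical
  have hN0 : (0:ℝ) < N := by linarith
  have hD0 : 0 < D := by linarith
  have hs0 : 0 < Real.sqrt D := Real.sqrt_pos.2 hD0
  have hss : Real.sqrt D * Real.sqrt D = D := Real.mul_self_sqrt hD0.le
  have hs2 : 2 ≤ Real.sqrt D := by
    rw [show (2:ℝ) = Real.sqrt 4 by rw [show (4:ℝ) = 2 ^ 2 by norm_num]; simp]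
    exact Real.sqrt_le_sqrt hD4
  have hsD : Real.sqrt D ≤ D / 2 := by nlinarith
  have hH0r : (0:ℝ) < H := lt_of_lt_of_le (by positivity) hH
  have hH0 : 0 < H := by exact_mod_cast hH0r
  -- the range of the cofactors
  have hNH : ((N / H : ℕ) : ℝ) ≤ Real.sqrt D := by
    refine Nat.cast_div_le.trans ?_
    rw [div_le_iff₀ hH0r]
    rw [div_le_iff₀ hs0] at hH
    linarith
  set M : Finset ℕ := (Finset.Icc 1 (N / H)).filter Squarefree with hM
  set lo : ℕ → ℕ := fun m => m.primeFactors.sup id + 1 with hlo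
  set hi : ℕ → ℕ := fun m => N / m with hhi
  have hMcard : (M.card : ℝ) ≤ ((N / H : ℕ) : ℝ) := by
    have := Finset.card_filter_le (Finset.Icc 1 (N / H)) Squarefree
    rw [Nat.card_Icc, Nat.add_sub_cancel] at this
    exact_mod_cast this
  have hMle : ∀ m ∈ M, 1 ≤ m ∧ m ≤ N / H := by
    intro m hm
    rw [hM, Finset.mem_filter, Finset.mem_Icc] at hm
    exact hm.1
  have hXX : ∀ p ∈ P, XX N θ p T =
      ∑ m ∈ M.filter (fun m => lo m ≤ p ∧ p ≤ hi m), (rf T m : ℂ) * e (p * m * θ) := by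
    intro p hp
    obtain ⟨hpp, hHp, _⟩ := hP p hp
    unfold XX
    refine Finset.sum_congr ?_ fun m _ => rfl
    ext m
    unfold MS
    rw [hM, hpp.minFac_eq]
    simp only [Finset.mem_filter, Finset.mem_Icc, hlo, hhi]
    have hp0 : 0 < p := hpp.pos
    constructor
    · rintro ⟨⟨h1, h2⟩, h3, h4⟩
      have h2' : m * p ≤ N := (Nat.le_div_iff_mul_le hp0).1 h2
      refine ⟨⟨⟨h1, ?_⟩, h3⟩, ?_, ?_⟩
      · rw [Nat.le_div_iff_mul_le hH0]
        exact (Nat.mul_le_mul_left m hHp).trans h2'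
      · have : m.primeFactors.sup id < p := by
          rw [Finset.sup_lt_iff (by simpa using hp0)]
          intro q hq
          exact h4 q hq
        omega
      · rw [Nat.le_div_iff_mul_le (by omega), mul_comm]
        exact h2'
    · rintro ⟨⟨⟨h1, h2⟩, h3⟩, h4, h5⟩
      refine ⟨⟨h1, ?_⟩, h3, ?_⟩
      · rw [Nat.le_div_iff_mul_le hp0]
        rw [Nat.le_div_iff_mul_le (by omega), mul_comm] at h5
        exact h5
      · intro q hq
        have : q ≤ m.primeFactors.sup id := Finset.le_sup (f := id) hq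
        omega
  have hsub : P ⊆ Finset.Ico H (2 * H) := by
    intro p hp
    obtain ⟨_, h1, h2⟩ := hP p hp
    exact Finset.mem_Ico.2 ⟨h1, h2⟩
  have hstep1 : ∑ p ∈ P, ‖XX N θ p T‖ ^ 2 ≤ ∑ l ∈ Finset.Ico H (2 * H),
      ‖∑ m ∈ M.filter (fun m => lo m ≤ l ∧ l ≤ hi m), (rf T m : ℂ) * e (l * m * θ)‖ ^ 2 := by
    rw [Finset.sum_congr rfl fun p hp => by rw [hXX p hp]]
    exact Finset.sum_le_sum_of_subset_of_nonneg hsub fun l _ _ => by positivity
  have hc : ∀ m, ‖(rf T m : ℂ)‖ ≤ 1 := by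
    intro m
    rw [Complex.norm_real, Real.norm_eq_abs]
    exact abs_rf_le T m
  refine hstep1.trans ((b8a_gram H hH0 M (fun m => (rf T m : ℂ)) hc lo hi θ).trans ?_)
  -- bound of one pair
  have hpair : ∀ m1 ∈ M, ∀ m2 ∈ M,
      ‖∑ l ∈ Finset.Icc (max H (max (lo m1) (lo m2))) (min (2 * H - 1) (min (hi m1) (hi m2))),
        e (l * (((m1 : ℝ) - m2) * θ))‖ ≤ (if m1 = m2 then (H : ℝ) else 0) + N / D := by
    intro m1 h1 m2 h2
    have hlen : ((min (2 * H - 1) (min (hi m1) (hi m2)) : ℕ) : ℝ) + 1 -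
        ((max H (max (lo m1) (lo m2)) : ℕ) : ℝ) ≤ (H : ℝ) := by
      have e1 : min (2 * H - 1) (min (hi m1) (hi m2)) + 1 ≤ H + max H (max (lo m1) (lo m2)) := by omega
      have e2 : ((min (2 * H - 1) (min (hi m1) (hi m2)) : ℕ) : ℝ) + 1 ≤
          H + ((max H (max (lo m1) (lo m2)) : ℕ) : ℝ) := by exact_mod_cast e1
      linarith
    have hg := geo (max H (max (lo m1) (lo m2))) (min (2 * H - 1) (min (hi m1) (hi m2))) H
      (((m1 : ℝ) - m2) * θ) hH0r.le hlen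
    by_cases h : m1 = m2
    · rw [if_pos h]
      have := mn_le (M := (H : ℝ)) (((m1 : ℝ) - m2) * θ)
      have h3 : 0 ≤ (N : ℝ) / D := by positivity
      linarith
    · rw [if_neg h, zero_add]
      refine hg.trans ?_
      -- distance to the integers
      obtain ⟨m, hm1, hmle, hmnd⟩ : ∃ m : ℕ, 1 ≤ m ∧ m ≤ N / H ∧
          nd (((m1 : ℝ) - m2) * θ) = nd ((m : ℝ) * θ) := by
        have b1 := hMle m1 h1
        have b2 := hMle m2 h2
        rcases lt_or_gt_of_ne h with hlt | hgt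
        · refine ⟨m2 - m1, by omega, by omega, ?_⟩
          rw [Nat.cast_sub hlt.le, ← nd_neg]
          congr 1; ring
        · refine ⟨m1 - m2, by omega, by omega, ?_⟩
          rw [Nat.cast_sub (le_of_lt hgt)]
      have h4 := hF m hm1
      have h5 : (m : ℝ) ≤ D / 2 := by
        have : (m : ℝ) ≤ ((N / H : ℕ) : ℝ) := by exact_mod_cast hmle
        linarith
      have h6 : D / (2 * N) ≤ nd ((m : ℝ) * θ) := by
        rw [div_le_iff₀ (by positivity)]
        nlinarith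
      rw [← hmnd] at h6
      have h7 := mn_le_of_nd (M := (H : ℝ)) (x := ((m1 : ℝ) - m2) * θ) (c := D / (2 * N)) (by positivity) h6
      refine h7.trans (le_of_eq ?_)
      field_simp
  calc ∑ m1 ∈ M, ∑ m2 ∈ M,
        ‖∑ l ∈ Finset.Icc (max H (max (lo m1) (lo m2))) (min (2 * H - 1) (min (hi m1) (hi m2))),
        e (l * (((m1 : ℝ) - m2) * θ))‖
      ≤ ∑ m1 ∈ M, ∑ m2 ∈ M, ((if m1 = m2 then (H : ℝ) else 0) + N / D) :=
        Finset.sum_le_sum fun m1 h1 => Finset.sum_le_sum fun m2 h2 => hpair m1 h1 m2 h2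
    _ = M.card * H + M.card * M.card * (N / D) := by
        simp only [Finset.sum_add_distrib, Finset.sum_const, nsmul_eq_mul, Finset.sum_ite_eq]
        rw [Finset.sum_congr rfl fun m1 h1 => if_pos h1]
        simp only [Finset.sum_const, nsmul_eq_mul]
        ring
    _ ≤ N + N := by
        have k1 : (M.card : ℝ) * H ≤ N := by
          calc (M.card : ℝ) * H ≤ ((N / H : ℕ) : ℝ) * H := mul_le_mul_of_nonneg_right hMcard hH0r.le
            _ ≤ N := by exact_mod_cast Nat.div_mul_le_self N H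
        have k2 : (M.card : ℝ) * M.card ≤ D := by
          have k3 : (M.card : ℝ) ≤ Real.sqrt D := hMcard.trans hNH
          calc (M.card : ℝ) * M.card ≤ Real.sqrt D * Real.sqrt D :=
                mul_le_mul k3 k3 (Nat.cast_nonneg _) hs0.le
            _ = D := hss
        have k4 : (M.card : ℝ) * M.card * (N / D) ≤ N := by
          calc (M.card : ℝ) * M.card * (N / D) ≤ D * (N / D) :=
                mul_le_mul_of_nonneg_right k2 (by positivity)
            _ = N := by field_simp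
        linarith
    _ = 2 * N := by ring

end Pool.Agent.Helper5.RM
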