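import Pool.Agent.Helper5.RM.CONC
import Pool.Agent.Helper5.RM.DL

/-!
# Block RM-B8b: one prime, small dyadic blocks

Proof. `Y = N / H` (`Nat` division), `Nn = (Icc 1 Y).filter Squarefree`, `lo m = m.primeFactors.sup id + 1`, `hi m = N / m`. For `p ∈ P`:
`Nn.filter (fun m => lo m ≤ p ∧ p ≤ hi m) = MS N p` (`p.minFac = p`), so the two sums are `VV P Nn lo hi θ T` and
`mm P Nn lo hi`. Apply `conc` with `α = θ`, `L0 = LL N`, `γ = 128 * LL N / B ≤ 1`. Check of `hγ`: `dl` with `J = H`, `M = Y`: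
`Y + 2 ∑ ≤ 17 L (N/D + H + Y + HY/D)`, and `N/2 ≤ H Y ≤ N`, `N/D ≤ 2HY/D`, `H ≤ HY * 2/√D` (`1/Y ≤ 2H/N ≤ 2/√D`), `Y ≤ HY * 2/B`, so it is at most
`17 L HY (3/D + 2/√D + 2/B) ≤ 17 L HY * 7/B ≤ H Y γ` (`B^2 ≤ √D`). Then `(18 (HY)^2 L^(2w+5) γ^(η/4))^k ≤
(N^2)^k (18 L^(2w+5) γ^(η/4))^k` and `markov_pow` with `F = |VV - mm|^2`, `c = N^2` or directly. Finally
`mm ≤ ∑_p N/p ≤ H * N/H = N`, so outside the event `|VV - mm| ≥ N` we have `VV < 2N`.
-/

set_option autoImplicit false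

namespace Pool.Agent.Helper5.RM

open Finset

theorem v1_small (N : ℕ) (θ D : ℝ) (hD4 : 4 ≤ D) (hDN : D ≤ N) (hF : Far N θ D) (B k w : ℕ) (η : ℝ)
    (hB36 : 36 ≤ B) (hBL : 128 * LL N ≤ B) (hBD : (B : ℝ) ^ 4 ≤ D) (hk : 1 ≤ k) (hη : 0 < η) (hη1 : η ≤ 1)
    (hw : (4 * (k : ℝ)) ^ (1 + η) ≤ w) (H : ℕ) (hH1 : (B : ℝ) / 2 ≤ H) (hH2 : (H : ℝ) ≤ N / Real.sqrt D)
    (P : Finset ℕ) (hP : ∀ p ∈ P, p.Prime ∧ H ≤ p ∧ p < 2 * H) :
    pr (PP N) (fun T => 2 * (N : ℝ) < ∑ p ∈ P, ‖XX N θ p T‖ ^ 2) ≤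
      (18 * LL N ^ (2 * w + 5) * (128 * LL N / B) ^ (η / 4)) ^ k := by
  classical
  have hN0 : (0 : ℝ) < N := by linarith
  have hN1 : (1 : ℝ) ≤ N := by linarith
  have hD0 : 0 < D := by linarith
  have hs0 : 0 < Real.sqrt D := Real.sqrt_pos.2 hD0
  have hss : Real.sqrt D * Real.sqrt D = D := Real.mul_self_sqrt hD0.le
  have hB36' : (36 : ℝ) ≤ B := by exact_mod_cast hB36
  have hBR : (0 : ℝ) < B := by linarith
  have hsB : (B : ℝ) ^ 2 ≤ Real.sqrt D := by
    apply Real.le_sqrt_of_sq_le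
    calc ((B : ℝ) ^ 2) ^ 2 = (B : ℝ) ^ 4 := by ring
      _ ≤ D := hBD
  have hHr : (0 : ℝ) < H := by linarith
  have hH0 : 0 < H := by exact_mod_cast hHr
  have hs1 : 1 ≤ Real.sqrt D := by nlinarith
  have hHN : (H : ℝ) ≤ N := hH2.trans (div_le_self hN0.le hs1)
  have hHN' : H ≤ N := by exact_mod_cast hHN
  set Y := N / H with hY
  have hY1 : 1 ≤ Y := (Nat.one_le_div_iff hH0).2 hHN'
  have hYN : Y ≤ N := Nat.div_le_self _ _
  have hYR : (1 : ℝ) ≤ Y := by exact_mod_cast hY1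
  have hYle : (H : ℝ) * Y ≤ N := by
    have : H * Y ≤ N := Nat.mul_div_le N H
    exact_mod_cast this
  have hYge : (N : ℝ) ≤ 2 * (H * Y) := by
    have h1 : N < (Y + 1) * H := by
      have h2 := Nat.div_add_mod N H
      have h3 := Nat.mod_lt N hH0
      rw [← hY] at h2
      nlinarith
    have h2 : (Y + 1) * H ≤ 2 * Y * H := by
      apply Nat.mul_le_mul_right
      omega
    have h3 : N ≤ 2 * Y * H := h1.le.trans h2
    have h4 : (N : ℝ) ≤ 2 * Y * H := by exact_mod_cast h3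
    linarith
  set L := LL N with hL
  have hL1 : 1 ≤ L := by
    rw [hL]; unfold LL
    have := Real.log_nonneg hN1
    linarith
  have hL0 : 0 < L := by linarith
  set Nn : Finset ℕ := (Finset.Icc 1 Y).filter Squarefree with hNn
  set lo : ℕ → ℕ := fun m => m.primeFactors.sup id + 1 with hlo
  set hi : ℕ → ℕ := fun m => N / m with hhi
  have hXX : ∀ p ∈ P, ∀ T, XX N θ p T =
      ∑ m ∈ Nn.filter (fun m => lo m ≤ p ∧ p ≤ hi m), (rf T m : ℂ) * e (p * m * θ) := by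
    intro p hp T
    obtain ⟨hpp, hHp, _⟩ := hP p hp
    unfold XX
    refine Finset.sum_congr ?_ fun m _ => rfl
    ext m
    unfold MS
    rw [hNn, hpp.minFac_eq]
    simp only [Finset.mem_filter, Finset.mem_Icc, hlo, hhi]
    have hp0 : 0 < p := hpp.pos
    constructor
    · rintro ⟨⟨h1, h2⟩, h3, h4⟩
      have h2' : m * p ≤ N := (Nat.le_div_iff_mul_le hp0).1 h2
      refine ⟨⟨⟨h1, ?_⟩, h3⟩, ?_, ?_⟩
      · rw [hY, Nat.le_div_iff_mul_le hH0]
        exact (Nat.mul_le_mul_left m hHp).trans h2'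
      · have : m.primeFactors.sup id < p := by
          rw [Finset.sup_lt_iff (by simpa using hp0)]
          intro q hq
          exact h4 q hq
        omega
      · rw [Nat.le_div_iff_mul_le (by omega), mul_comm]
        exact h2'
    · rintro ⟨⟨⟨h1, h2⟩, h3⟩, h4, h5⟩
      refine ⟨⟨h1, ?_⟩, h3, ?_⟩
      · rw [Nat.le_div_iff_mul_le hp0]
        rw [Nat.le_div_iff_mul_le (by omega), mul_comm] at h5
        exact h5
      · intro q hq
        have : q ≤ m.primeFactors.sup id := Finset.le_sup (f := id) hq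
        omega
  have hVV : ∀ T, ∑ p ∈ P, ‖XX N θ p T‖ ^ 2 = VV P Nn lo hi θ T := by
    intro T
    unfold VV
    exact Finset.sum_congr rfl fun p hp => by rw [hXX p hp T]
  have hPcard : (P.card : ℝ) ≤ H := by
    have h1 : P ⊆ Finset.Ico H (2 * H) := by
      intro p hp
      obtain ⟨_, h1, h2⟩ := hP p hp
      exact Finset.mem_Ico.2 ⟨h1, h2⟩
    have h2 := Finset.card_le_card h1
    rw [Nat.card_Ico] at h2
    have h3 : P.card ≤ H := by omega
    exact_mod_cast h3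
  have hmm : mm P Nn lo hi ≤ N := by
    unfold mm
    have h1 : ∀ l ∈ P, ((Nn.filter (fun n => lo n ≤ l ∧ l ≤ hi n)).card : ℝ) ≤ Y := by
      intro l _
      have h2 : (Nn.filter (fun n => lo n ≤ l ∧ l ≤ hi n)).card ≤ Y := by
        refine (Finset.card_filter_le _ _).trans ?_
        rw [hNn]
        refine (Finset.card_filter_le _ _).trans ?_
        rw [Nat.card_Icc]; omega
      exact_mod_cast h2
    calc ∑ l ∈ P, ((Nn.filter (fun n => lo n ≤ l ∧ l ≤ hi n)).card : ℝ) ≤ ∑ l ∈ P, (Y : ℝ) :=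
          Finset.sum_le_sum h1
      _ = P.card * Y := by rw [Finset.sum_const, nsmul_eq_mul]
      _ ≤ H * Y := by gcongr
      _ ≤ N := hYle
  have hγ0 : 0 < 128 * L / B := by positivity
  have hγ1 : 128 * L / B ≤ 1 := by
    rw [div_le_one hBR]; exact hBL
  -- the bound for `hγ`
  have hsum : (Y : ℝ) + 2 * ∑ j ∈ Finset.Ico 1 H, mn Y (j * θ) ≤ H * Y * (128 * L / B) := by
    have h1 : ∑ j ∈ Finset.Ico 1 H, mn (Y : ℝ) (j * θ) ≤ ∑ j ∈ Finset.Icc 1 H, mn (Y : ℝ) (j * θ) := by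
      refine Finset.sum_le_sum_of_subset_of_nonneg ?_ fun j _ _ => mn_nonneg (by positivity) _
      intro j hj
      rw [Finset.mem_Ico] at hj
      rw [Finset.mem_Icc]
      omega
    have h2 := dl N θ D (by linarith) hDN hF (Y : ℝ) (by positivity) H
    rw [← hL] at h2
    set x : ℝ := H * Y with hx
    have hx0 : 0 < x := by positivity
    have a1 : (N : ℝ) / D ≤ 2 * x / B ^ 4 := by
      rw [div_le_div_iff₀ hD0 (by positivity)]
      calc (N : ℝ) * B ^ 4 ≤ (2 * x) * D := by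
            apply mul_le_mul hYge hBD (by positivity) (by positivity)
        _ = 2 * x * D := by ring
    have a2 : (H : ℝ) ≤ 2 * x / B ^ 2 := by
      rw [le_div_iff₀ (by positivity)]
      have b1 : (H : ℝ) * Real.sqrt D ≤ N := (le_div_iff₀ hs0).1 hH2
      calc (H : ℝ) * B ^ 2 ≤ H * Real.sqrt D := by gcongr
        _ ≤ N := b1
        _ ≤ 2 * x := hYge
    have a3 : (Y : ℝ) ≤ 2 * x / B := by
      rw [le_div_iff₀ hBR, hx]
      nlinarith
    have a4 : (H : ℝ) * Y / D ≤ x / B ^ 4 := by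
      rw [← hx]
      gcongr
    have b2 : 2 * x / B ^ 4 + 2 * x / B ^ 2 + 2 * x / B + x / B ^ 4 ≤ 3 * x / B := by
      have c1 : 2 * x / B ^ 4 + 2 * x / B ^ 2 + 2 * x / B + x / B ^ 4 =
          x / B * (3 / (B : ℝ) ^ 3 + 2 / B + 2) := by
        field_simp
        ring
      have c2 : 2 / (B : ℝ) ≤ 1 / 2 := by
        rw [div_le_div_iff₀ hBR (by norm_num)]; linarith
      have c3 : 3 / (B : ℝ) ^ 3 ≤ 1 / 2 := by
        rw [div_le_div_iff₀ (by positivity) (by norm_num)]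
        have : (36 : ℝ) ^ 3 ≤ (B : ℝ) ^ 3 := by gcongr
        linarith
      have c4 : x / B * (3 / (B : ℝ) ^ 3 + 2 / B + 2) ≤ x / B * 3 := by
        apply mul_le_mul_of_nonneg_left _ (by positivity)
        linarith
      rw [c1]
      refine c4.trans (le_of_eq ?_)
      ring
    have h3 : (N : ℝ) / D + H + Y + H * Y / D ≤ 3 * x / B := by linarith
    have h4 : 8 * L * ((N : ℝ) / D + H + Y + H * Y / D) ≤ 8 * L * (3 * x / B) := by
      apply mul_le_mul_of_nonneg_left h3 (by positivity)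
    have h5 : (Y : ℝ) ≤ L * (2 * x / B) := by
      refine a3.trans ?_
      have h6 : 0 ≤ 2 * x / B := by positivity
      exact le_mul_of_one_le_left h6 hL1
    calc (Y : ℝ) + 2 * ∑ j ∈ Finset.Ico 1 H, mn Y (j * θ) ≤
        L * (2 * x / B) + 2 * (8 * L * (3 * x / B)) := by linarith
      _ = x * (50 * L / B) := by ring
      _ ≤ x * (128 * L / B) := by
          apply mul_le_mul_of_nonneg_left _ hx0.le
          gcongr
          norm_num
  have hlogH : 1 + Real.log H ≤ L := by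
    rw [hL]; unfold LL
    have := Real.log_le_log hHr hHN
    linarith
  have hlogY : 1 + Real.log Y ≤ L := by
    rw [hL]; unfold LL
    have hYN' : (Y : ℝ) ≤ N := by exact_mod_cast hYN
    have := Real.log_le_log (by linarith) hYN'
    linarith
  have hconc := conc k hk (PP N) H Y hH0 hY1 P Nn lo hi θ (128 * L / B) η L w
    (fun l hl => (hP l hl).2)
    (by
      intro n hn
      rw [hNn, Finset.mem_filter, Finset.mem_Icc] at hn
      exact ⟨hn.1.1, hn.1.2, hn.2, primeFactors_subset_PP (hn.1.2.trans hYN)⟩)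
    hsum hγ1 hη hη1 hw hlogH hlogY
  have hg0 : 0 ≤ L ^ (2 * w + 5) * (128 * L / B) ^ (η / 4) := by positivity
  have hav : av (PP N) (fun T => (|VV P Nn lo hi θ T - mm P Nn lo hi| ^ 2) ^ k) ≤
      (18 * L ^ (2 * w + 5) * (128 * L / B) ^ (η / 4)) ^ k * ((N : ℝ) ^ 2) ^ k := by
    have h1 : av (PP N) (fun T => (|VV P Nn lo hi θ T - mm P Nn lo hi| ^ 2) ^ k) =
        av (PP N) (fun T => |VV P Nn lo hi θ T - mm P Nn lo hi| ^ (2 * k)) :=
      av_congr fun T _ => by rw [pow_mul]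
    rw [h1, ← mul_pow]
    refine hconc.trans ?_
    apply pow_le_pow_left₀ (by positivity)
    have h2 : ((H : ℝ) * Y) ^ 2 ≤ (N : ℝ) ^ 2 := by gcongr
    calc 18 * ((H : ℝ) * Y) ^ 2 * L ^ (2 * w + 5) * (128 * L / B) ^ (η / 4)
        = 18 * (L ^ (2 * w + 5) * (128 * L / B) ^ (η / 4)) * ((H : ℝ) * Y) ^ 2 := by ring
      _ ≤ 18 * (L ^ (2 * w + 5) * (128 * L / B) ^ (η / 4)) * (N : ℝ) ^ 2 := by
          apply mul_le_mul_of_nonneg_left h2 (by positivity)
      _ = 18 * L ^ (2 * w + 5) * (128 * L / B) ^ (η / 4) * (N : ℝ) ^ 2 := by ring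
  have hmark := markov_pow (S := PP N) (F := fun T => |VV P Nn lo hi θ T - mm P Nn lo hi| ^ 2)
    (c := (N : ℝ) ^ 2) k (fun T _ => by positivity) (by positivity) hav
  have hcancel : (18 * L ^ (2 * w + 5) * (128 * L / B) ^ (η / 4)) ^ k * ((N : ℝ) ^ 2) ^ k /
      ((N : ℝ) ^ 2) ^ k = (18 * L ^ (2 * w + 5) * (128 * L / B) ^ (η / 4)) ^ k := by
    field_simp
  rw [hcancel] at hmark
  refine le_trans (pr_mono ?_) hmark
  intro T _ hT
  rw [hVV T] at hT
  have h1 : (N : ℝ) ≤ |VV P Nn lo hi θ T - mm P Nn lo hi| := by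
    refine le_trans ?_ (le_abs_self _)
    linarith
  exact pow_le_pow_left₀ hN0.le h1 2

end Pool.Agent.Helper5.RM
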