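import Pool.Agent.Helper5.RM.B8a
import Pool.Agent.Helper5.RM.B8b

/-!
# Block RM-B8c: one prime, assembly

Proof. `LI N B z 1` consists of primes `p` with `B ≤ p ≤ N` (`om l = 1`, squarefree: `l` is prime). Split by `r = Nat.log 2 p ≤ Nat.log 2 N`,
`H = 2^r`, `P_r = LI.filter (Nat.log 2 · = r)`. Nonempty `P_r` have `2^(r+1) > B`, so `H ≥ B/2`. If `N/√D ≤ H` use `v1_large`, otherwise
`v1_small`; so outside an event of probability at most `(Nat.log 2 N + 1) * (...)^k` all block sums are at most `2N` and the total is at most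
`2 N (Nat.log 2 N + 1) ≤ 4 N L` as `Nat.log 2 N + 1 ≤ 1 + log N / log 2 ≤ 2 L`. `pr_exists`.
-/

set_option autoImplicit false

namespace Pool.Agent.Helper5.RM

open Finset

private lemma h99_B8c_prime {N B z l : ℕ} (hl : l ∈ LI N B z 1) : l.Prime ∧ B ≤ l ∧ l ≤ N := by
  unfold LI LA at hl
  rw [Finset.mem_filter, Finset.mem_filter, Finset.mem_Icc] at hl
  obtain ⟨⟨⟨hl1, hlN⟩, hsq, hB, _⟩, _, hom⟩ := hl
  refine ⟨?_, hB, hlN⟩
  unfold om at hom
  obtain ⟨p, hp⟩ := Finset.card_eq_one.1 hom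
  have h1 := Nat.prod_primeFactors_of_squarefree hsq
  rw [hp, Finset.prod_singleton] at h1
  have hpp : p ∈ l.primeFactors := by rw [hp]; exact Finset.mem_singleton_self p
  rw [← h1]
  exact Nat.prime_of_mem_primeFactors hpp

theorem v1 (N : ℕ) (θ D : ℝ) (hD4 : 4 ≤ D) (hDN : D ≤ N) (hF : Far N θ D) (B z k w : ℕ) (η : ℝ)
    (hB36 : 36 ≤ B) (hBL : 128 * LL N ≤ B) (hBD : (B : ℝ) ^ 4 ≤ D) (hk : 1 ≤ k) (hη : 0 < η) (hη1 : η ≤ 1)
    (hw : (4 * (k : ℝ)) ^ (1 + η) ≤ w) :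
    pr (PP N) (fun T => 4 * N * LL N < ∑ l ∈ LI N B z 1, ‖XX N θ l T‖ ^ 2) ≤
      2 * LL N * (18 * LL N ^ (2 * w + 5) * (128 * LL N / B) ^ (η / 4)) ^ k := by
  have hN1 : 1 ≤ N := by
    have : (4 : ℝ) ≤ N := hD4.trans hDN
    have h2 : (1 : ℝ) ≤ N := by linarith
    exact_mod_cast h2
  have hN1r : (1 : ℝ) ≤ N := by exact_mod_cast hN1
  have hlog : 0 ≤ Real.log N := Real.log_nonneg hN1r
  have hL1 : 1 ≤ LL N := by unfold LL; linarith
  have hR : ((Nat.log 2 N + 1 : ℕ) : ℝ) ≤ 2 * LL N := by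
    have h1 : (2 : ℝ) ^ Nat.log 2 N ≤ N := by
      exact_mod_cast Nat.pow_log_le_self 2 (by omega)
    have h2 : (Nat.log 2 N : ℝ) * Real.log 2 ≤ Real.log N := by
      have := Real.log_le_log (by positivity) h1
      rwa [Real.log_pow] at this
    have h3 : (1 : ℝ) / 2 ≤ Real.log 2 := by have := Real.log_two_gt_d9; linarith
    have h4 : (0 : ℝ) ≤ Nat.log 2 N := by positivity
    unfold LL
    push_cast
    nlinarith
  set q : ℝ := (18 * LL N ^ (2 * w + 5) * (128 * LL N / B) ^ (η / 4)) ^ k with hq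
  have hq0 : 0 ≤ q := by
    have : 0 ≤ LL N := by linarith
    rw [hq]; positivity
  set P : ℕ → Finset ℕ := fun r => (LI N B z 1).filter (fun l => Nat.log 2 l = r) with hP
  have hsum : ∀ T : Finset ℕ, ∑ l ∈ LI N B z 1, ‖XX N θ l T‖ ^ 2 =
      ∑ r ∈ Finset.range (Nat.log 2 N + 1), ∑ l ∈ P r, ‖XX N θ l T‖ ^ 2 := by
    intro T
    rw [hP]
    refine (Finset.sum_fiberwise_of_maps_to ?_ _).symm
    intro l hl
    obtain ⟨_, _, hlN⟩ := h99_B8c_prime hl
    rw [Finset.mem_range]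
    exact Nat.lt_succ_of_le (Nat.log_mono_right hlN)
  have hstep : ∀ r ∈ Finset.range (Nat.log 2 N + 1),
      pr (PP N) (fun T => 2 * (N : ℝ) < ∑ l ∈ P r, ‖XX N θ l T‖ ^ 2) ≤ q := by
    intro r _
    by_cases hne : (P r).Nonempty
    · have hPp : ∀ p ∈ P r, p.Prime ∧ 2 ^ r ≤ p ∧ p < 2 * 2 ^ r := by
        intro p hp
        rw [hP, Finset.mem_filter] at hp
        obtain ⟨hp1, hp2, _⟩ := h99_B8c_prime hp.1
        have hlog2 := hp.2
        refine ⟨hp1, ?_, ?_⟩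
        · rw [← hlog2]; exact Nat.pow_log_le_self 2 hp1.ne_zero
        · have := Nat.lt_pow_succ_log_self (b := 2) (by norm_num) p
          rw [hlog2, pow_succ] at this
          linarith
      by_cases hc : (N : ℝ) / Real.sqrt D ≤ ((2 ^ r : ℕ) : ℝ)
      · rw [pr_false]
        · exact hq0
        · intro T _
          have := v1_large N θ D hD4 hDN hF (2 ^ r) hc (P r) hPp T
          exact not_lt.2 this
      · obtain ⟨p, hp⟩ := hne
        have hp' := hPp p hp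
        rw [hP, Finset.mem_filter] at hp
        obtain ⟨_, hBp, _⟩ := h99_B8c_prime hp.1
        have hH1 : (B : ℝ) / 2 ≤ ((2 ^ r : ℕ) : ℝ) := by
          have h1 : B ≤ 2 * 2 ^ r := by omega
          have h2 : (B : ℝ) ≤ 2 * ((2 ^ r : ℕ) : ℝ) := by exact_mod_cast h1
          linarith
        exact v1_small N θ D hD4 hDN hF B k w η hB36 hBL hBD hk hη hη1 hw (2 ^ r) hH1 (not_le.1 hc).le
          (P r) hPp
    · rw [Finset.not_nonempty_iff_eq_empty] at hne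
      rw [pr_false]
      · exact hq0
      · intro T _
        rw [hne, Finset.sum_empty]
        exact not_lt.2 (by positivity)
  calc pr (PP N) (fun T => 4 * N * LL N < ∑ l ∈ LI N B z 1, ‖XX N θ l T‖ ^ 2)
      ≤ pr (PP N) (fun T => ∃ r ∈ Finset.range (Nat.log 2 N + 1), 2 * (N : ℝ) < ∑ l ∈ P r, ‖XX N θ l T‖ ^ 2) := by
        refine pr_mono fun T _ hT => ?_
        by_contra hcon
        push Not at hcon
        rw [hsum T] at hT
        have h1 : ∑ r ∈ Finset.range (Nat.log 2 N + 1), ∑ l ∈ P r, ‖XX N θ l T‖ ^ 2 ≤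
            ∑ _r ∈ Finset.range (Nat.log 2 N + 1), 2 * (N : ℝ) := Finset.sum_le_sum hcon
        rw [Finset.sum_const, Finset.card_range, nsmul_eq_mul] at h1
        have h2 : ((Nat.log 2 N + 1 : ℕ) : ℝ) * (2 * (N : ℝ)) ≤ 2 * LL N * (2 * (N : ℝ)) := by
          have : (0 : ℝ) ≤ 2 * (N : ℝ) := by positivity
          exact mul_le_mul_of_nonneg_right hR this
        linarith
    _ ≤ ∑ r ∈ Finset.range (Nat.log 2 N + 1), pr (PP N) (fun T => 2 * (N : ℝ) < ∑ l ∈ P r, ‖XX N θ l T‖ ^ 2) :=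
        pr_exists (PP N) _ (fun r T => 2 * (N : ℝ) < ∑ l ∈ P r, ‖XX N θ l T‖ ^ 2)
    _ ≤ ∑ _r ∈ Finset.range (Nat.log 2 N + 1), q := Finset.sum_le_sum hstep
    _ = ((Nat.log 2 N + 1 : ℕ) : ℝ) * q := by rw [Finset.sum_const, Finset.card_range, nsmul_eq_mul]
    _ ≤ 2 * LL N * q := mul_le_mul_of_nonneg_right hR hq0

end Pool.Agent.Helper5.RM
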