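import Pool.Agent.Helper5.RM.CONC

/-!
# Block RM-B9a: several primes, one dyadic block

Proof. For `l ∈ Lam`: `(l * p).minFac = p`, `MS N (l * p) = {m ≤ N/(l p) squarefree, primes < p}`. With `Y = N / (p * H)`,
`Nn = {m ≤ Y squarefree, primes < p}`, `lo m = 0`, `hi m = N / (p * m)`: `Nn.filter (fun m => lo m ≤ l ∧ l ≤ hi m) = MS N (l * p)`
(`l ≤ N/(p m) ↔ l p m ≤ N ↔ m ≤ N/(l p)`, and `l ≥ H` gives `m ≤ Y`), and `e ((l*p) * m * θ) = e (l * m * (p θ))`. So the sums are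
`VV Lam Nn lo hi (p θ) T` and `mm Lam Nn lo hi`. Apply `conc` with `α = p θ`, `L0 = LL N`, `γ = 6/√B ≤ 1`. Check of `hγ`: for `1 ≤ j < H`,
`j p ≤ B^2 ≤ √D ≤ D/2`, so `Far` gives `nd (j p θ) ≥ D/(2N)` and `mn ≤ N/D` (`mn_le_of_nd`). `Y ≥ N/(2pH) ≥ N/(2B^2)` as `p H ≤ B^2 ≤ N`. So
`Y + 2 H N/D ≤ HY (1/H + 2N/(DY)) ≤ HY (2/√B + 4B^2/D) ≤ HY * 6/√B` (`D ≥ B^4`). Finally `H Y ≤ N/p`.
-/

set_option autoImplicit false

namespace Pool.Agent.Helper5.RM

open Finset

private lemma b9a_minFac {p l : ℕ} (hp : p.Prime) (hl : ∀ q ∈ l.primeFactors, p < q) (hl0 : l ≠ 0) :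
    (l * p).minFac = p := by
  have h1 : (l * p).minFac ≤ p := Nat.minFac_le_of_dvd hp.two_le (Dvd.intro_left l rfl)
  have hne : l * p ≠ 1 := by
    intro h
    have := Nat.eq_one_of_mul_eq_one_left h
    exact hp.one_lt.ne' this
  have hq := Nat.minFac_prime hne
  rcases (Nat.Prime.dvd_mul hq).1 (Nat.minFac_dvd (l * p)) with h | h
  · have := hl _ (Nat.mem_primeFactors.2 ⟨hq, h, hl0⟩)
    omega
  · exact (Nat.prime_dvd_prime_iff_eq hq hp).1 h

private lemma b9a_MS {N p H l : ℕ} (hp : p.Prime) (hH : 1 ≤ H) (hlH : H ≤ l)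
    (hl : ∀ q ∈ l.primeFactors, p < q) :
    (((Finset.Icc 1 (N / (p * H))).filter (fun m => Squarefree m ∧ ∀ q ∈ m.primeFactors, q < p)).filter
      (fun m => 0 ≤ l ∧ l ≤ N / (p * m))) = MS N (l * p) := by
  have hl0 : l ≠ 0 := by omega
  have hpp := hp.pos
  unfold MS
  rw [b9a_minFac hp hl hl0]
  ext m
  simp only [Finset.mem_filter, Finset.mem_Icc, zero_le, true_and]
  constructor
  · rintro ⟨⟨⟨h1, h2⟩, h3, h4⟩, h5⟩
    refine ⟨⟨h1, ?_⟩, h3, h4⟩
    have h6 : 0 < p * m := Nat.mul_pos hpp h1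
    rw [Nat.le_div_iff_mul_le h6] at h5
    rw [Nat.le_div_iff_mul_le (Nat.mul_pos (by omega) hpp)]
    calc m * (l * p) = l * (p * m) := by ring
      _ ≤ N := h5
  · rintro ⟨⟨h1, h2⟩, h3, h4⟩
    rw [Nat.le_div_iff_mul_le (Nat.mul_pos (by omega) hpp)] at h2
    refine ⟨⟨⟨h1, ?_⟩, h3, h4⟩, ?_⟩
    · rw [Nat.le_div_iff_mul_le (Nat.mul_pos hpp (by omega))]
      calc m * (p * H) ≤ m * (p * l) := by gcongr
        _ = m * (l * p) := by ring
        _ ≤ N := h2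
    · have h6 : 0 < p * m := Nat.mul_pos hpp h1
      rw [Nat.le_div_iff_mul_le h6]
      calc l * (p * m) = m * (l * p) := by ring
        _ ≤ N := h2

theorem vi_block (N : ℕ) (θ D : ℝ) (hD4 : 4 ≤ D) (hDN : D ≤ N) (hF : Far N θ D) (B k w : ℕ) (η : ℝ)
    (hB36 : 36 ≤ B) (hBD : (B : ℝ) ^ 4 ≤ D) (hk : 1 ≤ k) (hη : 0 < η) (hη1 : η ≤ 1)
    (hw : (4 * (k : ℝ)) ^ (1 + η) ≤ w) (p : ℕ) (hp : p.Prime) (hpB : p < B) (H : ℕ)
    (hH1 : Real.sqrt B / 2 ≤ H) (hH2 : H < B) (Lam : Finset ℕ)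
    (hLam : ∀ l ∈ Lam, H ≤ l ∧ l < 2 * H ∧ Squarefree l ∧ (∀ q ∈ l.primeFactors, p < q)) :
    av (PP N) (fun T => |∑ l ∈ Lam, ‖XX N θ (l * p) T‖ ^ 2 - ∑ l ∈ Lam, ((MS N (l * p)).card : ℝ)| ^ (2 * k)) ≤
      (18 * ((N : ℝ) / p) ^ 2 * LL N ^ (2 * w + 5) * (6 / Real.sqrt B) ^ (η / 4)) ^ k := by
  have hB36' : (36 : ℝ) ≤ B := by exact_mod_cast hB36
  have hsB : 6 ≤ Real.sqrt B := by
    rw [show (6 : ℝ) = Real.sqrt 36 by
      rw [show (36 : ℝ) = 6 ^ 2 by norm_num, Real.sqrt_sq (by norm_num)]]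
    exact Real.sqrt_le_sqrt hB36'
  have hsB2 : Real.sqrt B * Real.sqrt B = B := Real.mul_self_sqrt (by linarith)
  have hH3 : (3 : ℝ) ≤ H := by linarith
  have hH1' : 1 ≤ H := by
    have : (1 : ℝ) ≤ H := by linarith
    exact_mod_cast this
  have hppos : 0 < p := hp.pos
  have hpR : (0 : ℝ) < p := by exact_mod_cast hppos
  have hHR : (0 : ℝ) < H := by linarith
  have hBR : (0 : ℝ) < B := by linarith
  have hpB' : (p : ℝ) < B := by exact_mod_cast hpB
  have hHB' : (H : ℝ) < B := by exact_mod_cast hH2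
  have hpH : (p : ℝ) * H ≤ (B : ℝ) ^ 2 := by nlinarith
  have hB2 : (1296 : ℝ) ≤ (B : ℝ) ^ 2 := by nlinarith
  have hB24 : (B : ℝ) ^ 2 * 1296 ≤ (B : ℝ) ^ 4 := by
    have : (B : ℝ) ^ 4 = (B : ℝ) ^ 2 * (B : ℝ) ^ 2 := by ring
    rw [this]
    apply mul_le_mul_of_nonneg_left hB2 (by positivity)
  have hDpos : 0 < D := by linarith
  have hNR : (0 : ℝ) < N := by linarith
  have hpHN : p * H ≤ N := by
    have : ((p * H : ℕ) : ℝ) ≤ N := by
      push_cast
      nlinarith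
    exact_mod_cast this
  have hpHpos : 0 < p * H := Nat.mul_pos hppos (by omega)
  set Y := N / (p * H) with hYdef
  have hY1 : 1 ≤ Y := (Nat.one_le_div_iff hpHpos).2 hpHN
  have hYN : Y ≤ N := Nat.div_le_self _ _
  have hYR : (1 : ℝ) ≤ Y := by exact_mod_cast hY1
  have hYle : (Y : ℝ) * (p * H) ≤ N := by
    have : Y * (p * H) ≤ N := Nat.div_mul_le_self _ _
    exact_mod_cast this
  have hYge : (N : ℝ) ≤ 2 * Y * (p * H) := by
    have h1 : N < (Y + 1) * (p * H) := by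
      have h2 := Nat.div_add_mod N (p * H)
      have h3 := Nat.mod_lt N hpHpos
      rw [← hYdef] at h2
      nlinarith
    have h2 : (Y + 1) * (p * H) ≤ 2 * Y * (p * H) := by
      apply Nat.mul_le_mul_right
      omega
    have h3 : N ≤ 2 * Y * (p * H) := h1.le.trans h2
    exact_mod_cast h3
  set Nn := (Finset.Icc 1 Y).filter (fun m => Squarefree m ∧ ∀ q ∈ m.primeFactors, q < p) with hNn
  have hfil : ∀ l ∈ Lam, (Nn.filter (fun m => 0 ≤ l ∧ l ≤ N / (p * m))) = MS N (l * p) := by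
    intro l hl
    obtain ⟨h1, h2, h3, h4⟩ := hLam l hl
    rw [hNn]
    exact b9a_MS hp hH1' h1 h4
  have hVV : ∀ T, ∑ l ∈ Lam, ‖XX N θ (l * p) T‖ ^ 2 =
      VV Lam Nn (fun _ => 0) (fun m => N / (p * m)) (p * θ) T := by
    intro T
    unfold VV XX
    apply Finset.sum_congr rfl
    intro l hl
    rw [hfil l hl]
    congr 2
    apply Finset.sum_congr rfl
    intro m _
    congr 2
    push_cast
    ring
  have hmm : ∑ l ∈ Lam, ((MS N (l * p)).card : ℝ) = mm Lam Nn (fun _ => 0) (fun m => N / (p * m)) := by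
    unfold mm
    apply Finset.sum_congr rfl
    intro l hl
    rw [hfil l hl]
  have hmn : ∀ j ∈ Finset.Ico 1 H, mn Y (j * (p * θ)) ≤ N / D := by
    intro j hj
    rw [Finset.mem_Ico] at hj
    have hjR : (j : ℝ) ≤ H := by exact_mod_cast hj.2.le
    have hjp : ((j * p : ℕ) : ℝ) ≤ D / 2 := by
      push_cast
      have : (j : ℝ) * p ≤ H * p := mul_le_mul_of_nonneg_right hjR hpR.le
      nlinarith
    have hF1 := hF (j * p) (Nat.mul_pos (by omega) hppos)
    have h1 : D / (2 * N) ≤ nd (j * (p * θ)) := by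
      have h2 : ((j * p : ℕ) : ℝ) * θ = j * (p * θ) := by
        push_cast
        ring
      rw [h2] at hF1
      rw [div_le_iff₀ (by positivity)]
      nlinarith
    refine (mn_le_of_nd (by positivity) h1).trans (le_of_eq ?_)
    field_simp
  have hsum : ∑ j ∈ Finset.Ico 1 H, mn Y (j * (p * θ)) ≤ H * (N / D) := by
    calc ∑ j ∈ Finset.Ico 1 H, mn Y (j * (p * θ)) ≤ ∑ j ∈ Finset.Ico 1 H, (N / D : ℝ) :=
          Finset.sum_le_sum hmn
      _ = ((H - 1 : ℕ) : ℝ) * (N / D) := by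
          rw [Finset.sum_const, Nat.card_Ico, nsmul_eq_mul]
      _ ≤ H * (N / D) := by
          apply mul_le_mul_of_nonneg_right _ (by positivity)
          exact_mod_cast Nat.sub_le H 1
  have hγ : (Y : ℝ) + 2 * ∑ j ∈ Finset.Ico 1 H, mn Y (j * (p * θ)) ≤ H * Y * (6 / Real.sqrt B) := by
    have hspos : 0 < Real.sqrt B := by linarith
    have h1 : (Y : ℝ) ≤ H * Y * (2 / Real.sqrt B) := by
      rw [mul_div_assoc', le_div_iff₀ hspos]
      nlinarith
    have h2 : 2 * ((H : ℝ) * (N / D)) ≤ H * Y * (4 / Real.sqrt B) := by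
      have h3 : (N : ℝ) / D ≤ 2 * Y / Real.sqrt B := by
        rw [div_le_div_iff₀ hDpos hspos]
        -- N √B ≤ 2 Y D
        have h4 : (N : ℝ) ≤ 2 * Y * (B : ℝ) ^ 2 := by
          refine hYge.trans ?_
          apply mul_le_mul_of_nonneg_left hpH (by positivity)
        have h5 : Real.sqrt B ≤ B := by nlinarith
        have h6 : (B : ℝ) ^ 2 * Real.sqrt B ≤ D := by
          refine le_trans ?_ hBD
          have : (B : ℝ) ^ 4 = (B : ℝ) ^ 2 * (B : ℝ) ^ 2 := by ring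
          rw [this]
          apply mul_le_mul_of_nonneg_left _ (by positivity)
          nlinarith
        calc (N : ℝ) * Real.sqrt B ≤ (2 * Y * (B : ℝ) ^ 2) * Real.sqrt B :=
              mul_le_mul_of_nonneg_right h4 hspos.le
          _ = 2 * Y * ((B : ℝ) ^ 2 * Real.sqrt B) := by ring
          _ ≤ 2 * Y * D := mul_le_mul_of_nonneg_left h6 (by positivity)
      calc 2 * ((H : ℝ) * (N / D)) ≤ 2 * ((H : ℝ) * (2 * Y / Real.sqrt B)) := by
            apply mul_le_mul_of_nonneg_left _ (by norm_num)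
            apply mul_le_mul_of_nonneg_left h3 hHR.le
        _ = H * Y * (4 / Real.sqrt B) := by ring
    have h7 : (H : ℝ) * Y * (6 / Real.sqrt B) =
        H * Y * (2 / Real.sqrt B) + H * Y * (4 / Real.sqrt B) := by ring
    rw [h7]
    have h8 := mul_le_mul_of_nonneg_left hsum (show (0 : ℝ) ≤ 2 by norm_num)
    linarith
  have hγ1 : 6 / Real.sqrt B ≤ 1 := by
    rw [div_le_one (by linarith)]
    exact hsB
  have hL1 : 1 + Real.log H ≤ LL N := by
    unfold LL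
    have : Real.log H ≤ Real.log N := by
      apply Real.log_le_log hHR
      have : H ≤ N := by
        calc H ≤ p * H := Nat.le_mul_of_pos_left H hppos
          _ ≤ N := hpHN
      exact_mod_cast this
    linarith
  have hL2 : 1 + Real.log Y ≤ LL N := by
    unfold LL
    have : Real.log Y ≤ Real.log N := by
      apply Real.log_le_log (by linarith)
      exact_mod_cast hYN
    linarith
  have hconc := conc k hk (PP N) H Y hH1' hY1 Lam Nn (fun _ => 0) (fun m => N / (p * m)) (p * θ)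
    (6 / Real.sqrt B) η (LL N) w
    (fun l hl => ⟨(hLam l hl).1, (hLam l hl).2.1⟩)
    (fun n hn => by
      rw [hNn, Finset.mem_filter, Finset.mem_Icc] at hn
      obtain ⟨⟨h1, h2⟩, h3, h4⟩ := hn
      exact ⟨h1, h2, h3, primeFactors_subset_PP (h2.trans hYN)⟩)
    hγ hγ1 hη hη1 hw hL1 hL2
  have hLL : 0 ≤ LL N := by
    have : 0 ≤ Real.log H := Real.log_nonneg (by linarith)
    linarith
  have heq : av (PP N) (fun T => |∑ l ∈ Lam, ‖XX N θ (l * p) T‖ ^ 2 -
      ∑ l ∈ Lam, ((MS N (l * p)).card : ℝ)| ^ (2 * k)) =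
      av (PP N) (fun T => |VV Lam Nn (fun _ => 0) (fun m => N / (p * m)) (p * θ) T -
        mm Lam Nn (fun _ => 0) (fun m => N / (p * m))| ^ (2 * k)) := by
    apply av_congr
    intro T _
    rw [hVV T, hmm]
  rw [heq]
  refine hconc.trans ?_
  have hγpos : 0 ≤ (6 / Real.sqrt B) ^ (η / 4) := Real.rpow_nonneg (by positivity) _
  apply pow_le_pow_left₀
  · positivity
  · have hHY : (H : ℝ) * Y ≤ N / p := by
      rw [le_div_iff₀ hpR]
      calc (H : ℝ) * Y * p = Y * (p * H) := by ring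
        _ ≤ N := hYle
    gcongr

end Pool.Agent.Helper5.RM
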