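import Mathlib

/-!
# Project RM (MP_b6b996_nt), definitions

Random model of the Moebius function: for a set `T` of primes (the primes with sign `-1`), `rf T n` is
`mu(n)^2 * ∏_{p ∣ n} sg T p`. A uniformly random subset `T` of a finite set `S` of primes is handled by
the averages `av S F` and the probabilities `pr S P`.
-/

set_option autoImplicit false

namespace Pool.Agent.Helper5.RM

open Finset

/-- the sign of `p` for the sign pattern `T` -/
noncomputable def sg (T : Finset ℕ) (p : ℕ) : ℝ := if p ∈ T then -1 else 1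

/-- Walsh functions -/
noncomputable def wal (T U : Finset ℕ) : ℝ := ∏ p ∈ U, sg T p

/-- average over all subsets of `S` -/
noncomputable def av (S : Finset ℕ) (F : Finset ℕ → ℝ) : ℝ := (∑ T ∈ S.powerset, F T) / 2 ^ S.card

open Classical in
/-- probability of `P T` for a uniformly random subset `T` of `S` -/
noncomputable def pr (S : Finset ℕ) (P : Finset ℕ → Prop) : ℝ := av S (fun T => if P T then 1 else 0)

/-- the random multiplicative function -/
noncomputable def rf (T : Finset ℕ) (n : ℕ) : ℝ := if Squarefree n then wal T n.primeFactors else 0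

/-- `e x = exp (2 pi i x)` -/
noncomputable def e (x : ℝ) : ℂ := Complex.exp (2 * Real.pi * x * Complex.I)

/-- distance to the nearest integer -/
noncomputable def nd (x : ℝ) : ℝ := |x - round x|

/-- `min (M, 1 / (2 nd x))` -/
noncomputable def mn (M x : ℝ) : ℝ := if nd x = 0 then M else min M (1 / (2 * nd x))

/-- `F T` depends only on the elements of `T` smaller than `p` -/
def Pred {β : Type*} (p : ℕ) (F : Finset ℕ → β) : Prop := ∀ T, F T = F (T.filter (· < p))

/-- the primes up to `N` -/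
noncomputable def PP (N : ℕ) : Finset ℕ := (Finset.Icc 1 N).filter Nat.Prime

/-- the random exponential sum -/
noncomputable def SN (N : ℕ) (T : Finset ℕ) (x : ℝ) : ℂ := ∑ n ∈ Finset.Icc 1 N, (rf T n : ℂ) * e (n * x)

/-! ### signs and Walsh functions -/

lemma sg_sq (T : Finset ℕ) (p : ℕ) : sg T p ^ 2 = 1 := by
  unfold sg; split_ifs <;> norm_num

lemma sg_mul_self (T : Finset ℕ) (p : ℕ) : sg T p * sg T p = 1 := by
  rw [← sq, sg_sq]

lemma abs_sg (T : Finset ℕ) (p : ℕ) : |sg T p| = 1 := by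
  unfold sg; split_ifs <;> norm_num

lemma sg_mem {T : Finset ℕ} {p : ℕ} (h : p ∈ T) : sg T p = -1 := by simp [sg, h]

lemma sg_not_mem {T : Finset ℕ} {p : ℕ} (h : p ∉ T) : sg T p = 1 := by simp [sg, h]

lemma sg_insert_of_ne {T : Finset ℕ} {p q : ℕ} (h : p ≠ q) : sg (insert q T) p = sg T p := by
  simp [sg, h]

lemma sg_filter {T : Finset ℕ} {p q : ℕ} (h : p < q) : sg (T.filter (· < q)) p = sg T p := by
  simp [sg, h]

lemma wal_empty (T : Finset ℕ) : wal T ∅ = 1 := by simp [wal]

lemma abs_wal (T U : Finset ℕ) : |wal T U| = 1 := by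
  simp [wal, Finset.abs_prod, abs_sg]

lemma wal_mul_self (T U : Finset ℕ) : wal T U * wal T U = 1 := by
  rw [wal, ← Finset.prod_mul_distrib]
  simp [sg_mul_self]

lemma wal_union {T U V : Finset ℕ} (h : Disjoint U V) : wal T (U ∪ V) = wal T U * wal T V := by
  simp [wal, Finset.prod_union h]

lemma wal_insert {T U : Finset ℕ} {q : ℕ} (h : q ∉ U) : wal T (insert q U) = sg T q * wal T U := by
  simp [wal, Finset.prod_insert h]

lemma wal_filter {T U : Finset ℕ} {q : ℕ} (h : ∀ p ∈ U, p < q) : wal (T.filter (· < q)) U = wal T U :=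
  Finset.prod_congr rfl fun p hp => sg_filter (h p hp)

lemma wal_insert_left {T U : Finset ℕ} {q : ℕ} (h : q ∉ U) : wal (insert q T) U = wal T U :=
  Finset.prod_congr rfl fun p hp => sg_insert_of_ne (fun hh => h (hh ▸ hp))

lemma wal_symmDiff (T U V : Finset ℕ) : wal T U * wal T V = wal T (symmDiff U V) := by
  have h1 : U = (U \ V) ∪ (U ∩ V) := by ext x; simp; tauto
  have h2 : V = (V \ U) ∪ (U ∩ V) := by ext x; simp; tauto
  have h3 : symmDiff U V = (U \ V) ∪ (V \ U) := rfl
  have d1 : Disjoint (U \ V) (U ∩ V) := by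
    rw [Finset.disjoint_left]; intro x hx hx'; simp at hx hx'; tauto
  have d2 : Disjoint (V \ U) (U ∩ V) := by
    rw [Finset.disjoint_left]; intro x hx hx'; simp at hx hx'; tauto
  have d3 : Disjoint (U \ V) (V \ U) := by
    rw [Finset.disjoint_left]; intro x hx hx'; simp at hx hx'; tauto
  have e1 : wal T U = wal T (U \ V) * wal T (U ∩ V) := by
    conv_lhs => rw [h1]
    exact wal_union d1
  have e2 : wal T V = wal T (V \ U) * wal T (U ∩ V) := by
    conv_lhs => rw [h2]
    exact wal_union d2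
  rw [e1, e2, h3, wal_union d3]
  have := wal_mul_self T (U ∩ V)
  linear_combination (wal T (U \ V) * wal T (V \ U)) * this

/-! ### averages -/

lemma av_empty (F : Finset ℕ → ℝ) : av ∅ F = F ∅ := by simp [av]

lemma av_insert {S : Finset ℕ} {q : ℕ} (h : q ∉ S) (F : Finset ℕ → ℝ) :
    av (insert q S) F = (av S F + av S (fun T => F (insert q T))) / 2 := by
  unfold av
  rw [Finset.sum_powerset_insert h, Finset.card_insert_of_notMem h, pow_succ]
  field_simp

lemma av_mono {S : Finset ℕ} {F G : Finset ℕ → ℝ} (h : ∀ T ⊆ S, F T ≤ G T) : av S F ≤ av S G := by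
  unfold av
  gcongr with T hT
  exact h T (Finset.mem_powerset.1 hT)

lemma av_congr {S : Finset ℕ} {F G : Finset ℕ → ℝ} (h : ∀ T ⊆ S, F T = G T) : av S F = av S G :=
  le_antisymm (av_mono fun T hT => (h T hT).le) (av_mono fun T hT => (h T hT).ge)

lemma av_add (S : Finset ℕ) (F G : Finset ℕ → ℝ) : av S (fun T => F T + G T) = av S F + av S G := by
  unfold av; rw [Finset.sum_add_distrib]; ring

lemma av_mul_left (S : Finset ℕ) (c : ℝ) (F : Finset ℕ → ℝ) : av S (fun T => c * F T) = c * av S F := by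
  unfold av; rw [← Finset.mul_sum]; ring

lemma av_sum {ι : Type*} (S : Finset ℕ) (s : Finset ι) (F : ι → Finset ℕ → ℝ) :
    av S (fun T => ∑ i ∈ s, F i T) = ∑ i ∈ s, av S (F i) := by
  unfold av; rw [Finset.sum_comm, Finset.sum_div]

lemma av_const (S : Finset ℕ) (c : ℝ) : av S (fun _ => c) = c := by
  unfold av
  rw [Finset.sum_const, Finset.card_powerset, nsmul_eq_mul]
  push_cast
  field_simp

lemma av_nonneg {S : Finset ℕ} {F : Finset ℕ → ℝ} (h : ∀ T ⊆ S, 0 ≤ F T) : 0 ≤ av S F := by
  rw [← av_const S 0]; exact av_mono h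

/-- orthogonality of the Walsh functions -/
lemma av_wal {S : Finset ℕ} : ∀ {U : Finset ℕ}, U ⊆ S → U.Nonempty → av S (fun T => wal T U) = 0 := by
  induction S using Finset.induction_on with
  | empty =>
    intro U hU hne
    rw [Finset.subset_empty] at hU
    exact absurd hU hne.ne_empty
  | insert q S hq ih =>
    intro U hU hne
    rw [av_insert hq]
    by_cases hqU : q ∈ U
    · have hU' : U = insert q (U.erase q) := (Finset.insert_erase hqU).symm
      have h0 : q ∉ U.erase q := Finset.notMem_erase q U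
      have h1 : av S (fun T => wal (insert q T) U) = - av S (fun T => wal T U) := by
        rw [← neg_one_mul, ← av_mul_left]
        refine av_congr fun T hT => ?_
        have hqT : q ∉ T := fun h => hq (hT h)
        rw [hU', wal_insert h0, wal_insert h0, wal_insert_left h0, sg_mem (Finset.mem_insert_self q T),
          sg_not_mem hqT]
        ring
      rw [h1]; ring
    · have hUS : U ⊆ S := by
        intro x hx
        rcases Finset.mem_insert.1 (hU hx) with h | h
        · exact absurd (h ▸ hx) hqU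
        · exact h
      have h1 : av S (fun T => wal (insert q T) U) = av S (fun T => wal T U) :=
        av_congr fun T _ => wal_insert_left hqU
      rw [h1, ih hUS hne]; norm_num

/-! ### probabilities -/

lemma pr_nonneg (S : Finset ℕ) (P : Finset ℕ → Prop) : 0 ≤ pr S P := by
  unfold pr; exact av_nonneg fun T _ => by split_ifs <;> norm_num

lemma pr_le_one (S : Finset ℕ) (P : Finset ℕ → Prop) : pr S P ≤ 1 := by
  refine le_trans ?_ (av_const S 1).le
  unfold pr
  exact av_mono fun T _ => by split_ifs <;> norm_num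

lemma pr_mono {S : Finset ℕ} {P Q : Finset ℕ → Prop} (h : ∀ T ⊆ S, P T → Q T) : pr S P ≤ pr S Q := by
  unfold pr
  refine av_mono fun T hT => ?_
  by_cases hp : P T
  · simp [hp, h T hT hp]
  · simp only [hp, if_false]; split_ifs <;> norm_num

lemma pr_or (S : Finset ℕ) (P Q : Finset ℕ → Prop) : pr S (fun T => P T ∨ Q T) ≤ pr S P + pr S Q := by
  unfold pr
  rw [← av_add]
  refine av_mono fun T _ => ?_
  by_cases hp : P T <;> by_cases hq : Q T <;> simp [hp, hq]

lemma pr_le_add {S : Finset ℕ} {P Q R : Finset ℕ → Prop} (h : ∀ T ⊆ S, P T → Q T ∨ R T) :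
    pr S P ≤ pr S Q + pr S R := (pr_mono h).trans (pr_or S Q R)

lemma pr_exists {ι : Type*} (S : Finset ℕ) (s : Finset ι) (P : ι → Finset ℕ → Prop) :
    pr S (fun T => ∃ i ∈ s, P i T) ≤ ∑ i ∈ s, pr S (P i) := by
  classical
  unfold pr
  rw [← av_sum]
  refine av_mono fun T _ => ?_
  by_cases h : ∃ i ∈ s, P i T
  · rw [if_pos h]
    obtain ⟨i, hi, hP⟩ := h
    have h1 := Finset.single_le_sum (f := fun i => if P i T then (1 : ℝ) else 0)
      (fun j _ => by split_ifs <;> norm_num) hi
    rw [if_pos hP] at h1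
    exact h1
  · rw [if_neg h]
    exact Finset.sum_nonneg fun j _ => by split_ifs <;> norm_num

lemma pr_false (S : Finset ℕ) {P : Finset ℕ → Prop} (h : ∀ T ⊆ S, ¬ P T) : pr S P = 0 := by
  refine Eq.trans ?_ (av_const S 0)
  unfold pr
  exact av_congr fun T hT => if_neg (h T hT)

/-- Markov's inequality -/
lemma markov {S : Finset ℕ} {F : Finset ℕ → ℝ} {c E : ℝ} (hF : ∀ T ⊆ S, 0 ≤ F T) (hc : 0 < c)
    (hE : av S F ≤ E) : pr S (fun T => c ≤ F T) ≤ E / c := by
  rw [le_div_iff₀ hc, mul_comm]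
  refine le_trans ?_ hE
  unfold pr
  rw [← av_mul_left]
  refine av_mono fun T hT => ?_
  by_cases h : c ≤ F T
  · simp [h]
  · simp only [h, if_false, mul_zero]; exact hF T hT

/-- Markov's inequality with a power -/
lemma markov_pow {S : Finset ℕ} {F : Finset ℕ → ℝ} {c E : ℝ} (k : ℕ) (hF : ∀ T ⊆ S, 0 ≤ F T) (hc : 0 < c)
    (hE : av S (fun T => F T ^ k) ≤ E) : pr S (fun T => c ≤ F T) ≤ E / c ^ k := by
  refine le_trans (pr_mono ?_) (markov (F := fun T => F T ^ k) (c := c ^ k)
    (fun T hT => pow_nonneg (hF T hT) k) (by positivity) hE)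
  intro T _ h
  exact pow_le_pow_left₀ hc.le h k

/-! ### the function `e` and `nd` -/

lemma e_add (x y : ℝ) : e (x + y) = e x * e y := by
  unfold e; rw [← Complex.exp_add]; congr 1; push_cast; ring

lemma e_zero : e 0 = 1 := by simp [e]

lemma norm_e (x : ℝ) : ‖e x‖ = 1 := by
  unfold e
  have : (2 * Real.pi * x * Complex.I : ℂ) = ((2 * Real.pi * x : ℝ) : ℂ) * Complex.I := by push_cast; ring
  rw [this, Complex.norm_exp_ofReal_mul_I]

lemma e_int (m : ℤ) : e (m : ℝ) = 1 := by
  unfold e
  rw [show (2 * Real.pi * ((m : ℝ) : ℂ) * Complex.I : ℂ) = m * (2 * Real.pi * Complex.I) by push_cast; ring]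
  exact Complex.exp_int_mul_two_pi_mul_I m

lemma e_nat (m : ℕ) : e (m : ℝ) = 1 := by
  have := e_int (m : ℤ)
  simpa using this

lemma e_neg (x : ℝ) : e (-x) = (starRingEnd ℂ) (e x) := by
  have h1 : e (-x) * e x = 1 := by rw [← e_add]; simp [e_zero]
  have h2 : (starRingEnd ℂ) (e x) * e x = 1 := by
    rw [mul_comm, Complex.mul_conj, Complex.normSq_eq_norm_sq, norm_e]; simp
  have h3 : e x ≠ 0 := by
    intro h
    have := norm_e x
    rw [h] at this
    simp at this
  exact mul_right_cancel₀ h3 (h1.trans h2.symm)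

lemma nd_nonneg (x : ℝ) : 0 ≤ nd x := abs_nonneg _

lemma nd_le_half (x : ℝ) : nd x ≤ 1 / 2 := abs_sub_round x

lemma nd_le_abs_sub_int (x : ℝ) (m : ℤ) : nd x ≤ |x - m| := round_le x m

lemma mn_nonneg {M : ℝ} (hM : 0 ≤ M) (x : ℝ) : 0 ≤ mn M x := by
  unfold mn
  split_ifs with h
  · exact hM
  · exact le_min hM (by have := nd_nonneg x; positivity)

lemma mn_le {M : ℝ} (x : ℝ) : mn M x ≤ M := by
  unfold mn
  split_ifs with h
  · exact le_rfl
  · exact min_le_left _ _

lemma mn_le_of_nd {M x c : ℝ} (hc : 0 < c) (h : c ≤ nd x) : mn M x ≤ 1 / (2 * c) := by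
  unfold mn
  have h0 : 0 < nd x := lt_of_lt_of_le hc h
  rw [if_neg h0.ne']
  refine (min_le_right _ _).trans ?_
  gcongr

lemma mem_PP {N p : ℕ} : p ∈ PP N ↔ p.Prime ∧ p ≤ N := by
  unfold PP
  rw [Finset.mem_filter, Finset.mem_Icc]
  constructor
  · rintro ⟨⟨_, h⟩, hp⟩; exact ⟨hp, h⟩
  · rintro ⟨hp, h⟩; exact ⟨⟨hp.one_lt.le, h⟩, hp⟩

lemma primeFactors_subset_PP {N n : ℕ} (h : n ≤ N) : n.primeFactors ⊆ PP N := by
  intro p hp
  rw [mem_PP]
  exact ⟨Nat.prime_of_mem_primeFactors hp, (Nat.le_of_mem_primeFactors hp).trans h⟩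

lemma rf_one (T : Finset ℕ) : rf T 1 = 1 := by simp [rf, wal_empty]

lemma rf_sqf {T : Finset ℕ} {n : ℕ} (h : Squarefree n) : rf T n = wal T n.primeFactors := by simp [rf, h]

lemma rf_not {T : Finset ℕ} {n : ℕ} (h : ¬ Squarefree n) : rf T n = 0 := by simp [rf, h]

lemma abs_rf_le (T : Finset ℕ) (n : ℕ) : |rf T n| ≤ 1 := by
  unfold rf; split_ifs
  · rw [abs_wal]
  · simp

lemma rf_mul_self {T : Finset ℕ} {n : ℕ} (h : Squarefree n) : rf T n * rf T n = 1 := by
  rw [rf_sqf h, wal_mul_self]

lemma rf_mul {T : Finset ℕ} {m n : ℕ} (h : Nat.Coprime m n) : rf T (m * n) = rf T m * rf T n := by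
  by_cases hm : Squarefree m
  · by_cases hn : Squarefree n
    · have : Squarefree (m * n) := (Nat.squarefree_mul h).2 ⟨hm, hn⟩
      rw [rf_sqf this, rf_sqf hm, rf_sqf hn, h.primeFactors_mul, wal_union h.disjoint_primeFactors]
    · have : ¬ Squarefree (m * n) := fun hh => hn ((Nat.squarefree_mul h).1 hh).2
      rw [rf_not this, rf_not hn, mul_zero]
  · have : ¬ Squarefree (m * n) := fun hh => hm ((Nat.squarefree_mul h).1 hh).1
    rw [rf_not this, rf_not hm, zero_mul]

end Pool.Agent.Helper5.RM
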