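import Pool.Agent.Helper5.RM.Defs

/-!
# Block RM-HC1: two point inequality

Proof. `‖a ± b‖^2 = s ± t` with `s = ‖a‖^2 + ‖b‖^2`, `t = 2 Re (a * conj b)`, `|t| ≤ 2 ‖a‖ ‖b‖`. The function
`t ↦ (s+t)^k + (s-t)^k = 2 ∑_{j even} C(k,j) s^(k-j) t^j` increases with `|t|`, so we may replace `t` by
`2‖a‖‖b‖`, i.e. assume `a = x, b = y` real and `≥ 0`:
`((x+y)^(2k) + (x-y)^(2k))/2 = ∑_{j ≤ k} C(2k,2j) x^(2k-2j) y^(2j)` and `C(2k,2j) ≤ C(k,j) (2k-1)^j`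
(for `j+1`: `C(2k,2j+2)/C(2k,2j) = (2k-2j)(2k-2j-1)/((2j+2)(2j+1))` and
`C(k,j+1)/C(k,j) = (k-j)/(j+1)`, quotient `(2k-2j-1)/(2j+1) ≤ 2k-1`).
(The proof below replaces the binomial comparison by an induction on `k` and the arithmetic-geometric mean inequality.)
-/

set_option autoImplicit false

namespace Pool.Agent.Helper5.RM

open Finset

/-- monotonicity in `t` of the even and odd parts of `(s + t)^k` -/
private lemma HC1_mono (s t u : ℝ) (hs : 0 ≤ s) (ht : 0 ≤ t) (htu : t ≤ u) (k : ℕ) :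
    (s + t) ^ k + (s - t) ^ k ≤ (s + u) ^ k + (s - u) ^ k ∧
    (s + t) ^ k - (s - t) ^ k ≤ (s + u) ^ k - (s - u) ^ k ∧
    0 ≤ (s + t) ^ k + (s - t) ^ k ∧ 0 ≤ (s + t) ^ k - (s - t) ^ k := by
  induction k with
  | zero => norm_num
  | succ k ih =>
    obtain ⟨h1, h2, h3, h4⟩ := ih
    have e1 : ∀ v : ℝ, (s + v) ^ (k + 1) + (s - v) ^ (k + 1) =
        s * ((s + v) ^ k + (s - v) ^ k) + v * ((s + v) ^ k - (s - v) ^ k) := by
      intro v; ring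
    have e2 : ∀ v : ℝ, (s + v) ^ (k + 1) - (s - v) ^ (k + 1) =
        s * ((s + v) ^ k - (s - v) ^ k) + v * ((s + v) ^ k + (s - v) ^ k) := by
      intro v; ring
    have hu : 0 ≤ u := ht.trans htu
    rw [e1 t, e1 u, e2 t, e2 u]
    refine ⟨?_, ?_, ?_, ?_⟩
    · exact add_le_add (mul_le_mul_of_nonneg_left h1 hs) (mul_le_mul htu h2 h4 hu)
    · exact add_le_add (mul_le_mul_of_nonneg_left h2 hs) (mul_le_mul htu h1 h3 hu)
    · exact add_nonneg (mul_nonneg hs h3) (mul_nonneg ht h4)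
    · exact add_nonneg (mul_nonneg hs h4) (mul_nonneg ht h3)

/-- the odd part is at most `2 k y / x` times the even part -/
private lemma HC1_odd (x y : ℝ) (hx : 0 ≤ x) (hy : 0 ≤ y) (k : ℕ) :
    x * (((x + y) ^ 2) ^ k - ((x - y) ^ 2) ^ k) ≤ 2 * k * y * (((x + y) ^ 2) ^ k + ((x - y) ^ 2) ^ k) ∧
    0 ≤ ((x + y) ^ 2) ^ k - ((x - y) ^ 2) ^ k ∧ 0 ≤ ((x + y) ^ 2) ^ k + ((x - y) ^ 2) ^ k := by
  induction k with
  | zero => norm_num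
  | succ k ih =>
    obtain ⟨h1, h2, h3⟩ := ih
    generalize hP : ((x + y) ^ 2) ^ k = P at *
    generalize hQ : ((x - y) ^ 2) ^ k = Q at *
    have e1 : ((x + y) ^ 2) ^ (k + 1) - ((x - y) ^ 2) ^ (k + 1) =
        (x ^ 2 + y ^ 2) * (P - Q) + 2 * x * y * (P + Q) := by
      rw [pow_succ ((x + y) ^ 2) k, pow_succ ((x - y) ^ 2) k, hP, hQ]; ring
    have e2 : ((x + y) ^ 2) ^ (k + 1) + ((x - y) ^ 2) ^ (k + 1) =
        (x ^ 2 + y ^ 2) * (P + Q) + 2 * x * y * (P - Q) := by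
      rw [pow_succ ((x + y) ^ 2) k, pow_succ ((x - y) ^ 2) k, hP, hQ]; ring
    rw [e1, e2]
    have hxy : 0 ≤ x * y := mul_nonneg hx hy
    refine ⟨?_, ?_, ?_⟩
    · push_cast
      have a1 : (x ^ 2 + y ^ 2) * (x * (P - Q)) ≤ (x ^ 2 + y ^ 2) * (2 * k * y * (P + Q)) :=
        mul_le_mul_of_nonneg_left h1 (by positivity)
      have a2 : 0 ≤ 2 * y ^ 3 * (P + Q) := by positivity
      have a3 : 0 ≤ 4 * ((k : ℝ) + 1) * (x * y) * y * (P - Q) := by positivity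
      nlinarith [a1, a2, a3]
    · positivity
    · positivity

private lemma HC1_amgm (m d : ℝ) (hd : 0 ≤ d) (hm : d ≤ m) (k : ℕ) :
    (m + k * d) * (m - d) ^ k ≤ m ^ (k + 1) := by
  induction k with
  | zero => norm_num
  | succ k ih =>
    have hm0 : 0 ≤ m := hd.trans hm
    have h1 : 0 ≤ (m - d) ^ k := pow_nonneg (by linarith) k
    have h2 : (m + ((k + 1 : ℕ) : ℝ) * d) * (m - d) ≤ m * (m + k * d) := by
      push_cast
      nlinarith [mul_nonneg (by positivity : (0 : ℝ) ≤ (k : ℝ) + 1) (mul_nonneg hd hd)]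
    calc (m + ((k + 1 : ℕ) : ℝ) * d) * (m - d) ^ (k + 1)
        = ((m + ((k + 1 : ℕ) : ℝ) * d) * (m - d)) * (m - d) ^ k := by ring
      _ ≤ (m * (m + k * d)) * (m - d) ^ k := mul_le_mul_of_nonneg_right h2 h1
      _ = m * ((m + k * d) * (m - d) ^ k) := by ring
      _ ≤ m * m ^ (k + 1) := mul_le_mul_of_nonneg_left ih hm0
      _ = m ^ (k + 1 + 1) := by ring

private lemma HC1_real (x y : ℝ) (hx : 0 ≤ x) (hy : 0 ≤ y) (k : ℕ) (hk : 1 ≤ k) :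
    (((x + y) ^ 2) ^ k + ((x - y) ^ 2) ^ k) / 2 ≤ (x ^ 2 + (2 * (k : ℝ) - 1) * y ^ 2) ^ k := by
  induction k, hk using Nat.le_induction with
  | base => norm_num; nlinarith
  | succ k hk ih =>
    obtain ⟨h1, h2, h3⟩ := HC1_odd x y hx hy k
    have hk1 : (1 : ℝ) ≤ k := by exact_mod_cast hk
    have e2 : (((x + y) ^ 2) ^ (k + 1) + ((x - y) ^ 2) ^ (k + 1)) / 2 =
        (x ^ 2 + y ^ 2) * ((((x + y) ^ 2) ^ k + ((x - y) ^ 2) ^ k) / 2) +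
          y * (x * (((x + y) ^ 2) ^ k - ((x - y) ^ 2) ^ k)) := by
      rw [pow_succ, pow_succ]; ring
    have h4 : y * (x * (((x + y) ^ 2) ^ k - ((x - y) ^ 2) ^ k)) ≤
        y * (2 * k * y * (((x + y) ^ 2) ^ k + ((x - y) ^ 2) ^ k)) := mul_le_mul_of_nonneg_left h1 hy
    have h5 : (((x + y) ^ 2) ^ (k + 1) + ((x - y) ^ 2) ^ (k + 1)) / 2 ≤
        (x ^ 2 + (4 * k + 1) * y ^ 2) * ((((x + y) ^ 2) ^ k + ((x - y) ^ 2) ^ k) / 2) := by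
      rw [e2]; nlinarith [h4]
    refine h5.trans ?_
    have h6 : (x ^ 2 + (4 * k + 1) * y ^ 2) * ((((x + y) ^ 2) ^ k + ((x - y) ^ 2) ^ k) / 2) ≤
        (x ^ 2 + (4 * k + 1) * y ^ 2) * (x ^ 2 + (2 * (k : ℝ) - 1) * y ^ 2) ^ k :=
      mul_le_mul_of_nonneg_left ih (by positivity)
    refine h6.trans ?_
    have h7 := HC1_amgm (x ^ 2 + (2 * (k : ℝ) + 1) * y ^ 2) (2 * y ^ 2) (by positivity)
      (by nlinarith [sq_nonneg x, sq_nonneg y, mul_nonneg (by linarith : (0 : ℝ) ≤ 2 * k - 1) (sq_nonneg y)]) k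
    have e3 : x ^ 2 + (2 * (k : ℝ) + 1) * y ^ 2 + k * (2 * y ^ 2) = x ^ 2 + (4 * k + 1) * y ^ 2 := by ring
    have e4 : x ^ 2 + (2 * (k : ℝ) + 1) * y ^ 2 - 2 * y ^ 2 = x ^ 2 + (2 * (k : ℝ) - 1) * y ^ 2 := by ring
    have e5 : x ^ 2 + (2 * ((k + 1 : ℕ) : ℝ) - 1) * y ^ 2 = x ^ 2 + (2 * (k : ℝ) + 1) * y ^ 2 := by
      push_cast; ring
    rw [e3, e4] at h7
    rw [e5]
    exact h7

theorem two_point (k : ℕ) (hk : 1 ≤ k) (a b : ℂ) :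
    (‖a + b‖ ^ (2 * k) + ‖a - b‖ ^ (2 * k)) / 2 ≤ (‖a‖ ^ 2 + (2 * (k : ℝ) - 1) * ‖b‖ ^ 2) ^ k := by
  set s : ℝ := ‖a‖ ^ 2 + ‖b‖ ^ 2 with hs
  set t : ℝ := 2 * (a * (starRingEnd ℂ) b).re with ht
  have h1 : ‖a + b‖ ^ 2 = s + t := by
    rw [hs, ht, ← Complex.normSq_eq_norm_sq, ← Complex.normSq_eq_norm_sq, ← Complex.normSq_eq_norm_sq, Complex.normSq_add]
  have h2 : ‖a - b‖ ^ 2 = s - t := by
    rw [hs, ht, ← Complex.normSq_eq_norm_sq, ← Complex.normSq_eq_norm_sq, ← Complex.normSq_eq_norm_sq, Complex.normSq_sub]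
  have h3 : |t| ≤ 2 * ‖a‖ * ‖b‖ := by
    rw [ht, abs_mul, abs_two, mul_assoc]
    refine mul_le_mul_of_nonneg_left ?_ (by norm_num)
    refine (Complex.abs_re_le_norm _).trans ?_
    rw [norm_mul, Complex.norm_conj]
  have h4 : (s + t) ^ k + (s - t) ^ k = (s + |t|) ^ k + (s - |t|) ^ k := by
    rcases abs_cases t with ⟨h, _⟩ | ⟨h, _⟩
    · rw [h]
    · rw [h, sub_neg_eq_add, ← sub_eq_add_neg, add_comm]
  have h5 := (HC1_mono s |t| (2 * ‖a‖ * ‖b‖) (by positivity) (abs_nonneg t) h3 k).1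
  have h6 := HC1_real ‖a‖ ‖b‖ (norm_nonneg a) (norm_nonneg b) k hk
  have e1 : (‖a‖ + ‖b‖) ^ 2 = s + 2 * ‖a‖ * ‖b‖ := by rw [hs]; ring
  have e2 : (‖a‖ - ‖b‖) ^ 2 = s - 2 * ‖a‖ * ‖b‖ := by rw [hs]; ring
  rw [e1, e2] at h6
  rw [pow_mul, pow_mul, h1, h2, h4]
  linarith

end Pool.Agent.Helper5.RM
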