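import Pool.Agent.Helper5.RM.GEO

/-!
# Block RM-NET2: interpolation from the points `j / N`

Proof. For `1 ≤ n ≤ N`: `c n = (1/N) ∑_{j<N} S(j/N) e (-(n j / N))` (orthogonality of the characters mod `N`), `S` the full sum, so
`∑_{n ≤ N'} c n e(n x) = (1/N) ∑_j S(j/N) ∑_{n ≤ N'} e (n (x - j/N))`, and
`∑_{j<N} |∑_{n ≤ N'} e (n (x - j/N))| ≤ ∑_j mn N (x - j/N) ≤ N (3 + log N)`: write `x N = b + f`, `b` integer, `0 ≤ f < 1`,
`t = (b - j) mod N`; `nd ≥ min t (N-1-t) / N`; the at most two values `t = 0, N-1` contribute at most `N` each, the others with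
`v = min t (N-1-t) ≥ 1` at most `N/(2v)`, each `v < N` at most twice: `∑ N/v ≤ N (1 + log N)`.
-/

set_option autoImplicit false

namespace Pool.Agent.Helper5.RM

open Finset

private lemma net2_e_pow (y : ℝ) (j : ℕ) : e (j * y) = e y ^ j := by
  unfold e
  rw [← Complex.exp_nat_mul]
  congr 1
  push_cast
  ring

private lemma net2_orth (N : ℕ) (hN : 1 ≤ N) (d : ℤ) (hd : |d| < N) :
    ∑ j ∈ range N, e (d * ((j : ℝ) / N)) = if d = 0 then (N : ℂ) else 0 := by
  have hN0 : (N : ℝ) ≠ 0 := by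
    have : 0 < N := hN
    positivity
  split_ifs with h
  · subst h
    simp [e_zero]
  · have h1 : ∀ j : ℕ, e (d * ((j : ℝ) / N)) = e (d / N) ^ j := by
      intro j
      rw [← net2_e_pow]
      congr 1
      ring
    simp only [h1]
    have h2 : e ((d : ℝ) / N) ^ N = 1 := by
      rw [← net2_e_pow, mul_div_cancel₀ _ hN0]
      exact e_int d
    have h3 : e ((d : ℝ) / N) ≠ 1 := by
      intro h4
      unfold e at h4
      rw [Complex.exp_eq_one_iff] at h4
      obtain ⟨n, hn⟩ := h4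
      have h5 : ((((d : ℝ) / N : ℝ)) : ℂ) = n := by
        have hpi : (2 * (Real.pi : ℂ) * Complex.I) ≠ 0 := Complex.two_pi_I_ne_zero
        apply mul_right_cancel₀ hpi
        rw [← hn]
        ring
      have h6 : (d : ℝ) / N = n := by exact_mod_cast h5
      have h7 : (d : ℝ) = n * N := by
        field_simp at h6
        linarith
      have h8 : d = n * N := by exact_mod_cast h7
      rcases eq_or_ne n 0 with h9 | h9
      · rw [h9, zero_mul] at h8
        exact h h8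
      · have h10 : (N : ℤ) ≤ |d| := by
          rw [h8, abs_mul, Nat.abs_cast]
          have : 1 ≤ |n| := Int.one_le_abs h9
          nlinarith [Int.natCast_nonneg N]
        omega
    have h4 := mul_neg_geom_sum (e ((d : ℝ) / N)) N
    rw [h2, sub_self] at h4
    rcases mul_eq_zero.1 h4 with h5 | h5
    · exact absurd (sub_eq_zero.1 h5).symm h3
    · exact h5

/-- the bound for one residue -/
private noncomputable def net2A (N t : ℕ) : ℝ := if t = 0 then (N : ℝ) else N / (2 * t)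

private lemma net2A_nonneg (N t : ℕ) : 0 ≤ net2A N t := by
  unfold net2A
  split_ifs <;> positivity

private lemma net2_nd (N : ℕ) (hN : 1 ≤ N) (x : ℝ) (j t : ℕ) (q : ℤ) (ht : t < N)
    (hq : ⌊x * N⌋ - (j : ℤ) = N * q + t) (v : ℝ) (hv1 : v ≤ t) (hv2 : v ≤ (N : ℝ) - 1 - t) :
    v / N ≤ nd (x - j / N) := by
  have hN0 : (0 : ℝ) < N := by exact_mod_cast hN
  have hf0 := Int.floor_le (x * N)
  have hf1 := Int.lt_floor_add_one (x * N)
  have hq' : ((⌊x * N⌋ : ℤ) : ℝ) - j = N * q + t := by exact_mod_cast hq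
  have hx : x - j / N = q + (t + (x * N - ⌊x * N⌋)) / N := by
    field_simp
    linarith
  unfold nd
  set m := round (x - j / N) with hm
  set f := x * N - ⌊x * N⌋ with hf
  rw [hx]
  have hf0' : 0 ≤ f := by rw [hf]; linarith
  have hf1' : f < 1 := by rw [hf]; linarith
  rw [div_le_iff₀ hN0]
  have h1 : |(q : ℝ) + (t + f) / N - m| * N = |((q : ℝ) - m) * N + (t + f)| := by
    rw [← abs_of_pos hN0, ← abs_mul, abs_of_pos hN0]
    congr 1
    field_simp
    ring
  rw [h1]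
  rcases le_or_gt m q with h | h
  · have h2 : (0 : ℝ) ≤ (q : ℝ) - m := by
      have : (m : ℝ) ≤ q := by exact_mod_cast h
      linarith
    have h3 : 0 ≤ ((q : ℝ) - m) * N := by positivity
    refine le_trans ?_ (le_abs_self _)
    linarith
  · have h2 : (q : ℝ) - m ≤ -1 := by
      have : (q : ℝ) + 1 ≤ m := by exact_mod_cast h
      linarith
    have h3 : ((q : ℝ) - m) * N ≤ -N := by nlinarith
    refine le_trans ?_ (neg_le_abs _)
    linarith

private lemma net2_mn (N : ℕ) (hN : 1 ≤ N) (x : ℝ) (j t : ℕ) (q : ℤ) (ht : t < N)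
    (hq : ⌊x * N⌋ - (j : ℤ) = N * q + t) :
    mn N (x - j / N) ≤ net2A N t + net2A N (N - 1 - t) := by
  have hN0 : (0 : ℝ) < N := by exact_mod_cast hN
  by_cases h0 : t = 0
  · have h1 : net2A N t = N := by simp [net2A, h0]
    rw [h1]
    have := net2A_nonneg N (N - 1 - t)
    have := mn_le (M := (N : ℝ)) (x - j / N)
    linarith
  by_cases h1 : N - 1 - t = 0
  · have h2 : net2A N (N - 1 - t) = N := by simp [net2A, h1]
    rw [h2]
    have := net2A_nonneg N t
    have := mn_le (M := (N : ℝ)) (x - j / N)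
    linarith
  have hc : (((N - 1 - t : ℕ) : ℕ) : ℝ) = (N : ℝ) - 1 - t := by
    rw [Nat.cast_sub (by omega), Nat.cast_sub hN, Nat.cast_one]
  have ht0 : (0 : ℝ) < t := by
    have : 0 < t := Nat.pos_of_ne_zero h0
    exact_mod_cast this
  have hu0 : (0 : ℝ) < (N : ℝ) - 1 - t := by
    rw [← hc]
    have : 0 < N - 1 - t := Nat.pos_of_ne_zero h1
    exact_mod_cast this
  rcases le_total (t : ℝ) ((N : ℝ) - 1 - t) with h | h
  · have h2 := net2_nd N hN x j t q ht hq t le_rfl h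
    have h3 := mn_le_of_nd (M := (N : ℝ)) (div_pos ht0 hN0) h2
    have h4 : net2A N t = 1 / (2 * ((t : ℝ) / N)) := by
      simp only [net2A, h0, if_false]
      field_simp
    have := net2A_nonneg N (N - 1 - t)
    linarith
  · have h2 := net2_nd N hN x j t q ht hq _ h le_rfl
    have h3 := mn_le_of_nd (M := (N : ℝ)) (div_pos hu0 hN0) h2
    have h4 : net2A N (N - 1 - t) = 1 / (2 * (((N : ℝ) - 1 - t) / N)) := by
      simp only [net2A, h1, if_false]
      rw [hc]
      field_simp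
    have := net2A_nonneg N t
    linarith

private lemma net2_sumA (N : ℕ) (hN : 1 ≤ N) :
    ∑ t ∈ range N, (net2A N t + net2A N (N - 1 - t)) ≤ N * (3 + Real.log N) := by
  have hN0 : (0 : ℝ) < N := by exact_mod_cast hN
  rw [sum_add_distrib, sum_range_reflect (fun t => net2A N t) N]
  obtain ⟨K, rfl⟩ : ∃ K, N = K + 1 := ⟨N - 1, by omega⟩
  rw [sum_range_succ']
  have h1 : ∑ i ∈ range K, net2A (K + 1) (i + 1) = ((K + 1 : ℕ) : ℝ) / 2 * (harmonic K : ℝ) := by
    rw [harmonic]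
    push_cast
    rw [mul_sum]
    refine sum_congr rfl fun i _ => ?_
    simp only [net2A, Nat.succ_ne_zero, if_false]
    push_cast
    have : (0 : ℝ) < (i : ℝ) + 1 := by positivity
    field_simp
  have h2 : net2A (K + 1) 0 = ((K + 1 : ℕ) : ℝ) := by simp [net2A]
  rw [h1, h2]
  have h3 : (harmonic K : ℝ) ≤ 1 + Real.log ((K + 1 : ℕ) : ℝ) := by
    refine (harmonic_le_one_add_log K).trans ?_
    rcases Nat.eq_zero_or_pos K with h | h
    · subst h; simp
    · have : Real.log (K : ℝ) ≤ Real.log ((K + 1 : ℕ) : ℝ) :=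
        Real.log_le_log (by exact_mod_cast h) (by push_cast; linarith)
      linarith
  nlinarith

private lemma net2_sum (N : ℕ) (hN : 1 ≤ N) (x : ℝ) :
    ∑ j ∈ range N, mn N (x - j / N) ≤ N * (3 + Real.log N) := by
  have hN0 : (0 : ℤ) < N := by exact_mod_cast hN
  set tt : ℕ → ℕ := fun j => ((⌊x * N⌋ - (j : ℤ)) % N).toNat with htt
  have h1 : ∀ j, ((tt j : ℕ) : ℤ) = (⌊x * N⌋ - (j : ℤ)) % N := fun j =>
    Int.toNat_of_nonneg (Int.emod_nonneg _ hN0.ne')
  have h2 : ∀ j, tt j < N := by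
    intro j
    have := Int.emod_lt_of_pos (⌊x * N⌋ - (j : ℤ)) hN0
    rw [← h1] at this
    exact_mod_cast this
  have h3 : ∀ j ∈ range N, mn N (x - j / N) ≤ net2A N (tt j) + net2A N (N - 1 - tt j) := by
    intro j _
    refine net2_mn N hN x j (tt j) ((⌊x * N⌋ - (j : ℤ)) / N) (h2 j) ?_
    rw [h1]
    exact (Int.mul_ediv_add_emod _ _).symm
  refine (sum_le_sum h3).trans ?_
  refine le_trans ?_ (net2_sumA N hN)
  have hinj : Set.InjOn tt (range N : Set ℕ) := by
    intro a ha b hb hab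
    have ha' : a < N := mem_range.1 (mem_coe.1 ha)
    have hb' : b < N := mem_range.1 (mem_coe.1 hb)
    have h4 : (⌊x * N⌋ - (a : ℤ)) % N = (⌊x * N⌋ - (b : ℤ)) % N := by
      rw [← h1, ← h1, hab]
    have h5 : (N : ℤ) ∣ (⌊x * N⌋ - (b : ℤ)) - (⌊x * N⌋ - (a : ℤ)) := Int.ModEq.dvd h4
    have h6 : (N : ℤ) ∣ (a : ℤ) - b := by
      have : (⌊x * N⌋ - (b : ℤ)) - (⌊x * N⌋ - (a : ℤ)) = (a : ℤ) - b := by ring
      rwa [this] at h5
    have h7 := Int.eq_zero_of_abs_lt_dvd h6 (by rw [abs_lt]; constructor <;> omega)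
    omega
  rw [← sum_image (f := fun t => net2A N t + net2A N (N - 1 - t)) hinj]
  refine sum_le_sum_of_subset_of_nonneg ?_ fun t _ _ =>
    add_nonneg (net2A_nonneg _ _) (net2A_nonneg _ _)
  intro t ht
  obtain ⟨j, _, rfl⟩ := mem_image.1 ht
  exact mem_range.2 (h2 j)

theorem interp (N : ℕ) (hN : 1 ≤ N) (c : ℕ → ℂ) (M : ℝ)
    (h : ∀ j ∈ Finset.range N, ‖∑ n ∈ Finset.Icc 1 N, c n * e (n * ((j : ℝ) / N))‖ ≤ M)
    (N' : ℕ) (hN' : N' ≤ N) (x : ℝ) :
    ‖∑ n ∈ Finset.Icc 1 N', c n * e (n * x)‖ ≤ (3 + Real.log N) * M := by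
  have hN0 : (0 : ℝ) < N := by exact_mod_cast hN
  have hNc : (N : ℂ) ≠ 0 := by
    have : N ≠ 0 := by omega
    exact_mod_cast this
  have hM : 0 ≤ M := (norm_nonneg _).trans (h 0 (mem_range.2 hN))
  -- inversion
  have hinv : ∀ n ∈ Icc 1 N, ∑ j ∈ range N,
      (∑ m ∈ Icc 1 N, c m * e (m * ((j : ℝ) / N))) * e (-(n * ((j : ℝ) / N))) = N * c n := by
    intro n hn
    have hn' := mem_Icc.1 hn
    have h1 : ∀ j ∈ range N, (∑ m ∈ Icc 1 N, c m * e (m * ((j : ℝ) / N))) *
        e (-(n * ((j : ℝ) / N))) =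
        ∑ m ∈ Icc 1 N, c m * e ((((m : ℤ) - n : ℤ) : ℝ) * ((j : ℝ) / N)) := by
      intro j _
      rw [sum_mul]
      refine sum_congr rfl fun m _ => ?_
      rw [mul_assoc, ← e_add]
      congr 2
      push_cast
      ring
    rw [sum_congr rfl h1, sum_comm]
    have h2 : ∀ m ∈ Icc 1 N, ∑ j ∈ range N, c m * e ((((m : ℤ) - n : ℤ) : ℝ) * ((j : ℝ) / N)) =
        if m = n then N * c n else 0 := by
      intro m hm
      have hm' := mem_Icc.1 hm
      rw [← mul_sum, net2_orth N hN _ (by rw [abs_lt]; constructor <;> omega)]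
      by_cases hmn : m = n
      · rw [if_pos (by rw [hmn]; ring), if_pos hmn, hmn, mul_comm]
      · rw [if_neg (by omega), if_neg hmn, mul_zero]
    rw [sum_congr rfl h2, sum_ite_eq' (Icc 1 N) n, if_pos hn]
  -- rewrite the sum
  have hsum : (N : ℂ) * ∑ n ∈ Icc 1 N', c n * e (n * x) =
      ∑ j ∈ range N, (∑ m ∈ Icc 1 N, c m * e (m * ((j : ℝ) / N))) *
        ∑ n ∈ Icc 1 N', e (n * (x - j / N)) := by
    rw [mul_sum]
    have h1 : ∀ n ∈ Icc 1 N', (N : ℂ) * (c n * e (n * x)) = ∑ j ∈ range N,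
        (∑ m ∈ Icc 1 N, c m * e (m * ((j : ℝ) / N))) * e (n * (x - j / N)) := by
      intro n hn
      have hn' := mem_Icc.1 hn
      rw [← mul_assoc, ← hinv n (mem_Icc.2 ⟨hn'.1, hn'.2.trans hN'⟩), sum_mul]
      refine sum_congr rfl fun j _ => ?_
      rw [mul_assoc, ← e_add]
      congr 2
      ring
    rw [sum_congr rfl h1, sum_comm]
    refine sum_congr rfl fun j _ => ?_
    rw [mul_sum]
  have h1 : (N : ℝ) * ‖∑ n ∈ Icc 1 N', c n * e (n * x)‖ ≤ N * ((3 + Real.log N) * M) := by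
    have h2 : (N : ℝ) * ‖∑ n ∈ Icc 1 N', c n * e (n * x)‖ =
        ‖(N : ℂ) * ∑ n ∈ Icc 1 N', c n * e (n * x)‖ := by
      rw [norm_mul, Complex.norm_natCast]
    rw [h2, hsum]
    refine (norm_sum_le _ _).trans ?_
    have h3 : ∀ j ∈ range N, ‖(∑ m ∈ Icc 1 N, c m * e (m * ((j : ℝ) / N))) *
        ∑ n ∈ Icc 1 N', e (n * (x - j / N))‖ ≤ M * mn N (x - j / N) := by
      intro j hj
      rw [norm_mul]
      refine mul_le_mul (h j hj) ?_ (norm_nonneg _) hM
      refine geo 1 N' N _ hN0.le ?_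
      have : (N' : ℝ) ≤ N := by exact_mod_cast hN'
      push_cast
      linarith
    refine (sum_le_sum h3).trans ?_
    rw [← mul_sum]
    have h4 := mul_le_mul_of_nonneg_left (net2_sum N hN x) hM
    linarith
  exact le_of_mul_le_mul_left h1 hN0

end Pool.Agent.Helper5.RM
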