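import Pool.Agent.Helper5.RM.NET1

/-!
# Block RM-NET3: the sum of `DD ^ (-4)`

Proof. Dyadic: the `j` with `2^a Y ≤ DD < 2^(a+1) Y` are at most `3 * 4^(a+1) Y^2` many (`DD_count`), each term is at most
`(2^a Y)^(-4)`; `∑_a 12 * 4^a * 16^(-a) Y^(-2) = 16 Y^(-2)`. (`DD ≤ N`, so finitely many `a` matter.)
-/

set_option autoImplicit false

namespace Pool.Agent.Helper5.RM

open Finset

theorem DD_sum (N : ℕ) (hN : 1 ≤ N) (Y : ℝ) (hY : 1 ≤ Y) :
    ∑ j ∈ (Finset.range N).filter (fun j : ℕ => Y ≤ DD N ((j : ℝ) / N)), 1 / (DD N ((j : ℝ) / N)) ^ 4 ≤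
      16 / Y ^ 2 := by
  classical
  have hY0 : 0 < Y := by linarith
  have key : ∀ j ∈ (Finset.range N).filter (fun j : ℕ => Y ≤ DD N ((j : ℝ) / N)),
      1 / (DD N ((j : ℝ) / N)) ^ 4 ≤
        ∑ a ∈ Finset.range (N + 1),
          if DD N ((j : ℝ) / N) < 2 ^ (a + 1) * Y then 1 / ((2 : ℝ) ^ a * Y) ^ 4 else 0 := by
    intro j hj
    have hYj : Y ≤ DD N ((j : ℝ) / N) := (Finset.mem_filter.mp hj).2
    have hle : DD N ((j : ℝ) / N) ≤ N := DD_le N hN j
    have hpow : (N : ℝ) < 2 ^ (N + 1) := by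
      have h1 : N < 2 ^ N := Nat.lt_two_pow_self
      have h2 : (2 : ℕ) ^ N ≤ 2 ^ (N + 1) := Nat.pow_le_pow_right (by norm_num) (Nat.le_succ N)
      exact_mod_cast h1.trans_le h2
    have hN' : DD N ((j : ℝ) / N) < 2 ^ (N + 1) * Y := by
      have h3 : (0 : ℝ) < 2 ^ (N + 1) := by positivity
      nlinarith
    have hex : ∃ a : ℕ, DD N ((j : ℝ) / N) < 2 ^ (a + 1) * Y := ⟨N, hN'⟩
    have ha := Nat.find_spec hex
    have haN : Nat.find hex ≤ N := Nat.find_min' hex hN'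
    have hlow : 2 ^ (Nat.find hex) * Y ≤ DD N ((j : ℝ) / N) := by
      rcases Nat.eq_zero_or_pos (Nat.find hex) with h0 | hpos
      · rw [h0]; simpa using hYj
      · have hm : Nat.find hex - 1 < Nat.find hex := by omega
        have hnot := Nat.find_min hex hm
        have he : Nat.find hex - 1 + 1 = Nat.find hex := by omega
        rw [he] at hnot
        exact not_lt.mp hnot
    have hpos2 : (0 : ℝ) < 2 ^ (Nat.find hex) * Y := by positivity
    have hterm : 1 / (DD N ((j : ℝ) / N)) ^ 4 ≤ 1 / ((2 : ℝ) ^ (Nat.find hex) * Y) ^ 4 :=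
      one_div_le_one_div_of_le (by positivity) (pow_le_pow_left₀ hpos2.le hlow 4)
    refine hterm.trans ?_
    have hs := Finset.single_le_sum (s := Finset.range (N + 1))
      (f := fun a => if DD N ((j : ℝ) / N) < 2 ^ (a + 1) * Y then 1 / ((2 : ℝ) ^ a * Y) ^ 4 else 0)
      (fun a _ => by
        split_ifs
        · positivity
        · exact le_rfl) (Finset.mem_range.mpr (by omega : Nat.find hex < N + 1))
    simp only [if_pos ha] at hs
    exact hs
  refine (Finset.sum_le_sum key).trans ?_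
  rw [Finset.sum_comm]
  have hin : ∀ a ∈ Finset.range (N + 1),
      ∑ j ∈ (Finset.range N).filter (fun j : ℕ => Y ≤ DD N ((j : ℝ) / N)),
        (if DD N ((j : ℝ) / N) < 2 ^ (a + 1) * Y then 1 / ((2 : ℝ) ^ a * Y) ^ 4 else 0) ≤
        12 / Y ^ 2 * (1 / 4) ^ a := by
    intro a _
    rw [← Finset.sum_filter, Finset.sum_const, nsmul_eq_mul]
    have h2a : (1 : ℝ) ≤ 2 ^ (a + 1) := one_le_pow₀ (by norm_num)
    have hYa : (1 : ℝ) ≤ 2 ^ (a + 1) * Y := by nlinarith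
    have hc := DD_count N hN (2 ^ (a + 1) * Y) hYa
    have hsub : (((Finset.range N).filter (fun j : ℕ => Y ≤ DD N ((j : ℝ) / N))).filter
        (fun j : ℕ => DD N ((j : ℝ) / N) < 2 ^ (a + 1) * Y)).card ≤
        ((Finset.range N).filter (fun j : ℕ => DD N ((j : ℝ) / N) < 2 ^ (a + 1) * Y)).card := by
      refine Finset.card_le_card ?_
      intro j hj
      rw [Finset.mem_filter] at hj
      rw [Finset.mem_filter]
      exact ⟨(Finset.mem_filter.mp hj.1).1, hj.2⟩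
    have hsub' : ((((Finset.range N).filter (fun j : ℕ => Y ≤ DD N ((j : ℝ) / N))).filter
        (fun j : ℕ => DD N ((j : ℝ) / N) < 2 ^ (a + 1) * Y)).card : ℝ) ≤ 3 * (2 ^ (a + 1) * Y) ^ 2 :=
      (Nat.cast_le.mpr hsub).trans hc
    have hp4 : (0 : ℝ) < 1 / ((2 : ℝ) ^ a * Y) ^ 4 := by positivity
    refine (mul_le_mul_of_nonneg_right hsub' hp4.le).trans (le_of_eq ?_)
    have h2pos : (2 : ℝ) ^ a ≠ 0 := by positivity
    have h4 : (1 / 4 : ℝ) ^ a = 1 / ((2 : ℝ) ^ a) ^ 2 := by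
      rw [one_div_pow, ← pow_mul, mul_comm a 2, pow_mul]
      norm_num
    rw [h4, pow_succ]
    field_simp
    ring
  refine (Finset.sum_le_sum hin).trans ?_
  rw [← Finset.mul_sum]
  have hgeo : ∑ i ∈ Finset.range (N + 1), (1 / 4 : ℝ) ^ i ≤ 4 / 3 := by
    rw [geom_sum_eq (by norm_num)]
    have : (0 : ℝ) ≤ (1 / 4) ^ (N + 1) := by positivity
    have e : ((1 / 4 : ℝ) ^ (N + 1) - 1) / (1 / 4 - 1) = (4 / 3) * (1 - (1 / 4) ^ (N + 1)) := by ring
    rw [e]
    nlinarith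
  have hYY : (0 : ℝ) ≤ 12 / Y ^ 2 := by positivity
  refine (mul_le_mul_of_nonneg_left hgeo hYY).trans (le_of_eq ?_)
  ring

end Pool.Agent.Helper5.RM
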