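import Pool.Agent.Helper5.RM.Defs

/-!
# Block RM-PARB: parameters, small D

For `L^C0 ≤ D`, `log D ≤ u^8`, `u = log L`, `L = LL N`. Choice: `η = 1`, `k = 350`, `w = (4k)^2`, `B = ⌊D^(1/4)⌋`,
`z = ⌈(10 u^8)^128⌉ + 2`, `I = ⌊log B / log z⌋ + 1`, `C0 = 256 (2w + 14)`. All claims hold for `N` large.
* `hBD`, `hBN`, `hBL`, `hB36`: `B ≤ D^(1/4) ≤ exp (u^8/4)`, `B ≥ D^(1/4)/2 ≥ L^(C0/4)/2`, and `u^8` is tiny compared with `log N ≈ e^u`.
* `hIz`, `hI`: definition of `I`. `hIL`: `I ≤ 1 + log B ≤ 2L`.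
* `hni`: `log B ≤ u^8/4 ≤ log N / (80 u)` gives `exp (-(3/8)(i-1) log N/log B) ≤ L^(-30 (i-1))`; as `i ≤ 2(i-1)` and `10 log D ≤ 10 L`:
  `exp 18 * L^13 * L^(-30(i-1)) * (10 L)^i ≤ exp 18 * (100 L^(-15))^(i-1) ≤ 1/2`, and `√N (10 log D)^I ≤ N/2` since `(10 log D)^I ≤ (10 u^8)^(u^8)`.
* `hfin`, four terms, each at most `D^(-4)/4`:
  (1) `E0/N ≤ N^(-1/2) L^W + L^W exp (-(3/8) log N/log z + 3 W (1 + log z))`, `W = 699`, and `log N/log z` is about `e^u/(1024 log u)`, so `(E0/N)^k ≤ exp (-5 u^8 - 5)`.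
  (2) `2 I^2 D^(-5)`: `I ≤ 1 + log D`, or `8 L^2 D^(-5)` with `D ≥ L^C0`.
  (3) as (4), simpler: `(18 L^(2w+5) (128 L/B)^(1/4))^k`.
  (4) `log z ≥ 128 log (10 log D)` gives `(10 log D)^(2I) ≤ (10 log D)^2 exp (2 log(10 log D) log B/log z) ≤ (10 L)^2 B^(1/64)`;
  `(6/√B)^(1/4) ≤ 6 B^(-1/8)`; `10^5 L^(2w+11) ≤ B^(1/64)` (as `B ≥ D^(1/4)/2`, `D ≥ L^C0`). So the bracket is at most
  `B^(-6/64)` and its `k`-th power at most `B^(-6*350/64) ≤ B^(-32) ≤ 2^32 D^(-8)`; `2 B L I * 2^32 D^(-8) ≤ D^(-4)/4`.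
-/

set_option autoImplicit false

namespace Pool.Agent.Helper5.RM

open Finset

private lemma parb_event : ∃ N0 : ℕ, ∀ N : ℕ, N0 ≤ N →
    1 ≤ N ∧ (10 : ℝ) ^ 6 ≤ Real.log (LL N) ∧ Real.log (LL N) ^ 1500 ≤ LL N := by
  have h1 : Filter.Tendsto (fun N : ℕ => LL N) Filter.atTop Filter.atTop := by
    unfold LL
    exact Filter.tendsto_atTop_add_const_left _ _ (Real.tendsto_log_atTop.comp tendsto_natCast_atTop_atTop)
  have h2 : Filter.Tendsto (fun N : ℕ => Real.log (LL N)) Filter.atTop Filter.atTop :=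
    Real.tendsto_log_atTop.comp h1
  have h3 := Real.tendsto_exp_div_pow_atTop 1500
  have e1 := h2.eventually_ge_atTop ((10 : ℝ) ^ 6)
  have e2 := (h3.comp h2).eventually_ge_atTop 1
  have e3 := h1.eventually_ge_atTop 1
  obtain ⟨N0, h⟩ := Filter.eventually_atTop.1 ((e1.and e2).and (e3.and (Filter.eventually_ge_atTop 1)))
  refine ⟨N0, fun N hN => ?_⟩
  obtain ⟨⟨a, b⟩, c, d⟩ := h N hN
  refine ⟨d, a, ?_⟩
  simp only [Function.comp] at b
  have hL : 0 < LL N := by linarith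
  rw [Real.exp_log hL] at b
  have hpos : 0 < Real.log (LL N) ^ 1500 := by
    have : (0 : ℝ) < Real.log (LL N) := by linarith [show (0 : ℝ) < 10 ^ 6 by norm_num]
    positivity
  rwa [le_div_iff₀ hpos, one_mul] at b

/-- polynomial bounds -/
private lemma parb_pow {u L : ℝ} (h6 : (10 : ℝ) ^ 6 ≤ u) (hp : u ^ 1500 ≤ L) {k : ℕ} (hk : k ≤ 1500) :
    u ^ k ≤ L := by
  have h1 : (1 : ℝ) ≤ u := le_trans (by norm_num) h6
  exact le_trans (pow_le_pow_right₀ h1 hk) hp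

private lemma parb_root {x y : ℝ} (hx : 0 ≤ x) (hy : 0 ≤ y) (h : x ≤ y ^ 4) : x ^ ((1 : ℝ) / 4) ≤ y := by
  calc x ^ ((1 : ℝ) / 4) ≤ (y ^ 4) ^ ((1 : ℝ) / 4) := Real.rpow_le_rpow hx h (by norm_num)
    _ = y := by
      rw [← Real.rpow_natCast, ← Real.rpow_mul hy]
      norm_num

private lemma parb_exists_root (n : ℕ) (hn : n ≠ 0) {x : ℝ} (hx : 0 ≤ x) : ∃ y : ℝ, 0 ≤ y ∧ y ^ n = x := by
  refine ⟨x ^ ((n : ℝ)⁻¹), Real.rpow_nonneg hx _, ?_⟩
  exact Real.rpow_inv_natCast_pow hx hn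

/-- the choice of `z` -/
private lemma parb_z {u L : ℝ} (h6 : (10 : ℝ) ^ 6 ≤ u) (hp : u ^ 1500 ≤ L) :
    ∃ z : ℕ, 3 ≤ z ∧ (z : ℝ) ≤ L ∧ (10 * u ^ 8) ^ 128 ≤ (z : ℝ) := by
  have h1 : (1 : ℝ) ≤ u := le_trans (by norm_num) h6
  have h0 : (0 : ℝ) ≤ (10 * u ^ 8) ^ 128 := by positivity
  refine ⟨⌈(10 * u ^ 8) ^ 128⌉₊ + 3, by omega, ?_, ?_⟩
  · have h2 := (Nat.ceil_lt_add_one h0).le
    have h3 : (10 * u ^ 8) ^ 128 ≤ u ^ 1152 := by
      have : 10 * u ^ 8 ≤ u ^ 9 := by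
        rw [pow_succ u 8, mul_comm (u ^ 8)]
        have : (10 : ℝ) ≤ u := le_trans (by norm_num) h6
        have h8 : 0 ≤ u ^ 8 := by positivity
        nlinarith
      calc (10 * u ^ 8) ^ 128 ≤ (u ^ 9) ^ 128 := pow_le_pow_left₀ (by positivity) this 128
        _ = u ^ 1152 := by rw [← pow_mul]
    have h4 : u ^ 1152 + 4 ≤ u ^ 1153 := by
      rw [pow_succ u 1152]
      have h5 : (1 : ℝ) ≤ u ^ 1152 := one_le_pow₀ h1
      have : (10 : ℝ) ≤ u := le_trans (by norm_num) h6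
      nlinarith
    have h5 := parb_pow h6 hp (k := 1153) (by norm_num)
    push_cast
    linarith
  · have := Nat.le_ceil ((10 * u ^ 8) ^ 128)
    push_cast
    linarith


private lemma parb_exp18 {L : ℝ} (h : (10 : ℝ) ^ 12 ≤ L) : 2 * Real.exp 18 ≤ L := by
  have h1 : Real.exp 18 = Real.exp 1 ^ 18 := by
    rw [← Real.exp_nat_mul]
    norm_num
  have h2 : Real.exp 1 ^ 18 ≤ 3 ^ 18 := pow_le_pow_left₀ (Real.exp_pos 1).le (by linarith [Real.exp_one_lt_d9]) 18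
  rw [h1]
  have h3 : (3 : ℝ) ^ 18 ≤ 10 ^ 11 := by norm_num
  have h4 : (10 : ℝ) ^ 12 = 10 * 10 ^ 11 := by norm_num
  have h5 : (0 : ℝ) ≤ 10 ^ 11 := by norm_num
  linarith

private lemma parb_hni {N B j i : ℕ} {u L s β : ℝ} (hN : 0 < (N : ℝ)) (hLN : Real.log N = L - 1)
    (hexp : Real.exp u = L) (h6 : (10 : ℝ) ^ 6 ≤ u) (hp : u ^ 1500 ≤ L) (hs1 : 1 ≤ s) (hs : s ≤ 10 * u ^ 8)
    (hβ : β ^ 64 = (B : ℝ)) (hβL : L ≤ β) (hBN : (B : ℝ) ^ 8 ≤ N) (hb0 : 0 < Real.log B)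
    (hb : Real.log B ≤ u ^ 8 / 4) (hsj : s ^ (2 * j) ≤ β) (hi : 2 ≤ i) (hij : i ≤ j + 1) :
    Real.sqrt N + Real.exp 18 * N * L ^ 13 * Real.exp (-(3 / 8) * (i - 1) * Real.log N / Real.log B) ≤
      N / s ^ i := by
  have hu1 : (1 : ℝ) ≤ u := le_trans (by norm_num) h6
  have hL12 : (10 : ℝ) ^ 12 ≤ L := by
    calc (10 : ℝ) ^ 12 = (10 ^ 6) ^ 2 := by norm_num
      _ ≤ u ^ 2 := pow_le_pow_left₀ (by norm_num) h6 2
      _ ≤ L := parb_pow h6 hp (by norm_num)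
  have hL1 : (1 : ℝ) ≤ L := le_trans (by norm_num) hL12
  have hL0 : 0 < L := by linarith
  have hsL : s ≤ L := by
    have h9 : 10 * u ^ 8 ≤ u ^ 9 := by
      rw [pow_succ u 8, mul_comm (u ^ 8)]
      have : (10 : ℝ) ≤ u := le_trans (by norm_num) h6
      have h8 : 0 ≤ u ^ 8 := by positivity
      nlinarith
    exact hs.trans (h9.trans (parb_pow h6 hp (by norm_num)))
  have hβ1 : 1 ≤ β := hL1.trans hβL
  have hβ2 : 2 ≤ β := by linarith [show (2 : ℝ) ≤ 10 ^ 12 by norm_num]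
  have hs0 : 0 < s := by linarith
  have hsi0 : 0 < s ^ i := by positivity
  -- bound of s^i
  have hsi : s ^ i ≤ β ^ 2 := by
    calc s ^ i ≤ s ^ (j + 1) := pow_le_pow_right₀ hs1 hij
      _ = s ^ j * s := pow_succ s j
      _ ≤ s ^ (2 * j) * s := by
          have : s ^ j ≤ s ^ (2 * j) := pow_le_pow_right₀ hs1 (by omega)
          gcongr
      _ ≤ β * β := by
          gcongr
          exact hsL.trans hβL
      _ = β ^ 2 := by ring
  have hsq : (B : ℝ) ^ 4 ≤ Real.sqrt N := by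
    apply Real.le_sqrt_of_sq_le
    rw [← pow_mul]
    exact hBN
  have hB4 : (B : ℝ) ^ 4 = β ^ 256 := by rw [← hβ, ← pow_mul]
  have h2β : 2 * β ^ 2 ≤ β ^ 256 := by
    rw [show (256 : ℕ) = 254 + 2 from rfl, pow_add]
    have : 2 ≤ β ^ 254 := hβ2.trans (le_self_pow₀ hβ1 (by norm_num))
    gcongr
  have hA : s ^ i * Real.sqrt N ≤ N / 2 := by
    have h1 : 2 * s ^ i ≤ Real.sqrt N := by
      calc 2 * s ^ i ≤ 2 * β ^ 2 := by gcongr
        _ ≤ β ^ 256 := h2β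
        _ = (B : ℝ) ^ 4 := hB4.symm
        _ ≤ Real.sqrt N := hsq
    have h2 : Real.sqrt N * Real.sqrt N = N := Real.mul_self_sqrt hN.le
    have h3 : 0 ≤ Real.sqrt N := Real.sqrt_nonneg _
    nlinarith
  obtain ⟨m, rfl⟩ : ∃ m, i = m + 2 := ⟨i - 2, by omega⟩
  have hE : Real.exp (-(3 / 8) * (((m + 2 : ℕ) : ℝ) - 1) * Real.log N / Real.log B) ≤
      1 / L ^ (30 * (m + 1)) := by
    have h1 : L ^ (30 * (m + 1)) = Real.exp (30 * u * (m + 1)) := by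
      rw [← hexp, ← Real.exp_nat_mul]
      congr 1
      push_cast
      ring
    rw [h1, one_div, ← Real.exp_neg]
    apply Real.exp_le_exp.2
    rw [hLN, div_le_iff₀ hb0]
    have h2 : 30 * u * Real.log B ≤ 3 / 8 * (L - 1) := by
      have h10 := parb_pow h6 hp (k := 10) (by norm_num)
      have h9 : (1 : ℝ) ≤ u ^ 9 := one_le_pow₀ hu1
      calc 30 * u * Real.log B ≤ 30 * u * (u ^ 8 / 4) := by gcongr
        _ = 7.5 * u ^ 9 := by ring
        _ ≤ 3 / 8 * (u ^ 10 - 1) := by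
          have : u ^ 10 = u ^ 9 * u := pow_succ u 9
          have h100 : (100 : ℝ) ≤ u := le_trans (by norm_num) h6
          nlinarith
        _ ≤ 3 / 8 * (L - 1) := by gcongr
    have hm : (0 : ℝ) ≤ (m : ℝ) + 1 := by positivity
    push_cast
    have h3 := mul_le_mul_of_nonneg_right h2 hm
    nlinarith
  have hB' : s ^ (m + 2) * (Real.exp 18 * L ^ 13 *
      Real.exp (-(3 / 8) * (((m + 2 : ℕ) : ℝ) - 1) * Real.log N / Real.log B)) ≤ 1 / 2 := by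
    have h1 : s ^ (m + 2) ≤ L ^ (2 * (m + 1)) := by
      calc s ^ (m + 2) ≤ L ^ (m + 2) := pow_le_pow_left₀ hs0.le hsL _
        _ ≤ L ^ (2 * (m + 1)) := pow_le_pow_right₀ hL1 (by omega)
    have h2 : L ^ 13 ≤ L ^ (13 * (m + 1)) := pow_le_pow_right₀ hL1 (by omega)
    have h3 : L ^ (30 * (m + 1)) = L ^ (2 * (m + 1)) * L ^ (13 * (m + 1)) * L ^ (15 * (m + 1)) := by
      rw [← pow_add, ← pow_add]
      congr 1
      ring
    have h4 : L ≤ L ^ (15 * (m + 1)) := le_self_pow₀ hL1 (by omega)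
    calc s ^ (m + 2) * (Real.exp 18 * L ^ 13 *
        Real.exp (-(3 / 8) * (((m + 2 : ℕ) : ℝ) - 1) * Real.log N / Real.log B))
        ≤ L ^ (2 * (m + 1)) * (Real.exp 18 * L ^ (13 * (m + 1)) * (1 / L ^ (30 * (m + 1)))) := by
          gcongr
      _ = Real.exp 18 / L ^ (15 * (m + 1)) := by
          rw [h3]
          have a1 : L ^ (2 * (m + 1)) ≠ 0 := by positivity
          have a2 : L ^ (13 * (m + 1)) ≠ 0 := by positivity
          have a3 : L ^ (15 * (m + 1)) ≠ 0 := by positivity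
          field_simp
      _ ≤ Real.exp 18 / L := by gcongr
      _ ≤ 1 / 2 := by
          rw [div_le_div_iff₀ hL0 (by norm_num)]
          have := parb_exp18 hL12
          linarith
  rw [le_div_iff₀ hsi0]
  have e1 : (Real.sqrt N + Real.exp 18 * N * L ^ 13 *
      Real.exp (-(3 / 8) * (((m + 2 : ℕ) : ℝ) - 1) * Real.log N / Real.log B)) * s ^ (m + 2) =
      s ^ (m + 2) * Real.sqrt N + N * (s ^ (m + 2) * (Real.exp 18 * L ^ 13 *
      Real.exp (-(3 / 8) * (((m + 2 : ℕ) : ℝ) - 1) * Real.log N / Real.log B))) := by ring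
  rw [e1]
  nlinarith

private lemma parb_T1 {N z : ℕ} {u L D : ℝ} (hL : LL N = L) (hN : 0 < (N : ℝ)) (hLN : Real.log N = L - 1)
    (hexp : Real.exp u = L) (h6 : (10 : ℝ) ^ 6 ≤ u) (hp : u ^ 1500 ≤ L) (hz3 : 3 ≤ z) (hzL : (z : ℝ) ≤ L)
    (hD0 : 0 < D) (hD : D ≤ Real.exp (u ^ 8)) :
    (E0 N z (2 * 350 - 1) / N) ^ 350 ≤ 1 / (4 * D ^ 4) := by
  have hu1 : (1 : ℝ) ≤ u := le_trans (by norm_num) h6
  have hNe : (N : ℝ) = Real.exp (L - 1) := by rw [← hLN, Real.exp_log hN]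
  have hsq : Real.sqrt N = Real.exp ((L - 1) / 2) := by rw [Real.exp_half, hNe]
  have hW : L ^ (2 * 350 - 1) = Real.exp (699 * u) := by
    rw [← hexp, ← Real.exp_nat_mul]
    norm_num
  have hz0 : (0 : ℝ) < z := by
    have : (3 : ℝ) ≤ z := by exact_mod_cast hz3
    linarith
  have hl1 : 1 ≤ Real.log z := by
    rw [Real.le_log_iff_exp_le hz0]
    have : (3 : ℝ) ≤ z := by exact_mod_cast hz3
    linarith [Real.exp_one_lt_d9]
  have hlu : Real.log z ≤ u := by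
    rw [Real.log_le_iff_le_exp hz0, hexp]
    exact hzL
  have hcast : (((2 * 350 - 1 : ℕ)) : ℝ) = 699 := by norm_num
  set l := Real.log z with hl
  have h12 := parb_pow h6 hp (k := 12) (by norm_num)
  have p9 : (1 : ℝ) ≤ u ^ 9 := one_le_pow₀ hu1
  have p10 : u ^ 10 = u ^ 9 * u := pow_succ u 9
  have p11 : u ^ 11 = u ^ 10 * u := pow_succ u 10
  have p12 : u ^ 12 = u ^ 11 * u := pow_succ u 11
  have h6' : (1000000 : ℝ) ≤ u := le_trans (by norm_num) h6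
  have u9 : u ≤ u ^ 9 := le_self_pow₀ hu1 (by norm_num)
  have u10 : 1000000 * u ^ 9 ≤ u ^ 10 := by rw [p10]; nlinarith
  have u11 : 1000000 * u ^ 10 ≤ u ^ 11 := by rw [p11]; nlinarith [one_le_pow₀ hu1 (n := 10)]
  have u12 : 1000000 * u ^ 11 ≤ u ^ 12 := by rw [p12]; nlinarith [one_le_pow₀ hu1 (n := 11)]
  have b1 : 699 * u - (L - 1) / 2 ≤ -(u ^ 9 + 1) := by linarith
  have b2 : 699 * u + (-(3 / 8) * (L - 1) / l + 3 * 699 * (1 + l)) ≤ -(u ^ 9 + 1) := by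
    have hl0 : 0 < l := by linarith
    have c1 : -(3 / 8) * (L - 1) / l ≤ -(3 / 8) * (L - 1) / u := by
      rw [div_le_div_iff₀ hl0 (by linarith)]
      have : 0 ≤ L - 1 := by linarith
      nlinarith
    have c2 : -(3 / 8) * (L - 1) / u ≤ -(u ^ 10) := by
      rw [div_le_iff₀ (by linarith)]
      have : u ^ 10 * u = u ^ 11 := (pow_succ u 10).symm
      linarith
    linarith
  have hsum : E0 N z (2 * 350 - 1) / N ≤ Real.exp (-(u ^ 9)) := by
    have e1 : E0 N z (2 * 350 - 1) / N = Real.exp (699 * u - (L - 1) / 2) +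
        Real.exp (699 * u + (-(3 / 8) * (L - 1) / l + 3 * 699 * (1 + l))) := by
      unfold E0
      rw [hL, hW, hsq, hcast, hLN, ← hl]
      rw [add_div]
      congr 1
      · rw [hNe, ← Real.exp_add, ← Real.exp_sub]
        congr 1
        ring
      · rw [mul_assoc, mul_div_cancel_left₀ _ hN.ne', ← Real.exp_add]
    rw [e1]
    have c1 := Real.exp_le_exp.2 b1
    have c2 := Real.exp_le_exp.2 b2
    have c3 : Real.exp (-(u ^ 9)) = Real.exp (-(u ^ 9 + 1)) * Real.exp 1 := by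
      rw [← Real.exp_add]; congr 1; ring
    have c4 : (2 : ℝ) ≤ Real.exp 1 := by linarith [Real.exp_one_gt_d9]
    have c5 := Real.exp_pos (-(u ^ 9 + 1))
    rw [c3]
    nlinarith
  have hE0 : 0 ≤ E0 N z (2 * 350 - 1) / N := by
    have : 0 ≤ L := by linarith
    unfold E0
    rw [hL]
    positivity
  calc (E0 N z (2 * 350 - 1) / N) ^ 350 ≤ Real.exp (-(u ^ 9)) ^ 350 := pow_le_pow_left₀ hE0 hsum 350
    _ = Real.exp (-(350 * u ^ 9)) := by
        rw [← Real.exp_nat_mul]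
        congr 1
        push_cast
        ring
    _ ≤ 1 / (4 * D ^ 4) := by
        rw [Real.exp_neg, ← one_div]
        apply one_div_le_one_div_of_le (by positivity)
        have d1 : D ^ 4 ≤ Real.exp (4 * u ^ 8) := by
          calc D ^ 4 ≤ Real.exp (u ^ 8) ^ 4 := pow_le_pow_left₀ hD0.le hD 4
            _ = Real.exp (4 * u ^ 8) := by rw [← Real.exp_nat_mul]; norm_num
        have d2 : (4 : ℝ) ≤ Real.exp 2 := by
          have : Real.exp 2 = Real.exp 1 * Real.exp 1 := by rw [← Real.exp_add]; norm_num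
          rw [this]
          nlinarith [Real.exp_one_gt_d9]
        calc 4 * D ^ 4 ≤ Real.exp 2 * Real.exp (4 * u ^ 8) := by gcongr
          _ = Real.exp (2 + 4 * u ^ 8) := by rw [← Real.exp_add]
          _ ≤ Real.exp (350 * u ^ 9) := by
            apply Real.exp_le_exp.2
            have p8 : u ^ 9 = u ^ 8 * u := pow_succ u 8
            have q8 : (1 : ℝ) ≤ u ^ 8 := one_le_pow₀ hu1
            nlinarith

private lemma parb_T3 {B w : ℕ} {L D β : ℝ} (hL12 : (10 : ℝ) ^ 12 ≤ L) (hβ : β ^ 64 = (B : ℝ))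
    (hβL : L ^ (2 * w + 14) ≤ β) (hD0 : 0 < D) (hD : D ≤ 16 * β ^ 256) :
    2 * L * (18 * L ^ (2 * w + 5) * (128 * L / B) ^ ((1 : ℝ) / 4)) ^ 350 ≤ 1 / (4 * D ^ 4) := by
  have hL1 : (1 : ℝ) ≤ L := le_trans (by norm_num) hL12
  have hL0 : 0 < L := by linarith
  have hLβ : L ≤ β := (le_self_pow₀ hL1 (by omega)).trans hβL
  have hβ1 : 1 ≤ β := hL1.trans hLβ
  have hβ0 : 0 < β := by linarith
  have h1 : (128 * L / B) ^ ((1 : ℝ) / 4) ≤ 128 * L / β ^ 16 := by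
    apply parb_root
    · positivity
    · positivity
    · rw [← hβ, div_pow, ← pow_mul]
      norm_num only
      gcongr
      have : (1 : ℝ) ≤ 128 * L := by linarith
      exact le_self_pow₀ this (by norm_num)
  have h2 : 18 * L ^ (2 * w + 5) * (128 * L / B) ^ ((1 : ℝ) / 4) ≤ 1 / β ^ 15 := by
    calc 18 * L ^ (2 * w + 5) * (128 * L / B) ^ ((1 : ℝ) / 4)
        ≤ 18 * L ^ (2 * w + 5) * (128 * L / β ^ 16) := by gcongr
      _ = (2304 * (L ^ (2 * w + 6))) / β ^ 16 := by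
          rw [show 2 * w + 6 = (2 * w + 5) + 1 from rfl, pow_succ]
          ring
      _ ≤ β / β ^ 16 := by
          gcongr
          calc 2304 * L ^ (2 * w + 6) ≤ L ^ 8 * L ^ (2 * w + 6) := by
                gcongr
                have : L ≤ L ^ 8 := le_self_pow₀ hL1 (by norm_num)
                linarith [show (2304 : ℝ) ≤ 10 ^ 12 by norm_num]
            _ = L ^ (2 * w + 14) := by rw [← pow_add]; congr 1; ring
            _ ≤ β := hβL
      _ = 1 / β ^ 15 := by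
          rw [div_eq_div_iff (by positivity) (by positivity)]
          ring
  have h0 : 0 ≤ 18 * L ^ (2 * w + 5) * (128 * L / B) ^ ((1 : ℝ) / 4) := by positivity
  have h3 := pow_le_pow_left₀ h0 h2 350
  have hD4 : D ^ 4 ≤ 65536 * β ^ 1024 := by
    calc D ^ 4 ≤ (16 * β ^ 256) ^ 4 := pow_le_pow_left₀ hD0.le hD 4
      _ = 65536 * β ^ 1024 := by rw [mul_pow, ← pow_mul]; norm_num
  calc 2 * L * (18 * L ^ (2 * w + 5) * (128 * L / B) ^ ((1 : ℝ) / 4)) ^ 350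
      ≤ 2 * L * (1 / β ^ 15) ^ 350 := by gcongr
    _ = 2 * L / β ^ 5250 := by
        rw [div_pow, ← pow_mul, one_pow]
        ring
    _ ≤ 1 / (4 * D ^ 4) := by
        rw [div_le_div_iff₀ (by positivity) (by positivity)]
        calc 2 * L * (4 * D ^ 4) ≤ 2 * β * (4 * (65536 * β ^ 1024)) := by gcongr
          _ = 524288 * (β * β ^ 1024) := by ring
          _ ≤ β * (β * β ^ 1024) := by
              gcongr
              linarith [show (524288 : ℝ) ≤ 10 ^ 12 by norm_num]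
          _ = β ^ 1026 := by ring
          _ ≤ β ^ 5250 := pow_le_pow_right₀ hβ1 (by norm_num)
          _ = 1 * β ^ 5250 := (one_mul _).symm

private lemma parb_T4 {B w j : ℕ} {L D β s : ℝ} (hL12 : (10 : ℝ) ^ 12 ≤ L) (hβ : β ^ 64 = (B : ℝ))
    (hβL : L ^ (2 * w + 14) ≤ β) (hD0 : 0 < D) (hD : D ≤ 16 * β ^ 256) (hs0 : 0 ≤ s) (hsL : s ≤ L)
    (hsj : s ^ (2 * j) ≤ β) (hI : ((j + 1 : ℕ) : ℝ) ≤ 2 * L) :
    ((j + 1 : ℕ) : ℝ) * (2 * B * L * (72 * L ^ (2 * w + 9) * (6 / Real.sqrt B) ^ ((1 : ℝ) / 4) *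
      s ^ (2 * (j + 1))) ^ 350) ≤ 1 / (4 * D ^ 4) := by
  have hL1 : (1 : ℝ) ≤ L := le_trans (by norm_num) hL12
  have hL0 : 0 < L := by linarith
  have hLβ : L ≤ β := (le_self_pow₀ hL1 (by omega)).trans hβL
  have hβ1 : 1 ≤ β := hL1.trans hLβ
  have hβ0 : 0 < β := by linarith
  have hsq : Real.sqrt B = β ^ 32 := by
    rw [← hβ, show (64 : ℕ) = 32 * 2 from rfl, pow_mul, Real.sqrt_sq (by positivity)]
  have h1 : (6 / Real.sqrt B) ^ ((1 : ℝ) / 4) ≤ 6 / β ^ 8 := by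
    apply parb_root
    · positivity
    · positivity
    · rw [hsq, div_pow, ← pow_mul]
      norm_num only
      gcongr
      norm_num
  have h2 : s ^ (2 * (j + 1)) ≤ L ^ 2 * β := by
    calc s ^ (2 * (j + 1)) = s ^ 2 * s ^ (2 * j) := by rw [← pow_add]; congr 1; ring
      _ ≤ L ^ 2 * β := by gcongr
  have h3 : 72 * L ^ (2 * w + 9) * (6 / Real.sqrt B) ^ ((1 : ℝ) / 4) * s ^ (2 * (j + 1)) ≤ 1 / β ^ 6 := by
    calc 72 * L ^ (2 * w + 9) * (6 / Real.sqrt B) ^ ((1 : ℝ) / 4) * s ^ (2 * (j + 1))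
        ≤ 72 * L ^ (2 * w + 9) * (6 / β ^ 8) * (L ^ 2 * β) := by gcongr
      _ = (432 * L ^ (2 * w + 11)) * β / β ^ 8 := by
          rw [show 2 * w + 11 = (2 * w + 9) + 2 from rfl, pow_add]
          ring
      _ ≤ β * β / β ^ 8 := by
          gcongr
          calc 432 * L ^ (2 * w + 11) ≤ L ^ 3 * L ^ (2 * w + 11) := by
                gcongr
                have : L ≤ L ^ 3 := le_self_pow₀ hL1 (by norm_num)
                linarith [show (432 : ℝ) ≤ 10 ^ 12 by norm_num]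
            _ = L ^ (2 * w + 14) := by rw [← pow_add]; congr 1; ring
            _ ≤ β := hβL
      _ = 1 / β ^ 6 := by
          rw [div_eq_div_iff (by positivity) (by positivity)]
          ring
  have h0 : 0 ≤ 72 * L ^ (2 * w + 9) * (6 / Real.sqrt B) ^ ((1 : ℝ) / 4) * s ^ (2 * (j + 1)) := by positivity
  have h4 := pow_le_pow_left₀ h0 h3 350
  have hD4 : D ^ 4 ≤ 65536 * β ^ 1024 := by
    calc D ^ 4 ≤ (16 * β ^ 256) ^ 4 := pow_le_pow_left₀ hD0.le hD 4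
      _ = 65536 * β ^ 1024 := by rw [mul_pow, ← pow_mul]; norm_num
  have e5 : (1 / β ^ 6) ^ 350 = 1 / β ^ 2100 := by rw [div_pow, one_pow, ← pow_mul]
  calc ((j + 1 : ℕ) : ℝ) * (2 * B * L * (72 * L ^ (2 * w + 9) * (6 / Real.sqrt B) ^ ((1 : ℝ) / 4) *
      s ^ (2 * (j + 1))) ^ 350)
      ≤ (2 * L) * (2 * B * L * (1 / β ^ 6) ^ 350) := by
        have g1 : (0 : ℝ) ≤ 2 * B * L := by positivity
        have g2 : (0 : ℝ) ≤ (72 * L ^ (2 * w + 9) * (6 / Real.sqrt B) ^ ((1 : ℝ) / 4) *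
          s ^ (2 * (j + 1))) ^ 350 := pow_nonneg h0 350
        exact mul_le_mul hI (mul_le_mul_of_nonneg_left h4 g1) (mul_nonneg g1 g2) (by linarith)
    _ = 4 * L ^ 2 * B / β ^ 2100 := by
        rw [e5]
        ring
    _ = 4 * L ^ 2 * β ^ 64 / β ^ 2100 := by rw [hβ]
    _ ≤ 1 / (4 * D ^ 4) := by
        rw [div_le_div_iff₀ (by positivity) (by positivity)]
        calc 4 * L ^ 2 * β ^ 64 * (4 * D ^ 4) ≤ 4 * β ^ 2 * β ^ 64 * (4 * (65536 * β ^ 1024)) := by gcongr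
          _ = 1048576 * (β ^ 2 * β ^ 64 * β ^ 1024) := by ring
          _ = 1048576 * (β ^ 1090) := by rw [← pow_add, ← pow_add]
          _ ≤ β * (β ^ 1090) := by
              gcongr
              linarith [show (1048576 : ℝ) ≤ 10 ^ 12 by norm_num]
          _ = β ^ 1091 := (pow_succ' β 1090).symm
          _ ≤ β ^ 2100 := pow_le_pow_right₀ hβ1 (by norm_num)
          _ = 1 * β ^ 2100 := (one_mul _).symm

private lemma parb_B {L D r : ℝ} {q B : ℕ} (hL12 : (10 : ℝ) ^ 12 ≤ L) (hr0 : 0 ≤ r) (hr : r ^ 4 = D)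
    (hD : L ^ (256 * (q + 1)) ≤ D) (hrB : r < (B : ℝ) + 1) : (L ^ q) ^ 64 ≤ (B : ℝ) := by
  have hL1 : (1 : ℝ) ≤ L := le_trans (by norm_num) hL12
  have hL0 : 0 < L := by linarith
  have e1 : 256 * (q + 1) = (64 * (q + 1)) * 4 := by ring
  rw [e1, pow_mul, ← hr] at hD
  have hrL : L ^ (64 * (q + 1)) ≤ r := by
    have h0 : (0 : ℝ) ≤ L ^ (64 * (q + 1)) := by positivity
    generalize L ^ (64 * (q + 1)) = X at hD h0
    exact (pow_le_pow_iff_left₀ h0 hr0 (by norm_num)).1 hD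
  have e2 : 64 * (q + 1) = q * 64 + 64 := by ring
  rw [e2, pow_add, pow_mul] at hrL
  have h2 : (1 : ℝ) ≤ (L ^ q) ^ 64 := one_le_pow₀ (one_le_pow₀ hL1)
  have h3 : L ≤ L ^ 64 := le_self_pow₀ hL1 (by norm_num)
  have h4 : (2 : ℝ) ≤ L ^ 64 := by linarith [show (2 : ℝ) ≤ 10 ^ 12 by norm_num]
  have h5 : (L ^ q) ^ 64 * 2 ≤ (L ^ q) ^ 64 * L ^ 64 := mul_le_mul_of_nonneg_left h4 (by linarith)
  have h6 := h5.trans hrL
  clear h5 hrL e1 e2 hD h4 h3
  generalize (L ^ q) ^ 64 = X at h6 h2 ⊢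
  linarith

theorem par_small : ∃ (C0 N0 : ℕ), ∀ N : ℕ, N0 ≤ N → ∀ D : ℝ, LL N ^ C0 ≤ D → Real.log D ≤ Real.log (LL N) ^ 8 →
    D ≤ N → ∃ (B z k w I : ℕ) (η : ℝ), Par N D B z k w I η := by
  obtain ⟨N0, hN0⟩ := parb_event
  obtain ⟨w, hw⟩ : ∃ w : ℕ, w = 1400 ^ 2 := ⟨_, rfl⟩
  refine ⟨256 * (2 * w + 14 + 1), N0, fun N hN D hD hlD hDN => ?_⟩
  obtain ⟨hN1, h6, hp⟩ := hN0 N hN
  obtain ⟨u, hu⟩ : ∃ u, u = Real.log (LL N) := ⟨_, rfl⟩
  obtain ⟨L, hL⟩ : ∃ L, L = LL N := ⟨_, rfl⟩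
  rw [← hu] at h6 hp hlD
  rw [← hL] at hu hp hD
  have hu1 : (1 : ℝ) ≤ u := le_trans (by norm_num) h6
  have hL12 : (10 : ℝ) ^ 12 ≤ L := by
    calc (10 : ℝ) ^ 12 = (10 ^ 6) ^ 2 := by norm_num
      _ ≤ u ^ 2 := pow_le_pow_left₀ (by norm_num) h6 2
      _ ≤ L := parb_pow h6 hp (by norm_num)
  have hL1 : (1 : ℝ) ≤ L := le_trans (by norm_num) hL12
  have hL0 : 0 < L := by linarith
  have hexp : Real.exp u = L := by rw [hu, Real.exp_log hL0]
  have hNpos : 0 < (N : ℝ) := by exact_mod_cast hN1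
  have hLN : Real.log N = L - 1 := by rw [hL, LL]; ring
  have hLD : L ≤ D := (le_self_pow₀ hL1 (by omega)).trans hD
  have hL3D : L ^ 3 ≤ D := (pow_le_pow_right₀ hL1 (by omega)).trans hD
  have hD0 : 0 < D := by linarith
  have hDe : D ≤ Real.exp (u ^ 8) := by
    rw [← Real.log_le_iff_le_exp hD0]
    exact hlD
  have hlD1 : 1 ≤ Real.log D := by
    have : u ≤ Real.log D := by
      rw [hu]
      exact Real.log_le_log hL0 hLD
    linarith
  have hlDN : Real.log D ≤ L - 1 := by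
    rw [← hLN]
    exact Real.log_le_log hD0 hDN
  -- the root of D
  obtain ⟨r, hr0, hr⟩ := parb_exists_root 4 (by norm_num) hD0.le
  obtain ⟨B, hB⟩ : ∃ B, B = ⌊r⌋₊ := ⟨_, rfl⟩
  have hBr : (B : ℝ) ≤ r := by rw [hB]; exact Nat.floor_le hr0
  have hrB : r < B + 1 := by rw [hB]; exact Nat.lt_floor_add_one r
  have hQ : (L ^ (2 * w + 14)) ^ 64 ≤ (B : ℝ) := parb_B hL12 hr0 hr hD hrB
  obtain ⟨β, hβ0, hβ⟩ := parb_exists_root 64 (by norm_num) (Nat.cast_nonneg (α := ℝ) B)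
  have hβL : L ^ (2 * w + 14) ≤ β := by
    rw [← hβ] at hQ
    exact (pow_le_pow_iff_left₀ (by positivity) hβ0 (by norm_num)).1 hQ
  have hLβ : L ≤ β := (le_self_pow₀ hL1 (by omega)).trans hβL
  have hβ1 : 1 ≤ β := hL1.trans hLβ
  have hβB : β ≤ B := by rw [← hβ]; exact le_self_pow₀ hβ1 (by norm_num)
  have hB1 : (1 : ℝ) ≤ B := hβ1.trans hβB
  have hBL2 : L * L ≤ B := by
    rw [← hβ]
    calc L * L ≤ β * β := by gcongr
      _ = β ^ 2 := by ring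
      _ ≤ β ^ 64 := pow_le_pow_right₀ hβ1 (by norm_num)
  have hBpos : 0 < B := by
    have : (0 : ℝ) < B := by linarith
    exact_mod_cast this
  have hDβ : D ≤ 16 * β ^ 256 := by
    have h1 : r ≤ 2 * B := by linarith
    calc D = r ^ 4 := hr.symm
      _ ≤ (2 * B) ^ 4 := pow_le_pow_left₀ hr0 h1 4
      _ = 16 * β ^ 256 := by
        rw [mul_pow, ← hβ, ← pow_mul]
        norm_num
  have hBD : (B : ℝ) ^ 4 ≤ D := by
    rw [← hr]
    exact pow_le_pow_left₀ (Nat.cast_nonneg B) hBr 4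
  have hBN : (B : ℝ) ^ 8 ≤ N := by
    calc (B : ℝ) ^ 8 = ((B : ℝ) ^ 4) ^ 2 := by rw [← pow_mul]
      _ ≤ D ^ 2 := pow_le_pow_left₀ (by positivity) hBD 2
      _ ≤ Real.exp (u ^ 8) ^ 2 := pow_le_pow_left₀ hD0.le hDe 2
      _ = Real.exp (2 * u ^ 8) := by rw [← Real.exp_nat_mul]; norm_num
      _ ≤ Real.exp (L - 1) := by
        apply Real.exp_le_exp.2
        have h9 := parb_pow h6 hp (k := 9) (by norm_num)
        have p9 : u ^ 9 = u ^ 8 * u := pow_succ u 8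
        have q8 : (1 : ℝ) ≤ u ^ 8 := one_le_pow₀ hu1
        have : (3 : ℝ) ≤ u := le_trans (by norm_num) h6
        nlinarith
      _ = N := by rw [← hLN, Real.exp_log hNpos]
  have hblD : Real.log B ≤ Real.log D / 4 := by
    have h1 : Real.log D = 4 * Real.log r := by
      rw [← hr, Real.log_pow]
      norm_num
    have h2 : Real.log B ≤ Real.log r := Real.log_le_log (by linarith) hBr
    linarith
  have hb0 : 0 < Real.log B := by
    apply Real.log_pos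
    linarith [show (2 : ℝ) ≤ 10 ^ 12 by norm_num]
  have hb : Real.log B ≤ u ^ 8 / 4 := by linarith
  -- z
  obtain ⟨z, hz3, hzL, hz⟩ := parb_z h6 hp
  obtain ⟨j, hj⟩ : ∃ j, j = Nat.log z B := ⟨_, rfl⟩
  have hzj : z ^ j ≤ B := by rw [hj]; exact Nat.pow_log_le_self z hBpos.ne'
  have hzj' : B < z ^ (j + 1) := by rw [hj]; exact Nat.lt_pow_succ_log_self (by omega) B
  have hzjr : (z : ℝ) ^ j ≤ B := by exact_mod_cast hzj
  have hz3r : (3 : ℝ) ≤ z := by exact_mod_cast hz3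
  have hjb : (j : ℝ) ≤ Real.log B := by
    have h1 : Real.log ((z : ℝ) ^ j) ≤ Real.log B := Real.log_le_log (by positivity) hzjr
    rw [Real.log_pow] at h1
    have hl1 : 1 ≤ Real.log z := by
      rw [Real.le_log_iff_exp_le (by linarith)]
      linarith [Real.exp_one_lt_d9]
    have : (0 : ℝ) ≤ j := Nat.cast_nonneg j
    nlinarith
  have hI2 : ((j + 1 : ℕ) : ℝ) ≤ 2 * L := by
    push_cast
    linarith
  obtain ⟨s, hs⟩ : ∃ s, s = 10 * Real.log D := ⟨_, rfl⟩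
  have hs1 : 1 ≤ s := by linarith
  have hs0 : 0 ≤ s := by linarith
  have hsu : s ≤ 10 * u ^ 8 := by linarith
  have hsL : s ≤ L := by
    have h9 : 10 * u ^ 8 ≤ u ^ 9 := by
      rw [pow_succ u 8, mul_comm (u ^ 8)]
      have : (10 : ℝ) ≤ u := le_trans (by norm_num) h6
      have h8 : 0 ≤ u ^ 8 := by positivity
      nlinarith
    exact hsu.trans (h9.trans (parb_pow h6 hp (by norm_num)))
  have hsj : s ^ (2 * j) ≤ β := by
    have h1 : (s ^ (2 * j)) ^ 64 ≤ β ^ 64 := by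
      rw [hβ]
      calc (s ^ (2 * j)) ^ 64 = (s ^ 128) ^ j := by
            rw [← pow_mul, ← pow_mul]
            congr 1
            ring
        _ ≤ (z : ℝ) ^ j := by
            apply pow_le_pow_left₀ (by positivity)
            exact (pow_le_pow_left₀ hs0 hsu 128).trans hz
        _ ≤ B := hzjr
    exact (pow_le_pow_iff_left₀ (by positivity) hβ0 (by norm_num)).1 h1
  have hT2 : 2 * ((j + 1 : ℕ) : ℝ) ^ 2 / D ^ 5 ≤ 1 / (4 * D ^ 4) := by
    rw [div_le_div_iff₀ (by positivity) (by positivity)]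
    have h1 : ((j + 1 : ℕ) : ℝ) ^ 2 ≤ (2 * L) ^ 2 := pow_le_pow_left₀ (Nat.cast_nonneg _) hI2 2
    have h2 : 8 * ((j + 1 : ℕ) : ℝ) ^ 2 ≤ D := by
      have h3 : 32 * L ^ 2 ≤ L ^ 3 := by
        rw [pow_succ L 2, mul_comm (L ^ 2)]
        have : (32 : ℝ) ≤ L := by linarith [show (32 : ℝ) ≤ 10 ^ 12 by norm_num]
        gcongr
      nlinarith
    have h4 : (0 : ℝ) ≤ D ^ 4 := by positivity
    calc 2 * ((j + 1 : ℕ) : ℝ) ^ 2 * (4 * D ^ 4) = (8 * ((j + 1 : ℕ) : ℝ) ^ 2) * D ^ 4 := by ring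
      _ ≤ D * D ^ 4 := by gcongr
      _ = 1 * D ^ 5 := by ring
  have hT1 := parb_T1 hL.symm hNpos hLN hexp h6 hp hz3 hzL hD0 hDe
  have hT3 := parb_T3 (w := w) hL12 hβ hβL hD0 hDβ
  have hT4 := parb_T4 (w := w) hL12 hβ hβL hD0 hDβ hs0 hsL hsj hI2
  refine ⟨B, z, 350, w, j + 1, 1, ?_⟩
  refine
    { hD4 := ?_
      hDN := hDN
      hB36 := ?_
      hBL := ?_
      hBD := hBD
      hBN := hBN
      hz := by omega
      hk := by norm_num
      hη0 := by norm_num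
      hη1 := le_rfl
      hw := ?_
      hI := by omega
      hIz := hzj'.le
      hIL := ?_
      hni := ?_
      hfin := ?_ }
  · linarith [show (4 : ℝ) ≤ 10 ^ 12 by norm_num]
  · have : (36 : ℝ) ≤ B := by linarith [show (36 : ℝ) ≤ 10 ^ 12 by norm_num]
    exact_mod_cast this
  · rw [← hL]
    have : 128 * L ≤ L * L := by
      have : (128 : ℝ) ≤ L := by linarith [show (128 : ℝ) ≤ 10 ^ 12 by norm_num]
      gcongr
    linarith
  · have h1 : (4 * ((350 : ℕ) : ℝ)) ^ ((1 : ℝ) + 1) = (4 * ((350 : ℕ) : ℝ)) ^ 2 := by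
      rw [show (1 : ℝ) + 1 = ((2 : ℕ) : ℝ) by norm_num, Real.rpow_natCast]
    rw [h1, hw]
    push_cast
    norm_num
  · rw [← hL]
    exact hI2
  · intro i hi hij
    rw [← hL, ← hs]
    exact parb_hni hNpos hLN hexp h6 hp hs1 hsu hβ hLβ hBN hb0 hb hsj hi hij
  · rw [← hL, ← hs]
    have h1 : (1 : ℝ) / D ^ 4 = 1 / (4 * D ^ 4) + 1 / (4 * D ^ 4) + 1 / (4 * D ^ 4) + 1 / (4 * D ^ 4) := by
      have : D ^ 4 ≠ 0 := by positivity
      field_simp
      norm_num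
    rw [h1]
    exact add_le_add (add_le_add (add_le_add hT1 hT2) hT3) hT4

end Pool.Agent.Helper5.RM
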