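import Pool.Agent.Helper5.RM.IA
import Pool.Agent.Helper5.RM.Z7
import Pool.Agent.Helper5.RM.B8c
import Pool.Agent.Helper5.RM.B9b
import Pool.Agent.Helper5.RM.B10

/-!
# Block RM-POINT: the estimate at one frequency

Proof. `L = LL N`, `K = 5 log D ≤ 5 L`, `e^(-K) = D^(-5)`. `dec_SN`: `SN N T θ = S_< + S0 + ∑_{i=1}^I S_i`,
`S_< = ∑_{n < B}` of norm at most `B ≤ √N`, `S0 = ∑_{l ∈ LZ} rf * XX`, `S_i = ∑_{l ∈ LI N B z i} rf * XX`
(if `l ∈ LA`, `z < l.minFac` then `1 ≤ om l ≤ I`: the `om l - 1` primes of `l / l.minFac < B ≤ z^I` are all `> z`).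
Events: `N ≤ ‖S0‖^2` has probability at most `(E0/N)^k` (`szero`, `markov_pow`).
`i = 1`: `v1` and `iter` (with `κ = Unit` or `Fin 1`, `v0 = 4 N L`, `XX_pred`): outside probability `2 L (...)^k + 2 D^(-5)`,
`‖S_1‖^2 ≤ 2K * 4 N L ≤ 40 N L^2`. `2 ≤ i ≤ I`: `vi` with `t = (10 log D)^(-i)`, `ni_bound` and `hni` give `V_i ≤ 2 N (10 log D)^(-i)` outside
probability `2 B L (...)^k` (here `1/t^2 = (10 log D)^(2i) ≤ (10 log D)^(2I)`), and `iter` with `v0 = 2 N (10 log D)^(-i)`, `2K = 10 log D`: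
`‖S_i‖^2 ≤ 2 N` outside probability `2 i D^(-5)`. Sum of the `2 i D^(-5)`: at most `2 I^2 D^(-5)`. Total norm at most
`√N (1 + 1 + √40 L + √2 I) ≤ 12 √N L` as `I ≤ 2 L`, `L ≥ 1 + log 36^8`. Total probability: `hfin`.
-/

set_option autoImplicit false

namespace Pool.Agent.Helper5.RM

open Finset

/-- number of large primes of `l` -/
private lemma point_om {N B z I l : ℕ} (hB : 2 ≤ B) (hIz : B ≤ z ^ I)
    (hl : l ∈ LA N B) (hz : z < l.minFac) : 1 ≤ om l ∧ om l ≤ I := by
  unfold LA at hl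
  rw [Finset.mem_filter, Finset.mem_Icc] at hl
  obtain ⟨⟨h1, hN⟩, hsq, hBl, hlt⟩ := hl
  have hl1 : l ≠ 1 := by omega
  have hl0 : l ≠ 0 := by omega
  have hp : l.minFac.Prime := Nat.minFac_prime hl1
  have hmem : l.minFac ∈ l.primeFactors := Nat.mem_primeFactors.2 ⟨hp, Nat.minFac_dvd l, hl0⟩
  have hone : 1 ≤ om l := by
    unfold om
    exact Finset.card_pos.2 ⟨_, hmem⟩
  refine ⟨hone, ?_⟩
  have hprod : ∏ p ∈ l.primeFactors, p = l := Nat.prod_primeFactors_of_squarefree hsq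
  have hsplit : l.minFac * ∏ p ∈ l.primeFactors.erase l.minFac, p = l := by
    exact (Finset.mul_prod_erase l.primeFactors (fun p => p) hmem).trans hprod
  have hquot : l / l.minFac = ∏ p ∈ l.primeFactors.erase l.minFac, p :=
    Nat.div_eq_of_eq_mul_right hp.pos hsplit.symm
  have hge : z ^ (om l - 1) ≤ l / l.minFac := by
    rw [hquot]
    have hcard : (l.primeFactors.erase l.minFac).card = om l - 1 := by
      rw [Finset.card_erase_of_mem hmem]; rfl
    rw [← hcard]
    refine Finset.pow_card_le_prod _ _ _ ?_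
    intro p hpm
    have hp' := Finset.mem_of_mem_erase hpm
    have := Nat.minFac_le_of_dvd (Nat.prime_of_mem_primeFactors hp').two_le (Nat.dvd_of_mem_primeFactors hp')
    omega
  have hlt2 : z ^ (om l - 1) < z ^ I := lt_of_le_of_lt hge (lt_of_lt_of_le hlt hIz)
  by_contra hcon
  have hle : I ≤ om l - 1 := by omega
  have hz1 : 1 ≤ z := by
    by_contra h
    have hz0 : z = 0 := by omega
    subst hz0
    rcases Nat.eq_zero_or_pos I with hI | hI
    · subst hI; simp at hIz; omega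
    · rw [zero_pow (by omega)] at hIz; omega
  exact absurd (Nat.pow_le_pow_right hz1 hle) (not_le.2 hlt2)

/-- the sum over `LA` is split by the number of primes -/
private lemma point_split {N B z I : ℕ} (hB : 2 ≤ B) (hIz : B ≤ z ^ I) (F : ℕ → ℂ) :
    ∑ l ∈ LA N B, F l = ∑ l ∈ LZ N B z, F l + ∑ i ∈ Finset.Icc 1 I, ∑ l ∈ LI N B z i, F l := by
  rw [← Finset.sum_filter_add_sum_filter_not (LA N B) (fun l => l.minFac ≤ z)]
  congr 1
  rw [← Finset.sum_fiberwise_of_maps_to (g := om) (t := Finset.Icc 1 I)]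
  · refine Finset.sum_congr rfl fun i _ => Finset.sum_congr ?_ fun _ _ => rfl
    unfold LI
    rw [Finset.filter_filter]
    refine Finset.filter_congr fun l _ => ?_
    rw [not_le]
  · intro l hl
    rw [Finset.mem_filter, not_le] at hl
    rw [Finset.mem_Icc]
    exact point_om hB hIz hl.1 hl.2

/-- `iter` for one sum -/
private lemma point_iter (N B z i : ℕ) (θ K v0 : ℝ) (hK : 0 < K) (hv : 0 ≤ v0) :
    pr (PP N) (fun T => (2 * K) ^ i * v0 < ‖∑ l ∈ LI N B z i, (rf T l : ℂ) * XX N θ l T‖ ^ 2 ∧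
      ∑ l ∈ LI N B z i, ‖XX N θ l T‖ ^ 2 ≤ v0) ≤ 2 * i * Real.exp (-K) := by
  have h := iter (PP N) (fun p hp => (mem_PP.1 hp).1) K hK i Unit {()} (fun _ => LI N B z i)
    (fun _ l => XX N θ l) v0 hv ?_ ?_
  · simpa using h
  · intro _ _ l hl
    unfold LI LA at hl
    rw [Finset.mem_filter, Finset.mem_filter, Finset.mem_Icc] at hl
    exact ⟨hl.1.2.1, primeFactors_subset_PP hl.1.1.2, hl.2.2⟩
  · intro _ _ l _ p hp
    exact XX_pred N θ l p hp

private lemma point_exp {D : ℝ} (hD : 0 < D) : Real.exp (-(5 * Real.log D)) = 1 / D ^ 5 := by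
  rw [Real.exp_neg, show (5 : ℝ) * Real.log D = ((5 : ℕ) : ℝ) * Real.log D by norm_num, Real.exp_nat_mul,
    Real.exp_log hD, one_div]

theorem point (N : ℕ) (θ D : ℝ) (hF : Far N θ D) (B z k w I : ℕ) (η : ℝ) (hP : Par N D B z k w I η) :
    pr (PP N) (fun T => 12 * Real.sqrt N * LL N < ‖SN N T θ‖) ≤ 1 / D ^ 4 := by
  have hD4 := hP.hD4
  have hDN := hP.hDN
  have hD0 : (0 : ℝ) < D := by linarith
  have hN4 : (4 : ℝ) ≤ N := hD4.trans hDN
  have hN0 : (0 : ℝ) < N := by linarith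
  have hB2 : 2 ≤ B := by have := hP.hB36; omega
  have hB1 : (1 : ℝ) ≤ B := by exact_mod_cast (by omega : 1 ≤ B)
  have hlogD1 : 1 ≤ Real.log D := by
    rw [Real.le_log_iff_exp_le hD0]
    exact (Real.exp_one_lt_d9.le.trans (by norm_num)).trans hD4
  have hlogDN : Real.log D ≤ Real.log N := Real.log_le_log hD0 hDN
  have hL : LL N = 1 + Real.log N := rfl
  have hL1 : 1 ≤ LL N := by rw [hL]; linarith
  have hlogL : Real.log D ≤ LL N := by rw [hL]; linarith
  set L := LL N with hLdef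
  set lam : ℝ := 10 * Real.log D with hlam
  have hlam1 : 1 ≤ lam := by rw [hlam]; linarith
  have hlam0 : 0 < lam := by linarith
  have hK : (0 : ℝ) < 5 * Real.log D := by linarith
  have h2K : 2 * (5 * Real.log D) = lam := by rw [hlam]; ring
  set A1 : ℝ := 2 * L * (18 * L ^ (2 * w + 5) * (128 * L / B) ^ (η / 4)) ^ k with hA1
  set A2 : ℝ := 2 * B * L * (72 * L ^ (2 * w + 9) * (6 / Real.sqrt B) ^ (η / 4) * lam ^ (2 * I)) ^ k with hA2
  have hA10 : 0 ≤ A1 := by positivity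
  have hA20 : 0 ≤ A2 := by positivity
  set Sz : Finset ℕ → ℂ := fun T => ∑ l ∈ LZ N B z, (rf T l : ℂ) * XX N θ l T with hSz
  set Si : ℕ → Finset ℕ → ℂ := fun i T => ∑ l ∈ LI N B z i, (rf T l : ℂ) * XX N θ l T with hSi
  -- the event for `S0`
  have hE0 : pr (PP N) (fun T => (N : ℝ) ≤ ‖Sz T‖ ^ 2) ≤ (E0 N z (2 * k - 1) / N) ^ k := by
    have h := markov_pow (S := PP N) (F := fun T => ‖Sz T‖ ^ 2) (c := (N : ℝ)) (E := (E0 N z (2 * k - 1)) ^ k) k
      (fun T _ => by positivity) hN0 ?_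
    · rw [div_pow]; exact h
    · have h2 := szero N B z k hP.hk hB2 hP.hBN hP.hz θ
      refine le_trans (le_of_eq (av_congr fun T _ => ?_)) h2
      rw [← pow_mul]
  -- the events for `S_i`
  have hEi : ∀ i ∈ Finset.Icc 1 I,
      pr (PP N) (fun T => (if i = 1 then 40 * N * L ^ 2 else 2 * (N : ℝ)) < ‖Si i T‖ ^ 2) ≤
        (if i = 1 then A1 else 0) + A2 + 2 * I / D ^ 5 := by
    intro i hi
    rw [Finset.mem_Icc] at hi
    have hiI : (i : ℝ) ≤ I := by exact_mod_cast hi.2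
    have hexp : 2 * (i : ℝ) * Real.exp (-(5 * Real.log D)) ≤ 2 * I / D ^ 5 := by
      rw [point_exp hD0, mul_one_div]
      gcongr
    by_cases h1 : i = 1
    · subst h1
      rw [if_pos rfl, if_pos rfl]
      have ha := v1 N θ D hD4 hDN hF B z k w η hP.hB36 hP.hBL hP.hBD hP.hk hP.hη0 hP.hη1 hP.hw
      have hb := point_iter N B z 1 θ (5 * Real.log D) (4 * N * L) hK (by positivity)
      have hc := pr_le_add (S := PP N)
        (P := fun T => 40 * N * L ^ 2 < ‖Si 1 T‖ ^ 2)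
        (Q := fun T => 4 * N * LL N < ∑ l ∈ LI N B z 1, ‖XX N θ l T‖ ^ 2)
        (R := fun T => (2 * (5 * Real.log D)) ^ 1 * (4 * N * L) < ‖∑ l ∈ LI N B z 1, (rf T l : ℂ) * XX N θ l T‖ ^ 2 ∧
          ∑ l ∈ LI N B z 1, ‖XX N θ l T‖ ^ 2 ≤ 4 * N * L) ?_
      · have ha' : _ ≤ A1 := ha
        refine hc.trans ((add_le_add ha' (hb.trans hexp)).trans ?_)
        linarith
      · intro T _ hT
        by_cases hv : ∑ l ∈ LI N B z 1, ‖XX N θ l T‖ ^ 2 ≤ 4 * N * L
        · right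
          refine ⟨lt_of_le_of_lt ?_ hT, hv⟩
          rw [pow_one]
          have : Real.log D * (N * L) ≤ L * (N * L) := by gcongr
          nlinarith
        · left
          rw [not_le] at hv
          exact hv
    · have hi2 : 2 ≤ i := by omega
      rw [if_neg h1, if_neg h1]
      set t : ℝ := 1 / lam ^ i with ht
      have ht0 : 0 < t := by positivity
      have ha := vi N θ D hD4 hDN hF B z k w η hP.hB36 hP.hBD hP.hk hP.hη0 hP.hη1 hP.hw i hi2 t ht0
      have hb := point_iter N B z i θ (5 * Real.log D) (2 * (t * N)) hK (by positivity)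
      have hcard : ∑ l ∈ LI N B z i, ((MS N l).card : ℝ) ≤ t * N := by
        refine (ni_bound N B z i hi2 hB2 hP.hBN).trans ((hP.hni i hi2 hi.2).trans (le_of_eq ?_))
        rw [ht]; ring
      have hc := pr_le_add (S := PP N)
        (P := fun T => 2 * (N : ℝ) < ‖Si i T‖ ^ 2)
        (Q := fun T => ∑ l ∈ LI N B z i, ((MS N l).card : ℝ) + t * N < ∑ l ∈ LI N B z i, ‖XX N θ l T‖ ^ 2)
        (R := fun T => (2 * (5 * Real.log D)) ^ i * (2 * (t * N)) <
            ‖∑ l ∈ LI N B z i, (rf T l : ℂ) * XX N θ l T‖ ^ 2 ∧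
          ∑ l ∈ LI N B z i, ‖XX N θ l T‖ ^ 2 ≤ 2 * (t * N)) ?_
      · have hA2' : 2 * B * LL N * (72 * LL N ^ (2 * w + 9) * (6 / Real.sqrt B) ^ (η / 4) / t ^ 2) ^ k ≤ A2 := by
          rw [hA2, ← hLdef]
          have ht2 : 1 / t ^ 2 ≤ lam ^ (2 * I) := by
            rw [ht, div_pow, one_pow, one_div_one_div, ← pow_mul, mul_comm i 2]
            exact pow_le_pow_right₀ hlam1 (by omega)
          have h0 : 0 ≤ 72 * L ^ (2 * w + 9) * (6 / Real.sqrt B) ^ (η / 4) := by positivity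
          gcongr
          rw [div_eq_mul_one_div]
          exact mul_le_mul_of_nonneg_left ht2 h0
        refine hc.trans ((add_le_add (ha.trans hA2') (hb.trans hexp)).trans (le_of_eq ?_))
        ring
      · intro T _ hT
        by_cases hv : ∑ l ∈ LI N B z i, ‖XX N θ l T‖ ^ 2 ≤ 2 * (t * N)
        · right
          refine ⟨lt_of_le_of_lt (le_of_eq ?_) hT, hv⟩
          rw [h2K, ht]
          field_simp
        · left
          rw [not_le] at hv
          linarith
  -- union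
  have hU : pr (PP N) (fun T => ∃ i ∈ Finset.Icc 1 I,
      (if i = 1 then 40 * N * L ^ 2 else 2 * (N : ℝ)) < ‖Si i T‖ ^ 2) ≤ A1 + I * A2 + 2 * I ^ 2 / D ^ 5 := by
    refine (pr_exists _ _ _).trans ((Finset.sum_le_sum hEi).trans ?_)
    rw [Finset.sum_add_distrib, Finset.sum_add_distrib, Finset.sum_ite_eq', Finset.sum_const, Finset.sum_const,
      Nat.card_Icc, Nat.add_sub_cancel, nsmul_eq_mul, nsmul_eq_mul, if_pos (Finset.mem_Icc.2 ⟨le_rfl, hP.hI⟩)]
    have : (I : ℝ) * (2 * I / D ^ 5) = 2 * I ^ 2 / D ^ 5 := by ring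
    rw [this]
  -- the total
  refine (pr_le_add (Q := fun T => (N : ℝ) ≤ ‖Sz T‖ ^ 2) (R := fun T => ∃ i ∈ Finset.Icc 1 I,
      (if i = 1 then 40 * N * L ^ 2 else 2 * (N : ℝ)) < ‖Si i T‖ ^ 2) ?_).trans ?_
  · intro T _ hT
    by_contra hcon
    rw [not_or] at hcon
    obtain ⟨hc0, hci⟩ := hcon
    rw [not_le] at hc0
    have hci' : ∀ i ∈ Finset.Icc 1 I, ‖Si i T‖ ^ 2 ≤ (if i = 1 then 40 * N * L ^ 2 else 2 * (N : ℝ)) := by
      intro i hi
      by_contra hh
      exact hci ⟨i, hi, not_le.1 hh⟩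
    have hsN : 0 ≤ Real.sqrt N := Real.sqrt_nonneg _
    have hsq : Real.sqrt N ^ 2 = N := Real.sq_sqrt hN0.le
    have hdec := dec_SN N B hB2 T θ
    rw [point_split hB2 hP.hIz] at hdec
    have hless : ‖∑ n ∈ (Finset.Icc 1 N).filter (· < B), (rf T n : ℂ) * e (n * θ)‖ ≤ Real.sqrt N := by
      refine (norm_sum_le_of_le (n := fun _ => (1 : ℝ)) _ fun n _ => ?_).trans ?_
      · rw [norm_mul, norm_e, mul_one, Complex.norm_real, Real.norm_eq_abs]
        exact abs_rf_le T n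
      · rw [Finset.sum_const, nsmul_eq_mul, mul_one]
        have hcard : ((Finset.Icc 1 N).filter (· < B)).card ≤ B := by
          have hsub : (Finset.Icc 1 N).filter (· < B) ⊆ Finset.range B := by
            intro x hx
            rw [Finset.mem_filter] at hx
            exact Finset.mem_range.2 hx.2
          exact (Finset.card_le_card hsub).trans (by simp)
        refine le_trans (by exact_mod_cast hcard : _ ≤ (B : ℝ)) ?_
        refine Real.le_sqrt_of_sq_le (le_trans ?_ hP.hBN)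
        exact pow_le_pow_right₀ hB1 (by norm_num)
    have hz' : ‖Sz T‖ ≤ Real.sqrt N := Real.le_sqrt_of_sq_le hc0.le
    have hi' : ∀ i ∈ Finset.Icc 1 I, ‖Si i T‖ ≤ (if i = 1 then 6.4 * (Real.sqrt N * L) else 0) + 1.5 * Real.sqrt N := by
      intro i hi
      have := hci' i hi
      by_cases h1 : i = 1
      · rw [if_pos h1] at this ⊢
        refine le_trans (b := 6.4 * (Real.sqrt N * L)) (abs_le_of_sq_le_sq' ?_ (by positivity)).2 (by linarith)
        refine this.trans ?_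
        rw [mul_pow, mul_pow, hsq]
        have : 0 ≤ N * L ^ 2 := by positivity
        nlinarith
      · rw [if_neg h1] at this ⊢
        rw [zero_add]
        refine (abs_le_of_sq_le_sq' ?_ (by positivity)).2
        refine this.trans ?_
        rw [mul_pow, hsq]
        nlinarith
    have hsum : ‖∑ i ∈ Finset.Icc 1 I, Si i T‖ ≤ 6.4 * (Real.sqrt N * L) + I * (1.5 * Real.sqrt N) := by
      refine (norm_sum_le_of_le _ hi').trans ?_
      rw [Finset.sum_add_distrib, Finset.sum_ite_eq', if_pos (Finset.mem_Icc.2 ⟨le_rfl, hP.hI⟩), Finset.sum_const,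
        Nat.card_Icc, Nat.add_sub_cancel, nsmul_eq_mul]
    have hIL := hP.hIL
    have hIL' : (I : ℝ) * (1.5 * Real.sqrt N) ≤ 2 * L * (1.5 * Real.sqrt N) := by
      gcongr
    have htot : ‖SN N T θ‖ ≤ Real.sqrt N + (Real.sqrt N + (6.4 * (Real.sqrt N * L) + I * (1.5 * Real.sqrt N))) := by
      rw [hdec]
      refine (norm_add_le _ _).trans (add_le_add hless ((norm_add_le _ _).trans (add_le_add hz' hsum)))
    have hsL : Real.sqrt N ≤ Real.sqrt N * L := le_mul_of_one_le_right hsN hL1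
    nlinarith
  · refine (add_le_add hE0 hU).trans (le_trans (le_of_eq ?_) hP.hfin)
    ring

end Pool.Agent.Helper5.RM
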