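import Pool.Agent.Helper5.RM.POINT
import Pool.Agent.Helper5.RM.PARA
import Pool.Agent.Helper5.RM.PARB
import Pool.Agent.Helper5.RM.NET2
import Pool.Agent.Helper5.RM.NET3

/-!
# Block RM-UNIF: uniform estimate for one N

Proof. `C0` from `par_small`, `A = C0 + 1` (take `C0 ≥ 1`). Outside the union over `j < N` of the events `√N L^(C0+1) < ‖SN N T (j/N)‖` the bound holds by `interp`
(with `c n = rf T n`; `3 + log N ≤ 3 L`). For `j` with `DD N (j/N) ≥ L^C0`: `point` with `D = DD N (j/N)` (`DD_far`, `DD_le`), parameters from `par_large` or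
`par_small`, probability at most `DD^(-4)` (`12 √N L ≤ √N L^(C0+1)` for large `N`), sum at most `16 L^(-2 C0)` (`DD_sum`). For the others, at most `3 L^(2 C0)` many
(`DD_count`), `second` and Markov give probability at most `N / (N L^(2C0+2)) = L^(-2C0-2)`, sum at most `3 L^(-2)`. Total at most `19 L^(-2)`.
-/

set_option autoImplicit false

namespace Pool.Agent.Helper5.RM

open Finset

private lemma unif_LL : ∃ N1 : ℕ, 1 ≤ N1 ∧ ∀ N : ℕ, N1 ≤ N → 12 ≤ LL N := by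
  refine ⟨⌈Real.exp 11⌉₊ + 1, by omega, fun N hN => ?_⟩
  have h1 : Real.exp 11 ≤ N := (Nat.le_ceil _).trans (by exact_mod_cast (by omega : ⌈Real.exp 11⌉₊ ≤ N))
  have h2 : (11 : ℝ) ≤ Real.log N := by
    rw [Real.le_log_iff_exp_le (lt_of_lt_of_le (Real.exp_pos _) h1)]
    exact h1
  unfold LL
  linarith

theorem unif : ∃ (A N0 : ℕ), ∀ N : ℕ, N0 ≤ N →
    pr (PP N) (fun T => ∃ (N' : ℕ) (x : ℝ), N' ≤ N ∧ 3 * Real.sqrt N * LL N ^ A < ‖SN N' T x‖) ≤
      19 / LL N ^ 2 := by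
  classical
  obtain ⟨C0, Ns, hs⟩ := par_small
  obtain ⟨Nl, hl⟩ := par_large
  obtain ⟨N1, hN11, hN1⟩ := unif_LL
  refine ⟨C0 + 3, max (max Ns Nl) N1, fun N hN => ?_⟩
  have hNs : Ns ≤ N := (le_max_left _ _).trans ((le_max_left _ _).trans hN)
  have hNl : Nl ≤ N := (le_max_right _ _).trans ((le_max_left _ _).trans hN)
  have hNN : N1 ≤ N := (le_max_right _ _).trans hN
  have hN1' : 1 ≤ N := hN11.trans hNN
  have hL12 := hN1 N hNN
  have hL1 : (1 : ℝ) ≤ LL N := by linarith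
  have hL0 : (0 : ℝ) < LL N := by linarith
  have hN0 : (0 : ℝ) < N := by exact_mod_cast hN1'
  have hsN : 0 < Real.sqrt N := Real.sqrt_pos.2 hN0
  set L := LL N with hL
  set M : ℝ := Real.sqrt N * L ^ (C0 + 2) with hM
  have hM0 : 0 < M := by positivity
  -- the net
  have hstep : pr (PP N) (fun T => ∃ (N' : ℕ) (x : ℝ), N' ≤ N ∧ 3 * Real.sqrt N * L ^ (C0 + 3) < ‖SN N' T x‖) ≤
      pr (PP N) (fun T => ∃ j ∈ Finset.range N, M < ‖SN N T ((j : ℝ) / N)‖) := by
    refine pr_mono fun T _ hT => ?_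
    obtain ⟨N', x, hN', hx⟩ := hT
    by_contra hcon
    push Not at hcon
    have h1 := interp N hN1' (fun n => (rf T n : ℂ)) M (fun j hj => hcon j hj) N' hN' x
    have h2 : ‖SN N' T x‖ ≤ (3 + Real.log N) * M := h1
    have h3 : (3 + Real.log N) ≤ 3 * L := by
      have h4 : Real.log N = L - 1 := by rw [hL]; unfold LL; ring
      rw [h4]; linarith
    have h5 : (3 + Real.log N) * M ≤ 3 * L * M := mul_le_mul_of_nonneg_right h3 hM0.le
    have h6 : 3 * L * M = 3 * Real.sqrt N * L ^ (C0 + 3) := by rw [hM]; ring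
    linarith
  refine hstep.trans ((pr_exists (PP N) (Finset.range N) (fun j T => M < ‖SN N T ((j : ℝ) / N)‖)).trans ?_)
  -- the split
  set Y : ℝ := L ^ (C0 + 1) with hY
  have hY1 : 1 ≤ Y := one_le_pow₀ hL1
  have hY0 : 0 < Y := by linarith
  have hfar : ∀ j ∈ (Finset.range N).filter (fun j : ℕ => Y ≤ DD N ((j : ℝ) / N)),
      pr (PP N) (fun T => M < ‖SN N T ((j : ℝ) / N)‖) ≤ 1 / (DD N ((j : ℝ) / N)) ^ 4 := by
    intro j hj
    have hYj : Y ≤ DD N ((j : ℝ) / N) := (Finset.mem_filter.1 hj).2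
    have hD1 := DD_ge_one N hN1' ((j : ℝ) / N)
    have hDN := DD_le N hN1' j
    have hF := DD_far N hN1' j
    have hpar : ∃ (B z k w I : ℕ) (η : ℝ), Par N (DD N ((j : ℝ) / N)) B z k w I η := by
      rcases le_total (Real.log (LL N) ^ 8) (Real.log (DD N ((j : ℝ) / N))) with h | h
      · exact hl N hNl _ h hD1 hDN
      · refine hs N hNs _ ?_ h hDN
        refine le_trans ?_ hYj
        rw [hY]
        exact pow_le_pow_right₀ hL1 (by omega)
    obtain ⟨B, z, k, w, I, η, hP⟩ := hpar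
    refine le_trans (pr_mono fun T _ hT => ?_) (point N ((j : ℝ) / N) _ hF B z k w I η hP)
    refine lt_of_le_of_lt ?_ hT
    rw [hM]
    have h1 : 12 * L ≤ L ^ (C0 + 2) := by
      have h2 : L ^ 2 ≤ L ^ (C0 + 2) := pow_le_pow_right₀ hL1 (by omega)
      nlinarith
    calc 12 * Real.sqrt N * LL N = Real.sqrt N * (12 * L) := by rw [hL]; ring
      _ ≤ Real.sqrt N * L ^ (C0 + 2) := mul_le_mul_of_nonneg_left h1 hsN.le
  have hnear : ∀ j ∈ (Finset.range N).filter (fun j : ℕ => ¬ Y ≤ DD N ((j : ℝ) / N)),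
      pr (PP N) (fun T => M < ‖SN N T ((j : ℝ) / N)‖) ≤ 1 / L ^ (2 * C0 + 4) := by
    intro j _
    have h1 := markov (S := PP N) (F := fun T => ‖SN N T ((j : ℝ) / N)‖ ^ 2) (c := M ^ 2) (E := (N : ℝ))
      (fun T _ => by positivity) (by positivity) (second N ((j : ℝ) / N))
    refine le_trans (pr_mono fun T _ hT => ?_) (h1.trans (le_of_eq ?_))
    · exact pow_le_pow_left₀ hM0.le hT.le 2
    · rw [hM, mul_pow, Real.sq_sqrt hN0.le, ← pow_mul, show (C0 + 2) * 2 = 2 * C0 + 4 by ring]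
      field_simp
  have hcount : (((Finset.range N).filter (fun j : ℕ => ¬ Y ≤ DD N ((j : ℝ) / N))).card : ℝ) ≤ 3 * Y ^ 2 := by
    have h1 := DD_count N hN1' Y hY1
    have h2 : (Finset.range N).filter (fun j : ℕ => ¬ Y ≤ DD N ((j : ℝ) / N)) =
        (Finset.range N).filter (fun j : ℕ => DD N ((j : ℝ) / N) < Y) := by
      refine Finset.filter_congr fun j _ => ?_
      exact not_le
    rw [h2]
    exact h1
  rw [← Finset.sum_filter_add_sum_filter_not (Finset.range N) (fun j : ℕ => Y ≤ DD N ((j : ℝ) / N))]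
  have hA : ∑ j ∈ (Finset.range N).filter (fun j : ℕ => Y ≤ DD N ((j : ℝ) / N)),
      pr (PP N) (fun T => M < ‖SN N T ((j : ℝ) / N)‖) ≤ 16 / L ^ 2 := by
    refine (Finset.sum_le_sum hfar).trans ((DD_sum N hN1' Y hY1).trans ?_)
    have h1 : L ^ 2 ≤ Y ^ 2 := by
      refine pow_le_pow_left₀ hL0.le ?_ 2
      rw [hY]
      calc L = L ^ 1 := (pow_one L).symm
        _ ≤ L ^ (C0 + 1) := pow_le_pow_right₀ hL1 (by omega)
    exact div_le_div_of_nonneg_left (by norm_num) (by positivity) h1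
  have hB : ∑ j ∈ (Finset.range N).filter (fun j : ℕ => ¬ Y ≤ DD N ((j : ℝ) / N)),
      pr (PP N) (fun T => M < ‖SN N T ((j : ℝ) / N)‖) ≤ 3 / L ^ 2 := by
    refine (Finset.sum_le_sum hnear).trans ?_
    rw [Finset.sum_const, nsmul_eq_mul]
    have h1 : 3 * Y ^ 2 * (1 / L ^ (2 * C0 + 4)) = 3 / L ^ 2 := by
      rw [hY, ← pow_mul, show 2 * C0 + 4 = (C0 + 1) * 2 + 2 by ring, pow_add]
      have h2 : L ^ ((C0 + 1) * 2) ≠ 0 := by positivity
      have h3 : L ^ 2 ≠ 0 := by positivity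
      field_simp
    rw [← h1]
    exact mul_le_mul_of_nonneg_right hcount (by positivity)
  have h19 : (16 : ℝ) / L ^ 2 + 3 / L ^ 2 = 19 / L ^ 2 := by ring
  calc _ ≤ 16 / L ^ 2 + 3 / L ^ 2 := add_le_add hA hB
    _ = 19 / L ^ 2 := h19

end Pool.Agent.Helper5.RM
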