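import Pool.Agent.Helper5.RM.GEO

/-!
# Block RM-VL: Vinogradov's lemma

Proof. Split `[1, J]` into at most `J/q + 1` blocks of at most `q` consecutive `j = j0 + r`, `0 ≤ r < q`. Then
`j θ = j0 θ + r a / q + r δ`, `|r δ| ≤ 1/q`. Write `j0 θ = (b + f)/q` with `b` an integer, `0 ≤ f < 1`. The numbers
`r a + b` are distinct mod `q`; for `t = (r a + b) mod q ∈ [0, q-1]`: `nd ((t + f)/q) ≥ min t (q-1-t) / q`, so
`nd (j θ) ≥ (min t (q-1-t) - 1) / q` (`nd_sub_le`). At most 4 values of `t` have `min t (q-1-t) ≤ 1` (bound `M` each), for the others with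
`u = min t (q-1-t) - 1 ≥ 1` the term is at most `q / (2u)` and each `u ≤ q` occurs at most twice. So each block contributes
at most `4 M + q (1 + log q)`.
-/

set_option autoImplicit false

namespace Pool.Agent.Helper5.RM

open Finset

private lemma VL_nd_ge (z c : ℝ) (h1 : c ≤ z) (h2 : c ≤ 1 - z) : c ≤ nd z := by
  unfold nd
  rcases le_or_gt (round z) 0 with h | h
  · have : (round z : ℝ) ≤ 0 := by exact_mod_cast h
    exact le_trans (by linarith) (le_abs_self _)
  · have : (1 : ℝ) ≤ (round z : ℝ) := by exact_mod_cast h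
    rw [abs_sub_comm]
    exact le_trans (by linarith) (le_abs_self _)

/-- majorant function -/
private noncomputable def VL_h (M : ℝ) (q : ℕ) (s : ℕ) : ℝ :=
  if s ≤ 1 then M else (q : ℝ) / (2 * ((s : ℝ) - 1))

private lemma VL_h_nonneg (M : ℝ) (hM : 0 ≤ M) (q s : ℕ) : 0 ≤ VL_h M q s := by
  unfold VL_h
  split_ifs with h
  · exact hM
  · have : (2 : ℝ) ≤ s := by exact_mod_cast (by omega : 2 ≤ s)
    apply div_nonneg (Nat.cast_nonneg _)
    nlinarith

private lemma VL_h_sum (M : ℝ) (hM : 0 ≤ M) (q : ℕ) :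
    ∑ s ∈ range q, VL_h M q s ≤ 2 * M + (q : ℝ) / 2 * (1 + Real.log q) := by
  calc ∑ s ∈ range q, VL_h M q s ≤ ∑ s ∈ range (2 + q), VL_h M q s := by
        apply Finset.sum_le_sum_of_subset_of_nonneg
        · intro s hs
          simp only [Finset.mem_range] at hs ⊢
          omega
        · intro s _ _
          exact VL_h_nonneg M hM q s
    _ = 2 * M + (q : ℝ) / 2 * ((harmonic q : ℚ) : ℝ) := by
        rw [Finset.sum_range_add]
        congr 1
        · rw [Finset.sum_range_succ, Finset.sum_range_one]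
          simp [VL_h]
          ring
        · unfold harmonic
          push_cast
          rw [Finset.mul_sum]
          apply Finset.sum_congr rfl
          intro s _
          have h2 : ¬ (2 + s ≤ 1) := by omega
          have h3 : ((s : ℝ) + 1) ≠ 0 := by positivity
          simp only [VL_h, h2, if_false]
          push_cast
          have h4 : (2 : ℝ) + s - 1 = s + 1 := by ring
          rw [h4]
          field_simp
    _ ≤ _ := by
        have := harmonic_le_one_add_log q
        have hq : (0 : ℝ) ≤ (q : ℝ) / 2 := by positivity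
        nlinarith [mul_le_mul_of_nonneg_left this hq]

private lemma VL_point (θ : ℝ) (a : ℤ) (q : ℕ) (hq : 1 ≤ q)
    (h : |θ - a / q| ≤ 1 / (q : ℝ) ^ 2) (M : ℝ) (hM : 0 ≤ M) (j0 r t : ℕ) (hr : r < q)
    (htq : t < q) (ht : (t : ℤ) = (⌊(q : ℝ) * (j0 * θ)⌋ + r * a) % q) :
    mn M (((j0 + r : ℕ) : ℝ) * θ) ≤ VL_h M q t + VL_h M q (q - 1 - t) := by
  have hq0 : (0 : ℝ) < q := by exact_mod_cast hq
  set b : ℤ := ⌊(q : ℝ) * (j0 * θ)⌋ with hb
  set f : ℝ := Int.fract ((q : ℝ) * (j0 * θ)) with hf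
  have hbf : (b : ℝ) + f = (q : ℝ) * (j0 * θ) := Int.floor_add_fract _
  have hf0 : 0 ≤ f := Int.fract_nonneg _
  have hf1 : f < 1 := Int.fract_lt_one _
  set m : ℤ := (b + r * a) / q with hm
  have hdiv : (b + r * a : ℤ) = t + q * m := by
    rw [ht, hm]
    exact (Int.emod_add_mul_ediv _ _).symm
  have hdivR : (b : ℝ) + r * a = t + q * m := by exact_mod_cast hdiv
  have hy : ((t : ℝ) + f) / q + m = j0 * θ + r * (a / q) := by
    field_simp
    have : (t : ℝ) = b + r * a - q * m := by linarith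
    rw [this]
    have e1 : (b : ℝ) = (q : ℝ) * (j0 * θ) - f := by linarith
    rw [e1]
    ring
  have hdist : |(((t : ℝ) + f) / q + m) - ((j0 + r : ℕ) : ℝ) * θ| ≤ 1 / q := by
    rw [hy]
    have e1 : (j0 : ℝ) * θ + r * (a / q) - ((j0 + r : ℕ) : ℝ) * θ = - (r * (θ - a / q)) := by
      push_cast; ring
    rw [e1, abs_neg, abs_mul, abs_of_nonneg (Nat.cast_nonneg r)]
    calc (r : ℝ) * |θ - a / q| ≤ q * (1 / (q : ℝ) ^ 2) := by
          apply mul_le_mul _ h (abs_nonneg _) hq0.le
          exact_mod_cast hr.le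
      _ = 1 / q := by field_simp
  set v : ℕ := min t (q - 1 - t) with hv
  have hnd : (v : ℝ) / q ≤ nd (((t : ℝ) + f) / q) := by
    apply VL_nd_ge
    · apply div_le_div_of_nonneg_right _ hq0.le
      have : (v : ℝ) ≤ t := by exact_mod_cast (min_le_left _ _)
      linarith
    · rw [le_sub_iff_add_le, ← add_div, div_le_one hq0]
      have : (v : ℝ) + 1 + t ≤ q := by
        have h1 : v ≤ q - 1 - t := min_le_right _ _
        exact_mod_cast (by omega : v + 1 + t ≤ q)
      linarith
  have hkey : ((v : ℝ) - 1) / q ≤ nd (((j0 + r : ℕ) : ℝ) * θ) := by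
    have h1 := nd_sub_le (((t : ℝ) + f) / q + m) (((j0 + r : ℕ) : ℝ) * θ)
    rw [nd_add_int] at h1
    have h2 : ((v : ℝ) - 1) / q = v / q - 1 / q := by ring
    rw [h2]
    linarith
  have hpos1 := VL_h_nonneg M hM q t
  have hpos2 := VL_h_nonneg M hM q (q - 1 - t)
  have hmain : mn M (((j0 + r : ℕ) : ℝ) * θ) ≤ VL_h M q v := by
    unfold VL_h
    split_ifs with h1
    · exact mn_le _
    · have hv2 : (2 : ℝ) ≤ v := by exact_mod_cast (by omega : 2 ≤ v)
      have hc : (0 : ℝ) < ((v : ℝ) - 1) / q := div_pos (by linarith) hq0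
      refine le_trans (mn_le_of_nd hc hkey) (le_of_eq ?_)
      have : (v : ℝ) - 1 ≠ 0 := by intro h0; linarith
      field_simp
  rcases min_choice t (q - 1 - t) with h1 | h1
  · rw [← hv] at h1
    rw [h1] at hmain
    linarith
  · rw [← hv] at h1
    rw [h1] at hmain
    linarith

private lemma VL_block (θ : ℝ) (a : ℤ) (q : ℕ) (hq : 1 ≤ q) (hco : IsCoprime a (q : ℤ))
    (h : |θ - a / q| ≤ 1 / (q : ℝ) ^ 2) (M : ℝ) (hM : 0 ≤ M) (j0 : ℕ) :
    ∑ r ∈ range q, mn M (((j0 + r : ℕ) : ℝ) * θ) ≤ 4 * M + q * (1 + Real.log q) := by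
  have hqz : (0 : ℤ) < q := by exact_mod_cast hq
  set b : ℤ := ⌊(q : ℝ) * (j0 * θ)⌋ with hb
  let T : ℕ → ℕ := fun r => ((b + r * a) % (q : ℤ)).toNat
  have hTc : ∀ r, ((T r : ℕ) : ℤ) = (b + r * a) % q := by
    intro r
    exact Int.toNat_of_nonneg (Int.emod_nonneg _ hqz.ne')
  have hTq : ∀ r, T r < q := by
    intro r
    have h1 := Int.emod_lt_of_pos (b + r * a) hqz
    have h2 := hTc r
    have : ((T r : ℕ) : ℤ) < q := by rw [h2]; exact h1
    exact_mod_cast this
  have hinj : Set.InjOn T (range q : Set ℕ) := by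
    intro r hr s hs hrs
    simp only [Finset.coe_range, Set.mem_Iio] at hr hs
    have h1 : (b + r * a) % (q : ℤ) = (b + s * a) % q := by
      rw [← hTc r, ← hTc s, hrs]
    have h2 : (q : ℤ) ∣ (b + r * a) - (b + s * a) := by
      exact Int.ModEq.dvd (show (b + s * a) ≡ (b + r * a) [ZMOD q] from h1.symm)
    have h3 : (b + r * a) - (b + s * a) = ((r : ℤ) - s) * a := by ring
    rw [h3] at h2
    have h4 : (q : ℤ) ∣ (r : ℤ) - s := by
      exact hco.symm.dvd_of_dvd_mul_right h2
    have h5 : (r : ℤ) - s = 0 := by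
      apply Int.eq_zero_of_abs_lt_dvd h4
      rw [abs_lt]
      constructor <;> omega
    omega
  have hG : ∀ t, 0 ≤ VL_h M q t + VL_h M q (q - 1 - t) := fun t =>
    add_nonneg (VL_h_nonneg M hM q _) (VL_h_nonneg M hM q _)
  calc ∑ r ∈ range q, mn M (((j0 + r : ℕ) : ℝ) * θ)
      ≤ ∑ r ∈ range q, (VL_h M q (T r) + VL_h M q (q - 1 - T r)) := by
        apply Finset.sum_le_sum
        intro r hr
        exact VL_point θ a q hq h M hM j0 r (T r) (Finset.mem_range.1 hr) (hTq r) (hTc r)
    _ = ∑ t ∈ (range q).image T, (VL_h M q t + VL_h M q (q - 1 - t)) := by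
        rw [Finset.sum_image hinj]
    _ ≤ ∑ t ∈ range q, (VL_h M q t + VL_h M q (q - 1 - t)) := by
        apply Finset.sum_le_sum_of_subset_of_nonneg
        · intro t ht
          rw [Finset.mem_image] at ht
          obtain ⟨r, _, rfl⟩ := ht
          exact Finset.mem_range.2 (hTq r)
        · intro t _ _
          exact hG t
    _ = 2 * ∑ t ∈ range q, VL_h M q t := by
        rw [Finset.sum_add_distrib, Finset.sum_range_reflect (fun t => VL_h M q t) q]
        ring
    _ ≤ 4 * M + q * (1 + Real.log q) := by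
        have := VL_h_sum M hM q
        linarith

theorem vino (θ : ℝ) (a : ℤ) (q : ℕ) (hq : 1 ≤ q) (hco : IsCoprime a (q : ℤ))
    (h : |θ - a / q| ≤ 1 / (q : ℝ) ^ 2) (M : ℝ) (hM : 0 ≤ M) (J : ℕ) :
    ∑ j ∈ Finset.Icc 1 J, mn M (j * θ) ≤ 4 * ((J : ℝ) / q + 1) * (M + q * (1 + Real.log q)) := by
  have hq0 : (0 : ℝ) < q := by exact_mod_cast hq
  have hlog : 0 ≤ Real.log q := Real.log_natCast_nonneg q
  have hblocks : ∀ K : ℕ, ∑ j ∈ range (q * K), mn M (((1 + j : ℕ) : ℝ) * θ) ≤
      K * (4 * M + q * (1 + Real.log q)) := by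
    intro K
    induction K with
    | zero => simp
    | succ K ih =>
      rw [Nat.mul_succ, Finset.sum_range_add]
      have h1 := VL_block θ a q hq hco h M hM (1 + q * K)
      have h2 : ∑ x ∈ range q, mn M (((1 + (q * K + x) : ℕ) : ℝ) * θ) =
          ∑ r ∈ range q, mn M (((1 + q * K + r : ℕ) : ℝ) * θ) := by
        apply Finset.sum_congr rfl
        intro r _
        rw [Nat.add_assoc]
      rw [h2]
      push_cast at *
      nlinarith
  have hJ : J ≤ q * (J / q + 1) := by
    have h1 := Nat.div_add_mod J q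
    have h2 := Nat.mod_lt J (by omega : 0 < q)
    rw [Nat.mul_add, Nat.mul_one]
    omega
  have e1 : ∑ j ∈ Finset.Icc 1 J, mn M ((j : ℝ) * θ) =
      ∑ j ∈ range J, mn M (((1 + j : ℕ) : ℝ) * θ) := by
    have h0 : Finset.Icc 1 J = Finset.Ico 1 (J + 1) := by
      ext x
      simp only [Finset.mem_Icc, Finset.mem_Ico]
      omega
    rw [h0, Finset.sum_Ico_eq_sum_range, Nat.add_sub_cancel]
  rw [e1]
  calc ∑ j ∈ range J, mn M (((1 + j : ℕ) : ℝ) * θ)
      ≤ ∑ j ∈ range (q * (J / q + 1)), mn M (((1 + j : ℕ) : ℝ) * θ) := by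
        apply Finset.sum_le_sum_of_subset_of_nonneg
        · intro s hs
          simp only [Finset.mem_range] at hs ⊢
          omega
        · intro s _ _
          exact mn_nonneg hM _
    _ ≤ ((J / q + 1 : ℕ) : ℝ) * (4 * M + q * (1 + Real.log q)) := hblocks _
    _ ≤ ((J : ℝ) / q + 1) * (4 * (M + q * (1 + Real.log q))) := by
        apply mul_le_mul
        · push_cast
          have : ((J / q : ℕ) : ℝ) ≤ (J : ℝ) / q := Nat.cast_div_le
          linarith
        · have : 0 ≤ (q : ℝ) * (1 + Real.log q) := by positivity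
          linarith
        · have : 0 ≤ (q : ℝ) * (1 + Real.log q) := by positivity
          linarith
        · positivity
    _ = _ := by ring

end Pool.Agent.Helper5.RM
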